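import Pool.Agent.H817.PL.Stm

/-! ACCUMULATION: the normalised matrices `Y g` accumulate exactly at the limit set. -/

set_option autoImplicit false

namespace Pool.Agent.H817.PL

open Set Filter Topology Module Matrix

section AccAux

variable {G : Type} [Group G]

/-- column `0` of `ρ g` -/
def acc_c (ρ : G →* M3) (g : G) : V3 := fun i => ρ g i 0

/-- row `2` of `ρ g⁻¹` -/
def acc_r (ρ : G →* M3) (g : G) : V3 := fun j => ρ g⁻¹ 2 j

theorem acc_mul_c (ρ : G →* M3) (g h : G) : ρ g *ᵥ acc_c ρ h = acc_c ρ (g * h) := by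
  funext i
  unfold acc_c
  rw [map_mul, Matrix.mul_apply]
  rfl

theorem acc_mul_r (ρ : G →* M3) (g h : G) : acc_r ρ h ᵥ* ρ g⁻¹ = acc_r ρ (g * h) := by
  funext j
  unfold acc_r
  rw [_root_.mul_inv_rev, map_mul, Matrix.mul_apply]
  rfl

theorem acc_c_ne (ρ : G →* M3) (g : G) : acc_c ρ g ≠ 0 := by
  intro h
  have h1 := acc_mul_c ρ g⁻¹ g
  rw [h, mulVec_zero, inv_mul_cancel] at h1
  have h2 := congrFun h1 0
  unfold acc_c at h2
  rw [map_one] at h2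
  simp at h2

theorem acc_r_ne (ρ : G →* M3) (g : G) : acc_r ρ g ≠ 0 := by
  intro h
  have h1 := acc_mul_r ρ g⁻¹ g
  rw [h, zero_vecMul, inv_mul_cancel] at h1
  have h2 := congrFun h1 2
  unfold acc_r at h2
  rw [inv_one, map_one] at h2
  simp at h2

theorem acc_vm_mul (a ξ v : V3) : vecMulVec a ξ *ᵥ v = (ξ ⬝ᵥ v) • a := by
  funext i
  simp only [mulVec, dotProduct, vecMulVec_apply, Pi.smul_apply, smul_eq_mul, Finset.sum_mul]
  exact Finset.sum_congr rfl fun j _ => by ring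

theorem acc_mul_vm (b ψ v : V3) : v ᵥ* vecMulVec b ψ = (v ⬝ᵥ b) • ψ := by
  funext i
  simp only [vecMul, dotProduct, vecMulVec_apply, Pi.smul_apply, smul_eq_mul, Finset.sum_mul]
  exact Finset.sum_congr rfl fun j _ => by ring

/-! tensors -/

theorem acc_tens_smul (x y : ℝ) (u v : V3) : tens (x • u, y • v) = (x * y) • tens (u, v) := by
  funext i j
  simp only [tens, Pi.smul_apply, smul_eq_mul]
  ring

theorem acc_tens_cont : Continuous tens := by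
  refine continuous_pi fun i => continuous_pi fun j => ?_
  exact ((continuous_apply i).comp continuous_fst).mul ((continuous_apply j).comp continuous_snd)

theorem acc_tens_norm (u v : V3) : ‖tens (u, v)‖ = ‖u‖ * ‖v‖ := by
  refine le_antisymm ?_ ?_
  · refine (pi_norm_le_iff_of_nonneg (by positivity)).2 fun i => ?_
    refine (pi_norm_le_iff_of_nonneg (by positivity)).2 fun j => ?_
    show ‖u i * v j‖ ≤ _
    rw [norm_mul]
    exact mul_le_mul (norm_le_pi_norm u i) (norm_le_pi_norm v j) (norm_nonneg _) (norm_nonneg _)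
  · have h1 : ∀ i j, ‖u i‖ * ‖v j‖ ≤ ‖tens (u, v)‖ := by
      intro i j
      have h2 : ‖tens (u, v) i j‖ ≤ ‖tens (u, v) i‖ := norm_le_pi_norm (tens (u, v) i) j
      have h3 : ‖tens (u, v) i‖ ≤ ‖tens (u, v)‖ := norm_le_pi_norm (tens (u, v)) i
      have h4 : ‖tens (u, v) i j‖ = ‖u i‖ * ‖v j‖ := norm_mul _ _
      rw [← h4]
      exact h2.trans h3
    have h5 : ∀ i, ‖u i‖ * ‖v‖ ≤ ‖tens (u, v)‖ := by
      intro i
      rcases eq_or_lt_of_le (norm_nonneg (u i)) with h | h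
      · rw [← h, zero_mul]
        exact norm_nonneg _
      · rw [mul_comm, ← le_div_iff₀ h]
        refine (pi_norm_le_iff_of_nonneg (by positivity)).2 fun j => ?_
        rw [le_div_iff₀ h, mul_comm]
        exact h1 i j
    rcases eq_or_lt_of_le (norm_nonneg v) with h | h
    · rw [← h, mul_zero]
      exact norm_nonneg _
    · rw [← le_div_iff₀ h]
      refine (pi_norm_le_iff_of_nonneg (by positivity)).2 fun i => ?_
      rw [le_div_iff₀ h]
      exact h5 i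

theorem acc_nz_pos {E : Type} [NormedAddCommGroup E] [NormedSpace ℝ E] {t : ℝ} (ht : 0 < t)
    (u : E) : ‖t • u‖⁻¹ • (t • u) = ‖u‖⁻¹ • u := by
  rw [norm_smul, Real.norm_of_nonneg ht.le, smul_smul, mul_inv]
  congr 1
  rw [mul_right_comm, inv_mul_cancel₀ ht.ne', one_mul]

theorem acc_nz_neg {E : Type} [NormedAddCommGroup E] [NormedSpace ℝ E] {t : ℝ} (ht : t < 0)
    (u : E) : ‖t • u‖⁻¹ • (t • u) = -(‖u‖⁻¹ • u) := by
  have h := acc_nz_pos (neg_pos.2 ht) u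
  rw [neg_smul, norm_neg, smul_neg] at h
  rw [← h, neg_neg]

theorem acc_unit {u : V3} (h : u ≠ 0) : ‖‖u‖⁻¹ • u‖ = 1 := by
  rw [norm_smul, norm_inv, norm_norm]
  exact inv_mul_cancel₀ (norm_ne_zero_iff.2 h)

/-- the matrices -/
def acc_Z (ρ : G →* M3) (H : Finset G) (g : G) : Fin 3 → Fin 3 → ℝ :=
  ∑ h ∈ H, tens (acc_c ρ (g * h), acc_r ρ (g * h))

/-- the normalised matrices -/
noncomputable def acc_Y (ρ : G →* M3) (H : Finset G) (g : G) : Fin 3 → Fin 3 → ℝ :=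
  ‖acc_Z ρ H g‖⁻¹ • acc_Z ρ H g

/-- the finite set `H` -/
theorem acc_H (h1 : S_gen) {ρ : G →* M3} (hP : Pos ρ) : ∃ H : Finset G, ∀ ξ b : V3, ξ ≠ 0 →
    b ≠ 0 → ∃ h ∈ H, ξ ⬝ᵥ acc_c ρ h ≠ 0 ∧ acc_r ρ h ⬝ᵥ b ≠ 0 := by
  have hK : IsCompact ((Metric.sphere (0 : V3) 1) ×ˢ (Metric.sphere (0 : V3) 1)) :=
    (isCompact_sphere 0 1).prod (isCompact_sphere 0 1)
  let U : G → Set (V3 × V3) := fun g => {p | p.1 ⬝ᵥ acc_c ρ g ≠ 0 ∧ acc_r ρ g ⬝ᵥ p.2 ≠ 0}
  have hU : ∀ g, IsOpen (U g) := by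
    intro g
    have c1 : Continuous fun p : V3 × V3 => p.1 ⬝ᵥ acc_c ρ g :=
      Continuous.dotProduct continuous_fst continuous_const
    have c2 : Continuous fun p : V3 × V3 => acc_r ρ g ⬝ᵥ p.2 :=
      Continuous.dotProduct continuous_const continuous_snd
    exact (isOpen_ne_fun c1 continuous_const).inter (isOpen_ne_fun c2 continuous_const)
  have he0 : (Pi.single 0 1 : V3) ≠ 0 := by
    intro h
    have := congrFun h 0
    simp at this
  have he2 : (Pi.single 2 1 : V3) ≠ 0 := by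
    intro h
    have := congrFun h 2
    simp at this
  have hcov : (Metric.sphere (0 : V3) 1) ×ˢ (Metric.sphere (0 : V3) 1) ⊆ ⋃ g, U g := by
    rintro ⟨ξ, b⟩ ⟨hξ, hb⟩
    have hξ0 : ξ ≠ 0 := ne_zero_of_mem_unit_sphere ⟨ξ, hξ⟩
    have hb0 : b ≠ 0 := ne_zero_of_mem_unit_sphere ⟨b, hb⟩
    obtain ⟨g, hg1, hg2⟩ := h1 ρ hP {((Pi.single 0 1 : V3), ξ)} {(b, (Pi.single 2 1 : V3))}
      (by
        intro p hp
        rw [Finset.mem_singleton] at hp
        rw [hp]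
        exact ⟨he0, hξ0⟩)
      (by
        intro p hp
        rw [Finset.mem_singleton] at hp
        rw [hp]
        exact ⟨hb0, he2⟩)
    have k1 := hg1 _ (Finset.mem_singleton_self _)
    have k2 := hg2 _ (Finset.mem_singleton_self _)
    refine Set.mem_iUnion.2 ⟨g, ?_, ?_⟩
    · have e : ρ g *ᵥ (Pi.single 0 1 : V3) = acc_c ρ g := by
        funext i
        simp [acc_c]
      show ξ ⬝ᵥ acc_c ρ g ≠ 0
      rw [← e]
      exact k1
    · have e : (Pi.single 2 1 : V3) ⬝ᵥ (ρ g⁻¹ *ᵥ b) = acc_r ρ g ⬝ᵥ b := by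
        rw [single_one_dotProduct]
        rfl
      show acc_r ρ g ⬝ᵥ b ≠ 0
      rw [← e]
      exact k2
  obtain ⟨H, hH⟩ := hK.elim_finite_subcover U hU hcov
  refine ⟨H, fun ξ b hξ hb => ?_⟩
  have hm : ((‖ξ‖⁻¹ • ξ, ‖b‖⁻¹ • b) : V3 × V3) ∈
      (Metric.sphere (0 : V3) 1) ×ˢ (Metric.sphere (0 : V3) 1) := by
    refine ⟨?_, ?_⟩
    · rw [mem_sphere_zero_iff_norm]
      exact acc_unit hξ
    · rw [mem_sphere_zero_iff_norm]
      exact acc_unit hb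
  obtain ⟨h, hh, hh1, hh2⟩ := Set.mem_iUnion₂.1 (hH hm)
  refine ⟨h, hh, fun h0 => hh1 ?_, fun h0 => hh2 ?_⟩
  · show (‖ξ‖⁻¹ • ξ) ⬝ᵥ acc_c ρ h = 0
    rw [smul_dotProduct, h0, smul_zero]
  · show acc_r ρ h ⬝ᵥ (‖b‖⁻¹ • b) = 0
    rw [dotProduct_smul, h0, smul_zero]

/-- the sign of a term -/
theorem acc_sign (h2 : S_basic) (h3 : S_lim) {ρ : G →* M3} (hP : Pos ρ) {g : ℕ → G}
    {c c' : ℕ → ℝ} {a ξ b ψ : V3} (hc : ∀ n, 0 < c n) (hc' : ∀ n, 0 < c' n) (ha : a ≠ 0)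
    (hψ : ψ ≠ 0)
    (hA : Tendsto (fun n => (c n)⁻¹ • ρ (g n)) atTop (𝓝 (vecMulVec a ξ)))
    (hB : Tendsto (fun n => (c' n)⁻¹ • ρ (g n)⁻¹) atTop (𝓝 (vecMulVec b ψ))) (k : G) :
    (0 < (ξ ⬝ᵥ acc_c ρ k) * (acc_r ρ k ⬝ᵥ b) →
      ((‖a‖⁻¹ • a, ‖ψ‖⁻¹ • ψ) : V3 × V3) ∈ Lam ρ) ∧
    ((ξ ⬝ᵥ acc_c ρ k) * (acc_r ρ k ⬝ᵥ b) < 0 →
      ((‖a‖⁻¹ • a, -(‖ψ‖⁻¹ • ψ)) : V3 × V3) ∈ Lam ρ) := by
  have hB' := h2 ρ hP
  have hcn : 0 < ‖acc_c ρ k‖⁻¹ := inv_pos.2 (norm_pos_iff.2 (acc_c_ne ρ k))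
  have hrn : 0 < ‖acc_r ρ k‖⁻¹ := inv_pos.2 (norm_pos_iff.2 (acc_r_ne ρ k))
  have hp : ((‖acc_c ρ k‖⁻¹ • acc_c ρ k, ‖acc_r ρ k‖⁻¹ • acc_r ρ k) : V3 × V3) ∈ Lam ρ :=
    hB'.base k _ _ (mul_pos hcn hrn) (acc_unit (acc_c_ne ρ k)) (acc_unit (acc_r_ne ρ k))
  have e1 : vecMulVec a ξ *ᵥ (‖acc_c ρ k‖⁻¹ • acc_c ρ k) =
      (‖acc_c ρ k‖⁻¹ * (ξ ⬝ᵥ acc_c ρ k)) • a := by
    rw [acc_vm_mul, dotProduct_smul, smul_eq_mul]
  have e2 : (‖acc_r ρ k‖⁻¹ • acc_r ρ k) ᵥ* vecMulVec b ψ =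
      (‖acc_r ρ k‖⁻¹ * (acc_r ρ k ⬝ᵥ b)) • ψ := by
    rw [acc_mul_vm, smul_dotProduct, smul_eq_mul]
  have key : (ξ ⬝ᵥ acc_c ρ k) ≠ 0 → (acc_r ρ k ⬝ᵥ b) ≠ 0 →
      ((‖(‖acc_c ρ k‖⁻¹ * (ξ ⬝ᵥ acc_c ρ k)) • a‖⁻¹ • ((‖acc_c ρ k‖⁻¹ * (ξ ⬝ᵥ acc_c ρ k)) • a),
        ‖(‖acc_r ρ k‖⁻¹ * (acc_r ρ k ⬝ᵥ b)) • ψ‖⁻¹ •
          ((‖acc_r ρ k‖⁻¹ * (acc_r ρ k ⬝ᵥ b)) • ψ)) : V3 × V3) ∈ Lam ρ := by
    intro hx hy
    have h := h3 ρ (Lam ρ) hB' g c c' _ _ hc hc' hA hB _ hp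
      (by
        show vecMulVec a ξ *ᵥ (‖acc_c ρ k‖⁻¹ • acc_c ρ k) ≠ 0
        rw [e1]
        exact smul_ne_zero (mul_ne_zero hcn.ne' hx) ha)
      (by
        show (‖acc_r ρ k‖⁻¹ • acc_r ρ k) ᵥ* vecMulVec b ψ ≠ 0
        rw [e2]
        exact smul_ne_zero (mul_ne_zero hrn.ne' hy) hψ)
    rw [e1, e2] at h
    exact h
  have hneg := hB'.neg
  constructor
  · intro hxy
    rcases mul_pos_iff.1 hxy with ⟨hx, hy⟩ | ⟨hx, hy⟩
    · have h := key hx.ne' hy.ne'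
      rwa [acc_nz_pos (mul_pos hcn hx), acc_nz_pos (mul_pos hrn hy)] at h
    · have h := key hx.ne hy.ne
      rw [acc_nz_neg (mul_neg_of_pos_of_neg hcn hx), acc_nz_neg (mul_neg_of_pos_of_neg hrn hy)] at h
      have h' := hneg _ h
      rwa [Prod.neg_mk, neg_neg, neg_neg] at h'
  · intro hxy
    rcases mul_neg_iff.1 hxy with ⟨hx, hy⟩ | ⟨hx, hy⟩
    · have h := key hx.ne' hy.ne
      rwa [acc_nz_pos (mul_pos hcn hx), acc_nz_neg (mul_neg_of_pos_of_neg hrn hy)] at h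
    · have h := key hx.ne hy.ne'
      rw [acc_nz_neg (mul_neg_of_pos_of_neg hcn hx), acc_nz_pos (mul_pos hrn hy)] at h
      have h' := hneg _ h
      rwa [Prod.neg_mk, neg_neg] at h'

/-- the limits of the matrices -/
theorem acc_core (h2 : S_basic) (h3 : S_lim) (h4 : S_dense) {ρ : G →* M3} (hP : Pos ρ)
    {H : Finset G}
    (hH : ∀ ξ b : V3, ξ ≠ 0 → b ≠ 0 → ∃ h ∈ H, ξ ⬝ᵥ acc_c ρ h ≠ 0 ∧ acc_r ρ h ⬝ᵥ b ≠ 0)
    {g : ℕ → G} {c c' : ℕ → ℝ} {a ξ b ψ : V3} (hc : ∀ n, 0 < c n) (hc' : ∀ n, 0 < c' n)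
    (ha : a ≠ 0) (hξ : ξ ≠ 0) (hb : b ≠ 0) (hψ : ψ ≠ 0)
    (hA : Tendsto (fun n => (c n)⁻¹ • ρ (g n)) atTop (𝓝 (vecMulVec a ξ)))
    (hB : Tendsto (fun n => (c' n)⁻¹ • ρ (g n)⁻¹) atTop (𝓝 (vecMulVec b ψ))) :
    ∃ σ : ℝ, (σ = 1 ∨ σ = -1) ∧ ((‖a‖⁻¹ • a, σ • (‖ψ‖⁻¹ • ψ)) : V3 × V3) ∈ Lam ρ ∧
      ∀ s : G, Tendsto (fun n => acc_Y ρ H (g n * s)) atTop
        (𝓝 (tens (‖a‖⁻¹ • a, σ • (‖ψ‖⁻¹ • ψ)))) := by
  have hsg := acc_sign h2 h3 hP hc hc' ha hψ hA hB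
  obtain ⟨hd, -⟩ := h4 ρ hP
  -- the sign
  obtain ⟨σ, hσ, hσm, hσs⟩ : ∃ σ : ℝ, (σ = 1 ∨ σ = -1) ∧
      ((‖a‖⁻¹ • a, σ • (‖ψ‖⁻¹ • ψ)) : V3 × V3) ∈ Lam ρ ∧
      ∀ k, 0 ≤ σ * ((ξ ⬝ᵥ acc_c ρ k) * (acc_r ρ k ⬝ᵥ b)) := by
    obtain ⟨h, -, hx, hy⟩ := hH ξ b hξ hb
    rcases lt_or_gt_of_ne (mul_ne_zero hx hy) with hlt | hgt
    · have hm := (hsg h).2 hlt
      refine ⟨-1, Or.inr rfl, by rwa [neg_one_smul], fun k => ?_⟩
      by_contra hcon
      have h5 := (hsg k).1 (by linarith)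
      exact hd _ h5 hm
    · have hm := (hsg h).1 hgt
      refine ⟨1, Or.inl rfl, by rwa [one_smul], fun k => ?_⟩
      by_contra hcon
      have h5 := (hsg k).2 (by linarith)
      exact hd _ hm h5
  refine ⟨σ, hσ, hσm, fun s => ?_⟩
  have hσ2 : σ * σ = 1 := by
    rcases hσ with h | h <;> rw [h] <;> norm_num
  -- the coefficient of the limit
  obtain ⟨κ, hκ⟩ : ∃ κ : ℝ, κ = ∑ h ∈ H, (ξ ⬝ᵥ acc_c ρ (s * h)) * (acc_r ρ (s * h) ⬝ᵥ b) := ⟨_, rfl⟩
  have hκpos : 0 < σ * κ := by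
    rw [hκ, Finset.mul_sum]
    have hξs : ξ ᵥ* ρ s ≠ 0 := by
      intro h0
      apply hξ
      have h6 : ξ ᵥ* ρ s ᵥ* ρ s⁻¹ = ξ := by
        rw [vecMul_vecMul, ← map_mul, mul_inv_cancel, map_one, vecMul_one]
      rw [← h6, h0, zero_vecMul]
    have hbs : ρ s⁻¹ *ᵥ b ≠ 0 := by
      intro h0
      apply hb
      have h6 : ρ s *ᵥ (ρ s⁻¹ *ᵥ b) = b := by
        rw [mulVec_mulVec, ← map_mul, mul_inv_cancel, map_one, one_mulVec]
      rw [← h6, h0, mulVec_zero]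
    obtain ⟨h, hh, hx, hy⟩ := hH _ _ hξs hbs
    refine Finset.sum_pos' (fun k _ => hσs (s * k)) ⟨h, hh, ?_⟩
    refine lt_of_le_of_ne (hσs (s * h)) (Ne.symm ?_)
    have hσ0 : σ ≠ 0 := by
      rcases hσ with h | h <;> rw [h] <;> norm_num
    refine mul_ne_zero hσ0 (mul_ne_zero ?_ ?_)
    · rw [← acc_mul_c, dotProduct_mulVec]
      exact hx
    · rw [← acc_mul_r, ← dotProduct_mulVec]
      exact hy
  have hκ0 : κ ≠ 0 := by
    rintro rfl
    rw [mul_zero] at hκpos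
    exact lt_irrefl _ hκpos
  -- the limit of the scaled matrices
  have hT : Tendsto (fun n => (c n * c' n)⁻¹ • acc_Z ρ H (g n * s)) atTop
      (𝓝 (κ • tens (a, ψ))) := by
    have e1 : ∀ n, (c n * c' n)⁻¹ • acc_Z ρ H (g n * s) =
        ∑ h ∈ H, tens (((c n)⁻¹ • ρ (g n)) *ᵥ acc_c ρ (s * h),
          acc_r ρ (s * h) ᵥ* ((c' n)⁻¹ • ρ (g n)⁻¹)) := by
      intro n
      unfold acc_Z
      rw [Finset.smul_sum]
      refine Finset.sum_congr rfl fun h _ => ?_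
      rw [smul_mulVec, vecMul_smul, acc_mul_c, acc_mul_r, acc_tens_smul, mul_inv, mul_assoc]
    have e2 : κ • tens (a, ψ) = ∑ h ∈ H, tens (vecMulVec a ξ *ᵥ acc_c ρ (s * h),
        acc_r ρ (s * h) ᵥ* vecMulVec b ψ) := by
      rw [hκ, Finset.sum_smul]
      refine Finset.sum_congr rfl fun h _ => ?_
      rw [acc_vm_mul, acc_mul_vm, acc_tens_smul]
    simp_rw [e1]
    rw [e2]
    refine tendsto_finsetSum _ fun h _ => ?_
    have k1 : Tendsto (fun n => ((c n)⁻¹ • ρ (g n)) *ᵥ acc_c ρ (s * h)) atTop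
        (𝓝 (vecMulVec a ξ *ᵥ acc_c ρ (s * h))) := by
      have hcont : Continuous fun M : M3 => M *ᵥ acc_c ρ (s * h) :=
        Continuous.matrix_mulVec continuous_id continuous_const
      exact (hcont.tendsto _).comp hA
    have k2 : Tendsto (fun n => acc_r ρ (s * h) ᵥ* ((c' n)⁻¹ • ρ (g n)⁻¹)) atTop
        (𝓝 (acc_r ρ (s * h) ᵥ* vecMulVec b ψ)) := by
      have hcont : Continuous fun M : M3 => acc_r ρ (s * h) ᵥ* M :=
        Continuous.matrix_vecMul continuous_const continuous_id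
      exact (hcont.tendsto _).comp hB
    exact (acc_tens_cont.tendsto _).comp (k1.prodMk_nhds k2)
  have hL0 : κ • tens (a, ψ) ≠ 0 := by
    refine smul_ne_zero hκ0 ?_
    rw [← norm_ne_zero_iff, acc_tens_norm]
    exact mul_ne_zero (norm_ne_zero_iff.2 ha) (norm_ne_zero_iff.2 hψ)
  have hlim := (hT.norm.inv₀ (norm_ne_zero_iff.2 hL0)).smul hT
  have e3 : ∀ n, ‖(c n * c' n)⁻¹ • acc_Z ρ H (g n * s)‖⁻¹ • ((c n * c' n)⁻¹ •
      acc_Z ρ H (g n * s)) = acc_Y ρ H (g n * s) := fun n =>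
    acc_nz_pos (inv_pos.2 (mul_pos (hc n) (hc' n))) _
  have e4 : ‖κ • tens (a, ψ)‖⁻¹ • (κ • tens (a, ψ)) = tens (‖a‖⁻¹ • a, σ • (‖ψ‖⁻¹ • ψ)) := by
    have e5 : κ • tens (a, ψ) = (σ * κ) • (σ • tens (a, ψ)) := by
      rw [smul_smul]
      congr 1
      calc κ = (σ * σ) * κ := by rw [hσ2, one_mul]
        _ = _ := by ring
    rw [e5, acc_nz_pos hκpos, norm_smul, acc_tens_norm]
    have e6 : ‖σ‖ = 1 := by
      rcases hσ with h | h <;> rw [h] <;> simp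
    rw [e6, one_mul, smul_smul σ, acc_tens_smul, smul_smul]
    congr 1
    rw [mul_inv]
    ring
  rw [← e4]
  refine hlim.congr fun n => ?_
  exact e3 n

end AccAux

theorem t_acc (h1 : S_gen) (h2 : S_basic) (h3 : S_lim) (h4 : S_dense) (h5 : S_regl) : S_acc := by
  intro G _ ρ hP
  obtain ⟨H, hH⟩ := acc_H h1 hP
  have hBas := h2 ρ hP
  -- limits of injective sequences
  have hseq : ∀ g : ℕ → G, Function.Injective g → ∃ (φ : ℕ → ℕ) (X : Fin 3 → Fin 3 → ℝ),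
      StrictMono φ ∧ X ∈ tens '' Lam ρ ∧
      ∀ s : G, Tendsto (fun n => acc_Y ρ H (g (φ n) * s)) atTop (𝓝 X) := by
    intro g hg
    obtain ⟨φ, c, c', a, ξ, b, ψ, hφ, hc, hc', ha, hξ, hb, hψ, hA, hB⟩ := h5 ρ hP g hg
    obtain ⟨σ, -, hm, hs⟩ := acc_core h2 h3 h4 hP hH hc hc' ha hξ hb hψ hA hB
    exact ⟨φ, _, hφ, ⟨_, hm, rfl⟩, hs⟩
  refine ⟨acc_Y ρ H, fun ε hε => ?_, fun s ε hε => ?_, fun X hX ε hε => ?_⟩
  · by_contra hinf
    have hinf' : {g | ε ≤ Metric.infDist (acc_Y ρ H g) (tens '' Lam ρ)}.Infinite := hinf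
    obtain ⟨φ, X, hφ, hX, hs⟩ := hseq (fun n => (hinf'.natEmbedding _ n : G))
      (Subtype.val_injective.comp (hinf'.natEmbedding _).injective)
    have hl := hs 1
    have h6 : Tendsto (fun n => dist (acc_Y ρ H ((hinf'.natEmbedding _ (φ n) : G) * 1)) X) atTop
        (𝓝 0) := tendsto_iff_dist_tendsto_zero.1 hl
    obtain ⟨n, hn⟩ := (h6.eventually (gt_mem_nhds hε)).exists
    have h7 : ε ≤ Metric.infDist (acc_Y ρ H (hinf'.natEmbedding _ (φ n) : G)) (tens '' Lam ρ) :=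
      (hinf'.natEmbedding _ (φ n)).2
    rw [mul_one] at hn
    exact absurd (h7.trans (Metric.infDist_le_dist_of_mem hX)) (not_le.2 hn)
  · by_contra hinf
    have hinf' : {g | ε ≤ dist (acc_Y ρ H g) (acc_Y ρ H (g * s))}.Infinite := hinf
    obtain ⟨φ, X, hφ, hX, hs⟩ := hseq (fun n => (hinf'.natEmbedding _ n : G))
      (Subtype.val_injective.comp (hinf'.natEmbedding _).injective)
    have h6 := (hs 1).dist (hs s)
    rw [dist_self] at h6
    obtain ⟨n, hn⟩ := (h6.eventually (gt_mem_nhds hε)).exists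
    have h7 : ε ≤ dist (acc_Y ρ H (hinf'.natEmbedding _ (φ n) : G))
      (acc_Y ρ H ((hinf'.natEmbedding _ (φ n) : G) * s)) := (hinf'.natEmbedding _ (φ n)).2
    rw [mul_one] at hn
    exact absurd h7 (not_le.2 hn)
  · -- a generating pair near `X`
    obtain ⟨p, hp, rfl⟩ := hX
    have hopen : IsOpen {q : V3 × V3 | dist (tens q) (tens p) < ε / 2} :=
      isOpen_lt (acc_tens_cont.dist continuous_const) continuous_const
    obtain ⟨q, hq1, hqn1, hqn2, h, c, d, hcd, hq⟩ := mem_closure_iff.1 hp _ hopen (by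
      show dist (tens p) (tens p) < ε / 2
      rw [dist_self]
      exact half_pos hε)
    obtain ⟨γ, l, hγ, hl1, hl2⟩ := hP.reg
    have hl0 : ∀ i, l i ≠ 0 := by
      have hdet := hP.det γ
      rw [hγ, det_diagonal] at hdet
      intro i hi
      rw [Finset.prod_eq_zero (Finset.mem_univ i) hi] at hdet
      exact zero_ne_one hdet
    have habs0 : 0 < |l 0| := abs_pos.2 (hl0 0)
    have habs1 : 0 < |l 1| := abs_pos.2 (hl0 1)
    have hpw : ∀ n : ℕ, ρ (γ ^ n) = diagonal (fun i => l i ^ n) := by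
      intro n
      rw [map_pow, hγ, diagonal_pow]
      rfl
    have hpi : ∀ n : ℕ, ρ (γ ^ n)⁻¹ = diagonal (fun i => (l i ^ n)⁻¹) := by
      intro n
      have k1 : ρ (γ ^ n)⁻¹ * ρ (γ ^ n) = 1 := by
        rw [← map_mul, inv_mul_cancel, map_one]
      have k2 : ρ (γ ^ n) * diagonal (fun i => (l i ^ n)⁻¹) = 1 := by
        rw [hpw, diagonal_mul_diagonal, ← diagonal_one]
        congr 1
        funext i
        exact mul_inv_cancel₀ (pow_ne_zero n (hl0 i))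
      calc ρ (γ ^ n)⁻¹ = ρ (γ ^ n)⁻¹ * (ρ (γ ^ n) * diagonal (fun i => (l i ^ n)⁻¹)) := by
            rw [k2, mul_one]
        _ = (ρ (γ ^ n)⁻¹ * ρ (γ ^ n)) * diagonal (fun i => (l i ^ n)⁻¹) := (mul_assoc _ _ _).symm
        _ = _ := by rw [k1, one_mul]
    have hgA : Tendsto (fun n => ((l 0 ^ (2 * n))⁻¹) • ρ (h * γ ^ (2 * n))) atTop
        (𝓝 (vecMulVec (acc_c ρ h) (Pi.single 0 1 : V3))) := by
      refine tendsto_pi_nhds.2 fun i => tendsto_pi_nhds.2 fun j => ?_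
      have e1 : ∀ n, (((l 0 ^ (2 * n))⁻¹) • ρ (h * γ ^ (2 * n))) i j =
          ρ h i j * ((l j / l 0) ^ 2) ^ n := by
        intro n
        rw [map_mul, hpw, Matrix.smul_apply, mul_diagonal, smul_eq_mul, ← pow_mul, div_pow]
        field_simp
      simp_rw [e1]
      have e2 : vecMulVec (acc_c ρ h) (Pi.single 0 1 : V3) i j =
          ρ h i j * (if j = 0 then 1 else 0) := by
        rw [vecMulVec_apply]
        unfold acc_c
        by_cases hj : j = 0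
        · rw [hj]
          simp
        · simp [hj]
      rw [e2]
      refine Tendsto.const_mul _ ?_
      by_cases hj : j = 0
      · rw [if_pos hj, hj, div_self (hl0 0)]
        have hone : Tendsto (fun _ : ℕ => (1 : ℝ)) atTop (𝓝 1) := tendsto_const_nhds
        refine hone.congr fun n => ?_
        rw [one_pow, one_pow]
      · rw [if_neg hj]
        refine tendsto_pow_atTop_nhds_zero_of_lt_one (sq_nonneg _) ?_
        have hl00 : 0 < l 0 ^ 2 := by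
          have := hl0 0
          positivity
        rw [div_pow, div_lt_one hl00, sq_lt_sq]
        have hj' : j = 1 ∨ j = 2 := by
          fin_cases j
          · exact absurd rfl hj
          · exact Or.inl rfl
          · exact Or.inr rfl
        rcases hj' with h | h
        · rw [h]
          exact hl1
        · rw [h]
          exact hl2.trans hl1
    have hgB : Tendsto (fun n => ((l 2 ^ (2 * n))⁻¹)⁻¹ • ρ (h * γ ^ (2 * n))⁻¹) atTop
        (𝓝 (vecMulVec (Pi.single 2 1 : V3) (acc_r ρ h))) := by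
      refine tendsto_pi_nhds.2 fun i => tendsto_pi_nhds.2 fun j => ?_
      have e1 : ∀ n, (((l 2 ^ (2 * n))⁻¹)⁻¹ • ρ (h * γ ^ (2 * n))⁻¹) i j =
          ρ h⁻¹ i j * ((l 2 / l i) ^ 2) ^ n := by
        intro n
        rw [_root_.mul_inv_rev, map_mul, hpi, Matrix.smul_apply, diagonal_mul, smul_eq_mul,
          ← pow_mul, div_pow, inv_inv]
        field_simp
      simp_rw [e1]
      have e2 : vecMulVec (Pi.single 2 1 : V3) (acc_r ρ h) i j =
          ρ h⁻¹ i j * (if i = 2 then 1 else 0) := by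
        rw [vecMulVec_apply]
        unfold acc_r
        by_cases hj : i = 2
        · rw [hj]
          simp
        · simp [hj]
      rw [e2]
      refine Tendsto.const_mul _ ?_
      by_cases hi : i = 2
      · rw [if_pos hi, hi, div_self (hl0 2)]
        have hone : Tendsto (fun _ : ℕ => (1 : ℝ)) atTop (𝓝 1) := tendsto_const_nhds
        refine hone.congr fun n => ?_
        rw [one_pow, one_pow]
      · rw [if_neg hi]
        refine tendsto_pow_atTop_nhds_zero_of_lt_one (sq_nonneg _) ?_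
        have hli : 0 < l i ^ 2 := by
          have := hl0 i
          positivity
        rw [div_pow, div_lt_one hli, sq_lt_sq]
        have hi' : i = 0 ∨ i = 1 := by
          fin_cases i
          · exact Or.inl rfl
          · exact Or.inr rfl
          · exact absurd rfl hi
        rcases hi' with h | h
        · rw [h]
          exact hl2.trans hl1
        · rw [h]
          exact hl2
    have he0 : (Pi.single 0 1 : V3) ≠ 0 := by
      intro h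
      have := congrFun h 0
      simp at this
    have he2 : (Pi.single 2 1 : V3) ≠ 0 := by
      intro h
      have := congrFun h 2
      simp at this
    have hpos0 : ∀ n : ℕ, 0 < l 0 ^ (2 * n) := fun n => by
      rw [pow_mul]
      have := hl0 0
      positivity
    have hpos2 : ∀ n : ℕ, 0 < (l 2 ^ (2 * n))⁻¹ := fun n => by
      rw [pow_mul]
      have := hl0 2
      positivity
    obtain ⟨σ, hσ, hσm, hσs⟩ := acc_core h2 h3 h4 hP hH hpos0 hpos2 (acc_c_ne ρ h) he0 he2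
      (acc_r_ne ρ h) hgA hgB
    have hcn : 0 < ‖acc_c ρ h‖ := norm_pos_iff.2 (acc_c_ne ρ h)
    have hrn : 0 < ‖acc_r ρ h‖ := norm_pos_iff.2 (acc_r_ne ρ h)
    have hbase : ((‖acc_c ρ h‖⁻¹ • acc_c ρ h, ‖acc_r ρ h‖⁻¹ • acc_r ρ h) : V3 × V3) ∈ Lam ρ :=
      hBas.base h _ _ (mul_pos (inv_pos.2 hcn) (inv_pos.2 hrn)) (acc_unit (acc_c_ne ρ h))
        (acc_unit (acc_r_ne ρ h))
    have hσ1 : σ = 1 := by
      rcases hσ with h6 | h6
      · exact h6
      · rw [h6, neg_one_smul] at hσm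
        exact absurd hσm ((h4 ρ hP).1 _ hbase)
    rw [hσ1, one_smul] at hσs
    -- the limit is `tens q`
    have hq' : q = (c • acc_c ρ h, d • acc_r ρ h) := hq
    have hlimq : tens (‖acc_c ρ h‖⁻¹ • acc_c ρ h, ‖acc_r ρ h‖⁻¹ • acc_r ρ h) = tens q := by
      rw [hq', acc_tens_smul, acc_tens_smul]
      congr 1
      rw [hq'] at hqn1 hqn2
      have k1 : ‖c • acc_c ρ h‖ = 1 := hqn1
      have k2 : ‖d • acc_r ρ h‖ = 1 := hqn2
      rw [norm_smul] at k1 k2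
      have k3 : ‖acc_c ρ h‖⁻¹ = ‖c‖ := inv_eq_of_mul_eq_one_left k1
      have k4 : ‖acc_r ρ h‖⁻¹ = ‖d‖ := inv_eq_of_mul_eq_one_left k2
      rw [k3, k4, ← norm_mul, Real.norm_of_nonneg hcd.le]
    have hs1 := hσs 1
    rw [hlimq] at hs1
    have h6 : Tendsto (fun n : ℕ => dist (acc_Y ρ H (h * γ ^ (2 * n) * 1)) (tens q)) atTop
        (𝓝 0) := tendsto_iff_dist_tendsto_zero.1 hs1
    obtain ⟨N, hN⟩ := eventually_atTop.1 (h6.eventually (gt_mem_nhds (half_pos hε)))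
    have hinj : Function.Injective fun n : ℕ => h * γ ^ (2 * (n + N)) := by
      intro m n hmn
      have k1 : γ ^ (2 * (m + N)) = γ ^ (2 * (n + N)) := mul_left_cancel hmn
      have k2 : ∀ i, l i ^ (2 * (m + N)) = l i ^ (2 * (n + N)) := by
        intro i
        have k3 := congrArg (fun x => ρ x i i) k1
        simp only [hpw, diagonal_apply_eq] at k3
        exact k3
      by_contra hne
      have k4 : ∀ i, |l i| = 1 := by
        intro i
        by_contra h7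
        have k5 : |l i| ^ (2 * (m + N)) = |l i| ^ (2 * (n + N)) := by
          rw [← abs_pow, ← abs_pow, k2 i]
        have k6 := pow_right_injective₀ (abs_pos.2 (hl0 i)) h7 k5
        omega
      rw [k4 0, k4 1] at hl1
      exact lt_irrefl _ hl1
    refine (Set.infinite_range_of_injective hinj).mono ?_
    rintro _ ⟨n, rfl⟩
    have h8 := hN (n + N) (by omega)
    rw [mul_one] at h8
    show dist (acc_Y ρ H (h * γ ^ (2 * (n + N)))) (tens p) < ε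
    have h9 : dist (tens q) (tens p) < ε / 2 := hq1
    calc _ ≤ dist (acc_Y ρ H (h * γ ^ (2 * (n + N)))) (tens q) + dist (tens q) (tens p) :=
          dist_triangle _ _ _
      _ < ε / 2 + ε / 2 := add_lt_add h8 h9
      _ = ε := add_halves ε

end Pool.Agent.H817.PL
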