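import Pool.Agent.H817.PL.Stm

/-!
# Basic properties of the set of the limit flags
-/

set_option autoImplicit false

namespace Pool.Agent.H817.PL

open Set Filter Topology Module Matrix

/-- the generating pairs -/
def basic_gen {G : Type} [Group G] (ρ : G →* M3) : Set (V3 × V3) :=
  {p | ‖p.1‖ = 1 ∧ ‖p.2‖ = 1 ∧ ∃ (g : G) (c d : ℝ), 0 < c * d ∧
    p = (c • fun i => ρ g i 0, d • fun j => ρ g⁻¹ 2 j)}

theorem basic_lam {G : Type} [Group G] (ρ : G →* M3) : Lam ρ = closure (basic_gen ρ) := rfl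

theorem basic_col {G : Type} [Group G] (ρ : G →* M3) (g h : G) (c : ℝ) :
    ρ g *ᵥ (c • fun i => ρ h i 0) = c • fun i => ρ (g * h) i 0 := by
  ext i
  simp only [mulVec, dotProduct, Pi.smul_apply, smul_eq_mul, map_mul, Matrix.mul_apply,
    Finset.mul_sum]
  exact Finset.sum_congr rfl fun j _ => by ring

theorem basic_row {G : Type} [Group G] (ρ : G →* M3) (g h : G) (d : ℝ) :
    (d • fun j => ρ h⁻¹ 2 j) ᵥ* ρ g⁻¹ = d • fun j => ρ (g * h)⁻¹ 2 j := by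
  ext i
  simp only [vecMul, dotProduct, Pi.smul_apply, smul_eq_mul, _root_.mul_inv_rev, map_mul,
    Matrix.mul_apply, Finset.mul_sum]
  exact Finset.sum_congr rfl fun j _ => by ring

theorem basic_coef {G : Type} [Group G] (ρ : G →* M3) (g h : G) (c d : ℝ) :
    (d • fun j => ρ g⁻¹ 2 j : V3) ⬝ᵥ (c • fun i => ρ h i 0) = d * c * ρ (g⁻¹ * h) 2 0 := by
  simp only [dotProduct, Pi.smul_apply, smul_eq_mul, map_mul, Matrix.mul_apply, Finset.mul_sum]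
  exact Finset.sum_congr rfl fun j _ => by ring

theorem basic_ind {G : Type} [Group G] (ρ : G →* M3) (C : Set (V3 × V3)) (hC : IsClosed C)
    (h : ∀ p ∈ basic_gen ρ, p ∈ C) : ∀ p ∈ Lam ρ, p ∈ C := fun _ hp =>
  closure_minimal h hC hp

theorem basic_inj {G : Type} [Group G] (ρ : G →* M3) (g : G) (v : V3) (hv : v ≠ 0) :
    ρ g *ᵥ v ≠ 0 := by
  intro h
  have h1 : ρ g⁻¹ *ᵥ (ρ g *ᵥ v) = v := by
    rw [mulVec_mulVec, ← map_mul, inv_mul_cancel, map_one, one_mulVec]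
  rw [h, mulVec_zero] at h1
  exact hv h1.symm

theorem basic_inj' {G : Type} [Group G] (ρ : G →* M3) (g : G) (v : V3) (hv : v ≠ 0) :
    v ᵥ* ρ g ≠ 0 := by
  intro h
  have h1 : (v ᵥ* ρ g) ᵥ* ρ g⁻¹ = v := by
    rw [vecMul_vecMul, ← map_mul, mul_inv_cancel, map_one, vecMul_one]
  rw [h, zero_vecMul] at h1
  exact hv h1.symm

theorem basic_norm (v : V3) (hv : v ≠ 0) : ‖‖v‖⁻¹ • v‖ = 1 := by
  rw [norm_smul, norm_inv, norm_norm, inv_mul_cancel₀ (norm_ne_zero_iff.2 hv)]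

theorem basic_smul (a c c0 : ℝ) (w : V3) : a • (c • (c0 • w)) = (a * (c * c0)) • w := by
  rw [smul_smul, smul_smul, mul_assoc]

theorem basic_base {G : Type} [Group G] (ρ : G →* M3) (g : G) (c d : ℝ) (hcd : 0 < c * d)
    (h1 : ‖c • fun i => ρ g i 0‖ = 1) (h2 : ‖d • fun j => ρ g⁻¹ 2 j‖ = 1) :
    ((c • fun i => ρ g i 0, d • fun j => ρ g⁻¹ 2 j) : V3 × V3) ∈ Lam ρ :=
  subset_closure ⟨h1, h2, g, c, d, hcd, rfl⟩

theorem basic_ne {G : Type} [Group G] (ρ : G →* M3) : (Lam ρ).Nonempty := by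
  have h1 : (fun i => ρ 1 i 0 : V3) ≠ 0 := by
    intro h
    have := congrFun h 0
    simp at this
  have h2 : (fun j => ρ (1 : G)⁻¹ 2 j : V3) ≠ 0 := by
    intro h
    have := congrFun h 2
    simp at this
  exact ⟨_, basic_base ρ 1 (‖(fun i => ρ 1 i 0 : V3)‖⁻¹) (‖(fun j => ρ (1 : G)⁻¹ 2 j : V3)‖⁻¹)
    (mul_pos (inv_pos.2 (norm_pos_iff.2 h1)) (inv_pos.2 (norm_pos_iff.2 h2)))
    (basic_norm _ h1) (basic_norm _ h2)⟩

theorem basic_unit {G : Type} [Group G] (ρ : G →* M3) :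
    ∀ p ∈ Lam ρ, ‖p.1‖ = 1 ∧ ‖p.2‖ = 1 := by
  refine basic_ind ρ {p | ‖p.1‖ = 1 ∧ ‖p.2‖ = 1} ?_ fun p hp => ⟨hp.1, hp.2.1⟩
  exact (isClosed_eq continuous_fst.norm continuous_const).inter
    (isClosed_eq continuous_snd.norm continuous_const)

theorem basic_cpt {G : Type} [Group G] (ρ : G →* M3) : IsCompact (Lam ρ) := by
  refine (isCompact_closedBall (0 : V3 × V3) 1).of_isClosed_subset isClosed_closure fun p hp => ?_
  obtain ⟨h1, h2⟩ := basic_unit ρ p hp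
  rw [mem_closedBall_zero_iff, Prod.norm_def, h1, h2, max_self]

theorem basic_dot1 (f : V3 × V3 → V3) (g : V3 × V3 → V3) (hf : Continuous f)
    (hg : Continuous g) : Continuous fun p => f p ⬝ᵥ g p := by
  simp only [dotProduct]
  exact continuous_finsetSum _ fun i _ =>
    ((continuous_apply i).comp hf).mul ((continuous_apply i).comp hg)

theorem basic_flag {G : Type} [Group G] (ρ : G →* M3) : ∀ p ∈ Lam ρ, p.2 ⬝ᵥ p.1 = 0 := by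
  refine basic_ind ρ {p | p.2 ⬝ᵥ p.1 = 0}
    (isClosed_eq (basic_dot1 _ _ continuous_snd continuous_fst) continuous_const) ?_
  rintro p ⟨_, _, g, c, d, _, rfl⟩
  change (d • fun j => ρ g⁻¹ 2 j : V3) ⬝ᵥ (c • fun i => ρ g i 0) = 0
  rw [basic_coef, inv_mul_cancel, map_one]
  simp

theorem basic_neg {G : Type} [Group G] (ρ : G →* M3) : ∀ p ∈ Lam ρ, -p ∈ Lam ρ := by
  intro p hp
  refine map_mem_closure continuous_neg hp ?_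
  rintro q ⟨h1, h2, g, c, d, hcd, rfl⟩
  refine ⟨(norm_neg _).trans h1, (norm_neg _).trans h2, g, -c, -d, by rwa [neg_mul_neg], ?_⟩
  rw [neg_smul, neg_smul]
  rfl

theorem basic_pos {G : Type} [Group G] (ρ : G →* M3) (hρ : Pos ρ) :
    ∀ p ∈ Lam ρ, ∀ q ∈ Lam ρ, 0 ≤ (p.2 ⬝ᵥ q.1) * (q.2 ⬝ᵥ p.1) := by
  have key : ∀ p ∈ basic_gen ρ, ∀ q ∈ basic_gen ρ, 0 ≤ (p.2 ⬝ᵥ q.1) * (q.2 ⬝ᵥ p.1) := by
    rintro p ⟨_, _, g, c, d, hcd, rfl⟩ q ⟨_, _, h, c', d', hcd', rfl⟩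
    change 0 ≤ ((d • fun j => ρ g⁻¹ 2 j : V3) ⬝ᵥ (c' • fun i => ρ h i 0)) *
      ((d' • fun j => ρ h⁻¹ 2 j : V3) ⬝ᵥ (c • fun i => ρ g i 0))
    rw [basic_coef, basic_coef]
    have h1 := hρ.pos (g⁻¹ * h)
    rw [_root_.mul_inv_rev, inv_inv] at h1
    have h2 : d * c' * ρ (g⁻¹ * h) 2 0 * (d' * c * ρ (h⁻¹ * g) 2 0) =
        (c * d) * (c' * d') * (ρ (g⁻¹ * h) 2 0 * ρ (h⁻¹ * g) 2 0) := by ring
    rw [h2]
    exact mul_nonneg (mul_pos hcd hcd').le h1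
  have key2 : ∀ p ∈ basic_gen ρ, ∀ q ∈ Lam ρ, 0 ≤ (p.2 ⬝ᵥ q.1) * (q.2 ⬝ᵥ p.1) := fun p hp =>
    basic_ind ρ {q | 0 ≤ (p.2 ⬝ᵥ q.1) * (q.2 ⬝ᵥ p.1)}
      (isClosed_le continuous_const ((basic_dot1 _ _ continuous_const continuous_fst).mul
        (basic_dot1 _ _ continuous_snd continuous_const))) (key p hp)
  intro p hp q hq
  exact basic_ind ρ {p | 0 ≤ (p.2 ⬝ᵥ q.1) * (q.2 ⬝ᵥ p.1)}
      (isClosed_le continuous_const ((basic_dot1 _ _ continuous_snd continuous_const).mul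
        (basic_dot1 _ _ continuous_const continuous_fst))) (fun p hp => key2 p hp q hq) p hp

theorem basic_inv {G : Type} [Group G] (ρ : G →* M3) :
    ∀ p ∈ Lam ρ, ∀ (g : G) (c d : ℝ), 0 < c * d → ‖c • (ρ g *ᵥ p.1)‖ = 1 →
    ‖d • (p.2 ᵥ* ρ g⁻¹)‖ = 1 → (c • (ρ g *ᵥ p.1), d • (p.2 ᵥ* ρ g⁻¹)) ∈ Lam ρ := by
  intro p hp g c d hcd h1 h2
  have hc1 : Continuous fun q : V3 × V3 => c • (ρ g *ᵥ q.1) :=
    (continuous_const.matrix_mulVec continuous_fst).const_smul c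
  have hc2 : Continuous fun q : V3 × V3 => d • (q.2 ᵥ* ρ g⁻¹) :=
    (continuous_snd.matrix_vecMul continuous_const).const_smul d
  have ht : Tendsto (fun q : V3 × V3 => ((‖c • (ρ g *ᵥ q.1)‖⁻¹ • (c • (ρ g *ᵥ q.1)),
      ‖d • (q.2 ᵥ* ρ g⁻¹)‖⁻¹ • (d • (q.2 ᵥ* ρ g⁻¹))) : V3 × V3)) (𝓝[basic_gen ρ] p)
      (𝓝 (c • (ρ g *ᵥ p.1), d • (p.2 ᵥ* ρ g⁻¹))) := by
    have hA : Tendsto (fun q : V3 × V3 => ‖c • (ρ g *ᵥ q.1)‖⁻¹ • (c • (ρ g *ᵥ q.1))) (𝓝 p)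
        (𝓝 (c • (ρ g *ᵥ p.1))) := by
      have h := ((hc1.norm.tendsto p).inv₀ (by rw [h1]; exact one_ne_zero)).smul (hc1.tendsto p)
      rwa [h1, inv_one, one_smul] at h
    have hB : Tendsto (fun q : V3 × V3 => ‖d • (q.2 ᵥ* ρ g⁻¹)‖⁻¹ • (d • (q.2 ᵥ* ρ g⁻¹))) (𝓝 p)
        (𝓝 (d • (p.2 ᵥ* ρ g⁻¹))) := by
      have h := ((hc2.norm.tendsto p).inv₀ (by rw [h2]; exact one_ne_zero)).smul (hc2.tendsto p)
      rwa [h2, inv_one, one_smul] at h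
    exact (hA.prodMk_nhds hB).mono_left nhdsWithin_le_nhds
  have : (𝓝[basic_gen ρ] p).NeBot := mem_closure_iff_nhdsWithin_neBot.1 hp
  refine mem_closure_of_tendsto ht (eventually_nhdsWithin_of_forall ?_)
  rintro q ⟨hq1, hq2, h, c0, d0, hcd0, hq⟩
  have hc : c ≠ 0 := fun h0 => by simp [h0] at hcd
  have hd : d ≠ 0 := fun h0 => by simp [h0] at hcd
  have hn1 : c • (ρ g *ᵥ q.1) ≠ 0 := smul_ne_zero hc (basic_inj ρ g q.1 fun h0 => by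
    rw [h0, norm_zero] at hq1
    exact zero_ne_one hq1)
  have hn2 : d • (q.2 ᵥ* ρ g⁻¹) ≠ 0 := smul_ne_zero hd (basic_inj' ρ g⁻¹ q.2 fun h0 => by
    rw [h0, norm_zero] at hq2
    exact zero_ne_one hq2)
  refine ⟨basic_norm _ hn1, basic_norm _ hn2, g * h,
    ‖c • (ρ g *ᵥ q.1)‖⁻¹ * (c * c0), ‖d • (q.2 ᵥ* ρ g⁻¹)‖⁻¹ * (d * d0), ?_, ?_⟩
  · have h3 := inv_pos.2 (norm_pos_iff.2 hn1)
    have h4 := inv_pos.2 (norm_pos_iff.2 hn2)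
    have h5 : ‖c • (ρ g *ᵥ q.1)‖⁻¹ * (c * c0) * (‖d • (q.2 ᵥ* ρ g⁻¹)‖⁻¹ * (d * d0)) =
        ‖c • (ρ g *ᵥ q.1)‖⁻¹ * ‖d • (q.2 ᵥ* ρ g⁻¹)‖⁻¹ * ((c * d) * (c0 * d0)) := by ring
    rw [h5]
    exact mul_pos (mul_pos h3 h4) (mul_pos hcd hcd0)
  · have h3 : ρ g *ᵥ q.1 = c0 • fun i => ρ (g * h) i 0 := by
      rw [hq]
      exact basic_col ρ g h c0
    have h4 : q.2 ᵥ* ρ g⁻¹ = d0 • fun j => ρ (g * h)⁻¹ 2 j := by
      rw [hq]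
      exact basic_row ρ g h d0
    refine Prod.ext ?_ ?_
    · change ‖c • (ρ g *ᵥ q.1)‖⁻¹ • (c • (ρ g *ᵥ q.1)) =
        (‖c • (ρ g *ᵥ q.1)‖⁻¹ * (c * c0)) • fun i => ρ (g * h) i 0
      rw [h3]
      exact basic_smul _ _ _ _
    · change ‖d • (q.2 ᵥ* ρ g⁻¹)‖⁻¹ • (d • (q.2 ᵥ* ρ g⁻¹)) =
        (‖d • (q.2 ᵥ* ρ g⁻¹)‖⁻¹ * (d * d0)) • fun j => ρ (g * h)⁻¹ 2 j
      rw [h4]
      exact basic_smul _ _ _ _

theorem t_basic : S_basic := by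
  intro G _ ρ hρ
  exact ⟨basic_cpt ρ, basic_ne ρ, fun p hp => (basic_unit ρ p hp).1,
    fun p hp => (basic_unit ρ p hp).2, basic_flag ρ, basic_neg ρ, basic_pos ρ hρ, basic_inv ρ,
    basic_base ρ⟩

end Pool.Agent.H817.PL
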