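import Pool.Agent.H817.PL.Stm3

/-! Groups preserving a nondegenerate form in dimension three (helper539). -/

set_option autoImplicit false

namespace Pool.Agent.H817.PL

open Set Filter Topology Module

section c21sec
variable {Γ E : Type} [Group Γ] [NormedAddCommGroup E] [NormedSpace ℝ E] [FiniteDimensional ℝ E]

/-- the Lorentz form -/
def c21_q (x y z : E →ₗ[ℝ] ℝ) (v : E) : ℝ := x v ^ 2 - y v ^ 2 - z v ^ 2

/-- the cone -/
def c21_R (x y z : E →ₗ[ℝ] ℝ) : Set E := {v | 0 < x v ∧ 0 < c21_q x y z v}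

omit [FiniteDimensional ℝ E] in
theorem c21_cs {x y z : E →ₗ[ℝ] ℝ} {v w : E} (hv : v ∈ c21_R x y z) (hw : w ∈ c21_R x y z) :
    0 < x v * x w - y v * y w - z v * z w := by
  obtain ⟨v1, v2⟩ := hv
  obtain ⟨w1, w2⟩ := hw
  unfold c21_q at v2 w2
  have h1 : (y v * y w + z v * z w) ^ 2 ≤ (y v ^ 2 + z v ^ 2) * (y w ^ 2 + z w ^ 2) := by
    nlinarith [sq_nonneg (y v * z w - z v * y w)]
  have h2 : (y v ^ 2 + z v ^ 2) * (y w ^ 2 + z w ^ 2) < x v ^ 2 * x w ^ 2 :=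
    mul_lt_mul'' (by linarith) (by linarith) (by positivity) (by positivity)
  have h3 : (y v * y w + z v * z w) ^ 2 < (x v * x w) ^ 2 := by
    rw [mul_pow]
    exact h1.trans_lt h2
  have h4 : y v * y w + z v * z w < x v * x w :=
    lt_of_pow_lt_pow_left₀ 2 (by positivity) h3
  linarith

omit [FiniteDimensional ℝ E] in
theorem c21_neg {x y z : E →ₗ[ℝ] ℝ} {v w : E} (hv : v ∈ c21_R x y z) (hw : -w ∈ c21_R x y z) :
    x v * x w - y v * y w - z v * z w < 0 := by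
  have := c21_cs hv hw
  simp only [map_neg] at this
  linarith

omit [FiniteDimensional ℝ E] in
theorem c21_or {x y z : E →ₗ[ℝ] ℝ} {v : E} (hv : 0 < c21_q x y z v) :
    v ∈ c21_R x y z ∨ -v ∈ c21_R x y z := by
  have h0 : x v ≠ 0 := by
    intro h
    unfold c21_q at hv
    rw [h] at hv
    nlinarith [sq_nonneg (y v), sq_nonneg (z v)]
  rcases lt_or_gt_of_ne h0 with h | h
  · right
    refine ⟨?_, ?_⟩
    · rw [map_neg]
      linarith
    · unfold c21_q at hv ⊢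
      simp only [map_neg, neg_sq]
      exact hv
  · exact Or.inl ⟨h, hv⟩

omit [FiniteDimensional ℝ E] in
/-- the polar form is preserved -/
theorem c21_pol {x y z : E →ₗ[ℝ] ℝ} (A : E ≃ₗ[ℝ] E)
    (hA : ∀ v, c21_q x y z (A v) = c21_q x y z v) (v w : E) :
    x (A v) * x (A w) - y (A v) * y (A w) - z (A v) * z (A w) =
      x v * x w - y v * y w - z v * z w := by
  have h1 := hA (v + w)
  have h2 := hA v
  have h3 := hA w
  unfold c21_q at h1 h2 h3
  simp only [map_add] at h1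
  linear_combination (h1 - h2 - h3) / 2

omit [FiniteDimensional ℝ E] in
theorem c21_dich {x y z : E →ₗ[ℝ] ℝ} (A : E ≃ₗ[ℝ] E)
    (hA : ∀ v, c21_q x y z (A v) = c21_q x y z v) :
    (∀ v ∈ c21_R x y z, A v ∈ c21_R x y z) ∨ ∀ v ∈ c21_R x y z, -A v ∈ c21_R x y z := by
  by_contra hcon
  rw [not_or] at hcon
  obtain ⟨h1, h2⟩ := hcon
  push Not at h1 h2
  obtain ⟨v, hv, hv'⟩ := h1
  obtain ⟨w, hw, hw'⟩ := h2
  have e1 : -A v ∈ c21_R x y z := (c21_or (by rw [hA]; exact hv.2)).resolve_left hv'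
  have e2 : A w ∈ c21_R x y z := (c21_or (by rw [hA]; exact hw.2)).resolve_right hw'
  have e3 := c21_neg e2 e1
  rw [c21_pol A hA] at e3
  have e4 := c21_cs hw hv
  linarith

omit [FiniteDimensional ℝ E] in
theorem c21_not_both {x y z : E →ₗ[ℝ] ℝ} {v : E} (h1 : v ∈ c21_R x y z) (h2 : -v ∈ c21_R x y z) :
    False := by
  have h3 := h1.1
  have h4 := h2.1
  rw [map_neg] at h4
  linarith

/-- the subgroup which preserves the cone -/
def c21_K (L : Γ →* (E ≃ₗ[ℝ] E)) (K : Subgroup Γ) (x y z : E →ₗ[ℝ] ℝ)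
    (hK : ∀ g ∈ K, ∀ v, c21_q x y z (L g v) = c21_q x y z v) : Subgroup Γ where
  carrier := {g | g ∈ K ∧ ∀ v ∈ c21_R x y z, L g v ∈ c21_R x y z}
  mul_mem' := by
    rintro a b ⟨ha, ha'⟩ ⟨hb, hb'⟩
    refine ⟨K.mul_mem ha hb, fun v hv => ?_⟩
    rw [map_mul]
    exact ha' _ (hb' v hv)
  one_mem' := by
    refine ⟨K.one_mem, fun v hv => ?_⟩
    rw [map_one]
    exact hv
  inv_mem' := by
    rintro a ⟨ha, ha'⟩
    refine ⟨K.inv_mem ha, fun v hv => ?_⟩
    have hi : L a (L a⁻¹ v) = v := by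
      have h1 : L a * L a⁻¹ = 1 := by rw [← map_mul, mul_inv_cancel, map_one]
      exact congrArg (fun f : E ≃ₗ[ℝ] E => f v) h1
    rcases c21_or (v := L a⁻¹ v) (by rw [hK _ (K.inv_mem ha)]; exact hv.2) with h | h
    · exact h
    · exfalso
      have h1 := ha' _ h
      rw [map_neg, hi] at h1
      exact c21_not_both hv h1

theorem c21_core (L : Γ →* (E ≃ₗ[ℝ] E)) (K : Subgroup Γ) (hfin : K.FiniteIndex)
    (x y z : E →ₗ[ℝ] ℝ) (hK : ∀ g ∈ K, ∀ v, c21_q x y z (L g v) = c21_q x y z v)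
    (h0 : ∀ v, x v = 0 → y v = 0 → z v = 0 → v = 0) (e : E) (he1 : x e = 1) (he2 : y e = 0)
    (he3 : z e = 0) :
    ∃ (K' : Subgroup Γ) (R : Set E), K'.FiniteIndex ∧ IsOpen R ∧ Convex ℝ R ∧ R.Nonempty ∧
      (∀ v ∈ R, ∀ t : ℝ, 0 < t → t • v ∈ R) ∧ (∀ g ∈ K', ∀ v ∈ R, L g v ∈ R) ∧
      ∀ v ∈ closure R, -v ∈ closure R → v = 0 := by
  have he : e ∈ c21_R x y z := by
    refine ⟨by rw [he1]; exact one_pos, ?_⟩
    unfold c21_q
    rw [he1, he2, he3]
    norm_num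
  have cx : Continuous x := x.continuous_of_finiteDimensional
  have cy : Continuous y := y.continuous_of_finiteDimensional
  have cz : Continuous z := z.continuous_of_finiteDimensional
  have cq : Continuous (c21_q x y z) := by
    unfold c21_q
    fun_prop
  refine ⟨c21_K L K x y z hK, c21_R x y z, ?_, ?_, ?_, ⟨e, he⟩, ?_, fun g hg => hg.2, ?_⟩
  · -- finite index
    have hle : c21_K L K x y z hK ≤ K := fun g hg => hg.1
    refine ⟨?_⟩
    rw [← Subgroup.relIndex_mul_index hle]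
    refine mul_ne_zero ?_ hfin.index_ne_zero
    by_cases hall : K ≤ c21_K L K x y z hK
    · rw [Subgroup.relIndex_eq_one.2 hall]
      exact one_ne_zero
    · obtain ⟨h, hh, hh'⟩ := SetLike.not_le_iff_exists.1 hall
      have h2 : (c21_K L K x y z hK).relIndex K = 2 := by
        rw [Subgroup.relIndex_eq_two_iff_exists_notMem_and]
        refine ⟨h, hh, hh', fun b hb => ?_⟩
        have hneg : ∀ g ∈ K, g ∉ c21_K L K x y z hK →
            ∀ v ∈ c21_R x y z, -L g v ∈ c21_R x y z := by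
          intro g hg hg'
          exact (c21_dich (L g) (hK g hg)).resolve_left fun hcon => hg' ⟨hg, hcon⟩
        by_cases hbK : b ∈ c21_K L K x y z hK
        · exact Or.inr hbK
        · left
          refine ⟨K.mul_mem hb hh, fun v hv => ?_⟩
          have e1 := hneg h hh hh' v hv
          have e2 := hneg b hb hbK _ e1
          rw [map_neg, neg_neg] at e2
          rw [map_mul]
          exact e2
      rw [h2]
      norm_num
  · exact (isOpen_lt continuous_const cx).inter (isOpen_lt continuous_const cq)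
  · rw [convex_iff_forall_pos]
    intro v hv w hw a b ha hb _
    have h1 := c21_cs hv hw
    obtain ⟨v1, v2⟩ := hv
    obtain ⟨w1, w2⟩ := hw
    refine ⟨?_, ?_⟩
    · rw [map_add, map_smul, map_smul, smul_eq_mul, smul_eq_mul]
      positivity
    · have h2 : c21_q x y z (a • v + b • w) = a ^ 2 * c21_q x y z v + b ^ 2 * c21_q x y z w +
          2 * (a * b) * (x v * x w - y v * y w - z v * z w) := by
        unfold c21_q
        simp only [map_add, map_smul, smul_eq_mul]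
        ring
      rw [h2]
      positivity
  · intro v hv t ht
    refine ⟨?_, ?_⟩
    · rw [map_smul, smul_eq_mul]
      exact mul_pos ht hv.1
    · have h2 : c21_q x y z (t • v) = t ^ 2 * c21_q x y z v := by
        unfold c21_q
        simp only [map_smul, smul_eq_mul]
        ring
      rw [h2]
      exact mul_pos (by positivity) hv.2
  · intro v hv hv'
    have hcl : closure (c21_R x y z) ⊆ {v | 0 ≤ x v ∧ 0 ≤ c21_q x y z v} := by
      refine closure_minimal (fun v hv => ⟨hv.1.le, hv.2.le⟩) ?_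
      exact (isClosed_le continuous_const cx).inter (isClosed_le continuous_const cq)
    obtain ⟨h1, h2⟩ := hcl hv
    obtain ⟨h3, -⟩ := hcl hv'
    rw [map_neg] at h3
    have hx : x v = 0 := le_antisymm (by linarith) h1
    unfold c21_q at h2
    rw [hx] at h2
    have hy : y v = 0 := by
      have : y v ^ 2 = 0 := le_antisymm (by nlinarith [sq_nonneg (z v)]) (sq_nonneg _)
      exact pow_eq_zero_iff (two_ne_zero) |>.1 this
    have hz : z v = 0 := by
      have : z v ^ 2 = 0 := le_antisymm (by nlinarith [sq_nonneg (y v)]) (sq_nonneg _)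
      exact pow_eq_zero_iff (two_ne_zero) |>.1 this
    exact h0 v hx hy hz

end c21sec

theorem c21_diag {E : Type} [AddCommGroup E] [Module ℝ E] [FiniteDimensional ℝ E]
    (hE : finrank ℝ E = 3) (B : E →ₗ[ℝ] E →ₗ[ℝ] ℝ) (hsymm : ∀ v w, B v w = B w v)
    (hker : LinearMap.ker B = ⊥) :
    ∃ (Φ : E ≃ₗ[ℝ] (Fin 3 → ℝ)) (w : Fin 3 → ℝ), (∀ i, w i = -1 ∨ w i = 1) ∧
      ∀ v, B v v = ∑ i, w i * (Φ v i) ^ 2 := by
  have key : ∀ n : ℕ, n = 3 → (∃ w : Fin n → ℝ, (∀ i, w i = -1 ∨ w i = 1) ∧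
      QuadraticMap.Equivalent (LinearMap.BilinMap.toQuadraticMap B)
        (QuadraticMap.weightedSumSquares ℝ w)) →
      ∃ (Φ : E ≃ₗ[ℝ] (Fin 3 → ℝ)) (w : Fin 3 → ℝ), (∀ i, w i = -1 ∨ w i = 1) ∧
      ∀ v, B v v = ∑ i, w i * (Φ v i) ^ 2 := by
    rintro n rfl ⟨w, hw, ⟨Φ⟩⟩
    refine ⟨Φ.toLinearEquiv, w, hw, fun v => ?_⟩
    have h1 := Φ.map_app v
    rw [QuadraticMap.weightedSumSquares_apply] at h1
    have h2 : LinearMap.BilinMap.toQuadraticMap B v = B v v := rfl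
    rw [h2] at h1
    rw [← h1]
    refine Finset.sum_congr rfl fun i _ => ?_
    rw [smul_eq_mul, sq]
    rfl
  refine key _ hE (QuadraticForm.equivalent_one_neg_one_weighted_sum_squared _ ?_)
  have h1 : QuadraticMap.associated (R := ℝ) (LinearMap.BilinMap.toQuadraticMap B) = B := by
    refine QuadraticMap.associated_left_inverse ℝ ?_
    intro v w
    exact hsymm v w
  rw [h1]
  intro v hv
  have h2 : v ∈ LinearMap.ker B := by
    rw [LinearMap.mem_ker]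
    ext w
    exact hv w
  rw [hker] at h2
  exact (Submodule.mem_bot ℝ).1 h2

/-- the definite case -/
theorem c21_def {Γ E : Type} [Group Γ] [NormedAddCommGroup E] [NormedSpace ℝ E]
    [FiniteDimensional ℝ E] (L : Γ →* (E ≃ₗ[ℝ] E)) (K : Subgroup Γ) (Φ : E ≃ₗ[ℝ] (Fin 3 → ℝ))
    (hK : ∀ g ∈ K, ∀ v, ∑ i, (Φ (L g v) i) ^ 2 = ∑ i, (Φ v i) ^ 2) :
    ∃ c : ℝ, ∀ g ∈ K, ∀ v, ‖L g v‖ ≤ c * ‖v‖ := by
  set Ψ : E ≃L[ℝ] EuclideanSpace ℝ (Fin 3) :=
    (Φ.trans (WithLp.linearEquiv 2 ℝ (Fin 3 → ℝ)).symm).toContinuousLinearEquiv with hΨ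
  have hn : ∀ v, ‖Ψ v‖ ^ 2 = ∑ i, (Φ v i) ^ 2 := by
    intro v
    rw [EuclideanSpace.norm_sq_eq]
    refine Finset.sum_congr rfl fun i _ => ?_
    rw [Real.norm_eq_abs, sq_abs]
    rfl
  refine ⟨‖(Ψ.symm : EuclideanSpace ℝ (Fin 3) →L[ℝ] E)‖ * ‖(Ψ : E →L[ℝ] EuclideanSpace ℝ (Fin 3))‖,
    fun g hg v => ?_⟩
  have h1 : ‖Ψ (L g v)‖ = ‖Ψ v‖ := by
    have h2 : ‖Ψ (L g v)‖ ^ 2 = ‖Ψ v‖ ^ 2 := by rw [hn, hn, hK g hg v]
    exact (pow_left_inj₀ (norm_nonneg _) (norm_nonneg _) two_ne_zero).1 h2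
  calc ‖L g v‖ = ‖(Ψ.symm : EuclideanSpace ℝ (Fin 3) →L[ℝ] E) (Ψ (L g v))‖ := by simp
    _ ≤ ‖(Ψ.symm : EuclideanSpace ℝ (Fin 3) →L[ℝ] E)‖ * ‖Ψ (L g v)‖ :=
        ContinuousLinearMap.le_opNorm _ _
    _ = ‖(Ψ.symm : EuclideanSpace ℝ (Fin 3) →L[ℝ] E)‖ * ‖Ψ v‖ := by rw [h1]
    _ ≤ ‖(Ψ.symm : EuclideanSpace ℝ (Fin 3) →L[ℝ] E)‖ *
        (‖(Ψ : E →L[ℝ] EuclideanSpace ℝ (Fin 3))‖ * ‖v‖) := by
        gcongr
        exact (Ψ : E →L[ℝ] EuclideanSpace ℝ (Fin 3)).le_opNorm v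
    _ = _ := by ring

/-- **QUADRATIC FORMS.** -/
theorem t_c21 : S_c21 := by
  intro Γ E _ _ _ _ hE L K hfin B hsymm hker hK
  obtain ⟨Φ, w, hw, hB⟩ := c21_diag hE B hsymm hker
  have hq : ∀ g ∈ K, ∀ v, ∑ i, w i * (Φ (L g v) i) ^ 2 = ∑ i, w i * (Φ v i) ^ 2 := by
    intro g hg v
    rw [← hB, ← hB]
    exact hK g hg v v
  -- the indefinite case
  have hind : ∀ (σ : ℝ) (i j k : Fin 3), σ ≠ 0 → (∀ f : Fin 3 → ℝ, ∑ l, f l = f i + f j + f k) →
      i ≠ j → i ≠ k → (∀ l, l = i ∨ l = j ∨ l = k) → w i = σ → w j = -σ → w k = -σ →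
      ∃ (K' : Subgroup Γ) (R : Set E), K'.FiniteIndex ∧ IsOpen R ∧ Convex ℝ R ∧ R.Nonempty ∧
        (∀ v ∈ R, ∀ t : ℝ, 0 < t → t • v ∈ R) ∧ (∀ g ∈ K', ∀ v ∈ R, L g v ∈ R) ∧
        ∀ v ∈ closure R, -v ∈ closure R → v = 0 := by
    intro σ i j k hσ hsum hij hik hall hwi hwj hwk
    refine c21_core L K hfin ((LinearMap.proj i).comp Φ.toLinearMap)
      ((LinearMap.proj j).comp Φ.toLinearMap) ((LinearMap.proj k).comp Φ.toLinearMap) ?_ ?_
      (Φ.symm (Pi.single i 1)) ?_ ?_ ?_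
    · intro g hg v
      have h1 := hq g hg v
      rw [hsum, hsum, hwi, hwj, hwk] at h1
      show (Φ (L g v) i) ^ 2 - (Φ (L g v) j) ^ 2 - (Φ (L g v) k) ^ 2 =
        (Φ v i) ^ 2 - (Φ v j) ^ 2 - (Φ v k) ^ 2
      apply mul_left_cancel₀ hσ
      linear_combination h1
    · intro v h1 h2 h3
      have h4 : Φ v = 0 := by
        funext l
        rcases hall l with rfl | rfl | rfl
        · exact h1
        · exact h2
        · exact h3
      exact (LinearEquiv.map_eq_zero_iff Φ).1 h4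
    · show Φ (Φ.symm (Pi.single i 1)) i = 1
      rw [LinearEquiv.apply_symm_apply, Pi.single_eq_same]
    · show Φ (Φ.symm (Pi.single i 1)) j = 0
      rw [LinearEquiv.apply_symm_apply, Pi.single_eq_of_ne (Ne.symm hij)]
    · show Φ (Φ.symm (Pi.single i 1)) k = 0
      rw [LinearEquiv.apply_symm_apply, Pi.single_eq_of_ne (Ne.symm hik)]
  -- the definite case
  have hdef : ∀ σ : ℝ, σ ≠ 0 → (∀ i, w i = σ) → ∃ c : ℝ, ∀ g ∈ K, ∀ v, ‖L g v‖ ≤ c * ‖v‖ := by
    intro σ hσ hwσ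
    refine c21_def L K Φ fun g hg v => ?_
    have h1 := hq g hg v
    simp only [hwσ] at h1
    rw [← Finset.mul_sum, ← Finset.mul_sum] at h1
    exact mul_left_cancel₀ hσ h1
  have s012 : ∀ f : Fin 3 → ℝ, ∑ l, f l = f 0 + f 1 + f 2 := fun f => Fin.sum_univ_three f
  have s120 : ∀ f : Fin 3 → ℝ, ∑ l, f l = f 1 + f 2 + f 0 := fun f => by
    rw [Fin.sum_univ_three]; ring
  have s201 : ∀ f : Fin 3 → ℝ, ∑ l, f l = f 2 + f 0 + f 1 := fun f => by
    rw [Fin.sum_univ_three]; ring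
  rcases hw 0 with h0 | h0 <;> rcases hw 1 with h1 | h1 <;> rcases hw 2 with h2 | h2
  · exact Or.inl (hdef (-1) (by norm_num) (by intro i; fin_cases i <;> assumption))
  · exact Or.inr (hind 1 2 0 1 (by norm_num) s201 (by decide) (by decide) (by decide) h2 h0 h1)
  · exact Or.inr (hind 1 1 2 0 (by norm_num) s120 (by decide) (by decide) (by decide) h1 h2 h0)
  · exact Or.inr (hind (-1) 0 1 2 (by norm_num) s012 (by decide) (by decide) (by decide) h0
      (by rw [h1, neg_neg]) (by rw [h2, neg_neg]))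
  · exact Or.inr (hind 1 0 1 2 (by norm_num) s012 (by decide) (by decide) (by decide) h0 h1 h2)
  · exact Or.inr (hind (-1) 1 2 0 (by norm_num) s120 (by decide) (by decide) (by decide) h1
      (by rw [h2, neg_neg]) (by rw [h0, neg_neg]))
  · exact Or.inr (hind (-1) 2 0 1 (by norm_num) s201 (by decide) (by decide) (by decide) h2
      (by rw [h0, neg_neg]) (by rw [h1, neg_neg]))
  · exact Or.inl (hdef 1 (by norm_num) (by intro i; fin_cases i <;> assumption))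

end Pool.Agent.H817.PL
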