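import Pool.Agent.H817.PL.Stm2

/-!
Complete affine 3-manifolds: statements of the lemmas, with proofs.
-/

set_option autoImplicit false

namespace Pool.Agent.H817.PL

open Set Filter Topology Module

/-- no proper subspace is invariant under a subgroup of finite index -/
def SIrr {Γ E : Type} [Group Γ] [AddCommGroup E] [Module ℝ E] (L : Γ →* (E ≃ₗ[ℝ] E)) : Prop :=
  ∀ K : Subgroup Γ, K.FiniteIndex → ∀ W : Submodule ℝ E, (∀ g ∈ K, ∀ w ∈ W, L g w ∈ W) →
    W = ⊥ ∨ W = ⊤

/-- COMMUTING NORMAL SUBGROUPS. A family of commuting real linear maps of a space of odd dimension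
has a common real eigenvector (here dimension three: if all maps of the family are scalars, clear;
otherwise some `T` is not a scalar, and `T` has a real eigenvalue `c`; the eigenspace `ker (T - c)`
is invariant under the family, of dimension one or two; if it is one, done; if it is two, the image
of `T - c` is invariant and has dimension one, done). So there are `v ≠ 0` and
`χ : N → ℝ` with `L n v = χ n • v`. The joint eigenspaces `E_χ = {v | ∀ n ∈ N, L n v = χ n • v}` of
the different characters `χ` with `E_χ ≠ 0` are linearly independent, so there are at most three of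
them; `Γ` permutes them (`L k` maps `E_χ` onto `E_χ'`, `χ' n = χ (k⁻¹ n k)`); the stabiliser `K` of
`E_χ` has finite index; by `SIrr` `E_χ` is everything. -/
def S_scal : Prop := ∀ {Γ E : Type} [Group Γ] [AddCommGroup E] [Module ℝ E]
  [FiniteDimensional ℝ E], finrank ℝ E = 3 → ∀ (L : Γ →* (E ≃ₗ[ℝ] E)), SIrr L →
  ∀ N : Subgroup Γ, N.Normal → (∀ a ∈ N, ∀ b ∈ N, ∀ v, L a (L b v) = L b (L a v)) →
  ∀ n ∈ N, ∃ c : ℝ, ∀ v, L n v = c • v

/-- TRANSLATIONS. Let `hol a = (z ↦ z + v)`, `v ≠ 0`. `hol (γ a γ⁻¹)` is the translation by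
`L γ v`. The span of the `L γ v` is invariant, so it is `E`: choose `γ i`, `i : Fin 3`, such that the
`v i = L (γ i) v` are a basis, `a i = γ i a (γ i)⁻¹`. For `z : E` there are integers `m i` such that
`z - ∑ m i v i` is in the compact set `Q = {∑ t i v i | 0 ≤ t i ≤ 1}`. So every `γ : Γ` is
`t⁻¹ * f` where `t` is a product of powers of the `a i` and `hol f 0 ∈ Q`; by `pd` for `Q ∪ {0}` the
set `F` of these `f` is finite. `hol t` is a translation, so the linear part of `hol γ` is the linear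
part of `hol f`: the linear parts of all elements of `Γ` form a finite group; its kernel `K` has finite
index and preserves a line, in contradiction to the hypothesis `hirr`. -/
def S_tr : Prop := ∀ {Γ E : Type} [Group Γ] [NormedAddCommGroup E] [NormedSpace ℝ E]
  [FiniteDimensional ℝ E], finrank ℝ E = 3 → ∀ (hol : Γ →* (E ≃ᵃ[ℝ] E)), Dom hol Set.univ →
  (∀ K : Subgroup Γ, K.FiniteIndex → ∀ W : Submodule ℝ E,
    (∀ g ∈ K, ∀ w ∈ W, (hol g).linear w ∈ W) → W = ⊥ ∨ W = ⊤) →
  ∀ (a : Γ) (v : E), v ≠ 0 → (∀ z, hol a z = z + v) → False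

/-- QUADRATIC FORMS. By Sylvester's law (`LinearMap.BilinForm`/`QuadraticForm` diagonalisation) there
is a basis `e` with `B (e i) (e j) = 0` for `i ≠ j` and `B (e i) (e i) ∈ {1, -1}`. If all signs are
equal, `K` preserves a norm, so it is bounded. Otherwise replace `B` by `-B` such that exactly one sign
is `+1`: `B = x0² - x1² - x2²` in coordinates. Let `R = {x | 0 < x 0, x 1 ^ 2 + x 2 ^ 2 < x 0 ^ 2}`. It
is an open convex cone, `closure R ∩ - closure R = 0`, and every `g ∈ K` maps `R` to `R` or to `-R`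
(`R ∪ -R = {B v v > 0}`, `R` is connected, or: `B v w > 0` for `v, w ∈ R`). Let `K'` be the set of all
`g ∈ K` which map `R` to `R`, of index at most two in `K` (if `K` preserves `-B`, it preserves `B`). -/
def S_c21 : Prop := ∀ {Γ E : Type} [Group Γ] [NormedAddCommGroup E] [NormedSpace ℝ E]
  [FiniteDimensional ℝ E], finrank ℝ E = 3 → ∀ (L : Γ →* (E ≃ₗ[ℝ] E)) (K : Subgroup Γ),
  K.FiniteIndex → ∀ B : E →ₗ[ℝ] E →ₗ[ℝ] ℝ, (∀ v w, B v w = B w v) → LinearMap.ker B = ⊥ →
  (∀ g ∈ K, ∀ v w, B (L g v) (L g w) = B v w) →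
  (∃ c : ℝ, ∀ g ∈ K, ∀ v, ‖L g v‖ ≤ c * ‖v‖) ∨
  ∃ (K' : Subgroup Γ) (R : Set E), K'.FiniteIndex ∧ IsOpen R ∧ Convex ℝ R ∧ R.Nonempty ∧
    (∀ v ∈ R, ∀ t : ℝ, 0 < t → t • v ∈ R) ∧ (∀ g ∈ K', ∀ v ∈ R, L g v ∈ R) ∧
    ∀ v ∈ closure R, -v ∈ closure R → v = 0

end Pool.Agent.H817.PL
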