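import Pool.Agent.H817.PL.Fin
import Pool.Agent.H817.PL.Stm3

/-!
Complete affine 3-manifolds have virtually reducible linear holonomy.
-/

set_option autoImplicit false
set_option linter.unusedSectionVars false

namespace Pool.Agent.H817.PL

open Set Filter Topology Module
open Pool.Agent.W689.Mk

section
variable {X Γ E : Type} [TopologicalSpace X] [T2Space X] [SecondCountableTopology X]
  [ConnectedSpace X] [Group Γ] [MulAction Γ X] [NormedAddCommGroup E]
  [NormedSpace ℝ E] [FiniteDimensional ℝ E] {dev : X → E} {hol : Γ →* (E ≃ᵃ[ℝ] E)}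

/-- a point of the affine space with infinite stabiliser -/
theorem fix_finite (D : AffData X Γ E dev hol) (hc : IsHomeomorph dev) (p : E) :
    {γ : Γ | hol γ p = p}.Finite := by
  obtain ⟨x, rfl⟩ := hc.surjective p
  refine (D.pd {x} isCompact_singleton).subset ?_
  intro γ hγ
  refine ⟨x, rfl, ?_⟩
  rw [mem_singleton_iff]
  apply hc.injective
  rw [D.equi]
  exact hγ

theorem fix_pow (D : AffData X Γ E dev hol) (hc : IsHomeomorph dev) (γ : Γ) (p : E)
    (hp : hol γ p = p) (hinj : Function.Injective fun n : ℕ => γ ^ n) : False := by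
  have h1 : ∀ n : ℕ, hol (γ ^ n) p = p := by
    intro n
    induction n with
    | zero => rw [pow_zero, map_one]; rfl
    | succ n ih =>
      rw [pow_succ, map_mul]
      show hol (γ ^ n) (hol γ p) = p
      rw [hp, ih]
  exact Set.infinite_range_of_injective hinj
    ((fix_finite D hc p).subset (by rintro _ ⟨n, rfl⟩; exact h1 n))

/-- the linear holonomy of complete manifolds is virtually reducible -/
theorem not_irr (hscal : S_scal) (htr : S_tr) (hc21 : S_c21) (D : AffData X Γ E dev hol)
    (h3 : finrank ℝ E = 3) (hc : IsHomeomorph dev) : ¬ PH.StrIrr (PH.L hol) := by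
  intro hs
  have hinj := hc.injective
  have hinf := PH.infinite_of_strIrr h3 hs
  have hDom : Dom hol Set.univ := by
    have h := dom_of D hinj
    rwa [hc.surjective.range_eq] at h
  obtain ⟨x0⟩ : Nonempty X := inferInstance
  -- the linear holonomy is discrete with finite kernel
  have hprop : ∀ R : ℝ, {γ : Γ | ∀ v, ‖lin hol γ v‖ ≤ R * ‖v‖}.Finite := by
    intro R
    by_contra hcon
    obtain ⟨N, hN, hcomm, a, ha, ha1⟩ := RB.abelian_of_not_proper D hinj x0 R hcon
    have hNc : ∀ a ∈ N, ∀ b ∈ N, ∀ v, PH.L hol a (PH.L hol b v) = PH.L hol b (PH.L hol a v) := by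
      intro a ha b hb v
      rw [← LinearEquiv.mul_apply, ← LinearEquiv.mul_apply]
      congr 1
      show AffineEquiv.linearHom (hol a) * AffineEquiv.linearHom (hol b) =
        AffineEquiv.linearHom (hol b) * AffineEquiv.linearHom (hol a)
      have := congrArg AffineEquiv.linearHom (hcomm a ha b hb)
      rwa [map_mul, map_mul] at this
    obtain ⟨c, hcv⟩ := hscal h3 (PH.L hol) hs N hN hNc a ha
    have hcv' : ∀ v, lin hol a v = c • v := hcv
    have hE : Nontrivial E := Module.nontrivial_of_finrank_pos (R := ℝ) (by omega)
    have haff : ∀ z, hol a z = c • z + hol a 0 := by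
      intro z
      have h := hol_add (hol := hol) a 0 z
      rw [zero_add, hcv', add_comm] at h
      exact h
    by_cases h1 : c = 1
    · refine htr h3 hol hDom hs a (hol a 0) ?_ fun z => ?_
      · intro h0
        apply ha1
        refine AffineEquiv.ext fun z => ?_
        rw [haff, h0, h1, one_smul, add_zero]
        rfl
      · rw [haff, h1, one_smul]
    · -- a unique fixed point
      obtain ⟨p, hp⟩ : ∃ p : E, p = (1 - c)⁻¹ • hol a 0 := ⟨_, rfl⟩
      have hc1 : 1 - c ≠ 0 := fun h => h1 (by linarith)
      have hfix : hol a p = p := by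
        rw [haff, hp]
        have : c • (1 - c)⁻¹ • hol a 0 + hol a 0 = (c * (1 - c)⁻¹ + 1) • hol a 0 := by
          rw [add_smul, one_smul, smul_smul]
        rw [this]
        congr 1
        field_simp
        ring
      have huniq : ∀ q, hol a q = q → q = p := by
        intro q hq
        have e1 : c • (q - p) = q - p := by
          have e2 : hol a q - hol a p = lin hol a (q - p) := hol_sub a q p
          rw [hq, hfix, hcv'] at e2
          exact e2.symm
        have e3 : (1 - c) • (q - p) = 0 := by
          rw [sub_smul, one_smul, e1, sub_self]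
        rcases smul_eq_zero.1 e3 with h | h
        · exact absurd h hc1
        · exact sub_eq_zero.1 h
      have hall : ∀ γ : Γ, hol γ p = p := by
        intro γ
        obtain ⟨b, hb⟩ : ∃ b : Γ, b = γ * a * γ⁻¹ := ⟨_, rfl⟩
        have hbN : b ∈ N := hb ▸ hN.conj_mem a ha γ
        have hmul : ∀ (g k : Γ) (z : E), hol (g * k) z = hol g (hol k z) := by
          intro g k z
          rw [map_mul]
          rfl
        have hbp : hol b (hol γ p) = hol γ p := by
          rw [hb, hmul, hmul, ← hmul γ⁻¹ γ, inv_mul_cancel, map_one]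
          show hol γ (hol a p) = hol γ p
          rw [hfix]
        -- `b` commutes with `a`, so it fixes `p`
        have hbp' : hol b p = p := by
          apply huniq
          have e1 : hol a (hol b p) = hol b (hol a p) := by
            have := DFunLike.congr_fun (hcomm a ha b hbN) p
            exact this
          rw [e1, hfix]
        -- `b` has a unique fixed point
        have hbl : ∀ v, lin hol b v = c • v := by
          intro v
          rw [hb, lin_mul, lin_mul, hcv']
          have e1 : lin hol γ (c • lin hol γ⁻¹ v) = c • lin hol γ (lin hol γ⁻¹ v) :=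
            (hol γ).linear.map_smul _ _
          rw [e1, ← lin_mul, mul_inv_cancel]
          simp only [lin, map_one]
          rfl
        have e1 : c • (hol γ p - p) = hol γ p - p := by
          have e2 : hol b (hol γ p) - hol b p = lin hol b (hol γ p - p) := hol_sub b _ _
          rw [hbp, hbp', hbl] at e2
          exact e2.symm
        have e3 : (1 - c) • (hol γ p - p) = 0 := by
          rw [sub_smul, one_smul, e1, sub_self]
        rcases smul_eq_zero.1 e3 with h | h
        · exact absurd h hc1
        · exact sub_eq_zero.1 h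
      have hfin := fix_finite D hc p
      have huniv : {γ : Γ | hol γ p = p} = Set.univ := eq_univ_of_forall hall
      rw [huniv] at hfin
      exact Set.infinite_univ hfin
  have hunb : ∀ R : ℝ, ∃ g, R < ‖PH.cl (PH.L hol g)‖ := by
    intro R
    by_contra hcon
    push Not at hcon
    have h1 : {γ : Γ | ∀ v, ‖lin hol γ v‖ ≤ R * ‖v‖} = univ := by
      refine eq_univ_of_forall fun γ v => ?_
      have h2 := (PH.cl (PH.L hol γ)).le_opNorm v
      exact h2.trans (mul_le_mul_of_nonneg_right (hcon γ) (norm_nonneg _))
    have h2 := hprop R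
    rw [h1] at h2
    exact Set.infinite_univ h2
  by_cases hnf : PH.NoForm (PH.L hol)
  · have hpairs : PH.S_pairs := PH.t_pairs PH.t_star
    have hboth : PH.S_both := PH.t_both hpairs PH.t_rank1
    have hreg : PH.S_reg := PH.t_reg PH.t_cubic
    obtain ⟨γ, e, l, hr, h1⟩ := PH.t_mid PH.t_star hboth hreg PH.t_form (PH.L hol) h3 hs hnf
      (PH.L_det D) hunb
    have hprod : |l 0| * (|l 1| * |l 2|) = 1 := by
      have := PH.L_det D γ
      rw [PH.det_reg hr, abs_mul, abs_mul] at this
      rw [← this]
      ring
    have hl0 : 0 < |l 0| := abs_pos.2 (hr.ne 0)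
    have hl1 : 0 < |l 1| := abs_pos.2 (hr.ne 1)
    have hl2 : 0 < |l 2| := abs_pos.2 (hr.ne 2)
    have h0' := hr.h0
    have h1' := hr.h1
    have hgt : 1 < |l 0| := by
      by_contra hcon
      push Not at hcon
      have a1 : |l 1| < 1 := h0'.trans_le hcon
      have a2 : |l 2| < 1 := h1'.trans a1
      have a3 : |l 1| * |l 2| < 1 := by nlinarith
      nlinarith [mul_pos hl1 hl2]
    have hlt : |l 2| < 1 := by
      by_contra hcon
      push Not at hcon
      have a1 : 1 < |l 1| := hcon.trans_lt h1'
      have a3 : 1 ≤ |l 1| * |l 2| := by nlinarith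
      nlinarith
    have hne : ∀ i, 1 - l i ≠ 0 := by
      intro i h
      have hi : l i = 1 := by linarith
      fin_cases i
      · have : l 0 = 1 := hi
        rw [this, abs_one] at hgt
        exact lt_irrefl _ hgt
      · have : l 1 = 1 := hi
        rw [this, abs_one] at h1
        exact h1 rfl
      · have : l 2 = 1 := hi
        rw [this, abs_one] at hlt
        exact lt_irrefl _ hlt
    -- fixed point
    obtain ⟨p, hp⟩ : ∃ p : E, p = ∑ i, ((1 - l i)⁻¹ * e.coord i (hol γ 0)) • e i := ⟨_, rfl⟩
    have hfix : hol γ p = p := by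
      have h2 : hol γ p = hol γ 0 + lin hol γ p := by
        have := hol_add (hol := hol) γ 0 p
        rwa [zero_add] at this
      have h4 : lin hol γ p = ∑ i, ((1 - l i)⁻¹ * e.coord i (hol γ 0) * l i) • e i := by
        show PH.L hol γ p = _
        rw [hp, map_sum]
        refine Finset.sum_congr rfl fun i _ => ?_
        rw [map_smul, hr.eig, smul_smul]
      have h5 : hol γ 0 = ∑ i, e.coord i (hol γ 0) • e i := (e.sum_repr _).symm
      rw [h2, h4]
      refine (congrArg (fun z => z + ∑ i, ((1 - l i)⁻¹ * e.coord i (hol γ 0) * l i) • e i) h5).trans ?_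
      rw [hp, ← Finset.sum_add_distrib]
      refine Finset.sum_congr rfl fun i _ => ?_
      rw [← add_smul]
      congr 1
      have h6 : (1 - l i) * (1 - l i)⁻¹ = 1 := mul_inv_cancel₀ (hne i)
      linear_combination (-(e.coord i (hol γ 0))) * h6
    refine fix_pow D hc γ p hfix ?_
    intro i j hij
    by_contra hne'
    have hpow : ∀ n : ℕ, PH.L hol (γ ^ n) (e 0) = (l 0) ^ n • e 0 := by
      intro n
      induction n with
      | zero => rw [pow_zero, map_one, pow_zero, one_smul]; rfl
      | succ n ih =>
        rw [pow_succ, map_mul, LinearEquiv.mul_apply, hr.eig, map_smul, ih, smul_smul, pow_succ,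
          mul_comm]
    have hij' : γ ^ i = γ ^ j := hij
    have h6 := hpow i
    rw [hij', hpow j] at h6
    have h7 : (l 0) ^ j = (l 0) ^ i := by
      have := smul_left_injective ℝ (e.ne_zero 0) h6
      exact this
    have h8 : |l 0| ^ j = |l 0| ^ i := by rw [← abs_pow, ← abs_pow, h7]
    exact hne' ((pow_right_injective₀ (by linarith) (ne_of_gt hgt)) h8).symm
  · unfold PH.NoForm at hnf
    push Not at hnf
    obtain ⟨K, hK, B, hsym, hB, hB0⟩ := hnf
    have hker : LinearMap.ker B = ⊥ := by
      rcases hs K hK (LinearMap.ker B) (by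
        intro g hg w hw
        rw [LinearMap.mem_ker] at hw ⊢
        refine LinearMap.ext fun v => ?_
        have h1 : v = PH.L hol g (PH.L hol g⁻¹ v) := by
          rw [← LinearEquiv.mul_apply, ← map_mul, mul_inv_cancel, map_one]
          rfl
        rw [h1, hB g hg, hw]
        rfl) with h | h
      · exact h
      · exact absurd (LinearMap.ker_eq_top.1 h) hB0
    rcases hc21 h3 (PH.L hol) K hK B hsym hker hB with ⟨c, hcb⟩ | ⟨K', R, hK', h1, h2, h4, h5, h6, h7⟩
    · have hfinK : (K : Set Γ).Finite := (hprop c).subset fun g hg v => hcb g hg v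
      have : Finite K := hfinK.to_subtype
      have h8 : Finite Γ := by
        have h9 : K.index ≠ 0 := hK.index_ne_zero
        have h10 := K.card_mul_index
        have h11 : Nat.card Γ ≠ 0 := by
          rw [← h10]
          exact Nat.mul_ne_zero (Nat.card_pos (α := K)).ne' h9
        exact (Nat.card_ne_zero.1 h11).2
      exact not_finite Γ
    · have DL := Pool.Agent.Y449.MK.restrict D K' hK'
      refine npc (t_eqm t_prop) t_dimh DL h3 R ⟨h1, h2, h4, h5, fun g v hv => h6 g.1 g.2 v hv, h7,
        DL.unimod, fun b => ?_⟩
      have h8 := (hprop b).preimage (f := fun g : K' => (g : Γ)) Subtype.val_injective.injOn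
      exact h8.subset fun g hg => hg

end

end Pool.Agent.H817.PL
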