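import Pool.Agent.H817.PL.Stm

/-!
Connected limit sets: the proof of `S_conn`.
-/

set_option autoImplicit false

namespace Pool.Agent.H817.PL

open Set Filter Topology Metric

/-- one direction of the almost invariance -/
theorem conn_step {M : Type} [MetricSpace M] {A B : Set M} {δ : ℝ} (hδ : 0 < δ)
    (hd : Disjoint (thickening δ A) (thickening δ B)) {u v : M} (huv : dist u v < δ / 2)
    (hu : u ∈ thickening (δ / 2) A) (hv : v ∈ thickening (δ / 2) A ∪ thickening (δ / 2) B) :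
    v ∈ thickening (δ / 2) A := by
  rcases hv with hv | hv
  · exact hv
  · exfalso
    rw [mem_thickening_iff] at hu hv
    obtain ⟨a, ha, hua⟩ := hu
    obtain ⟨b, hb, hvb⟩ := hv
    have h1 : u ∈ thickening δ A := mem_thickening_iff.2 ⟨a, ha, by linarith⟩
    have h2 : u ∈ thickening δ B := mem_thickening_iff.2 ⟨b, hb, by
      have := dist_triangle u v b
      linarith⟩
    exact (Set.disjoint_left.1 hd h1 h2)

theorem t_conn : S_conn := by
  intro G _ M _ P Y hG hP h1 h2 h3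
  rw [isPreconnected_closed_iff]
  intro t t' ht ht' hPt hx hy
  by_contra hne
  rw [Set.not_nonempty_iff_eq_empty] at hne
  obtain ⟨x, hxP, hxt⟩ := hx
  obtain ⟨y, hyP, hyt⟩ := hy
  have hdis : Disjoint (P ∩ t) (P ∩ t') := by
    rw [Set.disjoint_left]
    rintro z ⟨hzP, hzt⟩ ⟨-, hzt'⟩
    have : z ∈ P ∩ (t ∩ t') := ⟨hzP, hzt, hzt'⟩
    rw [hne] at this
    exact this
  obtain ⟨δ, hδ, hd⟩ := hdis.exists_thickenings (hP.inter_right ht) (hP.inter_right ht').isClosed
  have hδ2 : 0 < δ / 2 := half_pos hδ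
  have hnear : ∀ g, Metric.infDist (Y g) P < δ / 2 →
      Y g ∈ thickening (δ / 2) (P ∩ t) ∪ thickening (δ / 2) (P ∩ t') := by
    intro g hg
    obtain ⟨z, hzP, hz⟩ := (Metric.infDist_lt_iff ⟨x, hxP⟩).1 hg
    rcases hPt hzP with hzt | hzt
    · exact Or.inl (mem_thickening_iff.2 ⟨z, ⟨hzP, hzt⟩, hz⟩)
    · exact Or.inr (mem_thickening_iff.2 ⟨z, ⟨hzP, hzt⟩, hz⟩)
  have hS : ∀ s : G, {g | ¬ (g ∈ {g | Y g ∈ thickening (δ / 2) (P ∩ t)} ↔
      g * s ∈ {g | Y g ∈ thickening (δ / 2) (P ∩ t)})}.Finite := by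
    intro s
    have f1 := h1 (δ / 2) hδ2
    have f2 : ((fun g => g * s) ⁻¹' {g | δ / 2 ≤ Metric.infDist (Y g) P}).Finite :=
      f1.preimage (mul_left_injective s).injOn
    have f3 := h2 s (δ / 2) hδ2
    refine ((f1.union f2).union f3).subset ?_
    intro g hg
    by_contra hno
    simp only [Set.mem_union, Set.mem_ofPred_eq, Set.mem_preimage, not_or, not_le] at hno
    obtain ⟨⟨n1, n2⟩, n3⟩ := hno
    apply hg
    have n3' : dist (Y (g * s)) (Y g) < δ / 2 := by rwa [dist_comm]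
    exact ⟨fun h => conn_step hδ hd n3 h (hnear _ n2),
      fun h => conn_step hδ hd n3' h (hnear _ n1)⟩
  rcases hG _ hS with h | h
  · refine (h3 x hxP (δ / 2) hδ2) (h.subset fun g hg => ?_)
    exact mem_thickening_iff.2 ⟨x, ⟨hxP, hxt⟩, hg⟩
  · refine (h3 y hyP (δ / 2) hδ2) (h.subset fun g hg hgA => ?_)
    have k1 : Y g ∈ thickening δ (P ∩ t) :=
      thickening_mono (half_le_self hδ.le) _ hgA
    have k2 : Y g ∈ thickening δ (P ∩ t') := by
      refine thickening_mono (half_le_self hδ.le) _ ?_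
      exact mem_thickening_iff.2 ⟨y, ⟨hyP, hyt⟩, hg⟩
    exact Set.disjoint_left.1 hd k1 k2

end Pool.Agent.H817.PL
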