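import Pool.Agent.H817.PL.Stm

/-! # Countably many corners -/

set_option autoImplicit false

namespace Pool.Agent.H817.PL

open Set Filter Topology Module Matrix

private theorem corner_par {x y c : V3} {i : Fin 3} (hc : c i ≠ 0)
    (hx : ∀ j k, x j * c k = x k * c j) (hy : ∀ j k, y j * c k = y k * c j) (hx0 : x ≠ 0) :
    ∃ t : ℝ, y = t • x := by
  have hxi : x i ≠ 0 := by
    intro h
    refine hx0 (funext fun j => ?_)
    have h1 := hx j i
    rw [h, zero_mul] at h1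
    exact (mul_eq_zero.1 h1).resolve_right hc
  refine ⟨y i / x i, funext fun j => ?_⟩
  rw [Pi.smul_apply, smul_eq_mul, div_mul_eq_mul_div, eq_div_iff hxi]
  have h1 := hx j i
  have h2 := hy j i
  apply mul_right_cancel₀ hc
  linear_combination x i * h2 - y i * h1

private theorem corner_prop {x y a d : V3} (ha : a ≠ 0) (hd : ∀ t : ℝ, d ≠ t • a)
    (hxa : x ⬝ᵥ a = 0) (hxd : x ⬝ᵥ d = 0) (hya : y ⬝ᵥ a = 0) (hyd : y ⬝ᵥ d = 0) (hx0 : x ≠ 0) :
    ∃ t : ℝ, y = t • x := by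
  obtain ⟨c, hc⟩ : ∃ c : V3, c = ![a 1 * d 2 - a 2 * d 1, a 2 * d 0 - a 0 * d 2,
    a 0 * d 1 - a 1 * d 0] := ⟨_, rfl⟩
  have hc0 : c 0 = a 1 * d 2 - a 2 * d 1 := by rw [hc]; rfl
  have hc1 : c 1 = a 2 * d 0 - a 0 * d 2 := by rw [hc]; rfl
  have hc2 : c 2 = a 0 * d 1 - a 1 * d 0 := by rw [hc]; rfl
  have hcne : ∃ i, c i ≠ 0 := by
    by_contra hcon
    push Not at hcon
    have e0 := hcon 0
    have e1 := hcon 1
    have e2 := hcon 2
    rw [hc0] at e0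
    rw [hc1] at e1
    rw [hc2] at e2
    obtain ⟨i, hi⟩ : ∃ i, a i ≠ 0 := by
      by_contra h
      push Not at h
      exact ha (funext h)
    refine hd (d i / a i) (funext fun j => ?_)
    rw [Pi.smul_apply, smul_eq_mul, div_mul_eq_mul_div, eq_div_iff hi]
    fin_cases i <;> fin_cases j <;> simp only [Fin.zero_eta, Fin.mk_one, Fin.reduceFinMk, Fin.isValue] <;>
      linarith
  obtain ⟨i, hi⟩ := hcne
  have key : ∀ z : V3, z ⬝ᵥ a = 0 → z ⬝ᵥ d = 0 → ∀ j k, z j * c k = z k * c j := by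
    intro z hza hzd
    rw [dotProduct, Fin.sum_univ_three] at hza hzd
    intro j k
    fin_cases j <;> fin_cases k <;>
      simp only [Fin.zero_eta, Fin.mk_one, Fin.reduceFinMk, Fin.isValue, hc0, hc1, hc2] <;>
      first
        | rfl
        | linear_combination d 0 * hza - a 0 * hzd
        | linear_combination d 1 * hza - a 1 * hzd
        | linear_combination d 2 * hza - a 2 * hzd
        | linear_combination (-d 0) * hza + a 0 * hzd
        | linear_combination (-d 1) * hza + a 1 * hzd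
        | linear_combination (-d 2) * hza + a 2 * hzd
  exact corner_par hi (key x hxa hxd) (key y hya hyd) hx0

private theorem corner_fin (h1 : S_basic) (h2 : S_dense) (h3 : S_tan) (h4 : S_fib)
    {G : Type} [Group G] (ρ : G →* M3) (hρ : Pos ρ) {δ : ℝ} (hδ : 0 < δ) :
    {p | p ∈ Lam ρ ∧ ∃ q ∈ Lam ρ, q.1 = p.1 ∧ δ ≤ ‖q.2 - p.2‖}.Finite := by
  have hB := h1 ρ hρ
  by_contra hinf
  have hinf' : {p | p ∈ Lam ρ ∧ ∃ q ∈ Lam ρ, q.1 = p.1 ∧ δ ≤ ‖q.2 - p.2‖}.Infinite := hinf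
  obtain ⟨P, hP⟩ : ∃ P : ℕ → V3 × V3, P = fun n => (hinf'.natEmbedding _ n : V3 × V3) := ⟨_, rfl⟩
  have hPinj : Function.Injective P := by
    intro m n hmn
    rw [hP] at hmn
    exact (hinf'.natEmbedding _).injective (Subtype.ext hmn)
  have hPm : ∀ n, P n ∈ Lam ρ ∧ ∃ q ∈ Lam ρ, q.1 = (P n).1 ∧ δ ≤ ‖q.2 - (P n).2‖ := by
    intro n
    rw [hP]
    exact (hinf'.natEmbedding _ n).2
  choose hPL Q hQL hQ1 hQ2 using hPm
  obtain ⟨⟨p, q⟩, hpq, φ, hφ, hlim⟩ := (hB.cpt.prod hB.cpt).tendsto_subseq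
    (x := fun n => (P n, Q n)) fun n => ⟨hPL n, hQL n⟩
  have hp : p ∈ Lam ρ := hpq.1
  have hq : q ∈ Lam ρ := hpq.2
  have hlP : Tendsto (fun n => P (φ n)) atTop (𝓝 p) :=
    ((continuous_fst.tendsto (p, q)).comp hlim)
  have hlQ : Tendsto (fun n => Q (φ n)) atTop (𝓝 q) :=
    ((continuous_snd.tendsto (p, q)).comp hlim)
  have hlP1 : Tendsto (fun n => (P (φ n)).1) atTop (𝓝 p.1) := (continuous_fst.tendsto p).comp hlP
  have hlP2 : Tendsto (fun n => (P (φ n)).2) atTop (𝓝 p.2) := (continuous_snd.tendsto p).comp hlP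
  have hlQ1 : Tendsto (fun n => (Q (φ n)).1) atTop (𝓝 q.1) := (continuous_fst.tendsto q).comp hlQ
  have hlQ2 : Tendsto (fun n => (Q (φ n)).2) atTop (𝓝 q.2) := (continuous_snd.tendsto q).comp hlQ
  have hqp1 : q.1 = p.1 := by
    refine tendsto_nhds_unique hlQ1 (hlP1.congr fun n => ?_)
    exact (hQ1 (φ n)).symm
  have hqp2 : δ ≤ ‖q.2 - p.2‖ :=
    ge_of_tendsto' ((hlQ2.sub hlP2).norm) fun n => hQ2 (φ n)
  -- only finitely many first components are equal to the one of the limit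
  have hfin : {n | (P n).1 = p.1}.Finite := by
    by_contra hI
    have hI' : {n | (P n).1 = p.1}.Infinite := hI
    obtain ⟨e, he⟩ : ∃ e : ℕ ↪ {n | (P n).1 = p.1}, e = hI'.natEmbedding _ := ⟨_, rfl⟩
    have hmem : ∀ k, (p.1, (P (e k)).2) ∈ Lam ρ := by
      intro k
      have h5 : (P (e k)).1 = p.1 := (e k).2
      have h6 : P (e k) = (p.1, (P (e k)).2) := Prod.ext h5 rfl
      exact (congrArg (fun z => z ∈ Lam ρ) h6).mp (hPL (e k))
    have hne : ∀ k l, k ≠ l → (P (e k)).2 ≠ (P (e l)).2 := by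
      intro k l hkl h5
      have h6 : P (e k) = P (e l) := by
        refine Prod.ext ?_ h5
        have h7 : (P (e k)).1 = p.1 := (e k).2
        have h8 : (P (e l)).1 = p.1 := (e l).2
        rw [h7, h8]
      exact hkl (e.injective (Subtype.ext (hPinj h6)))
    rcases h4 ρ hρ p.1 _ _ _ (hmem 0) (hmem 1) (hmem 2) with h | h | h
    · exact hne 0 1 (by omega) h
    · exact hne 0 2 (by omega) h
    · exact hne 1 2 (by omega) h
  obtain ⟨N, hN⟩ : ∃ N, ∀ n, (P (φ (n + N))).1 ≠ p.1 := by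
    have h5 : {n | (P (φ n)).1 = p.1}.Finite :=
      hfin.preimage (f := φ) (hφ.injective.injOn)
    obtain ⟨N, hN⟩ := h5.bddAbove
    refine ⟨N + 1, fun n h => ?_⟩
    have h6 : n + (N + 1) ≤ N := hN h
    omega
  obtain ⟨dir, hdir⟩ : ∃ dir : ℕ → V3, dir = fun n =>
    ‖(P (φ (n + N))).1 - p.1‖⁻¹ • ((P (φ (n + N))).1 - p.1) := ⟨_, rfl⟩
  have hdir1 : ∀ n, dir n ∈ Metric.sphere (0 : V3) 1 := by
    intro n
    rw [mem_sphere_zero_iff_norm, hdir]
    have h5 : ‖(P (φ (n + N))).1 - p.1‖ ≠ 0 := norm_ne_zero_iff.2 (sub_ne_zero.2 (hN n))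
    simp only
    rw [norm_smul, norm_inv, norm_norm, inv_mul_cancel₀ h5]
  obtain ⟨d, -, ψ, hψ, hd⟩ := (isCompact_sphere (0 : V3) 1).tendsto_subseq hdir1
  have hsub : Tendsto (fun n => ψ n + N) atTop atTop :=
    (tendsto_add_atTop_nat N).comp hψ.tendsto_atTop
  have hd' : Tendsto (fun n => ‖(P (φ (ψ n + N))).1 - p.1‖⁻¹ • ((P (φ (ψ n + N))).1 - p.1))
      atTop (𝓝 d) := by
    rw [hdir] at hd
    exact hd
  obtain ⟨hpd, hda⟩ := h3 p.1 p.2 d (fun n => (P (φ (ψ n + N))).1) (fun n => (P (φ (ψ n + N))).2)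
    (hB.flag p hp) (hB.unit1 p hp) (fun n => hB.unit1 _ (hPL _)) (fun n => hB.flag _ (hPL _))
    (fun n => hB.pos p hp _ (hPL _)) (fun n => hN (ψ n)) (hlP1.comp hsub) (hlP2.comp hsub) hd'
  obtain ⟨hqd, -⟩ := h3 p.1 q.2 d (fun n => (P (φ (ψ n + N))).1) (fun n => (Q (φ (ψ n + N))).2)
    (by rw [← hqp1]; exact hB.flag q hq) (hB.unit1 p hp) (fun n => hB.unit1 _ (hPL _))
    (fun n => by
      have h5 := hB.flag _ (hQL (φ (ψ n + N)))
      rw [hQ1] at h5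
      exact h5)
    (fun n => by
      have h5 := hB.pos q hq _ (hQL (φ (ψ n + N)))
      rw [hQ1, hqp1] at h5
      exact h5) (fun n => hN (ψ n)) (hlP1.comp hsub) (hlQ2.comp hsub) hd'
  have hp1 := hB.unit1 p hp
  have hp2 := hB.unit2 p hp
  have hq2 := hB.unit2 q hq
  have ha : p.1 ≠ 0 := by
    intro h
    rw [h, norm_zero] at hp1
    exact zero_ne_one hp1
  have hf : p.2 ≠ 0 := by
    intro h
    rw [h, norm_zero] at hp2
    exact zero_ne_one hp2
  obtain ⟨t, ht⟩ := corner_prop (x := p.2) (y := q.2) ha hda (hB.flag p hp) hpd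
    (by rw [← hqp1]; exact hB.flag q hq) hqd hf
  have ht1 : |t| = 1 := by
    rw [ht, norm_smul, hp2, mul_one, Real.norm_eq_abs] at hq2
    exact hq2
  rcases eq_or_eq_neg_of_abs_eq ht1 with h | h
  · rw [ht, h, one_smul, sub_self, norm_zero] at hqp2
    linarith
  · refine (h2 ρ hρ).1 p hp ?_
    have h5 : (p.1, -p.2) = q := by
      refine Prod.ext hqp1.symm ?_
      rw [ht, h, neg_one_smul]
    rw [h5]
    exact hq

theorem t_corner (h1 : S_basic) (h2 : S_dense) (h3 : S_tan) (h4 : S_fib) : S_corner := by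
  intro G _ ρ hρ
  have hsub : {p | p ∈ Lam ρ ∧ ∃ q ∈ Lam ρ, q.1 = p.1 ∧ q.2 ≠ p.2} ⊆
      ⋃ n : ℕ, {p | p ∈ Lam ρ ∧ ∃ q ∈ Lam ρ, q.1 = p.1 ∧ 1 / ((n : ℝ) + 1) ≤ ‖q.2 - p.2‖} := by
    rintro p ⟨hp, q, hq, hqp, hne⟩
    obtain ⟨n, hn⟩ := exists_nat_one_div_lt (norm_pos_iff.2 (sub_ne_zero.2 hne))
    exact mem_iUnion.2 ⟨n, hp, q, hq, hqp, hn.le⟩
  exact (countable_iUnion fun n : ℕ => (corner_fin h1 h2 h3 h4 ρ hρ
    (by positivity : (0 : ℝ) < 1 / ((n : ℝ) + 1))).countable).mono hsub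

end Pool.Agent.H817.PL
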