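import Pool.Agent.H817.PL.Stm

/-!
Density of the orbits of limit flags (task H817-PL-DENSE).
-/

set_option autoImplicit false

namespace Pool.Agent.H817.PL

open Set Filter Topology Module Matrix

theorem dense_e0 (M : M3) : M *ᵥ (Pi.single 0 1 : V3) = fun i => M i 0 := by
  ext i
  simp [Matrix.mulVec]

theorem dense_e2 (M : M3) (a : V3) :
    (Pi.single 2 1 : V3) ⬝ᵥ (M *ᵥ a) = (fun j => M 2 j) ⬝ᵥ a := by
  rw [single_one_dotProduct]
  rfl

theorem dense_one (h1 : S_gen) {G : Type} [Group G] (ρ : G →* M3) (hP : Pos ρ)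
    (Λ : Set (V3 × V3)) (hB : Bas ρ Λ) : ∀ p ∈ Λ, (p.1, -p.2) ∉ Λ := by
  intro p hp hn
  have p1 : p.1 ≠ 0 := by
    intro h
    have := hB.unit1 p hp
    rw [h, norm_zero] at this
    exact zero_ne_one this
  have p2 : p.2 ≠ 0 := by
    intro h
    have := hB.unit2 p hp
    rw [h, norm_zero] at this
    exact zero_ne_one this
  obtain ⟨g, hs, ht⟩ := @h1 G _ ρ hP {((Pi.single 0 1 : V3), p.2)} {(p.1, (Pi.single 2 1 : V3))}
    (by
      intro x hx
      rw [Finset.mem_singleton] at hx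
      subst hx
      exact ⟨by simp, p2⟩)
    (by
      intro x hx
      rw [Finset.mem_singleton] at hx
      subst hx
      exact ⟨p1, by simp⟩)
  have a1 := hs _ (Finset.mem_singleton_self _)
  have a2 := ht _ (Finset.mem_singleton_self _)
  simp only at a1 a2
  rw [dense_e0] at a1
  rw [dense_e2] at a2
  obtain ⟨x, hx⟩ : ∃ x : V3, x = fun i => ρ g i 0 := ⟨_, rfl⟩
  obtain ⟨y, hy⟩ : ∃ y : V3, y = fun j => ρ g⁻¹ 2 j := ⟨_, rfl⟩
  rw [← hx] at a1
  rw [← hy] at a2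
  have x0 : 0 < ‖x‖ := norm_pos_iff.2 (by rintro rfl; simp at a1)
  have y0 : 0 < ‖y‖ := norm_pos_iff.2 (by rintro rfl; simp at a2)
  have hb := hB.base g ‖x‖⁻¹ ‖y‖⁻¹ (by positivity)
    (by rw [← hx, norm_smul, norm_inv, norm_norm, inv_mul_cancel₀ x0.ne'])
    (by rw [← hy, norm_smul, norm_inv, norm_norm, inv_mul_cancel₀ y0.ne'])
  rw [← hx, ← hy] at hb
  have e1 := hB.pos p hp _ hb
  have e2 := hB.pos _ hn _ hb
  simp only [dotProduct_smul, smul_dotProduct, neg_dotProduct, smul_eq_mul] at e1 e2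
  have e3 : (‖x‖⁻¹ * (p.2 ⬝ᵥ x)) * (‖y‖⁻¹ * (y ⬝ᵥ p.1)) = 0 := by
    apply le_antisymm _ e1
    nlinarith
  have e4 : (‖x‖⁻¹ * (p.2 ⬝ᵥ x)) * (‖y‖⁻¹ * (y ⬝ᵥ p.1)) ≠ 0 :=
    mul_ne_zero (mul_ne_zero (inv_ne_zero x0.ne') a1) (mul_ne_zero (inv_ne_zero y0.ne') a2)
  exact e4 e3

theorem dense_norm (x z : ℕ → V3) (q : V3) (μ : ℝ) (r : ℕ → ℝ) (hμ : μ ≠ 0) (hq : ‖q‖ = 1)
    (hx : Tendsto x atTop (𝓝 (μ • q))) (hr : ∀ n, 0 < r n) (hz : ∀ n, z n = r n • x n) :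
    Tendsto (fun n => (μ / |μ| * ‖z n‖⁻¹) • z n) atTop (𝓝 q) ∧ ∀ᶠ n in atTop, z n ≠ 0 := by
  have hq0 : q ≠ 0 := by
    intro h
    rw [h, norm_zero] at hq
    exact zero_ne_one hq
  have h0 : μ • q ≠ 0 := smul_ne_zero hμ hq0
  have ha : |μ| ≠ 0 := abs_ne_zero.2 hμ
  constructor
  · have h1 : ∀ n, (μ / |μ| * ‖z n‖⁻¹) • z n = (μ / |μ| * ‖x n‖⁻¹) • x n := by
      intro n
      rw [hz n, norm_smul, Real.norm_eq_abs, abs_of_pos (hr n), smul_smul]
      congr 1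
      have := (hr n).ne'
      rw [mul_inv]
      field_simp
    simp only [h1]
    have h2 : q = (μ / |μ| * ‖μ • q‖⁻¹) • (μ • q) := by
      rw [norm_smul, hq, mul_one, Real.norm_eq_abs, smul_smul]
      have h3 : μ / |μ| * |μ|⁻¹ * μ = 1 := by
        have h4 : |μ| * |μ| = μ * μ := abs_mul_abs_self μ
        rw [div_mul_eq_mul_div, div_mul_eq_mul_div, div_eq_one_iff_eq ha, mul_assoc, mul_comm _ μ,
          ← mul_assoc, ← h4, mul_assoc, mul_inv_cancel₀ ha, mul_one]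
      rw [h3, one_smul]
    conv_rhs => rw [h2]
    exact ((hx.norm.inv₀ (norm_ne_zero_iff.2 h0)).const_mul _).smul hx
  · filter_upwards [hx.eventually_ne h0] with n hn
    rw [hz n]
    exact smul_ne_zero (hr n).ne' hn

theorem dense_pow {a b : ℝ} (h : |a| < |b|) :
    Tendsto (fun n : ℕ => (a / b) ^ (2 * n)) atTop (𝓝 0) := by
  have hb : 0 < |b| := lt_of_le_of_lt (abs_nonneg _) h
  have h1 : |(a / b) ^ 2| < 1 := by
    rw [abs_pow, abs_div]
    exact pow_lt_one₀ (by positivity) ((div_lt_one hb).2 h) two_ne_zero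
  simpa only [pow_mul] using tendsto_pow_atTop_nhds_zero_of_abs_lt_one h1

theorem dense_dinv {G : Type} [Group G] (ρ : G →* M3) (γ : G) (l : Fin 3 → ℝ)
    (hγ : ρ γ = Matrix.diagonal l) (hl : ∀ i, l i ≠ 0) :
    ρ γ⁻¹ = Matrix.diagonal fun i => (l i)⁻¹ := by
  have h1 : ρ γ⁻¹ * ρ γ = 1 := by rw [← map_mul, inv_mul_cancel, map_one]
  have h2 : Matrix.diagonal l * Matrix.diagonal (fun i => (l i)⁻¹) = (1 : M3) := by
    rw [diagonal_mul_diagonal, ← diagonal_one]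
    congr 1
    ext i
    exact mul_inv_cancel₀ (hl i)
  calc ρ γ⁻¹ = ρ γ⁻¹ * (Matrix.diagonal l * Matrix.diagonal (fun i => (l i)⁻¹)) := by
        rw [h2, mul_one]
    _ = _ := by rw [← mul_assoc, ← hγ, h1, one_mul]

theorem dense_lim0 {G : Type} [Group G] (ρ : G →* M3) (γ k : G) (l : Fin 3 → ℝ)
    (hγ : ρ γ = Matrix.diagonal l) (hl : ∀ i, l i ≠ 0) (h10 : |l 1| < |l 0|)
    (h21 : |l 2| < |l 1|) :
    Tendsto (fun n : ℕ => ((l 0 ^ 2) ^ n)⁻¹ • ρ (γ ^ (2 * n) * k)) atTop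
      (𝓝 (Matrix.diagonal (Pi.single 0 1) * ρ k)) := by
  have h1 : ∀ n : ℕ, ((l 0 ^ 2) ^ n)⁻¹ • ρ (γ ^ (2 * n) * k) =
      Matrix.diagonal (fun i => (l i / l 0) ^ (2 * n)) * ρ k := by
    intro n
    rw [map_mul, map_pow, hγ, diagonal_pow, ← smul_mul_assoc]
    congr 1
    ext i j
    by_cases hij : i = j
    · subst hij
      simp only [Matrix.smul_apply, diagonal_apply_eq, Pi.pow_apply, smul_eq_mul]
      rw [div_pow, ← pow_mul, inv_mul_eq_div]
    · simp [Matrix.smul_apply, diagonal_apply_ne _ hij]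
  simp only [h1]
  have h2 : Tendsto (fun n : ℕ => fun i => (l i / l 0) ^ (2 * n)) atTop
      (𝓝 (Pi.single 0 1 : Fin 3 → ℝ)) := by
    rw [tendsto_pi_nhds]
    intro i
    fin_cases i
    · simp [div_self (hl 0)]
    · simpa using dense_pow h10
    · simpa using dense_pow (h21.trans h10)
  have h3 := ((continuous_id.matrix_diagonal).tendsto (Pi.single 0 1 : Fin 3 → ℝ)).comp h2
  exact h3.mul tendsto_const_nhds

theorem dense_lim2 {G : Type} [Group G] (ρ : G →* M3) (γ k : G) (l : Fin 3 → ℝ)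
    (hγ : ρ γ = Matrix.diagonal l) (hl : ∀ i, l i ≠ 0) (h10 : |l 1| < |l 0|)
    (h21 : |l 2| < |l 1|) :
    Tendsto (fun n : ℕ => (((l 2 ^ 2) ^ n)⁻¹)⁻¹ • ρ (γ ^ (2 * n) * k)⁻¹) atTop
      (𝓝 (ρ k⁻¹ * Matrix.diagonal (Pi.single 2 1))) := by
  have h1 : ∀ n : ℕ, (((l 2 ^ 2) ^ n)⁻¹)⁻¹ • ρ (γ ^ (2 * n) * k)⁻¹ =
      ρ k⁻¹ * Matrix.diagonal (fun i => (l 2 / l i) ^ (2 * n)) := by
    intro n
    have hg : (γ ^ (2 * n))⁻¹ = γ⁻¹ ^ (2 * n) := (inv_pow γ (2 * n)).symm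
    rw [_root_.mul_inv_rev, map_mul, hg, map_pow, dense_dinv ρ γ l hγ hl, diagonal_pow,
      ← mul_smul_comm, inv_inv]
    congr 1
    ext i j
    by_cases hij : i = j
    · subst hij
      simp only [Matrix.smul_apply, diagonal_apply_eq, Pi.pow_apply, smul_eq_mul]
      rw [div_pow, ← pow_mul, inv_pow, div_eq_mul_inv]
    · simp [Matrix.smul_apply, diagonal_apply_ne _ hij]
  simp only [h1]
  have h2 : Tendsto (fun n : ℕ => fun i => (l 2 / l i) ^ (2 * n)) atTop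
      (𝓝 (Pi.single 2 1 : Fin 3 → ℝ)) := by
    rw [tendsto_pi_nhds]
    intro i
    fin_cases i
    · simpa using dense_pow (h21.trans h10)
    · simpa using dense_pow h21
    · simp [div_self (hl 2)]
  have h3 := ((continuous_id.matrix_diagonal).tendsto (Pi.single 2 1 : Fin 3 → ℝ)).comp h2
  exact tendsto_const_nhds.mul h3

theorem dense_v0 (M : M3) (v : V3) :
    (Matrix.diagonal (Pi.single 0 1) * M) *ᵥ v = (M *ᵥ v) 0 • (Pi.single 0 1 : V3) := by
  rw [← mulVec_mulVec]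
  ext i
  rw [mulVec_diagonal]
  fin_cases i <;> simp

theorem dense_v2 (M : M3) (v : V3) :
    v ᵥ* (M * Matrix.diagonal (Pi.single 2 1)) = (v ᵥ* M) 2 • (Pi.single 2 1 : V3) := by
  rw [← vecMul_vecMul]
  ext i
  rw [vecMul_diagonal]
  fin_cases i <;> simp

theorem t_dense (h1 : S_gen) (h2 : S_basic) (h3 : S_lim) : S_dense := by
  intro G _ ρ hP
  have hB := @h2 G _ ρ hP
  have one := dense_one h1 ρ hP (Lam ρ) hB
  refine ⟨one, ?_⟩
  intro p hp q hq ε hε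
  obtain ⟨q', ⟨hq1, hq2, h, c0, d0, hcd, hq'⟩, hqq⟩ := Metric.mem_closure_iff.1 hq (ε / 2)
    (by linarith)
  obtain ⟨γ, l, hγ, h10, h21⟩ := hP.reg
  have hl : ∀ i, l i ≠ 0 := by
    have hd := hP.det γ
    rw [hγ, det_diagonal] at hd
    intro i hi
    rw [Finset.prod_eq_zero (Finset.mem_univ i) hi] at hd
    exact zero_ne_one hd
  have p1 : p.1 ≠ 0 := by
    intro h
    have := hB.unit1 p hp
    rw [h, norm_zero] at this
    exact zero_ne_one this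
  have p2 : p.2 ≠ 0 := by
    intro h
    have := hB.unit2 p hp
    rw [h, norm_zero] at this
    exact zero_ne_one this
  obtain ⟨k, hs, ht⟩ := @h1 G _ ρ hP {(p.1, (Pi.single 0 1 : V3))} {((Pi.single 2 1 : V3), p.2)}
    (by
      intro x hx
      rw [Finset.mem_singleton] at hx
      subst hx
      exact ⟨p1, by simp⟩)
    (by
      intro x hx
      rw [Finset.mem_singleton] at hx
      subst hx
      exact ⟨by simp, p2⟩)
  have a1 := hs _ (Finset.mem_singleton_self _)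
  have a2 := ht _ (Finset.mem_singleton_self _)
  simp only at a1 a2
  rw [single_one_dotProduct] at a1
  rw [dotProduct_mulVec, dotProduct_single_one] at a2
  obtain ⟨α, hα⟩ : ∃ α : ℝ, α = (ρ k *ᵥ p.1) 0 := ⟨_, rfl⟩
  obtain ⟨β, hβ⟩ : ∃ β : ℝ, β = (p.2 ᵥ* ρ k⁻¹) 2 := ⟨_, rfl⟩
  rw [← hα] at a1
  rw [← hβ] at a2
  have hX := dense_lim0 ρ γ k l hγ hl h10 h21
  have hY := dense_lim2 ρ γ k l hγ hl h10 h21
  have l0 : 0 < l 0 ^ 2 := by have := hl 0; positivity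
  have l2 : 0 < l 2 ^ 2 := by have := hl 2; positivity
  have e0 : ‖(Pi.single 0 1 : V3)‖ = 1 := by rw [Pi.norm_single, norm_one]
  have e2 : ‖(Pi.single 2 1 : V3)‖ = 1 := by rw [Pi.norm_single, norm_one]
  -- the sign
  have hs0 : (‖α • (Pi.single 0 1 : V3)‖⁻¹ • (α • (Pi.single 0 1 : V3)),
      ‖β • (Pi.single 2 1 : V3)‖⁻¹ • (β • (Pi.single 2 1 : V3))) ∈ Lam ρ := by
    have h4 := @h3 G _ ρ (Lam ρ) hB (fun n => γ ^ (2 * n) * k) (fun n => (l 0 ^ 2) ^ n)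
      (fun n => ((l 2 ^ 2) ^ n)⁻¹) _ _ (fun n => by positivity) (fun n => by positivity) hX hY p hp
      (by
        rw [dense_v0, ← hα]
        exact smul_ne_zero a1 (by simp))
      (by
        rw [dense_v2, ← hβ]
        exact smul_ne_zero a2 (by simp))
    rw [dense_v0, dense_v2, ← hα, ← hβ] at h4
    exact h4
  have hbase : ((Pi.single 0 1 : V3), (Pi.single 2 1 : V3)) ∈ Lam ρ := by
    have c1 : (fun i => ρ 1 i 0) = (Pi.single 0 1 : V3) := by
      rw [map_one]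
      ext i
      fin_cases i
      · exact one_apply_eq 0
      · exact one_apply_ne (by decide)
      · exact one_apply_ne (by decide)
    have c2 : (fun j => ρ 1⁻¹ 2 j) = (Pi.single 2 1 : V3) := by
      rw [inv_one, map_one]
      ext i
      fin_cases i
      · exact one_apply_ne (by decide)
      · exact one_apply_ne (by decide)
      · exact one_apply_eq 2
    have h4 := hB.base 1 1 1 (by norm_num) (by rw [c1, one_smul, e0]) (by rw [c2, one_smul, e2])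
    rw [c1, c2, one_smul, one_smul] at h4
    exact h4
  have hsign : 0 < α * β := by
    rw [norm_smul, norm_smul, e0, e2, mul_one, mul_one, smul_smul, smul_smul, Real.norm_eq_abs,
      Real.norm_eq_abs] at hs0
    rcases lt_or_gt_of_ne a1 with ha | ha <;> rcases lt_or_gt_of_ne a2 with hb | hb
    · exact mul_pos_of_neg_of_neg ha hb
    · exfalso
      rw [abs_of_neg ha, abs_of_pos hb, inv_mul_cancel₀ hb.ne', inv_neg, neg_mul,
        inv_mul_cancel₀ ha.ne, one_smul] at hs0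
      have h4 := hB.neg _ hs0
      rw [Prod.neg_mk, neg_smul, one_smul, neg_neg] at h4
      exact one _ hbase h4
    · exfalso
      rw [abs_of_pos ha, abs_of_neg hb, inv_mul_cancel₀ ha.ne', inv_neg, neg_mul,
        inv_mul_cancel₀ hb.ne, neg_smul, one_smul, one_smul] at hs0
      exact one _ hbase hs0
    · exact mul_pos ha hb
  -- the limits
  have hc0 : c0 ≠ 0 := by rintro rfl; simp at hcd
  have hd0 : d0 ≠ 0 := by rintro rfl; simp at hcd
  have q1 : α • (fun i => ρ h i 0) = (α / c0) • q'.1 := by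
    rw [hq', smul_smul, div_mul_cancel₀ _ hc0]
  have q2 : β • (fun j => ρ h⁻¹ 2 j) = (β / d0) • q'.2 := by
    rw [hq', smul_smul, div_mul_cancel₀ _ hd0]
  have hx : Tendsto (fun n : ℕ => (ρ h * (((l 0 ^ 2) ^ n)⁻¹ • ρ (γ ^ (2 * n) * k))) *ᵥ p.1) atTop
      (𝓝 ((α / c0) • q'.1)) := by
    have h4 := (tendsto_const_nhds (x := ρ h)).mul hX
    have h5 := ((continuous_id.matrix_mulVec (continuous_const (y := p.1))).tendsto _).comp h4
    refine h5.trans (le_of_eq ?_)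
    congr 1
    rw [← q1, ← dense_e0 (ρ h), id, ← mulVec_mulVec, dense_v0, ← hα, mulVec_smul]
  have hy : Tendsto (fun n : ℕ => p.2 ᵥ* (((((l 2 ^ 2) ^ n)⁻¹)⁻¹ • ρ (γ ^ (2 * n) * k)⁻¹) * ρ h⁻¹))
      atTop (𝓝 ((β / d0) • q'.2)) := by
    have h4 := hY.mul (tendsto_const_nhds (x := ρ h⁻¹))
    have h5 := (((continuous_const (y := p.2)).matrix_vecMul continuous_id).tendsto _).comp h4
    refine h5.trans (le_of_eq ?_)
    congr 1
    rw [← q2, id, ← vecMul_vecMul, dense_v2, ← hβ, smul_vecMul, single_one_vecMul]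
    rfl
  obtain ⟨z, hz⟩ : ∃ z : ℕ → V3, z = fun n => ρ (h * (γ ^ (2 * n) * k)) *ᵥ p.1 := ⟨_, rfl⟩
  obtain ⟨w, hw⟩ : ∃ w : ℕ → V3, w = fun n => p.2 ᵥ* ρ (h * (γ ^ (2 * n) * k))⁻¹ := ⟨_, rfl⟩
  obtain ⟨tz, nz⟩ := dense_norm _ z q'.1 (α / c0) (fun n => (l 0 ^ 2) ^ n) (div_ne_zero a1 hc0) hq1 hx
    (fun n => by positivity) (fun n => by
      have : (l 0 ^ 2) ^ n ≠ 0 := by positivity
      rw [hz, ← smul_mulVec, ← mul_smul_comm, smul_smul, mul_inv_cancel₀ this, one_smul, ← map_mul])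
  obtain ⟨tw, nw⟩ := dense_norm _ w q'.2 (β / d0) (fun n => ((l 2 ^ 2) ^ n)⁻¹)
    (div_ne_zero a2 hd0) hq2 hy
    (fun n => by positivity) (fun n => by
      have : ((l 2 ^ 2) ^ n)⁻¹ ≠ 0 := by positivity
      rw [hw, ← vecMul_smul, ← smul_mul_assoc, smul_smul, mul_inv_cancel₀ this, one_smul,
        ← map_mul, ← _root_.mul_inv_rev])
  have ht := Metric.tendsto_nhds.1 (tz.prodMk_nhds tw) (ε / 2) (by linarith)
  obtain ⟨n, hn1, hn2, hn3⟩ := (ht.and (nz.and nw)).exists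
  refine ⟨h * (γ ^ (2 * n) * k), (α / c0) / |α / c0| * ‖z n‖⁻¹, (β / d0) / |β / d0| * ‖w n‖⁻¹,
    ?_, ?_, ?_, ?_⟩
  · have z0 : 0 < ‖z n‖ := norm_pos_iff.2 hn2
    have w0 : 0 < ‖w n‖ := norm_pos_iff.2 hn3
    have m1 : 0 < |α / c0| := abs_pos.2 (div_ne_zero a1 hc0)
    have m2 : 0 < |β / d0| := abs_pos.2 (div_ne_zero a2 hd0)
    have m3 : 0 < (α / c0) * (β / d0) := by
      rw [div_mul_div_comm]
      exact div_pos hsign hcd
    have m4 : (α / c0) / |α / c0| * ‖z n‖⁻¹ * ((β / d0) / |β / d0| * ‖w n‖⁻¹) =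
        (α / c0) * (β / d0) * (|α / c0|⁻¹ * ‖z n‖⁻¹ * |β / d0|⁻¹ * ‖w n‖⁻¹) := by
      rw [div_eq_mul_inv (α / c0) |α / c0|, div_eq_mul_inv (β / d0) |β / d0|]
      ring
    rw [m4]
    positivity
  · have z0 : 0 < ‖z n‖ := norm_pos_iff.2 hn2
    have m1 : 0 < |α / c0| := abs_pos.2 (div_ne_zero a1 hc0)
    have e : ρ (h * (γ ^ (2 * n) * k)) *ᵥ p.1 = z n := by rw [hz]
    rw [e, norm_smul, norm_mul, norm_div, Real.norm_eq_abs, Real.norm_eq_abs, abs_abs,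
      div_self m1.ne', one_mul, norm_inv, norm_norm, inv_mul_cancel₀ z0.ne']
  · have w0 : 0 < ‖w n‖ := norm_pos_iff.2 hn3
    have m1 : 0 < |β / d0| := abs_pos.2 (div_ne_zero a2 hd0)
    have e : p.2 ᵥ* ρ (h * (γ ^ (2 * n) * k))⁻¹ = w n := by rw [hw]
    rw [e, norm_smul, norm_mul, norm_div, Real.norm_eq_abs, Real.norm_eq_abs, abs_abs,
      div_self m1.ne', one_mul, norm_inv, norm_norm, inv_mul_cancel₀ w0.ne']
  · have e : ρ (h * (γ ^ (2 * n) * k)) *ᵥ p.1 = z n := by rw [hz]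
    have e' : p.2 ᵥ* ρ (h * (γ ^ (2 * n) * k))⁻¹ = w n := by rw [hw]
    rw [e, e']
    have hn1' : dist ((((α / c0) / |α / c0| * ‖z n‖⁻¹) • z n,
        ((β / d0) / |β / d0| * ‖w n‖⁻¹) • w n) : V3 × V3) q' < ε / 2 := hn1
    have t := dist_triangle ((((α / c0) / |α / c0| * ‖z n‖⁻¹) • z n,
        ((β / d0) / |β / d0| * ‖w n‖⁻¹) • w n) : V3 × V3) q' q
    rw [dist_comm q' q] at t
    linarith

end Pool.Agent.H817.PL
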