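import Pool.Agent.H817.PL.Stm2

/-!
# The image of a homogeneous locally Lipschitz map of a cone has measure zero
-/

set_option autoImplicit false

namespace Pool.Agent.H817.PL

open Set Filter Topology Module Matrix

/-- a linear form which is positive on the cone -/
lemma dimh_form {E : Type} [NormedAddCommGroup E] [NormedSpace ℝ E] [FiniteDimensional ℝ E]
    (hE : finrank ℝ E = 3) (R : Set E) (hop : IsOpen R) (hcv : Convex ℝ R)
    (hsal : ∀ v ∈ closure R, -v ∈ closure R → v = 0) (hsm : ∀ v ∈ R, ∀ t : ℝ, 0 < t → t • v ∈ R) :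
    ∃ θ : E →L[ℝ] ℝ, ∀ v ∈ R, 0 < θ v := by
  have h0 : (0 : E) ∉ R := by
    intro h0
    have huniv : ∀ v : E, v ∈ R := by
      intro v
      have hc : Tendsto (fun t : ℝ => t • v) (𝓝[>] 0) (𝓝 0) := by
        have h1 : Continuous (fun t : ℝ => t • v) := by fun_prop
        have h2 := h1.tendsto 0
        rw [zero_smul] at h2
        exact h2.mono_left nhdsWithin_le_nhds
      have hev : ∀ᶠ t in 𝓝[>] (0 : ℝ), t • v ∈ R := hc.eventually (hop.mem_nhds h0)
      obtain ⟨t, htR, ht⟩ := (hev.and self_mem_nhdsWithin).exists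
      have ht0 : (0 : ℝ) < t := ht
      have h3 := hsm (t • v) htR t⁻¹ (inv_pos.mpr ht0)
      rwa [smul_smul, inv_mul_cancel₀ (ne_of_gt ht0), one_smul] at h3
    have hz : ∀ v : E, v = 0 := fun v => hsal v (subset_closure (huniv v)) (subset_closure (huniv (-v)))
    have hsub : Subsingleton E := ⟨fun a b => by rw [hz a, hz b]⟩
    have := finrank_zero_of_subsingleton (R := ℝ) (M := E)
    omega
  obtain ⟨φ, hφ⟩ := geometric_hahn_banach_open_point hcv hop h0
  refine ⟨-φ, ?_⟩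
  intro v hv
  have h1 := hφ v hv
  rw [map_zero] at h1
  show 0 < - φ v
  linarith

theorem t_dimh : S_dimh := by
  intro E _ _ _ _ _ hE R hop hcv hsal hsm C hCR f hf hL
  by_cases hCe : C = ∅
  · rw [hCe, image_empty]
    exact MeasureTheory.measure_empty
  obtain ⟨θ, hθ⟩ := dimh_form hE R hop hcv hsal hsm
  obtain ⟨c0, hc0⟩ := nonempty_iff_ne_empty.mpr hCe
  have hθc0 : 0 < θ c0 := hθ c0 (hCR hc0)
  set v0 : E := (θ c0)⁻¹ • c0 with hv0
  have hθv0 : θ v0 = 1 := by
    rw [hv0, map_smul, smul_eq_mul, inv_mul_cancel₀ (ne_of_gt hθc0)]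
  set N : Submodule ℝ E := LinearMap.ker (θ : E →ₗ[ℝ] ℝ) with hN
  have hθne : (θ : E →ₗ[ℝ] ℝ) ≠ 0 := by
    intro h
    have h1 : (θ : E →ₗ[ℝ] ℝ) v0 = 0 := by rw [h]; rfl
    have h2 : (θ : E →ₗ[ℝ] ℝ) v0 = 1 := hθv0
    rw [h1] at h2
    exact zero_ne_one h2
  have hfin : finrank ℝ N = 2 := by
    have h := Module.Dual.finrank_ker_add_one_of_ne_zero (f := (θ : E →ₗ[ℝ] ℝ)) hθne
    have h' : finrank ℝ N + 1 = finrank ℝ E := h
    omega
  set S : Set N := {k | v0 + (k : E) ∈ C} with hS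
  have himg : f '' C ⊆ (fun k : N => f (v0 + (k : E))) '' S := by
    rintro _ ⟨v, hv, rfl⟩
    have hθv : 0 < θ v := hθ v (hCR hv)
    have h1 := hf v hv (θ v)⁻¹ (inv_pos.mpr hθv)
    have h2 : (θ v)⁻¹ • v - v0 ∈ N := by
      rw [hN, LinearMap.mem_ker]
      show θ ((θ v)⁻¹ • v - v0) = 0
      rw [map_sub, map_smul, hθv0, smul_eq_mul, inv_mul_cancel₀ (ne_of_gt hθv), sub_self]
    refine ⟨⟨(θ v)⁻¹ • v - v0, h2⟩, ?_, ?_⟩
    · show v0 + ((θ v)⁻¹ • v - v0) ∈ C
      rw [add_sub_cancel]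
      exact h1.1
    · show f (v0 + ((θ v)⁻¹ • v - v0)) = f v
      rw [add_sub_cancel]
      exact h1.2
  have hLip : ∀ k ∈ S, ∃ B : NNReal, ∃ t ∈ 𝓝[S] k, LipschitzOnWith B (fun k : N => f (v0 + (k : E))) t := by
    intro k hk
    obtain ⟨V, hV, B, hB⟩ := hL (v0 + (k : E)) hk
    have hcont : Continuous (fun k : N => v0 + (k : E)) := by fun_prop
    refine ⟨Real.toNNReal B, (fun k : N => v0 + (k : E)) ⁻¹' V, mem_nhdsWithin_of_mem_nhds (hcont.continuousAt.preimage_mem_nhds hV), ?_⟩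
    refine LipschitzOnWith.of_dist_le_mul ?_
    intro y hy z hz
    have h1 := hB _ hy _ hz
    rw [dist_eq_norm, dist_eq_norm]
    refine h1.trans ?_
    have h2 : v0 + (y : E) - (v0 + (z : E)) = ((y - z : N) : E) := by
      rw [add_sub_add_left_eq_sub]
      rfl
    rw [h2]
    have h3 : ‖((y - z : N) : E)‖ = ‖y - z‖ := rfl
    rw [h3]
    exact mul_le_mul_of_nonneg_right (Real.le_coe_toNNReal B) (norm_nonneg _)
  have hdim : dimH (f '' C) ≤ 2 := by
    refine (dimH_mono himg).trans ?_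
    refine (dimH_image_le_of_locally_lipschitzOn hLip).trans ?_
    refine (dimH_mono (subset_univ S)).trans ?_
    rw [Real.dimH_univ_eq_finrank, hfin]
    norm_num
  have h3 : dimH (f '' C) < ((3 : NNReal) : ENNReal) := by
    refine lt_of_le_of_lt hdim ?_
    norm_num
  have h4 := hausdorffMeasure_of_dimH_lt h3
  rw [hE]
  exact h4

end Pool.Agent.H817.PL
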