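import Pool.Agent.H817.PL.Stm

/-!
The dual representation (helper339, for helper817).
-/

set_option autoImplicit false

namespace Pool.Agent.H817.PL

open Set Filter Topology Module Matrix

/-- The dual representation, in the reversed basis. -/
noncomputable def dual_rep {G : Type} [Group G] (ρ : G →* M3) : G →* M3 where
  toFun g := (ρ g⁻¹)ᵀ.submatrix Fin.revPerm Fin.revPerm
  map_one' := by
    rw [inv_one, map_one, transpose_one, submatrix_one_equiv]
  map_mul' g h := by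
    rw [_root_.mul_inv_rev, map_mul, transpose_mul, submatrix_mul_equiv]

theorem dual_apply {G : Type} [Group G] (ρ : G →* M3) (g : G) (i j : Fin 3) :
    dual_rep ρ g i j = ρ g⁻¹ (Fin.rev j) (Fin.rev i) := rfl

theorem dual_diag {G : Type} [Group G] {ρ : G →* M3} (hdet : ∀ g, (ρ g).det = 1) {γ : G}
    {l : Fin 3 → ℝ} (h : ρ γ = Matrix.diagonal l) :
    (∀ i, l i ≠ 0) ∧ ρ γ⁻¹ = Matrix.diagonal fun i => (l i)⁻¹ := by
  have h1 := hdet γ
  rw [h, det_diagonal] at h1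
  have h0 : ∀ i, l i ≠ 0 := by
    intro i hi
    rw [Finset.prod_eq_zero (Finset.mem_univ i) hi] at h1
    exact zero_ne_one h1
  refine ⟨h0, ?_⟩
  have h2 : ρ γ⁻¹ * ρ γ = 1 := by rw [← map_mul, inv_mul_cancel, map_one]
  have h3 : ρ γ⁻¹ * ρ γ * Matrix.diagonal (fun i => (l i)⁻¹) =
      Matrix.diagonal fun i => (l i)⁻¹ := by rw [h2, one_mul]
  rw [mul_assoc, h, diagonal_mul_diagonal] at h3
  have h4 : (fun i => l i * (l i)⁻¹) = fun _ : Fin 3 => (1 : ℝ) := by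
    funext i
    exact mul_inv_cancel₀ (h0 i)
  rw [h4, diagonal_one, mul_one] at h3
  exact h3

/-- Reversal of the coordinates. -/
def dual_rv (v : V3) : V3 := fun i => v (Fin.rev i)

theorem dual_rv_rv (v : V3) : dual_rv (dual_rv v) = v := by
  funext i
  simp [dual_rv]

theorem dual_norm_le (v : V3) : ‖dual_rv v‖ ≤ ‖v‖ :=
  (pi_norm_le_iff_of_nonneg (norm_nonneg _)).2 fun i => norm_le_pi_norm v (Fin.rev i)

theorem dual_norm (v : V3) : ‖dual_rv v‖ = ‖v‖ := by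
  refine le_antisymm (dual_norm_le v) ?_
  have h := dual_norm_le (dual_rv v)
  rwa [dual_rv_rv] at h

theorem dual_sum (v : V3) (f : Fin 3 → ℝ) :
    ∑ i, v (Fin.rev i) * f i = ∑ i, v i * f (Fin.rev i) := by
  refine Fintype.sum_equiv Fin.revPerm _ _ fun i => ?_
  simp

/-- `rev w · ρ g v = rev (ρ' g⁻¹ w) · v` -/
theorem dual_pair {G : Type} [Group G] (ρ : G →* M3) (g : G) (v w : V3) :
    dual_rv w ⬝ᵥ (ρ g *ᵥ v) = dual_rv (dual_rep ρ g⁻¹ *ᵥ w) ⬝ᵥ v := by
  have h1 : dual_rv w ⬝ᵥ (ρ g *ᵥ v) = (dual_rv w ᵥ* ρ g) ⬝ᵥ v := dotProduct_mulVec _ _ _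
  rw [h1]
  congr 1
  funext j
  have h2 : (dual_rv w ᵥ* ρ g) j = ∑ i, w (Fin.rev i) * ρ g i j := rfl
  have h3 : dual_rv (dual_rep ρ g⁻¹ *ᵥ w) j =
      ∑ i, dual_rep ρ g⁻¹ (Fin.rev j) i * w i := rfl
  rw [h2, h3, dual_sum]
  refine Finset.sum_congr rfl fun i _ => ?_
  rw [dual_apply, inv_inv, Fin.rev_rev, mul_comm]

theorem dual_irr {G : Type} [Group G] {ρ : G →* M3}
    (h : ∀ K : Subgroup G, K.FiniteIndex → ∀ W : Submodule ℝ V3,
      (∀ g ∈ K, ∀ w ∈ W, ρ g *ᵥ w ∈ W) → W = ⊥ ∨ W = ⊤) :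
    ∀ K : Subgroup G, K.FiniteIndex → ∀ W : Submodule ℝ V3,
      (∀ g ∈ K, ∀ w ∈ W, dual_rep ρ g *ᵥ w ∈ W) → W = ⊥ ∨ W = ⊤ := by
  intro K hK W hW
  obtain ⟨W', hW'⟩ : ∃ W' : Submodule ℝ V3, ∀ v, v ∈ W' ↔ ∀ w ∈ W, dual_rv w ⬝ᵥ v = 0 :=
    ⟨{ carrier := {v | ∀ w ∈ W, dual_rv w ⬝ᵥ v = 0}
       add_mem' := fun {a b} ha hb w hw => by
        rw [dotProduct_add, ha w hw, hb w hw, add_zero]
       zero_mem' := fun w _ => dotProduct_zero _
       smul_mem' := fun c a ha w hw => by rw [dotProduct_smul, ha w hw, smul_zero] },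
      fun v => Iff.rfl⟩
  have hinv : ∀ g ∈ K, ∀ v ∈ W', ρ g *ᵥ v ∈ W' := by
    intro g hg v hv
    rw [hW'] at hv ⊢
    intro w hw
    rw [dual_pair]
    exact hv _ (hW _ (K.inv_mem hg) w hw)
  rcases h K hK W' hinv with h0 | h1
  · right
    by_contra hne
    obtain ⟨f, hf, hWf⟩ := W.exists_le_ker_of_lt_top (lt_top_iff_ne_top.2 hne)
    apply hf
    have hv : (fun i => f (Pi.single (Fin.rev i) 1) : V3) ∈ W' := by
      rw [hW']
      intro w hw
      have h2 : dual_rv w ⬝ᵥ (fun i => f (Pi.single (Fin.rev i) 1) : V3) =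
          ∑ i, w (Fin.rev i) * f (Pi.single (Fin.rev i) 1) := rfl
      rw [h2, dual_sum w (fun i => f (Pi.single (Fin.rev i) 1))]
      have h3 : ∑ i, w i * f (Pi.single (Fin.rev (Fin.rev i)) 1) = f w := by
        simp only [Fin.rev_rev]
        rw [LinearMap.pi_apply_eq_sum_univ f w]
        refine Finset.sum_congr rfl fun i _ => ?_
        rw [smul_eq_mul]
        congr 2
        funext j
        simp [Pi.single_apply, eq_comm]
      rw [h3]
      exact hWf hw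
    rw [h0, Submodule.mem_bot] at hv
    refine LinearMap.pi_ext' fun i => LinearMap.ext_ring ?_
    have h4 := congrFun hv (Fin.rev i)
    simp only [Fin.rev_rev] at h4
    simpa using h4
  · left
    rw [Submodule.eq_bot_iff]
    intro w hw
    have h2 : ∀ v, dual_rv w ⬝ᵥ v = 0 := fun v => (hW' v).1 (h1 ▸ Submodule.mem_top) w hw
    have h3 : dual_rv w = 0 := dotProduct_eq_zero_iff.1 h2
    rw [← dual_rv_rv w, h3]
    rfl

theorem dual_pos {G : Type} [Group G] {ρ : G →* M3} (h : Pos ρ) : Pos (dual_rep ρ) where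
  det g := by
    show ((ρ g⁻¹)ᵀ.submatrix Fin.revPerm Fin.revPerm).det = 1
    rw [det_submatrix_equiv_self, det_transpose]
    exact h.det _
  irr := dual_irr h.irr
  disc R := by
    have h1 : {g : G | ∀ i j, |dual_rep ρ g i j| ≤ R} ⊆
        (fun g => g⁻¹) ⁻¹' {g : G | ∀ i j, |ρ g i j| ≤ R} := by
      intro g hg i j
      have h2 := hg (Fin.rev j) (Fin.rev i)
      rw [dual_apply, Fin.rev_rev, Fin.rev_rev] at h2
      exact h2
    exact ((h.disc R).preimage inv_injective.injOn).subset h1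
  reg := by
    obtain ⟨γ, l, hγ, h1, h2⟩ := h.reg
    obtain ⟨h0, h3⟩ := dual_diag h.det hγ
    refine ⟨γ, fun i => (l (Fin.rev i))⁻¹, ?_, ?_, ?_⟩
    · ext i j
      rw [dual_apply, h3, diagonal_apply, diagonal_apply]
      by_cases hij : i = j
      · rw [if_pos (by rw [hij]), if_pos hij, hij]
      · rw [if_neg (fun e => hij (Fin.rev_injective e).symm), if_neg hij]
    · show |(l 1)⁻¹| < |(l 2)⁻¹|
      rw [abs_inv, abs_inv]
      exact (inv_lt_inv₀ (abs_pos.2 (h0 1)) (abs_pos.2 (h0 2))).2 h2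
    · show |(l 0)⁻¹| < |(l 1)⁻¹|
      rw [abs_inv, abs_inv]
      exact (inv_lt_inv₀ (abs_pos.2 (h0 0)) (abs_pos.2 (h0 1))).2 h1
  pos g := by
    have h1 := h.pos g
    rw [mul_comm] at h1
    rw [dual_apply, dual_apply, inv_inv]
    exact h1

/-- The exchange of the two components, with reversal. -/
noncomputable def dual_hom : V3 × V3 ≃ₜ V3 × V3 where
  toFun p := (dual_rv p.2, dual_rv p.1)
  invFun p := (dual_rv p.2, dual_rv p.1)
  left_inv p := by simp only [dual_rv_rv]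
  right_inv p := by simp only [dual_rv_rv]
  continuous_toFun := by
    unfold dual_rv
    fun_prop
  continuous_invFun := by
    unfold dual_rv
    fun_prop

theorem dual_gen {G : Type} [Group G] (ρ : G →* M3) :
    {p : V3 × V3 | ‖p.1‖ = 1 ∧ ‖p.2‖ = 1 ∧ ∃ (g : G) (c d : ℝ), 0 < c * d ∧
      p = (c • fun i => dual_rep ρ g i 0, d • fun j => dual_rep ρ g⁻¹ 2 j)} =
    dual_hom ⁻¹' {p : V3 × V3 | ‖p.1‖ = 1 ∧ ‖p.2‖ = 1 ∧ ∃ (g : G) (c d : ℝ), 0 < c * d ∧
      p = (c • fun i => ρ g i 0, d • fun j => ρ g⁻¹ 2 j)} := by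
  ext p
  simp only [mem_preimage, Set.mem_ofPred_eq]
  have e1 : (dual_hom p).1 = dual_rv p.2 := rfl
  have e2 : (dual_hom p).2 = dual_rv p.1 := rfl
  rw [e1, e2, dual_norm, dual_norm]
  constructor
  · rintro ⟨h1, h2, g, c, d, hcd, rfl⟩
    refine ⟨h2, h1, g, d, c, by rwa [mul_comm], ?_⟩
    refine Prod.ext ?_ ?_
    · funext j
      show d * dual_rep ρ g⁻¹ 2 (Fin.rev j) = d * ρ g j 0
      rw [dual_apply, inv_inv, Fin.rev_rev]
      rfl
    · funext j
      show c * dual_rep ρ g (Fin.rev j) 0 = c * ρ g⁻¹ 2 j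
      rw [dual_apply, Fin.rev_rev]
      rfl
  · rintro ⟨h1, h2, g, c, d, hcd, hp⟩
    refine ⟨h2, h1, g, d, c, by rwa [mul_comm], ?_⟩
    have h3 : dual_rv p.2 = c • fun i => ρ g i 0 := congrArg Prod.fst hp
    have h4 : dual_rv p.1 = d • fun j => ρ g⁻¹ 2 j := congrArg Prod.snd hp
    refine Prod.ext ?_ ?_
    · rw [← dual_rv_rv p.1, h4]
      funext j
      show d * ρ g⁻¹ 2 (Fin.rev j) = d * dual_rep ρ g j 0
      rw [dual_apply]
      rfl
    · rw [← dual_rv_rv p.2, h3]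
      funext j
      show c * ρ g (Fin.rev j) 0 = c * dual_rep ρ g⁻¹ 2 j
      rw [dual_apply, inv_inv]
      rfl

theorem t_dual : S_dual := by
  intro G _ ρ hρ
  refine ⟨dual_rep ρ, dual_pos hρ, fun p => ?_⟩
  unfold Lam
  rw [dual_gen, ← Homeomorph.preimage_closure, mem_preimage]
  have h : dual_hom ((fun i => p.2 (Fin.rev i), fun i => p.1 (Fin.rev i)) : V3 × V3) = p :=
    dual_hom.left_inv p
  rw [h]

end Pool.Agent.H817.PL
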