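import Pool.Agent.H817.PL.Stm2

/-!
# The equivariant homogeneous map on an invariant cone (helper668)
-/

set_option autoImplicit false

namespace Pool.Agent.H817.PL

open Set Filter Topology Module
open scoped Pointwise

/-- the weight -/
noncomputable def eqm_wg {E : Type} [NormedAddCommGroup E] [NormedSpace ℝ E] (R : Set E) (r : ℝ)
    (v : E) : ℝ := max (r * Metric.infDist v Rᶜ - ‖v‖) 0

theorem eqm_wg_nonneg {E : Type} [NormedAddCommGroup E] [NormedSpace ℝ E] (R : Set E) (r : ℝ)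
    (v : E) : 0 ≤ eqm_wg R r v := le_max_right _ _

theorem eqm_wg_pos {E : Type} [NormedAddCommGroup E] [NormedSpace ℝ E] {R : Set E} {r : ℝ}
    {v : E} : 0 < eqm_wg R r v ↔ ‖v‖ < r * Metric.infDist v Rᶜ := by
  unfold eqm_wg
  rw [lt_max_iff, sub_pos]
  exact or_iff_left (lt_irrefl _)

theorem eqm_cone {E : Type} [NormedAddCommGroup E] [NormedSpace ℝ E] {R : Set E}
    (hR : ∀ v ∈ R, ∀ t : ℝ, 0 < t → t • v ∈ R) {t : ℝ} (ht : 0 < t) : t • Rᶜ = Rᶜ := by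
  ext x
  rw [mem_smul_set_iff_inv_smul_mem₀ ht.ne', mem_compl_iff, mem_compl_iff, not_iff_not]
  constructor
  · intro h
    have := hR _ h t ht
    rwa [smul_smul, mul_inv_cancel₀ ht.ne', one_smul] at this
  · intro h
    exact hR _ h _ (inv_pos.2 ht)

theorem eqm_wg_smul {E : Type} [NormedAddCommGroup E] [NormedSpace ℝ E] {R : Set E}
    (hR : ∀ v ∈ R, ∀ t : ℝ, 0 < t → t • v ∈ R) (r : ℝ) {t : ℝ} (ht : 0 < t) (v : E) :
    eqm_wg R r (t • v) = t * eqm_wg R r v := by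
  have h1 := infDist_smul₀ ht.ne' Rᶜ v
  rw [eqm_cone hR ht, Real.norm_eq_abs, abs_of_pos ht] at h1
  unfold eqm_wg
  rw [h1, norm_smul, Real.norm_eq_abs, abs_of_pos ht, mul_max_of_nonneg _ _ ht.le, mul_zero]
  congr 1
  ring

theorem eqm_wg_lip {E : Type} [NormedAddCommGroup E] [NormedSpace ℝ E] (R : Set E) (r : ℝ)
    (a b : E) : |eqm_wg R r a - eqm_wg R r b| ≤ (|r| + 1) * ‖a - b‖ := by
  unfold eqm_wg
  refine (abs_max_sub_max_le_abs _ _ _).trans ?_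
  have h1 : |Metric.infDist a Rᶜ - Metric.infDist b Rᶜ| ≤ ‖a - b‖ := by
    have := (Metric.lipschitz_infDist_pt (s := Rᶜ)).dist_le_mul a b
    rwa [Real.dist_eq, NNReal.coe_one, one_mul, dist_eq_norm] at this
  have h2 : |‖b‖ - ‖a‖| ≤ ‖a - b‖ := by
    rw [norm_sub_rev]
    exact abs_norm_sub_norm_le b a
  have e : r * Metric.infDist a Rᶜ - ‖a‖ - (r * Metric.infDist b Rᶜ - ‖b‖) =
      r * (Metric.infDist a Rᶜ - Metric.infDist b Rᶜ) + (‖b‖ - ‖a‖) := by ring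
  rw [e]
  refine (abs_add_le _ _).trans ?_
  rw [abs_mul, add_mul, one_mul]
  exact add_le_add (mul_le_mul_of_nonneg_left h1 (abs_nonneg r)) h2

/-- globally Lipschitz maps -/
def EqmLip {E W : Type} [NormedAddCommGroup E] [NormedAddCommGroup W] (φ : E → W) : Prop :=
  ∃ B : ℝ, 0 ≤ B ∧ ∀ y z, ‖φ y - φ z‖ ≤ B * ‖y - z‖

theorem EqmLip.cont {E W : Type} [NormedAddCommGroup E] [NormedAddCommGroup W] {φ : E → W}
    (h : EqmLip φ) : Continuous φ := by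
  obtain ⟨B, hB, h⟩ := h
  refine (LipschitzWith.of_dist_le_mul (K := ⟨B, hB⟩) fun y z => ?_).continuous
  rw [dist_eq_norm, dist_eq_norm]
  exact h y z

theorem EqmLip.sum {E W ι : Type} [NormedAddCommGroup E] [NormedAddCommGroup W]
    {φ : ι → E → W} (F : Finset ι) (h : ∀ i, EqmLip (φ i)) :
    EqmLip (fun y => ∑ i ∈ F, φ i y) := by
  classical
  induction F using Finset.induction_on with
  | empty => exact ⟨0, le_rfl, fun y z => by simp⟩
  | insert i F hi ih =>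
    obtain ⟨B, hB0, hB⟩ := ih
    obtain ⟨B', hB0', hB'⟩ := h i
    refine ⟨B' + B, add_nonneg hB0' hB0, fun y z => ?_⟩
    beta_reduce
    rw [Finset.sum_insert hi, Finset.sum_insert hi, add_sub_add_comm, add_mul]
    exact (norm_add_le _ _).trans (add_le_add (hB' y z) (hB y z))

theorem EqmLip.smul_const {E W : Type} [NormedAddCommGroup E] [NormedAddCommGroup W]
    [NormedSpace ℝ W] {φ : E → ℝ} (h : EqmLip φ) (p : W) : EqmLip (fun y => φ y • p) := by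
  obtain ⟨B, hB0, hB⟩ := h
  refine ⟨B * ‖p‖, mul_nonneg hB0 (norm_nonneg _), fun y z => ?_⟩
  beta_reduce
  rw [← sub_smul, norm_smul]
  calc ‖φ y - φ z‖ * ‖p‖ ≤ B * ‖y - z‖ * ‖p‖ :=
        mul_le_mul_of_nonneg_right (hB y z) (norm_nonneg _)
    _ = B * ‖p‖ * ‖y - z‖ := by ring

/-- quotients of Lipschitz maps are locally Lipschitz -/
theorem eqm_quot {E W : Type} [NormedAddCommGroup E] [NormedAddCommGroup W] [NormedSpace ℝ W]
    {s : E → ℝ} {w : E → W} (hs : EqmLip s) (hw : EqmLip w) {v : E} (hv : 0 < s v) :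
    ∃ V ∈ 𝓝 v, ∃ B : ℝ, ∀ y ∈ V, ∀ z ∈ V, ‖(s y)⁻¹ • w y - (s z)⁻¹ • w z‖ ≤ B * ‖y - z‖ := by
  have h1 : ∀ᶠ y in 𝓝 v, s v / 2 < s y :=
    hs.cont.continuousAt.eventually (lt_mem_nhds (half_lt_self hv))
  have h2 : ∀ᶠ y in 𝓝 v, ‖w y‖ < ‖w v‖ + 1 :=
    hw.cont.norm.continuousAt.eventually (gt_mem_nhds (lt_add_one _))
  obtain ⟨A, hA0, hA⟩ := hs
  obtain ⟨A', hA0', hA'⟩ := hw
  refine ⟨_, h1.and h2, (s v / 2)⁻¹ * A' + (A * (s v / 2)⁻¹ * (s v / 2)⁻¹) * (‖w v‖ + 1),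
    fun y hy z hz => ?_⟩
  obtain ⟨hy1, hy2⟩ := hy
  obtain ⟨hz1, hz2⟩ := hz
  have hc : 0 < s v / 2 := by linarith
  have py : 0 < s y := hc.trans hy1
  have pz : 0 < s z := hc.trans hz1
  have iy : (s y)⁻¹ ≤ (s v / 2)⁻¹ := inv_anti₀ hc hy1.le
  have iz : (s z)⁻¹ ≤ (s v / 2)⁻¹ := inv_anti₀ hc hz1.le
  have e : (s y)⁻¹ • w y - (s z)⁻¹ • w z =
      (s y)⁻¹ • (w y - w z) + ((s z - s y) * (s y)⁻¹ * (s z)⁻¹) • w z := by
    have e1 : (s z - s y) * (s y)⁻¹ * (s z)⁻¹ = (s y)⁻¹ - (s z)⁻¹ := by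
      field_simp
    rw [e1, smul_sub, sub_smul]
    abel
  rw [e]
  refine (norm_add_le _ _).trans ?_
  rw [norm_smul, norm_smul, norm_mul, norm_mul, norm_inv, norm_inv, Real.norm_eq_abs (s y),
    Real.norm_eq_abs (s z), abs_of_pos py, abs_of_pos pz, add_mul]
  refine add_le_add ?_ ?_
  · rw [mul_assoc]
    exact mul_le_mul iy (hA' y z) (norm_nonneg _) (inv_pos.2 hc).le
  · have h3 : ‖s z - s y‖ ≤ A * ‖y - z‖ := by
      rw [norm_sub_rev]
      exact hA y z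
    have h4 : ‖s z - s y‖ * (s y)⁻¹ ≤ A * ‖y - z‖ * (s v / 2)⁻¹ :=
      mul_le_mul h3 iy (inv_pos.2 py).le (mul_nonneg hA0 (norm_nonneg _))
    have h5 : ‖s z - s y‖ * (s y)⁻¹ * (s z)⁻¹ ≤ A * ‖y - z‖ * (s v / 2)⁻¹ * (s v / 2)⁻¹ :=
      mul_le_mul h4 iz (inv_pos.2 pz).le
        (mul_nonneg (mul_nonneg hA0 (norm_nonneg _)) (inv_pos.2 hc).le)
    have h6 : ‖s z - s y‖ * (s y)⁻¹ * (s z)⁻¹ * ‖w z‖ ≤
        A * ‖y - z‖ * (s v / 2)⁻¹ * (s v / 2)⁻¹ * (‖w v‖ + 1) :=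
      mul_le_mul h5 hz2.le (norm_nonneg _) (mul_nonneg (mul_nonneg (mul_nonneg hA0
        (norm_nonneg _)) (inv_pos.2 hc).le) (inv_pos.2 hc).le)
    refine h6.trans (le_of_eq ?_)
    ring

theorem eqm_aff {E : Type} [NormedAddCommGroup E] [NormedSpace ℝ E] (e : E ≃ᵃ[ℝ] E) (x : E) :
    e x = e 0 + e.linear x := by
  have h := e.map_vadd (0 : E) x
  rw [vadd_eq_add, add_zero, vadd_eq_add, add_comm] at h
  exact h

section

variable {Γ E : Type} [Group Γ] [NormedAddCommGroup E] [NormedSpace ℝ E] [FiniteDimensional ℝ E]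

omit [FiniteDimensional ℝ E] in
theorem eqm_lin_mul (hol : Γ →* (E ≃ᵃ[ℝ] E)) (g h : Γ) (v : E) :
    (hol (g * h)).linear v = (hol g).linear ((hol h).linear v) := by
  rw [map_mul]
  rfl

omit [FiniteDimensional ℝ E] in
theorem eqm_lin_one (hol : Γ →* (E ≃ᵃ[ℝ] E)) (v : E) : (hol 1).linear v = v := by
  rw [map_one]
  rfl

omit [FiniteDimensional ℝ E] in
theorem eqm_symm (hol : Γ →* (E ≃ᵃ[ℝ] E)) (g : Γ) (v : E) :
    (hol g).linear.symm v = (hol g⁻¹).linear v := by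
  rw [LinearEquiv.symm_apply_eq, ← eqm_lin_mul, mul_inv_cancel, eqm_lin_one]

theorem eqm_lip_lin (R : Set E) (r : ℝ) (L : E ≃ₗ[ℝ] E) : EqmLip (fun y => eqm_wg R r (L y)) := by
  obtain ⟨T, hT⟩ : ∃ T : E →L[ℝ] E, ∀ y, T y = L y :=
    ⟨LinearMap.toContinuousLinearMap (L : E →ₗ[ℝ] E), fun y => rfl⟩
  refine ⟨(|r| + 1) * ‖T‖, mul_nonneg (by positivity) (norm_nonneg _), fun y z => ?_⟩
  have h1 : ‖L y - L z‖ ≤ ‖T‖ * ‖y - z‖ := by
    rw [← map_sub, ← hT]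
    exact T.le_opNorm _
  have h2 := eqm_wg_lip R r (L y) (L z)
  rw [Real.norm_eq_abs]
  calc |eqm_wg R r (L y) - eqm_wg R r (L z)| ≤ (|r| + 1) * ‖L y - L z‖ := h2
    _ ≤ (|r| + 1) * (‖T‖ * ‖y - z‖) := mul_le_mul_of_nonneg_left h1 (by positivity)
    _ = (|r| + 1) * ‖T‖ * ‖y - z‖ := by ring

/-- local finiteness -/
theorem eqm_lf (h : S_prop) {hol : Γ →* (E ≃ᵃ[ℝ] E)} {R : Set E} (hR : Icone hol R) (r : ℝ)
    {w : E} (hw : w ∈ R) : ∃ N ∈ 𝓝 w, N ⊆ R ∧ ∃ F : Finset Γ, ∀ y ∈ N, ∀ γ, γ ∉ F →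
      eqm_wg R r ((hol γ).linear y) = 0 := by
  obtain ⟨N, hN, hNR, B, hB⟩ := h R hR.op hR.cv hR.ne hR.sm hR.sal r w hw
  refine ⟨N, hN, hNR, (hR.disc B).toFinset, fun y hy γ hγ => ?_⟩
  by_contra hne
  apply hγ
  rw [Set.Finite.mem_toFinset]
  have hpos : 0 < eqm_wg R r ((hol γ).linear y) :=
    lt_of_le_of_ne (eqm_wg_nonneg _ _ _) (Ne.symm hne)
  rw [eqm_wg_pos] at hpos
  refine hB (hol γ).linear (hR.det γ) (fun v hv => hR.inv γ v hv) (fun v hv => ?_) y hy hpos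
  rw [eqm_symm]
  exact hR.inv γ⁻¹ v hv

theorem t_eqm (h : S_prop) : S_eqm := by
  intro Γ E _ _ _ _ hol R hR K hKR hK
  classical
  -- trivial cases
  by_cases hne : (Rᶜ).Nonempty
  swap
  · rw [Set.not_nonempty_iff_eq_empty, Set.compl_empty_iff] at hne
    have hsub : ∀ v : E, v = 0 := fun v => hR.sal v (by rw [hne, closure_univ]; trivial)
      (by rw [hne, closure_univ]; trivial)
    refine ⟨univ, fun _ => 0, subset_univ _, by rw [hne], fun g v _ => trivial,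
      fun v _ t _ => ⟨trivial, rfl⟩, fun g v _ => (hsub _).symm, fun v _ => ⟨univ, univ_mem, 0,
        fun y _ z _ => by simp⟩⟩
  -- the radius
  have hinf : ∀ v ∈ R, 0 < Metric.infDist v Rᶜ := fun v hv =>
    (hR.op.isClosed_compl.notMem_iff_infDist_pos hne).1 (fun h' => h' hv)
  obtain ⟨r, hr⟩ : ∃ r : ℝ, ∀ k ∈ K, ‖k‖ < r * Metric.infDist k Rᶜ := by
    have hc : ContinuousOn (fun k : E => ‖k‖ / Metric.infDist k Rᶜ) K :=
      continuous_norm.continuousOn.div (Metric.continuous_infDist_pt _).continuousOn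
        (fun k hk => (hinf k (hKR hk)).ne')
    obtain ⟨M, hM⟩ := (hK.image_of_continuousOn hc).bddAbove
    refine ⟨M + 1, fun k hk => ?_⟩
    have h1 : ‖k‖ / Metric.infDist k Rᶜ ≤ M := hM ⟨k, hk, rfl⟩
    have h2 : ‖k‖ / Metric.infDist k Rᶜ < M + 1 := by linarith
    rwa [div_lt_iff₀ (hinf k (hKR hk))] at h2
  obtain ⟨s, hs⟩ : ∃ s : E → ℝ, s = fun w => ∑' γ : Γ, eqm_wg R r ((hol γ).linear w) := ⟨_, rfl⟩
  obtain ⟨v, hv⟩ : ∃ v : E → E,
    v = fun w => ∑' γ : Γ, eqm_wg R r ((hol γ).linear w) • hol γ⁻¹ (0 : E) := ⟨_, rfl⟩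
  obtain ⟨f, hf⟩ : ∃ f : E → E, f = fun w => (s w)⁻¹ • v w := ⟨_, rfl⟩
  obtain ⟨C, hC⟩ : ∃ C : Set E, C = {w | w ∈ R ∧ ∃ γ : Γ, 0 < eqm_wg R r ((hol γ).linear w)} :=
    ⟨_, rfl⟩
  have hsum : ∀ w ∈ R, ∃ F : Finset Γ, (∀ γ, γ ∉ F → eqm_wg R r ((hol γ).linear w) = 0) ∧
      s w = ∑ γ ∈ F, eqm_wg R r ((hol γ).linear w) ∧
      ∀ P : Γ → E, ∑' γ : Γ, eqm_wg R r ((hol γ).linear w) • P γ =
        ∑ γ ∈ F, eqm_wg R r ((hol γ).linear w) • P γ := by
    intro w hw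
    obtain ⟨N, hN, -, F, hF⟩ := eqm_lf h hR r hw
    have hF' := hF w (mem_of_mem_nhds hN)
    refine ⟨F, hF', ?_, fun P => ?_⟩
    · rw [hs]
      exact tsum_eq_sum fun γ hγ => hF' γ hγ
    · exact tsum_eq_sum fun γ hγ => by rw [hF' γ hγ, zero_smul]
  have hspos : ∀ w ∈ C, 0 < s w := by
    intro w hw
    rw [hC] at hw
    obtain ⟨hw, γ0, h0⟩ := hw
    obtain ⟨F, hF, h1, -⟩ := hsum w hw
    rw [h1]
    refine Finset.sum_pos' (fun γ _ => eqm_wg_nonneg _ _ _) ⟨γ0, ?_, h0⟩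
    by_contra hcon
    rw [hF γ0 hcon] at h0
    exact lt_irrefl _ h0
  refine ⟨C, f, ?_, ?_, ?_, ?_, ?_, ?_⟩
  · intro k hk
    rw [hC]
    refine ⟨hKR hk, 1, ?_⟩
    rw [eqm_lin_one, eqm_wg_pos]
    exact hr k hk
  · intro w hw
    rw [hC] at hw
    exact hw.1
  · intro g w hw
    rw [hC] at hw ⊢
    obtain ⟨hw, γ, hγ⟩ := hw
    refine ⟨hR.inv g w hw, γ * g⁻¹, ?_⟩
    rw [← eqm_lin_mul, inv_mul_cancel_right]
    exact hγ
  · -- homogeneity
    intro w hw t ht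
    have e1 : ∀ γ : Γ, eqm_wg R r ((hol γ).linear (t • w)) =
        t * eqm_wg R r ((hol γ).linear w) := by
      intro γ
      rw [map_smul, eqm_wg_smul hR.sm r ht]
    constructor
    · rw [hC] at hw ⊢
      obtain ⟨hw, γ, hγ⟩ := hw
      refine ⟨hR.sm w hw t ht, γ, ?_⟩
      rw [e1]
      exact mul_pos ht hγ
    · have e2 : s (t • w) = t * s w := by
        rw [hs]
        simp only [e1]
        rw [tsum_mul_left]
      have e3 : v (t • w) = t • v w := by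
        rw [hv]
        simp only [e1, mul_smul]
        rw [tsum_const_smul'']
      rw [hf]
      beta_reduce
      rw [e2, e3, smul_smul, mul_inv, mul_comm t⁻¹, mul_assoc, inv_mul_cancel₀ ht.ne', mul_one]
  · -- equivariance
    intro δ w hw
    have hpos := hspos w hw
    have hwR : w ∈ R := by
      rw [hC] at hw
      exact hw.1
    have e1 : s ((hol δ).linear w) = s w := by
      rw [hs]
      beta_reduce
      rw [← Equiv.tsum_eq (Equiv.mulRight δ) (fun γ : Γ => eqm_wg R r ((hol γ).linear w))]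
      refine tsum_congr fun γ => ?_
      rw [← eqm_lin_mul]
      rfl
    have e2 : v ((hol δ).linear w) =
        ∑' γ : Γ, eqm_wg R r ((hol γ).linear w) • hol (γ * δ⁻¹)⁻¹ (0 : E) := by
      rw [hv]
      beta_reduce
      rw [← Equiv.tsum_eq (Equiv.mulRight δ)
        (fun γ : Γ => eqm_wg R r ((hol γ).linear w) • hol (γ * δ⁻¹)⁻¹ (0 : E))]
      refine tsum_congr fun γ => ?_
      rw [← eqm_lin_mul]
      show _ = eqm_wg R r ((hol (γ * δ)).linear w) • hol (γ * δ * δ⁻¹)⁻¹ (0 : E)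
      rw [mul_inv_cancel_right]
    obtain ⟨F, hF, h1, h2⟩ := hsum w hwR
    have e3 : v ((hol δ).linear w) = s w • hol δ 0 + (hol δ).linear (v w) := by
      rw [e2, h2]
      have h3 : ∀ γ : Γ, hol (γ * δ⁻¹)⁻¹ (0 : E) = hol δ 0 + (hol δ).linear (hol γ⁻¹ (0 : E)) := by
        intro γ
        rw [mul_inv_rev, inv_inv, map_mul, ← eqm_aff]
        rfl
      simp_rw [h3, smul_add, Finset.sum_add_distrib, ← Finset.sum_smul]
      rw [← h1]
      congr 1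
      rw [hv]
      beta_reduce
      rw [h2, map_sum]
      refine Finset.sum_congr rfl fun γ _ => ?_
      exact ((hol δ).linear.map_smul _ _).symm
    rw [hf]
    beta_reduce
    rw [e1, e3, smul_add, smul_smul, inv_mul_cancel₀ hpos.ne', one_smul, eqm_aff (hol δ)
      ((s w)⁻¹ • v w)]
    congr 1
    exact ((hol δ).linear.map_smul _ _).symm
  · -- locally Lipschitz
    intro w hw
    have hpos := hspos w hw
    have hwR : w ∈ R := by
      rw [hC] at hw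
      exact hw.1
    obtain ⟨N, hN, -, F, hF⟩ := eqm_lf h hR r hwR
    have l1 : EqmLip (fun y => ∑ γ ∈ F, eqm_wg R r ((hol γ).linear y)) :=
      EqmLip.sum F fun γ => eqm_lip_lin R r (hol γ).linear
    have l2 : EqmLip (fun y => ∑ γ ∈ F, eqm_wg R r ((hol γ).linear y) • hol γ⁻¹ (0 : E)) :=
      EqmLip.sum F fun γ => (eqm_lip_lin R r (hol γ).linear).smul_const _
    have es : ∀ y ∈ N, s y = ∑ γ ∈ F, eqm_wg R r ((hol γ).linear y) := by
      intro y hy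
      rw [hs]
      exact tsum_eq_sum fun γ hγ => hF y hy γ hγ
    have ev : ∀ y ∈ N, v y = ∑ γ ∈ F, eqm_wg R r ((hol γ).linear y) • hol γ⁻¹ (0 : E) := by
      intro y hy
      rw [hv]
      exact tsum_eq_sum fun γ hγ => by rw [hF y hy γ hγ, zero_smul]
    have hpos' : 0 < ∑ γ ∈ F, eqm_wg R r ((hol γ).linear w) := by
      rw [← es w (mem_of_mem_nhds hN)]
      exact hpos
    obtain ⟨V, hV, B, hB⟩ := eqm_quot l1 l2 hpos'
    refine ⟨V ∩ N, inter_mem hV hN, B, fun y hy z hz => ?_⟩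
    rw [hf]
    beta_reduce
    rw [es y hy.2, es z hz.2, ev y hy.2, ev z hz.2]
    exact hB y hy.1 z hz.1

end

end Pool.Agent.H817.PL
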