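import Pool.Agent.H817.PL.Stm

set_option autoImplicit false

/-!
Positive discrete subgroups of `SL(3, ℝ)`: at most two limit flags with the same point (helper241).
-/

namespace Pool.Agent.H817.PL

open Set Filter Topology Module Matrix

lemma fib_prop {x y : V3} (h : ∀ i j, x i * y j = x j * y i) (hy : y ≠ 0) :
    ∃ t : ℝ, x = t • y := by
  obtain ⟨k, hk⟩ := Function.ne_iff.1 hy
  have hk' : y k ≠ 0 := hk
  refine ⟨x k / y k, ?_⟩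
  funext i
  simp only [Pi.smul_apply, smul_eq_mul]
  rw [div_mul_eq_mul_div, eq_div_iff hk']
  exact h i k

lemma fib_dot (x y : V3) : x ⬝ᵥ y = x 0 * y 0 + x 1 * y 1 + x 2 * y 2 := by
  simp [dotProduct, Fin.sum_univ_three]

/-- two covectors vanishing on two independent vectors are proportional -/
lemma fib_two {f g a d : V3} (ha : a ≠ 0) (hd : ∀ t : ℝ, d ≠ t • a) (hg0 : g ≠ 0)
    (h1 : f ⬝ᵥ a = 0) (h2 : f ⬝ᵥ d = 0) (h3 : g ⬝ᵥ a = 0) (h4 : g ⬝ᵥ d = 0) :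
    ∃ t : ℝ, f = t • g := by
  rw [fib_dot] at h1 h2 h3 h4
  obtain ⟨n, hn⟩ : ∃ n : V3, n = ![a 1 * d 2 - a 2 * d 1, a 2 * d 0 - a 0 * d 2,
    a 0 * d 1 - a 1 * d 0] := ⟨_, rfl⟩
  have n0 : n 0 = a 1 * d 2 - a 2 * d 1 := by rw [hn]; rfl
  have n1 : n 1 = a 2 * d 0 - a 0 * d 2 := by rw [hn]; rfl
  have n2 : n 2 = a 0 * d 1 - a 1 * d 0 := by rw [hn]; rfl
  have hn0 : n ≠ 0 := by
    intro h0
    have z0 : a 1 * d 2 - a 2 * d 1 = 0 := by rw [← n0, h0]; rfl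
    have z1 : a 2 * d 0 - a 0 * d 2 = 0 := by rw [← n1, h0]; rfl
    have z2 : a 0 * d 1 - a 1 * d 0 = 0 := by rw [← n2, h0]; rfl
    obtain ⟨t, ht⟩ := fib_prop (x := d) (y := a) (by
      intro i j
      fin_cases i <;> fin_cases j <;> simp only [Fin.zero_eta, Fin.mk_one, Fin.reduceFinMk] <;>
        first | ring1 | linear_combination z0 | linear_combination z1 | linear_combination z2 |
          linear_combination -z0 | linear_combination -z1 | linear_combination -z2) ha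
    exact hd t ht
  have key : ∀ u : V3, u 0 * a 0 + u 1 * a 1 + u 2 * a 2 = 0 →
      u 0 * d 0 + u 1 * d 1 + u 2 * d 2 = 0 → ∃ t : ℝ, u = t • n := by
    intro u k1 k2
    have c01 : u 0 * n 1 - u 1 * n 0 = 0 := by
      rw [n0, n1]; linear_combination a 2 * k2 - d 2 * k1
    have c12 : u 1 * n 2 - u 2 * n 1 = 0 := by
      rw [n1, n2]; linear_combination a 0 * k2 - d 0 * k1
    have c20 : u 2 * n 0 - u 0 * n 2 = 0 := by
      rw [n0, n2]; linear_combination a 1 * k2 - d 1 * k1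
    refine fib_prop (fun i j => ?_) hn0
    fin_cases i <;> fin_cases j <;> simp only [Fin.zero_eta, Fin.mk_one, Fin.reduceFinMk] <;>
        first | ring1 | linear_combination c01 | linear_combination c12 | linear_combination c20 |
          linear_combination -c01 | linear_combination -c12 | linear_combination -c20
  obtain ⟨s, hs⟩ := key f h1 h2
  obtain ⟨t, ht⟩ := key g h3 h4
  have ht0 : t ≠ 0 := by
    rintro rfl
    rw [zero_smul] at ht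
    exact hg0 ht
  refine ⟨s / t, ?_⟩
  rw [hs, ht, smul_smul, div_mul_cancel₀ s ht0]

lemma fib_pm {f g : V3} {t : ℝ} (hf : ‖f‖ = 1) (hg : ‖g‖ = 1) (h : f = t • g) :
    f = g ∨ f = -g := by
  have h1 : |t| = 1 := by
    have h2 := congrArg norm h
    rw [norm_smul, hf, hg, mul_one, Real.norm_eq_abs] at h2
    exact h2.symm
  rcases (abs_eq zero_le_one).1 h1 with h2 | h2
  · left; rw [h, h2, one_smul]
  · right; rw [h, h2, neg_one_smul]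

/-- unit vectors which are not proportional -/
lemma fib_indep {f g : V3} (hf : ‖f‖ = 1) (hg : ‖g‖ = 1) (h1 : f ≠ g) (h2 : f ≠ -g) {s t : ℝ}
    (h : s • f + t • g = 0) : s = 0 ∧ t = 0 := by
  have hs : s = 0 := by
    by_contra hs
    have h3 : f = (-(t / s)) • g := by
      have h4 : s • f = -(t • g) := eq_neg_of_add_eq_zero_left h
      have h5 : f = s⁻¹ • (s • f) := by rw [smul_smul, inv_mul_cancel₀ hs, one_smul]
      rw [h5, h4, smul_neg, smul_smul, neg_smul]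
      congr 2
      field_simp
    rcases fib_pm hf hg h3 with h4 | h4
    · exact h1 h4
    · exact h2 h4
  refine ⟨hs, ?_⟩
  rw [hs, zero_smul, zero_add] at h
  rcases smul_eq_zero.1 h with h3 | h3
  · exact h3
  · rw [h3, norm_zero] at hg
    exact absurd hg zero_ne_one

lemma fib_normalise {v : V3} (hv : v ≠ 0) : ‖‖v‖⁻¹ • v‖ = 1 := by
  rw [norm_smul, norm_inv, norm_norm, inv_mul_cancel₀ (norm_ne_zero_iff.2 hv)]

section main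

variable {G : Type} [Group G] {ρ : G →* M3} {Λ : Set (V3 × V3)}

lemma fib_base (B : Bas ρ Λ) {k : G} (h1 : (fun i => ρ k i 0 : V3) ≠ 0)
    (h2 : (fun j => ρ k⁻¹ 2 j : V3) ≠ 0) :
    ((‖(fun i => ρ k i 0 : V3)‖⁻¹ • fun i => ρ k i 0,
      ‖(fun j => ρ k⁻¹ 2 j : V3)‖⁻¹ • fun j => ρ k⁻¹ 2 j) : V3 × V3) ∈ Λ := by
  have n1 : 0 < ‖(fun i => ρ k i 0 : V3)‖ := norm_pos_iff.2 h1
  have n2 : 0 < ‖(fun j => ρ k⁻¹ 2 j : V3)‖ := norm_pos_iff.2 h2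
  exact B.base k _ _ (mul_pos (inv_pos.2 n1) (inv_pos.2 n2)) (fib_normalise h1) (fib_normalise h2)

lemma fib_fin (B : Bas ρ Λ)
    (hdense : ∀ p ∈ Λ, ∀ q ∈ Λ, ∀ ε : ℝ, 0 < ε → ∃ (g : G) (c d : ℝ), 0 < c * d ∧
      ‖c • (ρ g *ᵥ p.1)‖ = 1 ∧ ‖d • (p.2 ᵥ* ρ g⁻¹)‖ = 1 ∧
      dist ((c • (ρ g *ᵥ p.1), d • (p.2 ᵥ* ρ g⁻¹)) : V3 × V3) q < ε)
    {q : V3 × V3} (hq : q ∈ Λ) {a : V3} {ε : ℝ} (hε : 0 < ε)
    (hz : ∀ p ∈ Λ, dist p q < ε → p.2 ⬝ᵥ a = 0) :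
    ∃ T : Finset G, ∀ p ∈ Λ, ∃ g ∈ T, p.2 ⬝ᵥ (ρ g⁻¹ *ᵥ a) = 0 := by
  classical
  have key : ∃ T : Finset G, ∀ p ∈ Λ, p ∈ Λ → ∃ g ∈ T, p.2 ⬝ᵥ (ρ g⁻¹ *ᵥ a) = 0 := by
    refine B.cpt.induction_on (p := fun S : Set (V3 × V3) => ∃ T : Finset G, ∀ p ∈ S, p ∈ Λ →
      ∃ g ∈ T, p.2 ⬝ᵥ (ρ g⁻¹ *ᵥ a) = 0) ⟨∅, fun p hp => absurd hp (notMem_empty p)⟩ ?_ ?_ ?_
    · rintro s t hst ⟨T, hT⟩
      exact ⟨T, fun p hp => hT p (hst hp)⟩
    · rintro s t ⟨T, hT⟩ ⟨T', hT'⟩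
      refine ⟨T ∪ T', fun p hp hpΛ => ?_⟩
      rcases hp with hp | hp
      · obtain ⟨g, hg, h⟩ := hT p hp hpΛ
        exact ⟨g, Finset.mem_union_left _ hg, h⟩
      · obtain ⟨g, hg, h⟩ := hT' p hp hpΛ
        exact ⟨g, Finset.mem_union_right _ hg, h⟩
    · intro x hx
      obtain ⟨g, c, d, hcd, hc1, hd1, hdist⟩ := hdense x hx q hq ε hε
      have hcF : Continuous fun y : V3 × V3 => c • (ρ g *ᵥ y.1) :=
        (continuous_const.matrix_mulVec continuous_fst).const_smul c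
      have hcH : Continuous fun y : V3 × V3 => d • (y.2 ᵥ* ρ g⁻¹) :=
        (continuous_snd.matrix_vecMul continuous_const).const_smul d
      have hΨ : ContinuousAt (fun y : V3 × V3 => ((‖c • (ρ g *ᵥ y.1)‖⁻¹ • (c • (ρ g *ᵥ y.1)),
          ‖d • (y.2 ᵥ* ρ g⁻¹)‖⁻¹ • (d • (y.2 ᵥ* ρ g⁻¹))) : V3 × V3)) x := by
        have k1 : ContinuousAt (fun y : V3 × V3 => ‖c • (ρ g *ᵥ y.1)‖⁻¹) x :=
          hcF.norm.continuousAt.inv₀ (by rw [hc1]; exact one_ne_zero)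
        have k2 : ContinuousAt (fun y : V3 × V3 => ‖d • (y.2 ᵥ* ρ g⁻¹)‖⁻¹) x :=
          hcH.norm.continuousAt.inv₀ (by rw [hd1]; exact one_ne_zero)
        exact (k1.smul hcF.continuousAt).prodMk (k2.smul hcH.continuousAt)
      have hx1 : ((‖c • (ρ g *ᵥ x.1)‖⁻¹ • (c • (ρ g *ᵥ x.1)),
          ‖d • (x.2 ᵥ* ρ g⁻¹)‖⁻¹ • (d • (x.2 ᵥ* ρ g⁻¹))) : V3 × V3) =
          (c • (ρ g *ᵥ x.1), d • (x.2 ᵥ* ρ g⁻¹)) := by
        rw [hc1, hd1, inv_one, one_smul, one_smul]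
      have e1 : ∀ᶠ y in 𝓝 x, dist ((‖c • (ρ g *ᵥ y.1)‖⁻¹ • (c • (ρ g *ᵥ y.1)),
          ‖d • (y.2 ᵥ* ρ g⁻¹)‖⁻¹ • (d • (y.2 ᵥ* ρ g⁻¹))) : V3 × V3) q < ε := by
        have k3 : ContinuousAt (fun y : V3 × V3 => dist ((‖c • (ρ g *ᵥ y.1)‖⁻¹ •
          (c • (ρ g *ᵥ y.1)), ‖d • (y.2 ᵥ* ρ g⁻¹)‖⁻¹ • (d • (y.2 ᵥ* ρ g⁻¹))) : V3 × V3) q) x :=
          hΨ.dist continuousAt_const
        refine k3.eventually_lt continuousAt_const ?_
        show dist ((‖c • (ρ g *ᵥ x.1)‖⁻¹ • (c • (ρ g *ᵥ x.1)),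
          ‖d • (x.2 ᵥ* ρ g⁻¹)‖⁻¹ • (d • (x.2 ᵥ* ρ g⁻¹))) : V3 × V3) q < ε
        rw [hx1]
        exact hdist
      have e2 : ∀ᶠ y in 𝓝 x, 0 < ‖c • (ρ g *ᵥ y.1)‖ :=
        continuousAt_const.eventually_lt hcF.norm.continuousAt (by rw [hc1]; exact one_pos)
      have e3 : ∀ᶠ y in 𝓝 x, 0 < ‖d • (y.2 ᵥ* ρ g⁻¹)‖ :=
        continuousAt_const.eventually_lt hcH.norm.continuousAt (by rw [hd1]; exact one_pos)
      refine ⟨_, mem_nhdsWithin_of_mem_nhds ((e1.and e2).and e3), {g}, ?_⟩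
      rintro y ⟨⟨hy1, hy2⟩, hy3⟩ hyΛ
      refine ⟨g, Finset.mem_singleton_self g, ?_⟩
      have i1 : 0 < ‖c • (ρ g *ᵥ y.1)‖⁻¹ := inv_pos.2 hy2
      have i2 : 0 < ‖d • (y.2 ᵥ* ρ g⁻¹)‖⁻¹ := inv_pos.2 hy3
      have h1 := B.inv y hyΛ g (‖c • (ρ g *ᵥ y.1)‖⁻¹ * c) (‖d • (y.2 ᵥ* ρ g⁻¹)‖⁻¹ * d)
        (by
          have e : ‖c • (ρ g *ᵥ y.1)‖⁻¹ * c * (‖d • (y.2 ᵥ* ρ g⁻¹)‖⁻¹ * d) =
            (‖c • (ρ g *ᵥ y.1)‖⁻¹ * ‖d • (y.2 ᵥ* ρ g⁻¹)‖⁻¹) * (c * d) := by ring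
          rw [e]
          exact mul_pos (mul_pos i1 i2) hcd)
        (by rw [mul_smul]; exact fib_normalise (norm_pos_iff.1 hy2))
        (by rw [mul_smul]; exact fib_normalise (norm_pos_iff.1 hy3))
      rw [mul_smul, mul_smul] at h1
      have h2 : (‖d • (y.2 ᵥ* ρ g⁻¹)‖⁻¹ • (d • (y.2 ᵥ* ρ g⁻¹))) ⬝ᵥ a = 0 := hz _ h1 hy1
      rw [smul_dotProduct, smul_dotProduct, smul_eq_mul, smul_eq_mul] at h2
      have hd0 : d ≠ 0 := by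
        rintro rfl
        rw [mul_zero] at hcd
        exact lt_irrefl _ hcd
      rw [dotProduct_mulVec]
      rcases mul_eq_zero.1 h2 with h3 | h3
      · exact absurd h3 i2.ne'
      · rcases mul_eq_zero.1 h3 with h4 | h4
        · exact absurd h4 hd0
        · exact h4
  obtain ⟨T, hT⟩ := key
  exact ⟨T, fun p hp => hT p hp hp⟩

lemma fib_single_dot (i : Fin 3) (v : V3) : (Pi.single i (1 : ℝ) : V3) ⬝ᵥ v = v i := by
  simp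

lemma fib_col (A : M3) (j : Fin 3) : A *ᵥ (Pi.single j (1 : ℝ) : V3) = fun i => A i j := by
  funext i
  simp

lemma fib_single_ne (i : Fin 3) : (Pi.single i (1 : ℝ) : V3) ≠ 0 := by
  intro h
  have := congrFun h i
  simp at this

lemma fib_claim (hgen : S_gen) (hP : Pos ρ) (B : Bas ρ Λ)
    (hdense : ∀ p ∈ Λ, ∀ q ∈ Λ, ∀ ε : ℝ, 0 < ε → ∃ (g : G) (c d : ℝ), 0 < c * d ∧
      ‖c • (ρ g *ᵥ p.1)‖ = 1 ∧ ‖d • (p.2 ᵥ* ρ g⁻¹)‖ = 1 ∧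
      dist ((c • (ρ g *ᵥ p.1), d • (p.2 ᵥ* ρ g⁻¹)) : V3 × V3) q < ε)
    {q : V3 × V3} (hq : q ∈ Λ) {a : V3} (ha : a ≠ 0) {ε : ℝ} (hε : 0 < ε) :
    ∃ p ∈ Λ, dist p q < ε ∧ p.2 ⬝ᵥ a ≠ 0 := by
  classical
  by_contra hcon
  have hz : ∀ p ∈ Λ, dist p q < ε → p.2 ⬝ᵥ a = 0 := by
    intro p hp hd
    by_contra h
    exact hcon ⟨p, hp, hd, h⟩
  obtain ⟨T, hT⟩ := fib_fin B hdense hq hε hz
  have hga : ∀ g : G, ρ g⁻¹ *ᵥ a ≠ 0 := by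
    intro g h0
    apply ha
    have h1 : ρ g *ᵥ (ρ g⁻¹ *ᵥ a) = a := by
      rw [mulVec_mulVec, ← map_mul, mul_inv_cancel, map_one, one_mulVec]
    rw [← h1, h0, mulVec_zero]
  obtain ⟨k, hk1, hk2⟩ := hgen ρ hP {((Pi.single 0 1 : V3), (Pi.single 0 1 : V3))}
    (insert (a, (Pi.single 2 1 : V3)) (T.image fun g => (ρ g⁻¹ *ᵥ a, (Pi.single 2 1 : V3))))
    (by
      intro p hp
      rw [Finset.mem_singleton] at hp
      rw [hp]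
      exact ⟨fib_single_ne 0, fib_single_ne 0⟩)
    (by
      intro p hp
      rw [Finset.mem_insert, Finset.mem_image] at hp
      rcases hp with hp | ⟨g, -, hp⟩
      · rw [hp]; exact ⟨ha, fib_single_ne 2⟩
      · rw [← hp]; exact ⟨hga g, fib_single_ne 2⟩)
  have c1 : (fun i => ρ k i 0 : V3) ≠ 0 := by
    intro h0
    have h1 := hk1 _ (Finset.mem_singleton_self _)
    apply h1
    show (Pi.single 0 1 : V3) ⬝ᵥ (ρ k *ᵥ (Pi.single 0 1 : V3)) = 0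
    rw [fib_col, h0, dotProduct_zero]
  have c2 : (fun j => ρ k⁻¹ 2 j : V3) ≠ 0 := by
    intro h0
    have h1 := hk2 _ (Finset.mem_insert_self _ _)
    apply h1
    show (Pi.single 2 1 : V3) ⬝ᵥ (ρ k⁻¹ *ᵥ a) = 0
    rw [fib_single_dot]
    show (fun j => ρ k⁻¹ 2 j : V3) ⬝ᵥ a = 0
    rw [h0, zero_dotProduct]
  obtain ⟨g, hg, h⟩ := hT _ (fib_base B c1 c2)
  have h1 := hk2 (ρ g⁻¹ *ᵥ a, (Pi.single 2 1 : V3))
    (Finset.mem_insert_of_mem (Finset.mem_image_of_mem _ hg))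
  apply h1
  show (Pi.single 2 1 : V3) ⬝ᵥ (ρ k⁻¹ *ᵥ (ρ g⁻¹ *ᵥ a)) = 0
  rw [fib_single_dot]
  show (fun j => ρ k⁻¹ 2 j : V3) ⬝ᵥ (ρ g⁻¹ *ᵥ a) = 0
  have h2 : (‖(fun j => ρ k⁻¹ 2 j : V3)‖⁻¹ • fun j => ρ k⁻¹ 2 j : V3) ⬝ᵥ (ρ g⁻¹ *ᵥ a) = 0 := h
  rw [smul_dotProduct, smul_eq_mul] at h2
  rcases mul_eq_zero.1 h2 with h3 | h3
  · exact absurd h3 (inv_ne_zero (norm_ne_zero_iff.2 c2))
  · exact h3

lemma fib_core (hgen : S_gen) (htan : S_tan) (hP : Pos ρ) (B : Bas ρ Λ)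
    (hdense : ∀ p ∈ Λ, ∀ q ∈ Λ, ∀ ε : ℝ, 0 < ε → ∃ (g : G) (c d : ℝ), 0 < c * d ∧
      ‖c • (ρ g *ᵥ p.1)‖ = 1 ∧ ‖d • (p.2 ᵥ* ρ g⁻¹)‖ = 1 ∧
      dist ((c • (ρ g *ᵥ p.1), d • (p.2 ᵥ* ρ g⁻¹)) : V3 × V3) q < ε)
    {a f1 f2 f3 : V3} (h1 : (a, f1) ∈ Λ) (h2 : (a, f2) ∈ Λ) (h3 : (a, f3) ∈ Λ)
    (hne : f1 ≠ f3) (hne' : f1 ≠ -f3) {α β : ℝ} (hα : 0 < α) (hβ : 0 < β)
    (h : f2 = α • f1 + β • f3) : False := by
  have ha1 : ‖a‖ = 1 := B.unit1 _ h1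
  have ha0 : a ≠ 0 := by
    intro h0
    rw [h0, norm_zero] at ha1
    exact zero_ne_one ha1
  choose P hPL hPd hPa using fun n : ℕ =>
    fib_claim hgen hP B hdense h2 ha0 (ε := 1 / ((n : ℝ) + 1)) (by positivity)
  have hlim : Tendsto P atTop (𝓝 (a, f2)) := by
    rw [tendsto_iff_dist_tendsto_zero]
    exact squeeze_zero (fun n => dist_nonneg) (fun n => (hPd n).le)
      tendsto_one_div_add_atTop_nhds_zero_nat
  have hPne : ∀ n, (P n).1 ≠ a := by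
    intro n hn
    apply hPa n
    have h5 := B.flag _ (hPL n)
    rwa [hn] at h5
  have hunit : ∀ n, (‖(P n).1 - a‖⁻¹ • ((P n).1 - a)) ∈ Metric.sphere (0 : V3) 1 := by
    intro n
    rw [mem_sphere_zero_iff_norm]
    exact fib_normalise (sub_ne_zero.2 (hPne n))
  obtain ⟨d, -, φ, hφ, hlimd⟩ := (isCompact_sphere (0 : V3) 1).tendsto_subseq hunit
  have hlim2 := hlim.comp hφ.tendsto_atTop
  obtain ⟨hf2d, hdt⟩ := htan a f2 d (fun n => (P (φ n)).1) (fun n => (P (φ n)).2)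
    (B.flag _ h2) ha1 (fun n => B.unit1 _ (hPL _)) (fun n => B.flag _ (hPL _))
    (fun n => B.pos _ h2 _ (hPL _)) (fun n => hPne _)
    ((continuous_fst.tendsto _).comp hlim2) ((continuous_snd.tendsto _).comp hlim2) hlimd
  have hs : ∀ n, 0 ≤ (f1 ⬝ᵥ (‖(P n).1 - a‖⁻¹ • ((P n).1 - a))) *
      (f3 ⬝ᵥ (‖(P n).1 - a‖⁻¹ • ((P n).1 - a))) := by
    intro n
    have k1 : 0 ≤ (f1 ⬝ᵥ (P n).1) * ((P n).2 ⬝ᵥ a) := B.pos _ h1 _ (hPL n)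
    have k3 : 0 ≤ (f3 ⬝ᵥ (P n).1) * ((P n).2 ⬝ᵥ a) := B.pos _ h3 _ (hPL n)
    have z1 : f1 ⬝ᵥ a = 0 := B.flag _ h1
    have z3 : f3 ⬝ᵥ a = 0 := B.flag _ h3
    have hsq : 0 < ((P n).2 ⬝ᵥ a) ^ 2 := by
      have := hPa n
      positivity
    have k4 : 0 ≤ (f1 ⬝ᵥ (P n).1) * (f3 ⬝ᵥ (P n).1) := by
      have k5 : 0 ≤ ((f1 ⬝ᵥ (P n).1) * (f3 ⬝ᵥ (P n).1)) * ((P n).2 ⬝ᵥ a) ^ 2 := by
        have := mul_nonneg k1 k3
        nlinarith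
      exact nonneg_of_mul_nonneg_left k5 hsq
    rw [dotProduct_smul, dotProduct_smul, dotProduct_sub, dotProduct_sub, z1, z3, sub_zero,
      sub_zero, smul_eq_mul, smul_eq_mul]
    have e : ‖(P n).1 - a‖⁻¹ * (f1 ⬝ᵥ (P n).1) * (‖(P n).1 - a‖⁻¹ * (f3 ⬝ᵥ (P n).1)) =
        ‖(P n).1 - a‖⁻¹ ^ 2 * ((f1 ⬝ᵥ (P n).1) * (f3 ⬝ᵥ (P n).1)) := by ring
    rw [e]
    exact mul_nonneg (sq_nonneg _) k4
  have hc : ∀ f : V3, Continuous fun x : V3 => f ⬝ᵥ x := by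
    intro f
    unfold dotProduct
    fun_prop
  have hs' : 0 ≤ (f1 ⬝ᵥ d) * (f3 ⬝ᵥ d) := by
    refine ge_of_tendsto' (((hc f1).tendsto d |>.comp hlimd).mul ((hc f3).tendsto d |>.comp hlimd))
      fun n => ?_
    exact hs (φ n)
  have e2 : α * (f1 ⬝ᵥ d) + β * (f3 ⬝ᵥ d) = 0 := by
    rw [h, add_dotProduct, smul_dotProduct, smul_dotProduct, smul_eq_mul, smul_eq_mul] at hf2d
    exact hf2d
  have z3 : f3 ⬝ᵥ d = 0 := by
    have e3 : α * ((f1 ⬝ᵥ d) * (f3 ⬝ᵥ d)) = -(β * (f3 ⬝ᵥ d) ^ 2) := by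
      linear_combination (f3 ⬝ᵥ d) * e2
    have e4 := mul_nonneg hα.le hs'
    rw [e3] at e4
    have e5 : (f3 ⬝ᵥ d) ^ 2 ≤ 0 := by
      by_contra hh
      push Not at hh
      have := mul_pos hβ hh
      linarith
    exact pow_eq_zero_iff (two_ne_zero) |>.1 (le_antisymm e5 (sq_nonneg _))
  have z1 : f1 ⬝ᵥ d = 0 := by
    rw [z3, mul_zero, add_zero] at e2
    rcases mul_eq_zero.1 e2 with h5 | h5
    · exact absurd h5 hα.ne'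
    · exact h5
  have hf3 : ‖f3‖ = 1 := B.unit2 _ h3
  have hf30 : f3 ≠ 0 := by
    intro h0
    rw [h0, norm_zero] at hf3
    exact zero_ne_one hf3
  obtain ⟨t, ht⟩ := fib_two ha0 hdt hf30 (B.flag _ h1) z1 (B.flag _ h3) z3
  rcases fib_pm (B.unit2 _ h1) hf3 ht with h5 | h5
  · exact hne h5
  · exact hne' h5

end main

theorem t_fib (h1 : S_gen) (h2 : S_basic) (h3 : S_dense) (h4 : S_tan) : S_fib := by
  classical
  intro G _ ρ hP a f1 f2 f3 m1 m2 m3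
  by_contra hcon
  rw [not_or, not_or] at hcon
  obtain ⟨n12, n13, n23⟩ := hcon
  have B := h2 ρ hP
  obtain ⟨hD1, hD2⟩ := h3 ρ hP
  have n12' : f1 ≠ -f2 := by
    intro h
    rw [h] at m1
    exact hD1 _ m2 m1
  have n13' : f1 ≠ -f3 := by
    intro h
    rw [h] at m1
    exact hD1 _ m3 m1
  have n23' : f2 ≠ -f3 := by
    intro h
    rw [h] at m2
    exact hD1 _ m3 m2
  have u1 : ‖f1‖ = 1 := B.unit2 _ m1
  have u2 : ‖f2‖ = 1 := B.unit2 _ m2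
  have u3 : ‖f3‖ = 1 := B.unit2 _ m3
  have hne : ∀ v : V3, ‖v‖ = 1 → v ≠ 0 := by
    intro v hv h0
    rw [h0, norm_zero] at hv
    exact zero_ne_one hv
  have ha0 : a ≠ 0 := hne a (B.unit1 _ m1)
  -- the test flag
  obtain ⟨g, hg1, hg2⟩ := h1 ρ hP
    {((Pi.single 0 1 : V3), f1), ((Pi.single 0 1 : V3), f2), ((Pi.single 0 1 : V3), f3)}
    {(a, (Pi.single 2 1 : V3))}
    (by
      intro p hp
      simp only [Finset.mem_insert, Finset.mem_singleton] at hp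
      rcases hp with hp | hp | hp
      · rw [hp]; exact ⟨fib_single_ne 0, hne f1 u1⟩
      · rw [hp]; exact ⟨fib_single_ne 0, hne f2 u2⟩
      · rw [hp]; exact ⟨fib_single_ne 0, hne f3 u3⟩)
    (by
      intro p hp
      rw [Finset.mem_singleton] at hp
      rw [hp]
      exact ⟨ha0, fib_single_ne 2⟩)
  have g1 : f1 ⬝ᵥ (fun i => ρ g i 0 : V3) ≠ 0 := by
    have := hg1 ((Pi.single 0 1 : V3), f1) (by simp)
    rwa [fib_col] at this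
  have g2 : f2 ⬝ᵥ (fun i => ρ g i 0 : V3) ≠ 0 := by
    have := hg1 ((Pi.single 0 1 : V3), f2) (by simp)
    rwa [fib_col] at this
  have g3 : f3 ⬝ᵥ (fun i => ρ g i 0 : V3) ≠ 0 := by
    have := hg1 ((Pi.single 0 1 : V3), f3) (by simp)
    rwa [fib_col] at this
  have g4 : (fun j => ρ g⁻¹ 2 j : V3) ⬝ᵥ a ≠ 0 := by
    have h5 := hg2 _ (Finset.mem_singleton_self _)
    rw [fib_single_dot] at h5
    exact h5
  have c1 : (fun i => ρ g i 0 : V3) ≠ 0 := by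
    intro h0
    rw [h0, dotProduct_zero] at g1
    exact g1 rfl
  have c2 : (fun j => ρ g⁻¹ 2 j : V3) ≠ 0 := by
    intro h0
    rw [h0, zero_dotProduct] at g4
    exact g4 rfl
  have hq := fib_base B c1 c2
  generalize hcol : (fun i => ρ g i 0 : V3) = v at *
  generalize hrow : (fun j => ρ g⁻¹ 2 j : V3) = w at *
  have hv : 0 < ‖v‖⁻¹ := inv_pos.2 (norm_pos_iff.2 c1)
  have hw : 0 < ‖w‖⁻¹ := inv_pos.2 (norm_pos_iff.2 c2)
  have hpos : ∀ f : V3, (a, f) ∈ Lam ρ → f ⬝ᵥ v ≠ 0 → 0 < (f ⬝ᵥ v) * (w ⬝ᵥ a) := by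
    intro f hf hfv
    have h5 : 0 ≤ (f ⬝ᵥ (‖v‖⁻¹ • v)) * ((‖w‖⁻¹ • w) ⬝ᵥ a) := B.pos _ hf _ hq
    rw [dotProduct_smul, smul_dotProduct, smul_eq_mul, smul_eq_mul] at h5
    have e : ‖v‖⁻¹ * (f ⬝ᵥ v) * (‖w‖⁻¹ * (w ⬝ᵥ a)) =
        (‖v‖⁻¹ * ‖w‖⁻¹) * ((f ⬝ᵥ v) * (w ⬝ᵥ a)) := by ring
    rw [e] at h5
    have h6 : 0 ≤ (f ⬝ᵥ v) * (w ⬝ᵥ a) := nonneg_of_mul_nonneg_right h5 (mul_pos hv hw)
    exact lt_of_le_of_ne h6 (mul_ne_zero hfv g4).symm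
  have s1 := hpos f1 m1 g1
  have s2 := hpos f2 m2 g2
  have s3 := hpos f3 m3 g3
  -- the linear relation
  obtain ⟨x, hx0, hx⟩ : ∃ x : V3, x ≠ 0 ∧ x 0 • f1 + x 1 • f2 + x 2 • f3 = 0 := by
    have hM : (Matrix.of ![f1, f2, f3] : M3) *ᵥ a = 0 := by
      funext i
      fin_cases i
      · exact B.flag _ m1
      · exact B.flag _ m2
      · exact B.flag _ m3
    have hdet : (Matrix.of ![f1, f2, f3] : M3).det = 0 :=
      Matrix.exists_mulVec_eq_zero_iff.1 ⟨a, ha0, hM⟩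
    obtain ⟨x, hx0, hx⟩ := Matrix.exists_vecMul_eq_zero_iff.2 hdet
    refine ⟨x, hx0, ?_⟩
    rw [← hx]
    funext j
    simp [vecMul, dotProduct, Fin.sum_univ_three]
  have x0 : x 0 ≠ 0 := by
    intro h0
    rw [h0, zero_smul, zero_add] at hx
    obtain ⟨k1, k2⟩ := fib_indep u2 u3 n23 n23' hx
    apply hx0
    funext i
    fin_cases i
    · exact h0
    · exact k1
    · exact k2
  have x1 : x 1 ≠ 0 := by
    intro h0
    rw [h0, zero_smul, add_zero] at hx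
    obtain ⟨k1, k2⟩ := fib_indep u1 u3 n13 n13' hx
    exact x0 k1
  have x2 : x 2 ≠ 0 := by
    intro h0
    rw [h0, zero_smul, add_zero] at hx
    obtain ⟨k1, k2⟩ := fib_indep u1 u2 n12 n12' hx
    exact x0 k1
  have hsum : x 0 * ((f1 ⬝ᵥ v) * (w ⬝ᵥ a)) + x 1 * ((f2 ⬝ᵥ v) * (w ⬝ᵥ a)) +
      x 2 * ((f3 ⬝ᵥ v) * (w ⬝ᵥ a)) = 0 := by
    have h5 := congrArg (fun y : V3 => y ⬝ᵥ v) hx
    simp only [add_dotProduct, smul_dotProduct, smul_eq_mul, zero_dotProduct] at h5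
    linear_combination (w ⬝ᵥ a) * h5
  -- a general form of the final step
  have fin : ∀ (e1 e2 e3 : V3) (y1 y2 y3 : ℝ), (a, e1) ∈ Lam ρ → (a, e2) ∈ Lam ρ →
      (a, e3) ∈ Lam ρ → e1 ≠ e3 → e1 ≠ -e3 → y2 ≠ 0 → y1 * y2 < 0 → y3 * y2 < 0 →
      y1 • e1 + y2 • e2 + y3 • e3 = 0 → False := by
    intro e1 e2 e3 y1 y2 y3 k1 k2 k3 k4 k5 k6 k7 k8 k9
    have hsq : 0 < y2 ^ 2 := by positivity
    have α0 : 0 < -(y1 / y2) := by
      have : -(y1 / y2) = -(y1 * y2) / y2 ^ 2 := by field_simp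
      rw [this]
      exact div_pos (neg_pos.2 k7) hsq
    have β0 : 0 < -(y3 / y2) := by
      have : -(y3 / y2) = -(y3 * y2) / y2 ^ 2 := by field_simp
      rw [this]
      exact div_pos (neg_pos.2 k8) hsq
    refine fib_core h1 h4 hP B hD2 k1 k2 k3 k4 k5 α0 β0 ?_
    funext i
    have k10 := congrFun k9 i
    simp only [Pi.add_apply, Pi.smul_apply, smul_eq_mul, Pi.zero_apply] at k10 ⊢
    field_simp
    linear_combination k10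
  rcases lt_or_gt_of_ne x0 with a0 | a0 <;> rcases lt_or_gt_of_ne x1 with a1 | a1 <;>
    rcases lt_or_gt_of_ne x2 with a2 | a2
  · -- all negative
    have b0 := mul_neg_of_neg_of_pos a0 s1
    have b1 := mul_neg_of_neg_of_pos a1 s2
    have b2 := mul_neg_of_neg_of_pos a2 s3
    linarith
  · -- x2 positive
    refine fin f1 f3 f2 (x 0) (x 2) (x 1) m1 m3 m2 n12 n12' x2 (mul_neg_of_neg_of_pos a0 a2)
      (mul_neg_of_neg_of_pos a1 a2) ?_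
    rw [← hx]; abel
  · -- x1 positive
    exact fin f1 f2 f3 (x 0) (x 1) (x 2) m1 m2 m3 n13 n13' x1 (mul_neg_of_neg_of_pos a0 a1)
      (mul_neg_of_neg_of_pos a2 a1) hx
  · -- x0 negative
    refine fin f2 f1 f3 (x 1) (x 0) (x 2) m2 m1 m3 n23 n23' x0 (mul_neg_of_pos_of_neg a1 a0)
      (mul_neg_of_pos_of_neg a2 a0) ?_
    rw [← hx]; abel
  · -- x0 positive
    refine fin f2 f1 f3 (x 1) (x 0) (x 2) m2 m1 m3 n23 n23' x0 (mul_neg_of_neg_of_pos a1 a0)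
      (mul_neg_of_neg_of_pos a2 a0) ?_
    rw [← hx]; abel
  · -- x1 negative
    exact fin f1 f2 f3 (x 0) (x 1) (x 2) m1 m2 m3 n13 n13' x1 (mul_neg_of_pos_of_neg a0 a1)
      (mul_neg_of_pos_of_neg a2 a1) hx
  · -- x2 negative
    refine fin f1 f3 f2 (x 0) (x 2) (x 1) m1 m3 m2 n12 n12' x2 (mul_neg_of_pos_of_neg a0 a2)
      (mul_neg_of_pos_of_neg a1 a2) ?_
    rw [← hx]; abel
  · -- all positive
    have b0 := mul_pos a0 s1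
    have b1 := mul_pos a1 s2
    have b2 := mul_pos a2 s3
    linarith

end Pool.Agent.H817.PL
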