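import Pool.Agent.H817.PL.Stm

/-!
The invariant open properly convex cone.
-/

set_option autoImplicit false

namespace Pool.Agent.H817.PL

open Set Filter Topology Module Matrix

/-- normalised vector -/
noncomputable def inv_nrm (v : V3) : V3 := ‖v‖⁻¹ • v

theorem inv_nrm_smul (c : ℝ) (hc : 0 < c) (v : V3) : inv_nrm (c • v) = inv_nrm v := by
  unfold inv_nrm
  rw [norm_smul, Real.norm_eq_abs, abs_of_pos hc, smul_smul, mul_inv]
  congr 1
  field_simp

theorem inv_nrm_pos {v : V3} (hv : v ≠ 0) : ∃ c : ℝ, 0 < c ∧ inv_nrm v = c • v :=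
  ⟨‖v‖⁻¹, inv_pos.2 (norm_pos_iff.2 hv), rfl⟩

theorem inv_nrm_norm {v : V3} (hv : v ≠ 0) : ‖inv_nrm v‖ = 1 := by
  unfold inv_nrm
  rw [norm_smul, norm_inv, norm_norm, inv_mul_cancel₀ (norm_ne_zero_iff.2 hv)]

theorem inv_nrm_unit {v : V3} (hv : ‖v‖ = 1) : inv_nrm v = v := by
  unfold inv_nrm
  rw [hv, inv_one, one_smul]

theorem inv_nrm_neg (v : V3) : inv_nrm (-v) = - inv_nrm v := by
  unfold inv_nrm
  rw [norm_neg, smul_neg]

theorem inv_nrm_mulVec (A : M3) (v : V3) : inv_nrm (A *ᵥ inv_nrm v) = inv_nrm (A *ᵥ v) := by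
  by_cases hv : v = 0
  · subst hv
    unfold inv_nrm
    simp
  · obtain ⟨c, hc, h⟩ := inv_nrm_pos hv
    rw [h, mulVec_smul, inv_nrm_smul c hc]

theorem inv_nrm_vecMul (A : M3) (v : V3) : inv_nrm (inv_nrm v ᵥ* A) = inv_nrm (v ᵥ* A) := by
  by_cases hv : v = 0
  · subst hv
    unfold inv_nrm
    simp
  · obtain ⟨c, hc, h⟩ := inv_nrm_pos hv
    rw [h, smul_vecMul, inv_nrm_smul c hc]

/-- flags with the same tensor -/
theorem inv_tens {p q : V3 × V3} (hp1 : ‖p.1‖ = 1) (hp2 : ‖p.2‖ = 1) (hq1 : ‖q.1‖ = 1)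
    (h : tens p = tens q) : p = q ∨ p = -q := by
  have h0 : ∀ i j, p.1 i * p.2 j = q.1 i * q.2 j := fun i j => congrFun (congrFun h i) j
  have hp2' : p.2 ≠ 0 := by
    intro h
    rw [h, norm_zero] at hp2
    exact zero_ne_one hp2
  have hp1' : p.1 ≠ 0 := by
    intro h
    rw [h, norm_zero] at hp1
    exact zero_ne_one hp1
  obtain ⟨j, hj⟩ := Function.ne_iff.1 hp2'
  obtain ⟨i, hi⟩ := Function.ne_iff.1 hp1'
  rw [Pi.zero_apply] at hi hj
  have e1 : p.1 = (q.2 j / p.2 j) • q.1 := by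
    funext k
    rw [Pi.smul_apply, smul_eq_mul, div_mul_eq_mul_div, eq_div_iff hj, h0 k j]
    ring
  have e2 : |q.2 j / p.2 j| = 1 := by
    have := congrArg norm e1
    rw [norm_smul, hp1, hq1, mul_one, Real.norm_eq_abs] at this
    exact this.symm
  rcases eq_or_eq_neg_of_abs_eq e2 with e | e
  · left
    rw [e, one_smul] at e1
    refine Prod.ext e1 (funext fun k => ?_)
    have := h0 i k
    rw [← e1] at this
    exact mul_left_cancel₀ hi this
  · right
    rw [e, neg_one_smul] at e1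
    refine Prod.ext e1 (funext fun k => ?_)
    have := h0 i k
    have e3 : q.1 i = - p.1 i := by rw [e1, Pi.neg_apply, neg_neg]
    rw [e3, neg_mul, ← mul_neg] at this
    exact mul_left_cancel₀ hi this

section

variable {G : Type} [Group G] {ρ : G →* M3}

theorem inv_cancel (ρ : G →* M3) (g : G) (v : V3) : ρ g *ᵥ (ρ g⁻¹ *ᵥ v) = v := by
  rw [mulVec_mulVec, ← map_mul, mul_inv_cancel, map_one, one_mulVec]

theorem inv_cancel' (ρ : G →* M3) (g : G) (v : V3) : (v ᵥ* ρ g⁻¹) ᵥ* ρ g = v := by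
  rw [vecMul_vecMul, ← map_mul, inv_mul_cancel, map_one, vecMul_one]

theorem inv_ne1 (ρ : G →* M3) (g : G) {v : V3} (hv : v ≠ 0) : ρ g *ᵥ v ≠ 0 := by
  intro h
  apply hv
  have := inv_cancel ρ g⁻¹ v
  rw [inv_inv, h, mulVec_zero] at this
  exact this.symm

theorem inv_ne2 (ρ : G →* M3) (g : G) {v : V3} (hv : v ≠ 0) : v ᵥ* ρ g⁻¹ ≠ 0 := by
  intro h
  apply hv
  have := inv_cancel' ρ g v
  rw [h, zero_vecMul] at this
  exact this.symm

/-- the normalised action -/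
noncomputable def inv_act (ρ : G →* M3) (g : G) (p : V3 × V3) : V3 × V3 :=
  (inv_nrm (ρ g *ᵥ p.1), inv_nrm (p.2 ᵥ* ρ g⁻¹))

theorem inv_act_mul (ρ : G →* M3) (g h : G) (p : V3 × V3) :
    inv_act ρ g (inv_act ρ h p) = inv_act ρ (g * h) p := by
  unfold inv_act
  dsimp only
  rw [inv_nrm_mulVec, inv_nrm_vecMul, mulVec_mulVec, vecMul_vecMul, ← map_mul, ← map_mul,
    _root_.mul_inv_rev]

theorem inv_act_one (ρ : G →* M3) {p : V3 × V3} (h1 : ‖p.1‖ = 1) (h2 : ‖p.2‖ = 1) :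
    inv_act ρ 1 p = p := by
  unfold inv_act
  rw [inv_one, map_one, one_mulVec, vecMul_one, inv_nrm_unit h1, inv_nrm_unit h2]

theorem inv_act_neg (ρ : G →* M3) (g : G) (p : V3 × V3) :
    inv_act ρ g (-p) = - inv_act ρ g p := by
  unfold inv_act
  refine Prod.ext ?_ ?_
  · rw [Prod.fst_neg, Prod.fst_neg, mulVec_neg, inv_nrm_neg]
  · rw [Prod.snd_neg, Prod.snd_neg, neg_vecMul, inv_nrm_neg]

theorem inv_u1 (B : Bas ρ (Lam ρ)) {p : V3 × V3} (hp : p ∈ Lam ρ) : p.1 ≠ 0 := by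
  intro h
  have := B.unit1 p hp
  rw [h, norm_zero] at this
  exact zero_ne_one this

theorem inv_u2 (B : Bas ρ (Lam ρ)) {p : V3 × V3} (hp : p ∈ Lam ρ) : p.2 ≠ 0 := by
  intro h
  have := B.unit2 p hp
  rw [h, norm_zero] at this
  exact zero_ne_one this

theorem inv_act_mem (B : Bas ρ (Lam ρ)) {p : V3 × V3} (hp : p ∈ Lam ρ) (g : G) :
    inv_act ρ g p ∈ Lam ρ := by
  have n1 := inv_ne1 ρ g (inv_u1 B hp)
  have n2 := inv_ne2 ρ g (inv_u2 B hp)
  exact B.inv p hp g _ _ (mul_pos (inv_pos.2 (norm_pos_iff.2 n1)) (inv_pos.2 (norm_pos_iff.2 n2)))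
    (inv_nrm_norm n1) (inv_nrm_norm n2)

/-- the pairings of `g p` with `q` -/
theorem inv_pair (B : Bas ρ (Lam ρ)) {p : V3 × V3} (hp : p ∈ Lam ρ) (g : G) :
    ∃ c d : ℝ, 0 < c ∧ 0 < d ∧ (∀ f : V3, f ⬝ᵥ (inv_act ρ g p).1 = c * ((f ᵥ* ρ g) ⬝ᵥ p.1)) ∧
      ∀ v : V3, (inv_act ρ g p).2 ⬝ᵥ v = d * (p.2 ⬝ᵥ (ρ g⁻¹ *ᵥ v)) := by
  obtain ⟨c, hc, h1⟩ := inv_nrm_pos (inv_ne1 ρ g (inv_u1 B hp))
  obtain ⟨d, hd, h2⟩ := inv_nrm_pos (inv_ne2 ρ g (inv_u2 B hp))
  refine ⟨c, d, hc, hd, fun f => ?_, fun v => ?_⟩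
  · unfold inv_act
    dsimp only
    rw [h1, dotProduct_smul, smul_eq_mul, dotProduct_mulVec]
  · unfold inv_act
    dsimp only
    rw [h2, smul_dotProduct, smul_eq_mul, dotProduct_mulVec]

theorem inv_nc_neg (B : Bas ρ (Lam ρ)) {p : V3 × V3} (hp : Nc ρ p) : Nc ρ (-p) := by
  refine ⟨B.neg p hp.1, fun q hq h1 h2 => ?_⟩
  rw [Prod.snd_neg, neg_dotProduct, neg_eq_zero] at h1
  rw [Prod.fst_neg, dotProduct_neg, neg_eq_zero] at h2
  rcases hp.2 q hq h1 h2 with h | h
  · right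
    rw [neg_neg]
    exact h
  · left
    exact h

theorem inv_nc_act (B : Bas ρ (Lam ρ)) {p : V3 × V3} (hp : Nc ρ p) (g : G) :
    Nc ρ (inv_act ρ g p) := by
  refine ⟨inv_act_mem B hp.1 g, fun q hq h1 h2 => ?_⟩
  obtain ⟨c, d, hc, hd, e1, e2⟩ := inv_pair B hp.1 g
  rw [e2, mul_eq_zero] at h1
  rw [e1, mul_eq_zero] at h2
  have h1' := h1.resolve_left hd.ne'
  have h2' := h2.resolve_left hc.ne'
  obtain ⟨c', d', hc', hd', e1', e2'⟩ := inv_pair B hq g⁻¹
  have k1 : p.2 ⬝ᵥ (inv_act ρ g⁻¹ q).1 = 0 := by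
    rw [e1', ← dotProduct_mulVec, h1', mul_zero]
  have k2 : (inv_act ρ g⁻¹ q).2 ⬝ᵥ p.1 = 0 := by
    rw [e2', inv_inv, dotProduct_mulVec, h2', mul_zero]
  have k3 : inv_act ρ g (inv_act ρ g⁻¹ q) = q := by
    rw [inv_act_mul, mul_inv_cancel, inv_act_one ρ (B.unit1 q hq) (B.unit2 q hq)]
  rcases hp.2 _ (inv_act_mem B hq g⁻¹) k1 k2 with h | h
  · left
    rw [← k3, h]
  · right
    rw [← k3, h, inv_act_neg]

/-- a submodule invariant under the group -/
theorem inv_irr (hρ : Pos ρ) (W : Submodule ℝ V3) (h : ∀ g, ∀ w ∈ W, ρ g *ᵥ w ∈ W) :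
    W = ⊥ ∨ W = ⊤ :=
  hρ.irr ⊤ inferInstance W fun g _ => h g

/-- the flags in general position span the dual space -/
theorem inv_span2 (hρ : Pos ρ) (B : Bas ρ (Lam ρ)) {p0 : V3 × V3} (hp0 : Nc ρ p0) (v : V3)
    (hv : ∀ p, Nc ρ p → p.2 ⬝ᵥ v = 0) : v = 0 := by
  let W : Submodule ℝ V3 :=
    { carrier := {w | ∀ p, Nc ρ p → p.2 ⬝ᵥ w = 0}
      add_mem' := by
        intro a b ha hb p hp
        rw [dotProduct_add, ha p hp, hb p hp, add_zero]
      zero_mem' := by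
        intro p _
        exact dotProduct_zero _
      smul_mem' := by
        intro c a ha p hp
        rw [dotProduct_smul, ha p hp, smul_zero] }
  have hW : ∀ g, ∀ w ∈ W, ρ g *ᵥ w ∈ W := by
    intro g w hw p hp
    obtain ⟨c, d, hc, hd, -, e2⟩ := inv_pair B hp.1 g⁻¹
    have h := hw _ (inv_nc_act B hp g⁻¹)
    rw [e2, inv_inv, mul_eq_zero] at h
    exact h.resolve_left hd.ne'
  rcases inv_irr hρ W hW with h | h
  · have hv' : v ∈ W := hv
    rw [h] at hv'
    exact (Submodule.mem_bot ℝ).1 hv'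
  · exfalso
    apply inv_u2 B hp0.1
    funext i
    have h1 : (Pi.single i 1 : V3) ∈ W := by
      rw [h]
      exact Submodule.mem_top
    have h2 := h1 p0 hp0
    rw [dotProduct_single, mul_one] at h2
    exact h2

/-- the flags in general position span the space -/
theorem inv_span1 (hρ : Pos ρ) (B : Bas ρ (Lam ρ)) {p0 : V3 × V3} (hp0 : Nc ρ p0) :
    Submodule.span ℝ {v : V3 | ∃ p, Nc ρ p ∧ v = p.1} = ⊤ := by
  refine (inv_irr hρ _ ?_).resolve_left ?_
  · intro g w hw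
    induction hw using Submodule.span_induction with
    | mem x hx =>
      obtain ⟨p, hp, rfl⟩ := hx
      obtain ⟨c, hc, h1⟩ := inv_nrm_pos (inv_ne1 ρ g (inv_u1 B hp.1))
      have h2 : ρ g *ᵥ p.1 = c⁻¹ • (inv_act ρ g p).1 := by
        unfold inv_act
        dsimp only
        rw [h1, smul_smul, inv_mul_cancel₀ hc.ne', one_smul]
      rw [h2]
      exact Submodule.smul_mem _ _ (Submodule.subset_span ⟨_, inv_nc_act B hp g, rfl⟩)
    | zero =>
      rw [mulVec_zero]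
      exact Submodule.zero_mem _
    | add x y _ _ hx hy =>
      rw [mulVec_add]
      exact Submodule.add_mem _ hx hy
    | smul a x _ hx =>
      rw [mulVec_smul]
      exact Submodule.smul_mem _ _ hx
  · intro h
    apply inv_u1 B hp0.1
    have h1 : p0.1 ∈ Submodule.span ℝ {v : V3 | ∃ p, Nc ρ p ∧ v = p.1} :=
      Submodule.subset_span ⟨p0, hp0, rfl⟩
    rw [h] at h1
    exact (Submodule.mem_bot ℝ).1 h1

/-- two real numbers of the same sign -/
theorem inv_sgn {e a b : ℝ} (h : 0 ≤ a * b) (h1 : 0 < e * (a + b)) : 0 ≤ e * a ∧ 0 ≤ e * b := by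
  constructor
  · by_contra hn
    push Not at hn
    have h2 : 0 < e * b := by nlinarith
    have h3 : (e * a) * (e * b) < 0 := mul_neg_of_neg_of_pos hn h2
    nlinarith [mul_nonneg (mul_self_nonneg e) h]
  · by_contra hn
    push Not at hn
    have h2 : 0 < e * a := by nlinarith
    have h3 : (e * b) * (e * a) < 0 := mul_neg_of_neg_of_pos hn h2
    nlinarith [mul_nonneg (mul_self_nonneg e) h]

theorem inv_sgn2 {e a b s t : ℝ} (h : 0 ≤ a * b) (h1 : 0 < e * (a + b)) (hs : 0 < s)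
    (ht : 0 < t) : 0 < e * (s * a + t * b) := by
  obtain ⟨h2, h3⟩ := inv_sgn h h1
  have e1 : e * (s * a + t * b) = s * (e * a) + t * (e * b) := by ring
  rw [e1]
  rcases h2.lt_or_eq with h4 | h4
  · exact add_pos_of_pos_of_nonneg (mul_pos hs h4) (mul_nonneg ht.le h3)
  · have h5 : 0 < e * b := by nlinarith
    exact add_pos_of_nonneg_of_pos (mul_nonneg hs.le h2) (mul_pos ht h5)

theorem inv_pm {a b : ℝ} (ha : a = 1 ∨ a = -1) (hb : b = 1 ∨ b = -1) {s τ : ℝ}
    (h1 : 0 < τ * (a * s)) (h2 : 0 < τ * (b * s)) : a = b := by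
  have h3 := mul_pos h1 h2
  rcases ha with rfl | rfl <;> rcases hb with rfl | rfl
  · rfl
  · nlinarith [mul_self_nonneg (τ * s)]
  · nlinarith [mul_self_nonneg (τ * s)]
  · rfl

end

/-- the signs -/
theorem inv_eps (h5 : S_top) {G : Type} [Group G] (ρ : G →* M3) (B : Bas ρ (Lam ρ))
    (hc : IsPreconnected (tens '' Lam ρ)) :
    ∃ (ε : V3 × V3 → ℝ) (τ : ℝ), (τ = 1 ∨ τ = -1) ∧ (∀ x, ε x = 1 ∨ ε x = -1) ∧
    (∀ x, Nc ρ x → ε (-x) = - ε x) ∧
    ∀ x, Nc ρ x → ∀ y, Nc ρ y → y ≠ x → y ≠ -x →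
      0 < τ * (ε x * ε y * (x.2 ⬝ᵥ y.1 + y.2 ⬝ᵥ x.1)) := by
  classical
  let Y : Type := {p : V3 × V3 // ‖p.1‖ = 1 ∧ ‖p.2‖ = 1}
  let ng : Y → Y := fun y => ⟨-y.1, by
    rw [Prod.fst_neg, Prod.snd_neg, norm_neg, norm_neg]
    exact y.2⟩
  let L : Set Y := {y | y.1 ∈ Lam ρ}
  let D : Set Y := {y | Nc ρ y.1}
  let S : Y → Y → ℝ := fun x y => x.1.2 ⬝ᵥ y.1.1 + y.1.2 ⬝ᵥ x.1.1
  have hval : Subtype.val '' L = Lam ρ := by
    ext p
    constructor
    · rintro ⟨y, hy, rfl⟩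
      exact hy
    · intro hp
      exact ⟨⟨p, B.unit1 p hp, B.unit2 p hp⟩, hp, rfl⟩
  have hL : IsCompact L := by
    rw [Subtype.isCompact_iff, hval]
    exact B.cpt
  have hng : Continuous ng := Continuous.subtype_mk (continuous_subtype_val.neg) _
  have hten : Continuous (fun y : Y => tens y.1) := by
    refine continuous_pi fun i => continuous_pi fun j => ?_
    have c1 : Continuous (fun y : Y => y.1.1 i) :=
      (continuous_apply i).comp (continuous_fst.comp continuous_subtype_val)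
    have c2 : Continuous (fun y : Y => y.1.2 j) :=
      (continuous_apply j).comp (continuous_snd.comp continuous_subtype_val)
    exact c1.mul c2
  have hS : Continuous (fun q : Y × Y => S q.1 q.2) := by
    have c1 : Continuous (fun q : Y × Y => q.1.1.1) :=
      continuous_fst.comp (continuous_subtype_val.comp continuous_fst)
    have c2 : Continuous (fun q : Y × Y => q.1.1.2) :=
      continuous_snd.comp (continuous_subtype_val.comp continuous_fst)
    have c3 : Continuous (fun q : Y × Y => q.2.1.1) :=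
      continuous_fst.comp (continuous_subtype_val.comp continuous_snd)
    have c4 : Continuous (fun q : Y × Y => q.2.1.2) :=
      continuous_snd.comp (continuous_subtype_val.comp continuous_snd)
    exact (c2.dotProduct c3).add (c4.dotProduct c1)
  have hconn : IsPreconnected ((fun y : Y => tens y.1) '' L) := by
    have e : (fun y : Y => tens y.1) '' L = tens '' Lam ρ := by
      rw [← hval, Set.image_image]
    rw [e]
    exact hc
  obtain ⟨ε, τ, hτ, hε, hεn, hpos⟩ := h5 Y (Fin 3 → Fin 3 → ℝ) L D ng (fun y => tens y.1) S hL hng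
    hten hS
    (fun y => Subtype.ext (neg_neg y.1))
    (fun y h => by
      have h1 : -y.1 = y.1 := congrArg Subtype.val h
      have h2 : y.1.1 = 0 := by
        have h3 := congrArg Prod.fst h1
        rw [Prod.fst_neg] at h3
        exact neg_eq_self.1 h3
      have h4 := y.2.1
      rw [h2, norm_zero] at h4
      exact zero_ne_one h4)
    (fun y hy => B.neg y.1 hy)
    (fun x hx y hy => by
      constructor
      · intro h
        rcases inv_tens x.2.1 x.2.2 y.2.1 h with h | h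
        · exact Or.inl (Subtype.ext h)
        · exact Or.inr (Subtype.ext h)
      · rintro (rfl | rfl)
        · rfl
        · funext i j
          show (-y.1).1 i * (-y.1).2 j = y.1.1 i * y.1.2 j
          rw [Prod.fst_neg, Prod.snd_neg, Pi.neg_apply, Pi.neg_apply, neg_mul_neg])
    (fun x y => add_comm _ _)
    (fun x y => by
      show (-x.1).2 ⬝ᵥ y.1.1 + y.1.2 ⬝ᵥ (-x.1).1 = - (x.1.2 ⬝ᵥ y.1.1 + y.1.2 ⬝ᵥ x.1.1)
      rw [Prod.fst_neg, Prod.snd_neg, neg_dotProduct, dotProduct_neg]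
      ring)
    hconn (fun y hy => hy.1) (fun y hy => inv_nc_neg B hy)
    (fun y hy => by
      show y.1.2 ⬝ᵥ y.1.1 + y.1.2 ⬝ᵥ y.1.1 = 0
      rw [B.flag y.1 hy.1, add_zero])
    (fun x hx y hy h => by
      have h1 : x.1.2 ⬝ᵥ y.1.1 + y.1.2 ⬝ᵥ x.1.1 = 0 := h
      have h2 := B.pos x.1 hx.1 y.1 hy
      have h3 : x.1.2 ⬝ᵥ y.1.1 = - (y.1.2 ⬝ᵥ x.1.1) := by linarith
      rw [h3] at h2
      have h4 : y.1.2 ⬝ᵥ x.1.1 = 0 := by
        have : (y.1.2 ⬝ᵥ x.1.1) * (y.1.2 ⬝ᵥ x.1.1) = 0 := by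
          nlinarith [mul_self_nonneg (y.1.2 ⬝ᵥ x.1.1)]
        exact mul_self_eq_zero.1 this
      have h6 : x.1.2 ⬝ᵥ y.1.1 = 0 := by rw [h3, h4, neg_zero]
      rcases hx.2 y.1 hy h6 h4 with h | h
      · exact Or.inl (Subtype.ext h)
      · exact Or.inr (Subtype.ext h))
  have hu : ∀ x, Nc ρ x → ‖x.1‖ = 1 ∧ ‖x.2‖ = 1 := fun x hx => ⟨B.unit1 x hx.1, B.unit2 x hx.1⟩
  refine ⟨fun x => if h : ‖x.1‖ = 1 ∧ ‖x.2‖ = 1 then ε ⟨x, h⟩ else 1, τ, hτ, fun x => ?_,
    fun x hx => ?_, fun x hx y hy h1 h2 => ?_⟩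
  · by_cases h : ‖x.1‖ = 1 ∧ ‖x.2‖ = 1
    · simp only [h, and_self, dif_pos]
      exact hε _
    · simp only [h, dif_neg, not_false_eq_true]
      exact Or.inl trivial
  · have hx' := hu x hx
    have hx'' := hu _ (inv_nc_neg B hx)
    beta_reduce
    rw [dif_pos hx', dif_pos hx'']
    exact hεn ⟨x, hx'⟩ hx
  · beta_reduce
    rw [dif_pos (hu x hx), dif_pos (hu y hy)]
    exact hpos ⟨x, hu x hx⟩ hx ⟨y, hu y hy⟩ hy (fun h => h1 (congrArg Subtype.val h))
      (fun h => h2 (congrArg Subtype.val h))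

/-- INVARIANT CONE -/
theorem t_inv (_h1 : S_gen) (h2 : S_basic) (_h3 : S_dense) (h4 : S_nc) (h5 : S_top) : S_inv := by
  intro G _ ρ hρ hconn
  classical
  have B := h2 ρ hρ
  obtain ⟨p0, hp0⟩ := h4 ρ hρ hconn
  obtain ⟨ε, τ, hτ, hε, hεn, hpos⟩ := inv_eps h5 ρ B hconn
  have hsq : ∀ x, ε x * ε x = 1 := by
    intro x
    rcases hε x with h | h <;> rw [h] <;> norm_num
  -- the signs of the pairings
  have hnn : ∀ p, Nc ρ p → ∀ q, Nc ρ q → 0 ≤ τ * (ε p * (p.2 ⬝ᵥ (ε q • q.1))) := by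
    intro p hp q hq
    have e : τ * (ε p * (p.2 ⬝ᵥ (ε q • q.1))) = (τ * (ε p * ε q)) * (p.2 ⬝ᵥ q.1) := by
      rw [dotProduct_smul, smul_eq_mul]
      ring
    rw [e]
    by_cases k1 : q = p
    · rw [k1, B.flag p hp.1, mul_zero]
    by_cases k2 : q = -p
    · rw [k2, Prod.fst_neg, dotProduct_neg, B.flag p hp.1, neg_zero, mul_zero]
    have k3 := hpos p hp q hq k1 k2
    have k4 : 0 < (τ * (ε p * ε q)) * (p.2 ⬝ᵥ q.1 + q.2 ⬝ᵥ p.1) := by
      rw [mul_assoc]
      exact k3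
    exact (inv_sgn (B.pos p hp.1 q hq.1) k4).1
  -- the signs of the images
  have hact : ∀ g, ∀ p, Nc ρ p → ∀ q, Nc ρ q →
      ε (inv_act ρ g p) * ε p = ε (inv_act ρ g q) * ε q := by
    intro g p hp q hq
    by_cases k1 : q = p
    · rw [k1]
    by_cases k2 : q = -p
    · rw [k2, inv_act_neg, hεn _ (inv_nc_act B hp g), hεn p hp]
      ring
    have k3 := hpos p hp q hq k1 k2
    have k4 : 0 < (τ * (ε p * ε q)) * (p.2 ⬝ᵥ q.1 + q.2 ⬝ᵥ p.1) := by
      rw [mul_assoc]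
      exact k3
    obtain ⟨c, d, hc, hd, e1, e2⟩ := inv_pair B hp.1 g
    obtain ⟨c', d', hc', hd', e1', e2'⟩ := inv_pair B hq.1 g
    have k5 := inv_sgn2 (B.pos p hp.1 q hq.1) k4 (mul_pos hd hc') (mul_pos hd' hc)
    have n1 : inv_act ρ g q ≠ inv_act ρ g p := by
      intro h
      apply k1
      have h' := congrArg (inv_act ρ g⁻¹) h
      rw [inv_act_mul, inv_act_mul, inv_mul_cancel, inv_act_one ρ (B.unit1 q hq.1)
        (B.unit2 q hq.1), inv_act_one ρ (B.unit1 p hp.1) (B.unit2 p hp.1)] at h'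
      exact h'
    have n2 : inv_act ρ g q ≠ - inv_act ρ g p := by
      intro h
      apply k2
      have h' := congrArg (inv_act ρ g⁻¹) h
      rw [inv_act_neg, inv_act_mul, inv_act_mul, inv_mul_cancel, inv_act_one ρ (B.unit1 q hq.1)
        (B.unit2 q hq.1), inv_act_one ρ (B.unit1 p hp.1) (B.unit2 p hp.1)] at h'
      exact h'
    have k6 := hpos _ (inv_nc_act B hp g) _ (inv_nc_act B hq g) n1 n2
    have q1 : (inv_act ρ g p).2 ⬝ᵥ (inv_act ρ g q).1 = (d * c') * (p.2 ⬝ᵥ q.1) := by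
      rw [e2, dotProduct_mulVec, e1', vecMul_vecMul, ← map_mul, inv_mul_cancel, map_one,
        vecMul_one]
      ring
    have q2 : (inv_act ρ g q).2 ⬝ᵥ (inv_act ρ g p).1 = (d' * c) * (q.2 ⬝ᵥ p.1) := by
      rw [e2', dotProduct_mulVec, e1, vecMul_vecMul, ← map_mul, inv_mul_cancel, map_one,
        vecMul_one]
      ring
    rw [q1, q2] at k6
    have k7 : ε p * ε q = ε (inv_act ρ g p) * ε (inv_act ρ g q) := by
      refine inv_pm ?_ ?_ (s := (d * c') * (p.2 ⬝ᵥ q.1) + (d' * c) * (q.2 ⬝ᵥ p.1)) (τ := τ) ?_ k6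
      · rcases hε p with h | h <;> rcases hε q with h' | h' <;> rw [h, h'] <;> norm_num
      · rcases hε (inv_act ρ g p) with h | h <;> rcases hε (inv_act ρ g q) with h' | h' <;>
          rw [h, h'] <;> norm_num
      · rw [← mul_assoc]
        exact k5
    calc ε (inv_act ρ g p) * ε p = (ε (inv_act ρ g p) * ε (inv_act ρ g q)) *
          (ε (inv_act ρ g q) * ε p) * (1 : ℝ) := by
            rw [mul_one]
            calc ε (inv_act ρ g p) * ε p = ε (inv_act ρ g p) * ε p * 1 := by ring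
              _ = ε (inv_act ρ g p) * ε p * (ε (inv_act ρ g q) * ε (inv_act ρ g q)) := by
                rw [hsq]
              _ = _ := by ring
      _ = (ε p * ε q) * (ε (inv_act ρ g q) * ε p) := by rw [← k7, mul_one]
      _ = (ε p * ε p) * (ε (inv_act ρ g q) * ε q) := by ring
      _ = _ := by rw [hsq, one_mul]
  -- the character
  let χ : G → ℝ := fun g => ε (inv_act ρ g p0) * ε p0
  have hχ : ∀ g p, Nc ρ p → ε (inv_act ρ g p) = χ g * ε p := by
    intro g p hp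
    have h := hact g p hp p0 hp0
    calc ε (inv_act ρ g p) = ε (inv_act ρ g p) * (ε p * ε p) := by rw [hsq, mul_one]
      _ = (ε (inv_act ρ g p) * ε p) * ε p := by ring
      _ = _ := by rw [h]
  have hχpm : ∀ g, χ g = 1 ∨ χ g = -1 := by
    intro g
    rcases hε (inv_act ρ g p0) with h | h <;> rcases hε p0 with h' | h' <;>
      simp only [χ, h, h'] <;> norm_num
  have hχmul : ∀ g h, χ (g * h) = χ g * χ h := by
    intro g h
    show ε (inv_act ρ (g * h) p0) * ε p0 = χ g * (ε (inv_act ρ h p0) * ε p0)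
    rw [← inv_act_mul, hχ g _ (inv_nc_act B hp0 h)]
    ring
  have hχone : χ 1 = 1 := by
    show ε (inv_act ρ 1 p0) * ε p0 = 1
    rw [inv_act_one ρ (B.unit1 p0 hp0.1) (B.unit2 p0 hp0.1), hsq]
  let f : G →* ℤˣ :=
    { toFun := fun g => if χ g = 1 then 1 else -1
      map_one' := by rw [if_pos hχone]
      map_mul' := by
        intro g h
        rw [hχmul]
        rcases hχpm g with hg | hg <;> rcases hχpm h with hh | hh <;> rw [hg, hh] <;> norm_num }
  have hf : ∀ g ∈ f.ker, χ g = 1 := by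
    intro g hg
    rw [MonoidHom.mem_ker] at hg
    by_contra h
    have e : f g = if χ g = 1 then 1 else -1 := rfl
    rw [e, if_neg h] at hg
    exact absurd hg (by decide)
  -- the cone
  let C : Set V3 := {v | ∀ p, Nc ρ p → 0 ≤ τ * (ε p * (p.2 ⬝ᵥ v))}
  have hCc : IsClosed C := by
    have e : C = ⋂ p : {p : V3 × V3 // Nc ρ p}, {v | 0 ≤ τ * (ε p.1 * (p.1.2 ⬝ᵥ v))} := by
      ext v
      simp only [C, Set.mem_iInter, Set.mem_ofPred_eq, Subtype.forall]
    rw [e]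
    refine isClosed_iInter fun p => isClosed_le continuous_const ?_
    exact continuous_const.mul (continuous_const.mul
      (continuous_const.dotProduct continuous_id))
  have hCconv : Convex ℝ C := by
    intro x hx y hy a b ha hb _ p hp
    have e : τ * (ε p * (p.2 ⬝ᵥ (a • x + b • y))) =
        a * (τ * (ε p * (p.2 ⬝ᵥ x))) + b * (τ * (ε p * (p.2 ⬝ᵥ y))) := by
      rw [dotProduct_add, dotProduct_smul, dotProduct_smul, smul_eq_mul, smul_eq_mul]
      ring
    rw [e]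
    exact add_nonneg (mul_nonneg ha (hx p hp)) (mul_nonneg hb (hy p hp))
  have hCsmul : ∀ v ∈ C, ∀ t : ℝ, 0 ≤ t → t • v ∈ C := by
    intro v hv t ht p hp
    have e : τ * (ε p * (p.2 ⬝ᵥ (t • v))) = t * (τ * (ε p * (p.2 ⬝ᵥ v))) := by
      rw [dotProduct_smul, smul_eq_mul]
      ring
    rw [e]
    exact mul_nonneg ht (hv p hp)
  have hC0 : (0 : V3) ∈ C := by
    intro p _
    rw [dotProduct_zero, mul_zero, mul_zero]
  have hCK : ∀ g, χ g = 1 → ∀ v ∈ C, ρ g *ᵥ v ∈ C := by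
    intro g hg v hv p hp
    obtain ⟨c, d, hc, hd, -, e2⟩ := inv_pair B hp.1 g⁻¹
    have hg' : χ g⁻¹ = 1 := by
      have h := hχmul g g⁻¹
      rw [mul_inv_cancel, hχone, hg, one_mul] at h
      exact h.symm
    have h := hv _ (inv_nc_act B hp g⁻¹)
    rw [e2, inv_inv, hχ g⁻¹ p hp, hg', one_mul] at h
    have e : τ * (ε p * (d * (p.2 ⬝ᵥ (ρ g *ᵥ v)))) =
        d * (τ * (ε p * (p.2 ⬝ᵥ (ρ g *ᵥ v)))) := by ring
    rw [e] at h
    exact nonneg_of_mul_nonneg_right h hd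
  refine ⟨f.ker, interior C, inferInstance, isOpen_interior, hCconv.interior, ?_, ?_, ?_, ?_⟩
  · rw [hCconv.interior_nonempty_iff_affineSpan_eq_top]
    have e1 : insert (0 : V3) C = C := Set.insert_eq_of_mem hC0
    have e2 : Submodule.span ℝ C = ⊤ := by
      rw [eq_top_iff, ← inv_span1 hρ B hp0, Submodule.span_le]
      rintro v ⟨p, hp, rfl⟩
      have h : ε p • p.1 ∈ Submodule.span ℝ C :=
        Submodule.subset_span fun q hq => hnn q hq p hp
      have h' := Submodule.smul_mem _ (ε p) h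
      rw [smul_smul, hsq, one_smul] at h'
      exact h'
    have e3 : (affineSpan ℝ C : Set V3) = Set.univ := by
      rw [← e1, affineSpan_insert_zero, e2]
      rfl
    exact (AffineSubspace.coe_eq_univ_iff _).1 e3
  · intro v hv t ht
    have hopen : IsOpen {w : V3 | t⁻¹ • w ∈ interior C} :=
      isOpen_interior.preimage (continuous_const_smul t⁻¹)
    have hsub : {w : V3 | t⁻¹ • w ∈ interior C} ⊆ C := by
      intro w hw
      have h := hCsmul _ (interior_subset hw) t ht.le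
      rw [smul_smul, mul_inv_cancel₀ ht.ne', one_smul] at h
      exact h
    refine interior_maximal hsub hopen ?_
    show t⁻¹ • t • v ∈ interior C
    rw [smul_smul, inv_mul_cancel₀ ht.ne', one_smul]
    exact hv
  · intro g hg v hv
    have hopen : IsOpen {w : V3 | ρ g⁻¹ *ᵥ w ∈ interior C} :=
      isOpen_interior.preimage (continuous_const.matrix_mulVec continuous_id)
    have hsub : {w : V3 | ρ g⁻¹ *ᵥ w ∈ interior C} ⊆ C := by
      intro w hw
      have h := hCK g (hf g hg) _ (interior_subset hw)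
      rw [inv_cancel] at h
      exact h
    refine interior_maximal hsub hopen ?_
    show ρ g⁻¹ *ᵥ (ρ g *ᵥ v) ∈ interior C
    have h := inv_cancel ρ g⁻¹ v
    rw [inv_inv] at h
    rw [h]
    exact hv
  · intro v hv hv'
    have hcl : closure (interior C) ⊆ C := hCc.closure_subset_iff.2 interior_subset
    have h1 := hcl hv
    have h2 := hcl hv'
    refine inv_span2 hρ B hp0 v fun p hp => ?_
    have k1 := h1 p hp
    have k2 := h2 p hp
    rw [dotProduct_neg] at k2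
    have k3 : τ * (ε p * (p.2 ⬝ᵥ v)) = 0 := by
      have : τ * (ε p * -(p.2 ⬝ᵥ v)) = - (τ * (ε p * (p.2 ⬝ᵥ v))) := by ring
      rw [this] at k2
      linarith
    have hτ0 : τ ≠ 0 := by
      rcases hτ with h | h <;> rw [h] <;> norm_num
    have hε0 : ε p ≠ 0 := by
      rcases hε p with h | h <;> rw [h] <;> norm_num
    rcases mul_eq_zero.1 k3 with h | h
    · exact absurd h hτ0
    · rcases mul_eq_zero.1 h with h | h
      · exact absurd h hε0
      · exact h

end Pool.Agent.H817.PL
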