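import Pool.Agent.H817.PL.Stm

/-!
Limits of flags under sequences of matrices.
-/

set_option autoImplicit false

namespace Pool.Agent.H817.PL

open Set Filter Topology Module Matrix

theorem lim_norm (v : V3) (h : v ≠ 0) : ‖‖v‖⁻¹ • v‖ = 1 := by
  rw [norm_smul, norm_inv, norm_norm, inv_mul_cancel₀ (norm_ne_zero_iff.2 h)]

theorem lim_tend {v : ℕ → V3} {w : V3} (h : Tendsto v atTop (𝓝 w)) (hw : w ≠ 0) :
    Tendsto (fun n => ‖v n‖⁻¹ • v n) atTop (𝓝 (‖w‖⁻¹ • w)) :=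
  (h.norm.inv₀ (norm_ne_zero_iff.2 hw)).smul h

theorem t_lim : S_lim := by
  intro G _ ρ Λ hL g c c' A B hc hc' hA hB p hp h1 h2
  have e1 : Tendsto (fun n => (c n)⁻¹ • (ρ (g n) *ᵥ p.1)) atTop (𝓝 (A *ᵥ p.1)) := by
    have h := ((continuous_id (X := M3)).matrix_mulVec (continuous_const (y := p.1))).tendsto A
    refine (h.comp hA).congr fun n => ?_
    simp only [Function.comp, id, Matrix.smul_mulVec]
  have e2 : Tendsto (fun n => (c' n)⁻¹ • (p.2 ᵥ* ρ (g n)⁻¹)) atTop (𝓝 (p.2 ᵥ* B)) := by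
    have h := ((continuous_const (y := p.2)).matrix_vecMul (continuous_id (X := M3))).tendsto B
    refine (h.comp hB).congr fun n => ?_
    simp only [Function.comp, id, Matrix.vecMul_smul]
  refine hL.cpt.isClosed.mem_of_tendsto ((lim_tend e1 h1).prodMk_nhds (lim_tend e2 h2)) ?_
  filter_upwards [e1.eventually_ne h1, e2.eventually_ne h2] with n hn1 hn2
  have k1 := lim_norm _ hn1
  have k2 := lim_norm _ hn2
  rw [smul_smul] at k1 k2 ⊢
  rw [smul_smul]
  refine hL.inv p hp (g n) _ _ (mul_pos (mul_pos ?_ (inv_pos.2 (hc n)))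
    (mul_pos ?_ (inv_pos.2 (hc' n)))) k1 k2
  · exact inv_pos.2 (norm_pos_iff.2 hn1)
  · exact inv_pos.2 (norm_pos_iff.2 hn2)

end Pool.Agent.H817.PL
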