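import Pool.Agent.H817.PL.Stm

/-! Positive groups: existence of a smooth limit flag (helper539). -/

set_option autoImplicit false

namespace Pool.Agent.H817.PL

open Set Filter Topology Module Matrix

theorem nc_par {u v : V3} (hu : ‖u‖ = 1) (hv : ‖v‖ = 1) (h : ∀ i j, u i * v j = u j * v i) :
    u = v ∨ u = -v := by
  have hv0 : v ≠ 0 := by
    rintro rfl
    rw [norm_zero] at hv
    exact zero_ne_one hv
  obtain ⟨i, hi⟩ := Function.ne_iff.1 hv0
  rw [Pi.zero_apply] at hi
  have h1 : u = (u i / v i) • v := by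
    funext j
    rw [Pi.smul_apply, smul_eq_mul, div_mul_eq_mul_div, eq_div_iff hi]
    exact h j i
  have h2 : |u i / v i| = 1 := by
    have h3 : ‖u‖ = ‖(u i / v i) • v‖ := congrArg _ h1
    rw [norm_smul, hu, hv, mul_one, Real.norm_eq_abs] at h3
    exact h3.symm
  rcases (abs_eq zero_le_one).1 h2 with h3 | h3
  · left
    rw [h1, h3, one_smul]
  · right
    rw [h1, h3, neg_one_smul]

theorem nc_two {a b f g : V3} (h1 : f ⬝ᵥ a = 0) (h2 : f ⬝ᵥ b = 0) (h3 : g ⬝ᵥ a = 0)
    (h4 : g ⬝ᵥ b = 0) : (∀ i j, a i * b j = a j * b i) ∨ ∀ i j, f i * g j = f j * g i := by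
  have key : ∀ f : V3, f ⬝ᵥ a = 0 → f ⬝ᵥ b = 0 → ∀ c : V3,
      c = ![a 1 * b 2 - a 2 * b 1, a 2 * b 0 - a 0 * b 2, a 0 * b 1 - a 1 * b 0] →
      ∀ i j, f i * c j = f j * c i := by
    intro f h1 h2 c hc
    simp only [dotProduct, Fin.sum_univ_three] at h1 h2
    have c0 : c 0 = a 1 * b 2 - a 2 * b 1 := by rw [hc]; rfl
    have c1 : c 1 = a 2 * b 0 - a 0 * b 2 := by rw [hc]; rfl
    have c2 : c 2 = a 0 * b 1 - a 1 * b 0 := by rw [hc]; rfl
    have e01 : f 0 * c 1 = f 1 * c 0 := by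
      rw [c0, c1]
      linear_combination a 2 * h2 - b 2 * h1
    have e12 : f 1 * c 2 = f 2 * c 1 := by
      rw [c1, c2]
      linear_combination a 0 * h2 - b 0 * h1
    have e20 : f 2 * c 0 = f 0 * c 2 := by
      rw [c0, c2]
      linear_combination a 1 * h2 - b 1 * h1
    intro i j
    fin_cases i <;> fin_cases j
    · rfl
    · exact e01
    · exact e20.symm
    · exact e01.symm
    · rfl
    · exact e12
    · exact e20
    · exact e12.symm
    · rfl
  obtain ⟨c, hc⟩ : ∃ c : V3,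
      c = ![a 1 * b 2 - a 2 * b 1, a 2 * b 0 - a 0 * b 2, a 0 * b 1 - a 1 * b 0] := ⟨_, rfl⟩
  have kf := key f h1 h2 c hc
  have kg := key g h3 h4 c hc
  by_cases hc0 : c = 0
  · left
    have c0 : a 1 * b 2 - a 2 * b 1 = 0 := by
      have := congrFun hc0 0
      rw [hc] at this
      exact this
    have c1 : a 2 * b 0 - a 0 * b 2 = 0 := by
      have := congrFun hc0 1
      rw [hc] at this
      exact this
    have c2 : a 0 * b 1 - a 1 * b 0 = 0 := by
      have := congrFun hc0 2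
      rw [hc] at this
      exact this
    intro i j
    fin_cases i <;> fin_cases j
    · rfl
    · exact sub_eq_zero.1 c2
    · exact (sub_eq_zero.1 c1).symm
    · exact (sub_eq_zero.1 c2).symm
    · rfl
    · exact sub_eq_zero.1 c0
    · exact sub_eq_zero.1 c1
    · exact (sub_eq_zero.1 c0).symm
    · rfl
  · right
    obtain ⟨m, hm⟩ := Function.ne_iff.1 hc0
    rw [Pi.zero_apply] at hm
    intro i j
    have e1 := kf i m
    have e2 := kf j m
    have e3 := kg i m
    have e4 := kg j m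
    have e5 := kg i j
    apply mul_right_cancel₀ hm
    linear_combination g j * e1 - g i * e2 - f m * e5

theorem nc_of_not {G : Type} [Group G] {ρ : G →* M3} (hB : Bas ρ (Lam ρ)) {p : V3 × V3}
    (hp : p ∈ Lam ρ) (h1 : ∀ q ∈ Lam ρ, q.1 = p.1 → q.2 = p.2)
    (h2 : ∀ q ∈ Lam ρ, q.2 = p.2 → q.1 = p.1) : Nc ρ p := by
  refine ⟨hp, fun q hq e1 e2 => ?_⟩
  have k1 : ∀ q ∈ Lam ρ, q.1 = p.1 → q = p := fun q hq h => Prod.ext h (h1 q hq h)
  have k2 : ∀ q ∈ Lam ρ, q.2 = p.2 → q = p := fun q hq h => Prod.ext (h2 q hq h) h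
  rcases nc_two (hB.flag p hp) e1 e2 (hB.flag q hq) with h | h
  · rcases nc_par (hB.unit1 q hq) (hB.unit1 p hp) (fun i j => by
      rw [mul_comm, mul_comm (q.1 j)]
      exact h j i) with h3 | h3
    · exact Or.inl (k1 q hq h3)
    · right
      have h4 := k1 (-q) (hB.neg q hq) (by rw [Prod.fst_neg, h3, neg_neg])
      rw [← h4, neg_neg]
  · rcases nc_par (hB.unit2 q hq) (hB.unit2 p hp) (fun i j => by
      rw [mul_comm, mul_comm (q.2 j)]
      exact h j i) with h3 | h3
    · exact Or.inl (k2 q hq h3)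
    · right
      have h4 := k2 (-q) (hB.neg q hq) (by rw [Prod.snd_neg, h3, neg_neg])
      rw [← h4, neg_neg]

/-- **SMOOTH POINTS.** -/
theorem t_nc (h1 : S_gen) (h2 : S_basic) (h3 : S_corner) (h4 : S_dual) : S_nc := by
  intro G _ ρ hρ hconn
  have hB := h2 ρ hρ
  by_contra hno
  push Not at hno
  obtain ⟨ρ', hρ', hdual⟩ := h4 ρ hρ
  have c1 := h3 ρ hρ
  have c1' := h3 ρ' hρ'
  set F : V3 × V3 → V3 × V3 := fun p => (fun i => p.2 (Fin.rev i), fun i => p.1 (Fin.rev i)) with hF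
  have hFinj : Function.Injective F := by
    intro p q hpq
    have e1 := congrArg Prod.fst hpq
    have e2 := congrArg Prod.snd hpq
    refine Prod.ext ?_ ?_
    · funext i
      have := congrFun e2 (Fin.rev i)
      simpa [hF] using this
    · funext i
      have := congrFun e1 (Fin.rev i)
      simpa [hF] using this
  have c2 : {p | p ∈ Lam ρ ∧ ∃ q ∈ Lam ρ, q.2 = p.2 ∧ q.1 ≠ p.1}.Countable := by
    refine (c1'.preimage hFinj).mono ?_
    rintro p ⟨hp, q, hq, hq2, hq1⟩
    refine ⟨(hdual p).1 hp, F q, (hdual q).1 hq, ?_, ?_⟩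
    · show (fun i => q.2 (Fin.rev i)) = fun i => p.2 (Fin.rev i)
      rw [hq2]
    · intro h
      apply hq1
      funext i
      have := congrFun h (Fin.rev i)
      simpa [hF] using this
  have hcount : (Lam ρ).Countable := by
    refine (c1.union c2).mono fun p hp => ?_
    by_contra hcon
    apply hno p
    refine nc_of_not hB hp (fun q hq hq1 => ?_) (fun q hq hq2 => ?_)
    · by_contra hne
      exact hcon (Or.inl ⟨hp, q, hq, hq1, hne⟩)
    · by_contra hne
      exact hcon (Or.inr ⟨hp, q, hq, hq2, hne⟩)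
  have hsub : (tens '' Lam ρ).Subsingleton :=
    (hcount.image tens).isTotallyDisconnected _ Set.Subset.rfl hconn
  -- a nonvanishing matrix coefficient
  obtain ⟨g, hg1, hg2⟩ := h1 ρ hρ {(Pi.single 0 1, Pi.single 1 1)} {(Pi.single 2 1, Pi.single 2 1)}
    (by
      intro p hp
      rw [Finset.mem_singleton] at hp
      rw [hp]
      constructor <;> simp)
    (by
      intro p hp
      rw [Finset.mem_singleton] at hp
      rw [hp]
      constructor <;> simp)
  have hg1' : ρ g 1 0 ≠ 0 := by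
    have := hg1 _ (Finset.mem_singleton_self _)
    simpa using this
  have hg2' : ρ g⁻¹ 2 2 ≠ 0 := by
    have := hg2 _ (Finset.mem_singleton_self _)
    simpa using this
  have hn : ∀ g : G, ρ g 1 0 ≠ 0 ∨ g = 1 → ρ g⁻¹ 2 2 ≠ 0 ∨ g = 1 → ∃ c d : ℝ, 0 < c * d ∧
      (((c • fun i => ρ g i 0), (d • fun j => ρ g⁻¹ 2 j)) : V3 × V3) ∈ Lam ρ := by
    intro g h5 h6
    have n1 : (fun i => ρ g i 0) ≠ (0 : V3) := by
      intro h
      rcases h5 with h5 | h5
      · exact h5 (congrFun h 1)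
      · have := congrFun h 0
        rw [h5] at this
        simp at this
    have n2 : (fun j => ρ g⁻¹ 2 j) ≠ (0 : V3) := by
      intro h
      rcases h6 with h6 | h6
      · exact h6 (congrFun h 2)
      · have := congrFun h 2
        rw [h6] at this
        simp at this
    have m1 := norm_pos_iff.2 n1
    have m2 := norm_pos_iff.2 n2
    refine ⟨‖(fun i => ρ g i 0 : V3)‖⁻¹, ‖(fun j => ρ g⁻¹ 2 j : V3)‖⁻¹, by positivity,
      hB.base g _ _ (by positivity) ?_ ?_⟩
    · rw [norm_smul, norm_inv, norm_norm, inv_mul_cancel₀ m1.ne']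
    · rw [norm_smul, norm_inv, norm_norm, inv_mul_cancel₀ m2.ne']
  obtain ⟨c, d, hcd, hm⟩ := hn g (Or.inl hg1') (Or.inl hg2')
  obtain ⟨c', d', hcd', hm'⟩ := hn 1 (Or.inr rfl) (Or.inr rfl)
  have h7 := hsub ⟨_, hm, rfl⟩ ⟨_, hm', rfl⟩
  have h8 := congrFun (congrFun h7 1) 2
  simp only [tens, Pi.smul_apply, smul_eq_mul, map_one, inv_one] at h8
  rw [Matrix.one_apply_ne (by decide : (1 : Fin 3) ≠ 0), mul_zero, zero_mul] at h8
  have hc : c ≠ 0 := fun h => by simp [h] at hcd
  have hd : d ≠ 0 := fun h => by simp [h] at hcd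
  exact mul_ne_zero (mul_ne_zero hc hg1') (mul_ne_zero hd hg2') h8

end Pool.Agent.H817.PL
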