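import Pool.Agent.H817.PL.Stm2

/-!
Properness of the group of the automorphisms of a properly convex cone.
-/

set_option autoImplicit false

namespace Pool.Agent.H817.PL

open Set Filter Topology Module Matrix

section prop

variable {E : Type} [NormedAddCommGroup E] [NormedSpace ℝ E] [FiniteDimensional ℝ E]

/-- the width of a salient cone at `v` is bounded by the norm of `v` -/
theorem prop_salient (R : Set E) (hne : R.Nonempty)
    (hsm : ∀ v ∈ R, ∀ t : ℝ, 0 < t → t • v ∈ R)
    (hsal : ∀ v ∈ closure R, -v ∈ closure R → v = 0) :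
    ∃ c : ℝ, 0 < c ∧ ∀ v x : E, v + x ∈ closure R → v - x ∈ closure R → ‖x‖ ≤ c * ‖v‖ := by
  have hcl : ∀ v ∈ closure R, ∀ t : ℝ, 0 < t → t • v ∈ closure R := by
    intro v hv t ht
    have h1 : MapsTo (fun v : E => t • v) R R := fun v hv => hsm v hv t ht
    exact h1.closure (continuous_const_smul t) hv
  have hnec : (closure R).Nonempty := hne.closure
  by_cases hS : (Metric.sphere (0 : E) 1).Nonempty
  · have hφ : Continuous fun x : E =>
        Metric.infDist x (closure R) + Metric.infDist (-x) (closure R) :=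
      (Metric.continuous_infDist_pt _).add ((Metric.continuous_infDist_pt _).comp continuous_neg)
    have hcomp : IsCompact (Metric.sphere (0 : E) 1) := by
      have : ProperSpace E := FiniteDimensional.proper ℝ E
      exact isCompact_sphere 0 1
    obtain ⟨x0, hx0, hmin⟩ := hcomp.exists_isMinOn hS hφ.continuousOn
    obtain ⟨m, hm⟩ : ∃ m, m = Metric.infDist x0 (closure R) + Metric.infDist (-x0) (closure R) :=
      ⟨_, rfl⟩
    have hm0 : 0 < m := by
      have h1 : 0 ≤ Metric.infDist x0 (closure R) := Metric.infDist_nonneg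
      have h2 : 0 ≤ Metric.infDist (-x0) (closure R) := Metric.infDist_nonneg
      by_contra hcon
      have h3 : Metric.infDist x0 (closure R) = 0 := by linarith
      have h4 : Metric.infDist (-x0) (closure R) = 0 := by linarith
      have h5 := (isClosed_closure.mem_iff_infDist_zero hnec).2 h3
      have h6 := (isClosed_closure.mem_iff_infDist_zero hnec).2 h4
      have h7 := hsal x0 h5 h6
      rw [h7, mem_sphere_zero_iff_norm, norm_zero] at hx0
      exact zero_ne_one hx0
    refine ⟨2 / m, by positivity, fun v x h1 h2 => ?_⟩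
    rcases eq_or_ne x 0 with hx | hx
    · rw [hx, norm_zero]
      positivity
    have hx' : 0 < ‖x‖ := norm_pos_iff.2 hx
    have h3 : Metric.infDist (‖x‖⁻¹ • x) (closure R) ≤ ‖x‖⁻¹ * ‖v‖ := by
      have h4 := hcl _ h1 (‖x‖⁻¹) (inv_pos.2 hx')
      refine (Metric.infDist_le_dist_of_mem h4).trans (le_of_eq ?_)
      rw [dist_eq_norm, ← smul_sub, sub_add_cancel_right, smul_neg, norm_neg, norm_smul, norm_inv,
        norm_norm]
    have h4 : Metric.infDist (-(‖x‖⁻¹ • x)) (closure R) ≤ ‖x‖⁻¹ * ‖v‖ := by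
      have h5 := hcl _ h2 (‖x‖⁻¹) (inv_pos.2 hx')
      refine (Metric.infDist_le_dist_of_mem h5).trans (le_of_eq ?_)
      rw [dist_eq_norm, ← smul_neg, ← smul_sub,
        show -x - (v - x) = -v by abel, smul_neg, norm_neg, norm_smul, norm_inv, norm_norm]
    have h5 : ‖x‖⁻¹ • x ∈ Metric.sphere (0 : E) 1 := by
      rw [mem_sphere_zero_iff_norm, norm_smul, norm_inv, norm_norm, inv_mul_cancel₀ hx'.ne']
    have h6 : m ≤ Metric.infDist (‖x‖⁻¹ • x) (closure R) +
        Metric.infDist (-(‖x‖⁻¹ • x)) (closure R) := by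
      rw [hm]
      exact hmin h5
    have h7 : m ≤ 2 * (‖x‖⁻¹ * ‖v‖) := by linarith
    have h8 : m * ‖x‖ ≤ 2 * ‖v‖ := by
      have h9 := mul_le_mul_of_nonneg_right h7 hx'.le
      have h10 : 2 * (‖x‖⁻¹ * ‖v‖) * ‖x‖ = 2 * ‖v‖ := by
        field_simp
      linarith
    rw [div_mul_eq_mul_div, le_div_iff₀ hm0]
    linarith
  · refine ⟨1, one_pos, fun v x _ _ => ?_⟩
    have hx : x = 0 := by
      by_contra hx
      have hx' : 0 < ‖x‖ := norm_pos_iff.2 hx
      apply hS
      refine ⟨‖x‖⁻¹ • x, ?_⟩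
      rw [mem_sphere_zero_iff_norm, norm_smul, norm_inv, norm_norm, inv_mul_cancel₀ hx'.ne']
    rw [hx, norm_zero]
    positivity

/-- the norm of a map of determinant one is bounded from below -/
theorem prop_det (hd : 0 < finrank ℝ E) : ∃ ε : ℝ, 0 < ε ∧ ∀ S : E →ₗ[ℝ] E,
    |LinearMap.det S| = 1 → ∀ b : ℝ, 0 ≤ b → (∀ x, ‖S x‖ ≤ b * ‖x‖) → ε ≤ b := by
  have h1 : Continuous fun A : E →L[ℝ] E => |A.det| :=
    continuous_abs.comp ContinuousLinearMap.continuous_det
  have h2 : |(0 : E →L[ℝ] E).det| = 0 := by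
    have h3 : (0 : E →L[ℝ] E).det = LinearMap.det (0 : E →ₗ[ℝ] E) := rfl
    rw [h3, LinearMap.det_zero, zero_pow hd.ne', abs_zero]
  have h3 : ∀ᶠ A in 𝓝 (0 : E →L[ℝ] E), |A.det| < 1 := by
    refine h1.continuousAt.eventually (gt_mem_nhds ?_)
    exact h2.trans_lt one_pos
  obtain ⟨ε, hε, h4⟩ := Metric.eventually_nhds_iff.1 h3
  refine ⟨ε, hε, fun S hS b hb hSb => ?_⟩
  by_contra hcon
  rw [not_le] at hcon
  have h5 : ‖LinearMap.toContinuousLinearMap S‖ ≤ b :=
    ContinuousLinearMap.opNorm_le_bound _ hb hSb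
  have h6 := h4 (y := LinearMap.toContinuousLinearMap S) (by
    rw [dist_zero_right]
    exact h5.trans_lt hcon)
  have h7 : (LinearMap.toContinuousLinearMap S).det = LinearMap.det S := rfl
  rw [h7, hS] at h6
  exact lt_irrefl _ h6

omit [FiniteDimensional ℝ E] in
/-- linear maps which are bounded on the unit ball -/
theorem prop_bound (S : E →ₗ[ℝ] E) (b : ℝ) (h : ∀ e : E, ‖e‖ = 1 → ‖S e‖ ≤ b) (x : E) :
    ‖S x‖ ≤ b * ‖x‖ := by
  rcases eq_or_ne x 0 with hx | hx
  · rw [hx, map_zero, norm_zero, mul_zero]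
  have hx' : 0 < ‖x‖ := norm_pos_iff.2 hx
  have h1 := h (‖x‖⁻¹ • x) (by rw [norm_smul, norm_inv, norm_norm, inv_mul_cancel₀ hx'.ne'])
  rw [map_smul, norm_smul, norm_inv, norm_norm, inv_mul_le_iff₀ hx'] at h1
  linarith

end prop

theorem t_prop : S_prop := by
  intro E _ _ _ R hop hcv hne hsm hsal r v0 hv0
  rcases Nat.eq_zero_or_pos (finrank ℝ E) with hd | hd
  · have hsub : Subsingleton E := Module.finrank_zero_iff.1 hd
    refine ⟨R, hop.mem_nhds hv0, Subset.rfl, 0, fun T _ _ _ v _ _ x => ?_⟩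
    rw [Subsingleton.elim (T x) 0, norm_zero, zero_mul]
  obtain ⟨c, hc, hcR⟩ := prop_salient R hne hsm hsal
  obtain ⟨ε, hε, hdet⟩ := prop_det (E := E) hd
  obtain ⟨δ2, hδ2, hball⟩ := Metric.isOpen_iff.1 hop v0 hv0
  obtain ⟨δ, hδ⟩ : ∃ δ, δ = δ2 / 2 := ⟨_, rfl⟩
  have hδ0 : 0 < δ := by rw [hδ]; positivity
  have hball' : Metric.ball v0 (2 * δ) ⊆ R := by
    rw [hδ, show 2 * (δ2 / 2) = δ2 by ring]
    exact hball
  have hNR : Metric.ball v0 δ ⊆ R :=
    (Metric.ball_subset_ball (by linarith)).trans hball'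
  obtain ⟨M, hM⟩ : ∃ M, M = ‖v0‖ + δ := ⟨_, rfl⟩
  have hM0 : 0 < M := by
    rw [hM]
    have := norm_nonneg v0
    linarith
  refine ⟨Metric.ball v0 δ, Metric.ball_mem_nhds v0 hδ0, hNR,
    c * (r * (2 * c * M / ε)) / δ, fun T hT hTR hTsR v hv hlt => ?_⟩
  have hvM : ‖v‖ ≤ M := by
    rw [Metric.mem_ball, dist_eq_norm] at hv
    have h1 : ‖v‖ ≤ ‖v - v0‖ + ‖v0‖ := by
      have := norm_add_le (v - v0) v0
      rwa [sub_add_cancel] at this
    rw [hM]
    linarith
  obtain ⟨ρ, hρ⟩ : ∃ ρ, ρ = Metric.infDist (T v) Rᶜ := ⟨_, rfl⟩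
  rw [← hρ] at hlt
  have hρ0 : 0 ≤ ρ := by
    rw [hρ]
    exact Metric.infDist_nonneg
  have hrρ : 0 < r * ρ := (norm_nonneg _).trans_lt hlt
  have hρ1 : 0 < ρ := by
    rcases hρ0.eq_or_lt with h | h
    · rw [← h, mul_zero] at hrρ
      exact absurd hrρ (lt_irrefl _)
    · exact h
  have hr : 0 < r := by
    by_contra hcon
    rw [not_lt] at hcon
    have := mul_nonpos_of_nonpos_of_nonneg hcon hρ0
    linarith
  have hbu : Metric.ball (T v) ρ ⊆ R := by
    rw [hρ]
    exact Metric.ball_infDist_compl_subset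
  -- the bound of the inverse
  have h1 : ∀ x : E, ‖(T.symm : E →ₗ[ℝ] E) x‖ ≤ (2 * c * M / ρ) * ‖x‖ := by
    refine prop_bound _ _ fun e he => ?_
    have h2 : ∀ s : ℝ, |s| = 1 → v + s • ((ρ / 2) • T.symm e) ∈ R := by
      intro s hs
      have h3 : T v + s • ((ρ / 2) • e) ∈ R := by
        apply hbu
        rw [Metric.mem_ball, dist_eq_norm, add_sub_cancel_left, norm_smul, norm_smul, he,
          Real.norm_eq_abs, hs, Real.norm_eq_abs, abs_of_pos (by positivity)]
        linarith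
      have h4 := hTsR _ h3
      rwa [map_add, T.symm_apply_apply, map_smul, map_smul] at h4
    have h3 := hcR v ((ρ / 2) • T.symm e) (subset_closure (by
      have := h2 1 abs_one
      rwa [one_smul] at this)) (subset_closure (by
      have := h2 (-1) (by rw [abs_neg, abs_one])
      rwa [neg_one_smul, ← sub_eq_add_neg] at this))
    rw [norm_smul, Real.norm_eq_abs, abs_of_pos (by positivity)] at h3
    have h4 : ρ / 2 * ‖T.symm e‖ ≤ c * M :=
      h3.trans (mul_le_mul_of_nonneg_left hvM hc.le)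
    change ‖T.symm e‖ ≤ _
    rw [le_div_iff₀ hρ1]
    linarith
  have h2 : |LinearMap.det (T.symm : E →ₗ[ℝ] E)| = 1 := by
    have h3 := LinearEquiv.det_symm_mul_det T
    have h4 := congrArg abs h3
    rw [abs_mul, hT, mul_one, abs_one] at h4
    exact h4
  have h3 := hdet _ h2 _ (by positivity) h1
  -- the bound of `T v`
  have h4 : ρ ≤ 2 * c * M / ε := by
    rw [le_div_iff₀ hρ1] at h3
    rw [le_div_iff₀ hε]
    linarith
  have h5 : ‖T v‖ ≤ r * (2 * c * M / ε) :=
    hlt.le.trans (mul_le_mul_of_nonneg_left h4 hr.le)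
  -- the bound of `T`
  have h6 : ∀ x : E, ‖(T : E →ₗ[ℝ] E) x‖ ≤ (c * (r * (2 * c * M / ε)) / δ) * ‖x‖ := by
    refine prop_bound _ _ fun e he => ?_
    have h7 : ∀ s : ℝ, |s| = 1 → T v + s • (δ • T e) ∈ R := by
      intro s hs
      have h8 : v + s • (δ • e) ∈ R := by
        apply hball'
        rw [Metric.mem_ball, dist_eq_norm] at hv ⊢
        have h9 : v + s • (δ • e) - v0 = (v - v0) + s • (δ • e) := by abel
        have h10 : ‖s • (δ • e)‖ = δ := by
          rw [norm_smul, norm_smul, he, Real.norm_eq_abs, hs, Real.norm_eq_abs,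
            abs_of_pos hδ0]
          ring
        rw [h9]
        have h11 := norm_add_le (v - v0) (s • (δ • e))
        linarith
      have h9 := hTR _ h8
      rwa [map_add, map_smul, map_smul] at h9
    have h8 := hcR (T v) (δ • T e) (subset_closure (by
      have := h7 1 abs_one
      rwa [one_smul] at this)) (subset_closure (by
      have := h7 (-1) (by rw [abs_neg, abs_one])
      rwa [neg_one_smul, ← sub_eq_add_neg] at this))
    rw [norm_smul, Real.norm_eq_abs, abs_of_pos hδ0] at h8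
    have h9 : δ * ‖T e‖ ≤ c * (r * (2 * c * M / ε)) :=
      h8.trans (mul_le_mul_of_nonneg_left h5 hc.le)
    change ‖T e‖ ≤ _
    rw [le_div_iff₀ hδ0]
    linarith
  exact fun x => h6 x

end Pool.Agent.H817.PL
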