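import Pool.Agent.H817.PL.Stm

/-!
Limits of normalised sequences have rank one (helper980).
-/

set_option autoImplicit false

namespace Pool.Agent.H817.PL

open Set Filter Topology Module Matrix

/-- the sup norm of a matrix -/
noncomputable def regl_nrm (A : M3) : ℝ := @norm (Fin 3 → Fin 3 → ℝ) _ A

theorem regl_entry (A : M3) (i j : Fin 3) : |A i j| ≤ regl_nrm A := by
  have h1 : ‖A i j‖ ≤ ‖A i‖ := norm_le_pi_norm (A i) j
  have h2 : ‖A i‖ ≤ @norm (Fin 3 → Fin 3 → ℝ) _ A := norm_le_pi_norm (fun i => A i) i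
  exact h1.trans h2

theorem regl_nrm_pos {A : M3} (hA : A ≠ 0) : 0 < regl_nrm A := norm_pos_iff.2 hA

theorem regl_ne {G : Type} [Group G] (ρ : G →* M3) (g : G) : ρ g ≠ 0 := by
  intro h
  have h1 : ρ g * ρ g⁻¹ = 1 := by rw [← map_mul, mul_inv_cancel, map_one]
  rw [h, zero_mul] at h1
  exact zero_ne_one h1

theorem regl_inf {G : Type} [Group G] {ρ : G →* M3} (hρ : Pos ρ) {g : ℕ → G}
    (hg : Function.Injective g) : Tendsto (fun n => regl_nrm (ρ (g n))) atTop atTop := by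
  rw [tendsto_atTop]
  intro R
  have hf : {n : ℕ | ∀ i j, |ρ (g n) i j| ≤ R}.Finite := (hρ.disc R).preimage hg.injOn
  have h1 := hf.compl_mem_cofinite
  rw [Nat.cofinite_eq_atTop] at h1
  filter_upwards [h1] with n hn
  by_contra hcon
  push Not at hcon
  exact hn fun i j => (regl_entry _ i j).trans hcon.le

theorem regl_mul {c c' : ℕ → ℝ} {M N : ℕ → M3} {A B : M3} (hMN : ∀ n, M n * N n = 1)
    (hc : Tendsto c atTop atTop) (hc' : Tendsto c' atTop atTop)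
    (hA : Tendsto (fun n => (c n)⁻¹ • M n) atTop (𝓝 A))
    (hB : Tendsto (fun n => (c' n)⁻¹ • N n) atTop (𝓝 B)) : A * B = 0 := by
  have h1 := hA.mul hB
  have h2 : (fun n => ((c n)⁻¹ • M n) * ((c' n)⁻¹ • N n)) =
      fun n => ((c n)⁻¹ * (c' n)⁻¹) • (1 : M3) := by
    funext n
    rw [smul_mul_smul_comm, hMN]
  rw [h2] at h1
  have h3 : Tendsto (fun n => ((c n)⁻¹ * (c' n)⁻¹) • (1 : M3)) atTop
      (𝓝 ((0 * 0 : ℝ) • (1 : M3))) :=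
    ((tendsto_inv_atTop_zero.comp hc).mul (tendsto_inv_atTop_zero.comp hc')).smul_const _
  rw [tendsto_nhds_unique h1 h3, mul_zero, zero_smul]

theorem regl_rk1 {B : M3} {f : V3} (hf : f ≠ 0) (hB : B ≠ 0)
    (h : ∀ u : V3, f ⬝ᵥ u = 0 → B *ᵥ u = 0) : ∃ b : V3, b ≠ 0 ∧ B = vecMulVec b f := by
  obtain ⟨i, hi⟩ : ∃ i, f i ≠ 0 := Function.ne_iff.1 hf
  obtain ⟨w, hw⟩ : ∃ w : V3, f ⬝ᵥ w = 1 := by
    refine ⟨Pi.single i (f i)⁻¹, ?_⟩
    rw [dotProduct_single, mul_inv_cancel₀ hi]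
  have key : ∀ v, B *ᵥ v = (f ⬝ᵥ v) • (B *ᵥ w) := by
    intro v
    have h1 := h (v - (f ⬝ᵥ v) • w) (by
      rw [dotProduct_sub, dotProduct_smul, hw, smul_eq_mul, mul_one, sub_self])
    rw [mulVec_sub, mulVec_smul, sub_eq_zero] at h1
    exact h1
  have hBe : B = vecMulVec (B *ᵥ w) f := by
    ext k j
    have h2 := congrFun (key (Pi.single j 1)) k
    rw [dotProduct_single, mul_one, mulVec_single_one] at h2
    have h3 : B k j = f j * (B *ᵥ w) k := h2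
    rw [vecMulVec_apply, h3, mul_comm]
  refine ⟨B *ᵥ w, ?_, hBe⟩
  intro h0
  apply hB
  rw [hBe, h0]
  ext k j
  rw [vecMulVec_apply]
  simp

theorem regl_rank {A : M3} (hA0 : A ≠ 0) (hA : finrank ℝ (LinearMap.range A.mulVecLin) = 1) :
    ∃ a ξ : V3, a ≠ 0 ∧ ξ ≠ 0 ∧ A = vecMulVec a ξ := by
  obtain ⟨v, hv, hall⟩ := finrank_eq_one_iff'.1 hA
  have hcol : ∀ j : Fin 3, ∃ t : ℝ, t • (v : V3) = A *ᵥ Pi.single j 1 := by
    intro j
    obtain ⟨t, ht⟩ := hall ⟨A.mulVecLin (Pi.single j 1), LinearMap.mem_range_self _ _⟩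
    exact ⟨t, congrArg Subtype.val ht⟩
  choose ξ hξ using hcol
  have hAe : A = vecMulVec (v : V3) ξ := by
    ext k j
    have h2 := congrFun (hξ j) k
    rw [mulVec_single_one] at h2
    have h3 : ξ j * (v : V3) k = A k j := h2
    rw [vecMulVec_apply, ← h3, mul_comm]
  refine ⟨v, ξ, fun h => hv (Subtype.ext h), ?_, hAe⟩
  intro h
  apply hA0
  rw [hAe, h]
  ext k j
  rw [vecMulVec_apply]
  simp

theorem regl_alt {A B : M3} (hA : A ≠ 0) (hB : B ≠ 0) (hAB : A * B = 0) :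
    (∃ a ξ : V3, a ≠ 0 ∧ ξ ≠ 0 ∧ A = vecMulVec a ξ) ∨
      ∃ b ψ : V3, b ≠ 0 ∧ ψ ≠ 0 ∧ B = vecMulVec b ψ := by
  have hpos : ∀ {M : M3}, M ≠ 0 → 1 ≤ finrank ℝ (LinearMap.range M.mulVecLin) := by
    intro M hM
    rw [Nat.one_le_iff_ne_zero]
    intro h
    have h1 : LinearMap.range M.mulVecLin = ⊥ := Submodule.finrank_eq_zero.1 h
    have h2 : M.mulVecLin = 0 := LinearMap.range_eq_bot.1 h1
    apply hM
    ext k j
    have h3 : M *ᵥ Pi.single j 1 = 0 := by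
      have := congrArg (fun L : V3 →ₗ[ℝ] V3 => L (Pi.single j 1)) h2
      exact this
    have h4 := congrFun h3 k
    rw [mulVec_single_one] at h4
    exact h4
  have hle : LinearMap.range B.mulVecLin ≤ LinearMap.ker A.mulVecLin := by
    rintro _ ⟨v, rfl⟩
    rw [LinearMap.mem_ker]
    show A *ᵥ (B *ᵥ v) = 0
    rw [mulVec_mulVec, hAB, zero_mulVec]
  have h1 := Submodule.finrank_mono hle
  have h2 := LinearMap.finrank_range_add_finrank_ker A.mulVecLin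
  have h3 : finrank ℝ (Fin 3 → ℝ) = 3 := by simp
  rw [h3] at h2
  have h4 := hpos hA
  have h5 := hpos hB
  by_cases h6 : finrank ℝ (LinearMap.range A.mulVecLin) = 1
  · exact Or.inl (regl_rank hA h6)
  · refine Or.inr (regl_rank hB ?_)
    omega

theorem regl_unit {x : V3} (hx : x ≠ 0) : ‖‖x‖⁻¹ • x‖ = 1 := by
  rw [norm_smul, norm_inv, norm_norm, inv_mul_cancel₀ (norm_ne_zero_iff.2 hx)]

theorem regl_key (h1 : S_gen) (h3 : S_lim) (h4 : S_fib) {G : Type} [Group G] {ρ : G →* M3}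
    (hρ : Pos ρ) (bas : Bas ρ (Lam ρ)) (g : ℕ → G) (c c' : ℕ → ℝ) (A B : M3)
    (hc : ∀ n, 0 < c n) (hc' : ∀ n, 0 < c' n)
    (hA : Tendsto (fun n => (c n)⁻¹ • ρ (g n)) atTop (𝓝 A))
    (hB : Tendsto (fun n => (c' n)⁻¹ • ρ (g n)⁻¹) atTop (𝓝 B)) (a ξ : V3) (ha : a ≠ 0)
    (hξ : ξ ≠ 0) (hAe : A = vecMulVec a ξ) (hB0 : B ≠ 0) :
    ∃ b ψ : V3, b ≠ 0 ∧ ψ ≠ 0 ∧ B = vecMulVec b ψ := by
  classical
  by_contra hcon
  have hu : ∀ f : V3, f ≠ 0 → ∃ u : V3, f ⬝ᵥ u = 0 ∧ B *ᵥ u ≠ 0 := by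
    intro f hf
    by_contra h
    push Not at h
    obtain ⟨b, hb, hbe⟩ := regl_rk1 hf hB0 h
    exact hcon ⟨b, f, hb, hf, hbe⟩
  -- the fibre
  obtain ⟨a', ha'⟩ : ∃ a' : V3, a' = ‖a‖⁻¹ • a := ⟨_, rfl⟩
  obtain ⟨f1, f2, hf1, hf2, hF⟩ : ∃ f1 f2 : V3, f1 ≠ 0 ∧ f2 ≠ 0 ∧
      ∀ f, (a', f) ∈ Lam ρ → f = f1 ∨ f = f2 := by
    have hne : ∀ f, (a', f) ∈ Lam ρ → f ≠ 0 := by
      intro f hf h0
      have h5 : ‖f‖ = 1 := bas.unit2 _ hf
      rw [h0, norm_zero] at h5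
      exact zero_ne_one h5
    by_cases hE : ∃ f1, (a', f1) ∈ Lam ρ
    · obtain ⟨f1, hf1⟩ := hE
      by_cases hE2 : ∃ f2, (a', f2) ∈ Lam ρ ∧ f2 ≠ f1
      · obtain ⟨f2, hf2, h12⟩ := hE2
        refine ⟨f1, f2, hne _ hf1, hne _ hf2, fun f hf => ?_⟩
        rcases h4 ρ hρ a' f1 f2 f hf1 hf2 hf with h | h | h
        · exact absurd h.symm h12
        · exact Or.inl h.symm
        · exact Or.inr h.symm
      · push Not at hE2
        exact ⟨f1, f1, hne _ hf1, hne _ hf1, fun f hf => Or.inl (hE2 f hf)⟩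
    · push Not at hE
      exact ⟨ξ, ξ, hξ, hξ, fun f hf => absurd hf (hE f)⟩
  obtain ⟨u1, hu1, hu1'⟩ := hu f1 hf1
  obtain ⟨u2, hu2, hu2'⟩ := hu f2 hf2
  have hs : ∀ i : Fin 3, (Pi.single i (1 : ℝ) : V3) ≠ 0 := by
    intro i h
    have := congrFun h i
    rw [Pi.single_eq_same] at this
    exact one_ne_zero this
  obtain ⟨k, hk1, hk2⟩ := h1 ρ hρ {((Pi.single 0 1 : V3), ξ)}
    {(B *ᵥ u1, (Pi.single 2 1 : V3)), (B *ᵥ u2, (Pi.single 2 1 : V3))} (by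
      intro p hp
      rw [Finset.mem_singleton] at hp
      rw [hp]
      exact ⟨hs 0, hξ⟩) (by
      intro p hp
      rw [Finset.mem_insert, Finset.mem_singleton] at hp
      rcases hp with hp | hp
      · rw [hp]
        exact ⟨hu1', hs 2⟩
      · rw [hp]
        exact ⟨hu2', hs 2⟩)
  -- the flag of `k`
  obtain ⟨x, hx⟩ : ∃ x : V3, x = fun i => ρ k i 0 := ⟨_, rfl⟩
  obtain ⟨y, hy⟩ : ∃ y : V3, y = fun j => ρ k⁻¹ 2 j := ⟨_, rfl⟩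
  have hcol : ξ ⬝ᵥ x ≠ 0 := by
    have h5 : ξ ⬝ᵥ (ρ k *ᵥ Pi.single 0 1) ≠ 0 := hk1 _ (Finset.mem_singleton_self _)
    rw [mulVec_single_one] at h5
    rw [hx]
    exact h5
  have hrow : ∀ u : V3, u = u1 ∨ u = u2 → (y ᵥ* B) ⬝ᵥ u ≠ 0 := by
    intro u hu
    have h5 : (Pi.single 2 1 : V3) ⬝ᵥ (ρ k⁻¹ *ᵥ (B *ᵥ u)) ≠ 0 := by
      refine hk2 (B *ᵥ u, (Pi.single 2 1 : V3)) ?_
      rcases hu with hu | hu
      · rw [hu]
        exact Finset.mem_insert_self _ _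
      · rw [hu]
        exact Finset.mem_insert_of_mem (Finset.mem_singleton_self _)
    rw [single_one_dotProduct] at h5
    rw [← dotProduct_mulVec, hy]
    exact h5
  have hx0 : x ≠ 0 := by
    intro h
    rw [h, dotProduct_zero] at hcol
    exact hcol rfl
  have hy0 : y ≠ 0 := by
    intro h
    have h5 := hrow u1 (Or.inl rfl)
    rw [h, zero_vecMul, zero_dotProduct] at h5
    exact h5 rfl
  have hxp : 0 < ‖x‖⁻¹ := inv_pos.2 (norm_pos_iff.2 hx0)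
  have hyp : 0 < ‖y‖⁻¹ := inv_pos.2 (norm_pos_iff.2 hy0)
  have hmem : ((‖x‖⁻¹ • x, ‖y‖⁻¹ • y) : V3 × V3) ∈ Lam ρ := by
    have h5 := bas.base k ‖x‖⁻¹ ‖y‖⁻¹ (mul_pos hxp hyp)
    rw [← hx, ← hy] at h5
    exact h5 (regl_unit hx0) (regl_unit hy0)
  -- its image in the limit
  have hAv : ∀ v : V3, A *ᵥ v = (ξ ⬝ᵥ v) • a := by
    intro v
    rw [hAe]
    ext i
    rw [Pi.smul_apply, smul_eq_mul, mulVec, dotProduct, dotProduct, Finset.sum_mul]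
    refine Finset.sum_congr rfl fun j _ => ?_
    rw [vecMulVec_apply]
    ring
  obtain ⟨r, hr⟩ : ∃ r : ℝ, r = ξ ⬝ᵥ (‖x‖⁻¹ • x) := ⟨_, rfl⟩
  have hr0 : r ≠ 0 := by
    rw [hr, dotProduct_smul, smul_eq_mul]
    exact mul_ne_zero hxp.ne' hcol
  have hA1 : A *ᵥ (‖x‖⁻¹ • x) = r • a := by rw [hAv, hr]
  have hA1' : A *ᵥ (‖x‖⁻¹ • x) ≠ 0 := by
    rw [hA1]
    exact smul_ne_zero hr0 ha
  obtain ⟨z, hz⟩ : ∃ z : V3, z = (‖y‖⁻¹ • y) ᵥ* B := ⟨_, rfl⟩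
  have hzu : ∀ u : V3, u = u1 ∨ u = u2 → z ⬝ᵥ u ≠ 0 := by
    intro u hu
    rw [hz, smul_vecMul, smul_dotProduct, smul_eq_mul]
    exact mul_ne_zero hyp.ne' (hrow u hu)
  have hz0 : z ≠ 0 := by
    intro h
    have h5 := hzu u1 (Or.inl rfl)
    rw [h, zero_dotProduct] at h5
    exact h5 rfl
  have hzp : 0 < ‖z‖⁻¹ := inv_pos.2 (norm_pos_iff.2 hz0)
  have hlim := h3 ρ (Lam ρ) bas g c c' A B hc hc' hA hB _ hmem hA1' (by
    show (‖y‖⁻¹ • y) ᵥ* B ≠ 0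
    rw [← hz]
    exact hz0)
  have hlim' : ((‖r • a‖⁻¹ • (r • a), ‖z‖⁻¹ • z) : V3 × V3) ∈ Lam ρ := by
    rw [← hA1, hz]
    exact hlim
  have hnorm : ‖r • a‖⁻¹ • (r • a) = (r / |r|) • a' := by
    rw [norm_smul, Real.norm_eq_abs, mul_inv, smul_smul, ha', smul_smul]
    congr 1
    ring
  rw [hnorm] at hlim'
  -- a flag at `a'` which is not one of the two
  obtain ⟨f, hf, hfu⟩ : ∃ f : V3, (a', f) ∈ Lam ρ ∧ ∀ u : V3, u = u1 ∨ u = u2 → f ⬝ᵥ u ≠ 0 := by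
    rcases lt_or_gt_of_ne hr0 with hneg | hpos
    · have h5 : r / |r| = -1 := by
        rw [abs_of_neg hneg, div_neg, div_self hr0]
      rw [h5, neg_smul, one_smul] at hlim'
      have h6 := bas.neg _ hlim'
      refine ⟨-(‖z‖⁻¹ • z), ?_, fun u hu => ?_⟩
      · have h7 : -((-a', ‖z‖⁻¹ • z) : V3 × V3) = (a', -(‖z‖⁻¹ • z)) := by
          rw [Prod.neg_mk, neg_neg]
        rw [← h7]
        exact h6
      · rw [neg_dotProduct, smul_dotProduct, smul_eq_mul]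
        exact neg_ne_zero.2 (mul_ne_zero hzp.ne' (hzu u hu))
    · have h5 : r / |r| = 1 := by
        rw [abs_of_pos hpos, div_self hr0]
      rw [h5, one_smul] at hlim'
      refine ⟨‖z‖⁻¹ • z, hlim', fun u hu => ?_⟩
      rw [smul_dotProduct, smul_eq_mul]
      exact mul_ne_zero hzp.ne' (hzu u hu)
  rcases hF f hf with h | h
  · apply hfu u1 (Or.inl rfl)
    rw [h, hu1]
  · apply hfu u2 (Or.inr rfl)
    rw [h, hu2]

theorem regl_subseq (x y : ℕ → Fin 3 → Fin 3 → ℝ) (hx : ∀ n, ‖x n‖ = 1)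
    (hy : ∀ n, ‖y n‖ = 1) : ∃ (A B : Fin 3 → Fin 3 → ℝ) (φ : ℕ → ℕ), ‖A‖ = 1 ∧ ‖B‖ = 1 ∧
      StrictMono φ ∧ Tendsto (fun n => x (φ n)) atTop (𝓝 A) ∧
      Tendsto (fun n => y (φ n)) atTop (𝓝 B) := by
  have hcomp : IsCompact ((Metric.sphere (0 : Fin 3 → Fin 3 → ℝ) 1) ×ˢ
      (Metric.sphere (0 : Fin 3 → Fin 3 → ℝ) 1)) :=
    (isCompact_sphere _ _).prod (isCompact_sphere _ _)
  obtain ⟨⟨A, B⟩, hAB, φ, hφ, hlim⟩ := hcomp.tendsto_subseq (x := fun n => (x n, y n)) (fun n => by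
    rw [Set.mem_prod, mem_sphere_zero_iff_norm, mem_sphere_zero_iff_norm]
    exact ⟨hx n, hy n⟩)
  rw [Set.mem_prod, mem_sphere_zero_iff_norm, mem_sphere_zero_iff_norm] at hAB
  exact ⟨A, B, φ, hAB.1, hAB.2, hφ, (continuous_fst.tendsto _).comp hlim,
    (continuous_snd.tendsto _).comp hlim⟩

theorem regl_subseq2 (x y : ℕ → M3) (hx : ∀ n, regl_nrm (x n) = 1)
    (hy : ∀ n, regl_nrm (y n) = 1) : ∃ (A B : M3) (φ : ℕ → ℕ), A ≠ 0 ∧ B ≠ 0 ∧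
      StrictMono φ ∧ Tendsto (fun n => x (φ n)) atTop (𝓝 A) ∧
      Tendsto (fun n => y (φ n)) atTop (𝓝 B) := by
  obtain ⟨A, B, φ, hA, hB, hφ, h1, h2⟩ := regl_subseq x y hx hy
  refine ⟨A, B, φ, ?_, ?_, hφ, h1, h2⟩
  · intro h
    have h5 : A = (0 : Fin 3 → Fin 3 → ℝ) := h
    rw [h5, norm_zero] at hA
    exact zero_ne_one hA
  · intro h
    have h5 : B = (0 : Fin 3 → Fin 3 → ℝ) := h
    rw [h5, norm_zero] at hB
    exact zero_ne_one hB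

theorem regl_nrm_one {M : M3} (hM : M ≠ 0) : regl_nrm ((regl_nrm M)⁻¹ • M) = 1 := by
  have h5 : regl_nrm ((regl_nrm M)⁻¹ • M) = ‖(regl_nrm M)⁻¹‖ * regl_nrm M :=
    norm_smul (β := Fin 3 → Fin 3 → ℝ) (regl_nrm M)⁻¹ M
  rw [h5, norm_inv, Real.norm_of_nonneg (regl_nrm_pos hM).le,
    inv_mul_cancel₀ (regl_nrm_pos hM).ne']

/-- REGULARITY -/
theorem t_regl (h1 : S_gen) (h2 : S_basic) (h3 : S_lim) (h4 : S_fib) : S_regl := by
  intro G _ ρ hρ g hg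
  have bas := h2 ρ hρ
  have hi : Function.Injective fun n => (g n)⁻¹ := inv_injective.comp hg
  have hcT := regl_inf hρ hg
  have hcT' := regl_inf hρ hi
  have hcp : ∀ n, 0 < regl_nrm (ρ (g n)) := fun n => regl_nrm_pos (regl_ne ρ _)
  have hcp' : ∀ n, 0 < regl_nrm (ρ (g n)⁻¹) := fun n => regl_nrm_pos (regl_ne ρ _)
  obtain ⟨A, B, φ, hA0, hB0, hφ, hA, hB⟩ := regl_subseq2
    (fun n => (regl_nrm (ρ (g n)))⁻¹ • ρ (g n)) (fun n => (regl_nrm (ρ (g n)⁻¹))⁻¹ • ρ (g n)⁻¹)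
    (fun n => regl_nrm_one (regl_ne ρ _)) (fun n => regl_nrm_one (regl_ne ρ _))
  have hprod : A * B = 0 :=
    regl_mul (c := fun n => regl_nrm (ρ (g (φ n)))) (c' := fun n => regl_nrm (ρ (g (φ n))⁻¹))
      (M := fun n => ρ (g (φ n))) (N := fun n => ρ (g (φ n))⁻¹)
      (fun n => by rw [← map_mul, mul_inv_cancel, map_one]) (hcT.comp hφ.tendsto_atTop)
      (hcT'.comp hφ.tendsto_atTop) hA hB
  have hboth : (∃ a ξ : V3, a ≠ 0 ∧ ξ ≠ 0 ∧ A = vecMulVec a ξ) ∧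
      ∃ b ψ : V3, b ≠ 0 ∧ ψ ≠ 0 ∧ B = vecMulVec b ψ := by
    rcases regl_alt hA0 hB0 hprod with h | h
    · refine ⟨h, ?_⟩
      obtain ⟨a, ξ, ha, hξ, hAe⟩ := h
      exact regl_key h1 h3 h4 hρ bas (fun n => g (φ n)) _ _ A B (fun n => hcp (φ n))
        (fun n => hcp' (φ n)) hA hB a ξ ha hξ hAe hB0
    · refine ⟨?_, h⟩
      obtain ⟨b, ψ, hb, hψ, hBe⟩ := h
      exact regl_key h1 h3 h4 hρ bas (fun n => (g (φ n))⁻¹) _ _ B A (fun n => hcp' (φ n))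
        (fun n => hcp (φ n)) hB (by simpa only [inv_inv] using hA) b ψ hb hψ hBe hA0
  obtain ⟨⟨a, ξ, ha, hξ, hAe⟩, b, ψ, hb, hψ, hBe⟩ := hboth
  refine ⟨φ, fun n => regl_nrm (ρ (g (φ n))), fun n => regl_nrm (ρ (g (φ n))⁻¹), a, ξ, b, ψ, hφ,
    fun n => hcp _, fun n => hcp' _, ha, hξ, hb, hψ, ?_, ?_⟩
  · rw [← hAe]
    exact hA
  · rw [← hBe]
    exact hB

end Pool.Agent.H817.PL
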