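import Pool.Agent.H817.PL.Stm

set_option autoImplicit false

namespace Pool.Agent.H817.PL

open Set Filter Topology Module Matrix

theorem tan_cont_dot : Continuous fun p : V3 × V3 => p.1 ⬝ᵥ p.2 := by
  unfold dotProduct
  fun_prop

theorem tan_ne (a d : V3) (u : ℕ → V3) (ha : ‖a‖ = 1) (hu : ∀ n, ‖u n‖ = 1)
    (hne : ∀ n, u n ≠ a) (hlim : Tendsto u atTop (𝓝 a))
    (hd : Tendsto (fun n => ‖u n - a‖⁻¹ • (u n - a)) atTop (𝓝 d)) (t : ℝ) : d ≠ t • a := by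
  intro hdt
  have hr : ∀ n, 0 < ‖u n - a‖ := fun n => norm_pos_iff.2 (sub_ne_zero.2 (hne n))
  have hw1 : ∀ n, ‖‖u n - a‖⁻¹ • (u n - a)‖ = 1 := by
    intro n
    rw [norm_smul, norm_inv, norm_norm, inv_mul_cancel₀ (hr n).ne']
  have hd1 : ‖d‖ = 1 := by
    have h1 := hd.norm
    simp_rw [hw1] at h1
    exact (tendsto_nhds_unique h1 tendsto_const_nhds)
  have ht : |t| = 1 := by
    rw [hdt, norm_smul, ha, mul_one, Real.norm_eq_abs] at hd1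
    exact hd1
  have h0 : Tendsto (fun n => ‖u n - a‖) atTop (𝓝 0) := by
    have h1 := (hlim.sub_const a).norm
    rwa [sub_self, norm_zero] at h1
  have h2 : Tendsto (fun n => ‖‖u n - a‖⁻¹ • (u n - a) - t • a‖) atTop (𝓝 0) := by
    have h1 := (hd.sub_const (t • a)).norm
    rwa [hdt, sub_self, norm_zero] at h1
  obtain ⟨n, hn1, hn2⟩ := ((h0.eventually (gt_mem_nhds one_pos)).and
    (h2.eventually (gt_mem_nhds (show (0 : ℝ) < 1 / 2 by norm_num)))).exists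
  have hrn := hr n
  have hpos : 0 ≤ 1 + ‖u n - a‖ * t := by
    have h3 : -1 ≤ t := by
      have := neg_abs_le t
      rw [ht] at this
      exact this
    nlinarith
  have h4 : u n = (1 + ‖u n - a‖ * t) • a +
      ‖u n - a‖ • (‖u n - a‖⁻¹ • (u n - a) - t • a) := by
    rw [smul_sub, smul_smul, smul_smul, mul_inv_cancel₀ hrn.ne', one_smul, add_smul, one_smul]
    abel
  have h5 : ‖(1 + ‖u n - a‖ * t) • a‖ = 1 + ‖u n - a‖ * t := by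
    rw [norm_smul, ha, mul_one, Real.norm_eq_abs, abs_of_nonneg hpos]
  have h6 : |‖u n‖ - ‖(1 + ‖u n - a‖ * t) • a‖| ≤
      ‖‖u n - a‖ • (‖u n - a‖⁻¹ • (u n - a) - t • a)‖ := by
    refine (abs_norm_sub_norm_le _ _).trans ?_
    have h7 : u n - (1 + ‖u n - a‖ * t) • a =
        ‖u n - a‖ • (‖u n - a‖⁻¹ • (u n - a) - t • a) := by
      rw [sub_eq_iff_eq_add, add_comm]
      exact h4
    rw [h7]
  rw [h5, hu n, norm_smul, norm_norm] at h6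
  have h8 : |1 - (1 + ‖u n - a‖ * t)| = ‖u n - a‖ := by
    have h9 : 1 - (1 + ‖u n - a‖ * t) = -(‖u n - a‖ * t) := by ring
    rw [h9, abs_neg, abs_mul, ht, mul_one, abs_of_pos hrn]
  rw [h8] at h6
  nlinarith

theorem t_tan : S_tan := by
  intro a f d u v hfa ha hu hvu hpos hne hlim hvlim hd
  refine ⟨?_, fun t => tan_ne a d u ha hu hne hlim hd t⟩
  have h1 : Tendsto (fun n => f ⬝ᵥ (‖u n - a‖⁻¹ • (u n - a))) atTop (𝓝 (f ⬝ᵥ d)) :=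
    (tan_cont_dot.tendsto (f, d)).comp (tendsto_const_nhds.prodMk_nhds hd)
  have h2 : Tendsto (fun n => v n ⬝ᵥ (‖u n - a‖⁻¹ • (u n - a))) atTop (𝓝 (f ⬝ᵥ d)) :=
    (tan_cont_dot.tendsto (f, d)).comp (hvlim.prodMk_nhds hd)
  have h3 := h1.mul h2
  have h4 : f ⬝ᵥ d * (f ⬝ᵥ d) ≤ 0 := by
    refine le_of_tendsto' h3 fun n => ?_
    have e1 : f ⬝ᵥ (‖u n - a‖⁻¹ • (u n - a)) = ‖u n - a‖⁻¹ * (f ⬝ᵥ u n) := by
      rw [dotProduct_smul, dotProduct_sub, hfa, sub_zero, smul_eq_mul]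
    have e2 : v n ⬝ᵥ (‖u n - a‖⁻¹ • (u n - a)) = -(‖u n - a‖⁻¹ * (v n ⬝ᵥ a)) := by
      rw [dotProduct_smul, dotProduct_sub, hvu n, zero_sub, smul_eq_mul, mul_neg]
    rw [e1, e2]
    have h5 := mul_nonneg (sq_nonneg ‖u n - a‖⁻¹) (hpos n)
    have h6 : ‖u n - a‖⁻¹ * (f ⬝ᵥ u n) * -(‖u n - a‖⁻¹ * (v n ⬝ᵥ a)) =
        -(‖u n - a‖⁻¹ ^ 2 * ((f ⬝ᵥ u n) * (v n ⬝ᵥ a))) := by ring
    rw [h6]
    linarith
  have h7 := mul_self_nonneg (f ⬝ᵥ d)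
  exact mul_self_eq_zero.1 (le_antisymm h4 h7)

end Pool.Agent.H817.PL
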