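import Pool.Agent.H817.PL.Stm

/-!
Signs of a symmetric odd function on a double cover of a connected space (`S_top`).
-/

set_option autoImplicit false

namespace Pool.Agent.H817.PL

open Set Filter Topology

/-- the sign, `-1` at `0` -/
noncomputable def top_sg (t : ℝ) : ℝ := if 0 < t then 1 else -1

lemma top_sg_cases (t : ℝ) : top_sg t = 1 ∨ top_sg t = -1 := by
  unfold top_sg
  split_ifs
  · exact Or.inl rfl
  · exact Or.inr rfl

lemma top_sg_sq (t : ℝ) : top_sg t * top_sg t = 1 := by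
  rcases top_sg_cases t with h | h <;> rw [h] <;> norm_num

lemma top_sg_pos {t : ℝ} (ht : t ≠ 0) : 0 < top_sg t * t := by
  unfold top_sg
  rcases lt_or_gt_of_ne ht with h | h
  · rw [if_neg (not_lt.2 h.le)]; linarith
  · rw [if_pos h]; linarith

lemma top_sg_neg {t : ℝ} (ht : t ≠ 0) : top_sg (-t) = -top_sg t := by
  unfold top_sg
  rcases lt_or_gt_of_ne ht with h | h
  · rw [if_neg (not_lt.2 h.le), if_pos (by linarith)]; norm_num
  · rw [if_pos h, if_neg (by linarith)]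

section
variable {Y P : Type} [TopologicalSpace Y] [T2Space Y] [TopologicalSpace P] [T2Space P]
  {L D : Set Y} {neg : Y → Y} {π : Y → P} {S : Y → Y → ℝ}

/-- Step 1 -/
lemma top_one (hL : IsCompact L) (hπc : Continuous π)
    (hSc : Continuous (fun q : Y × Y => S q.1 q.2))
    (hLn : ∀ y ∈ L, neg y ∈ L) (hπ : ∀ x ∈ L, ∀ y ∈ L, π x = π y ↔ x = y ∨ x = neg y)
    (hSs : ∀ x y, S x y = S y x) (hSn : ∀ x y, S (neg x) y = - S x y)
    (hnn : ∀ y, neg (neg y) = y)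
    (hconn : IsPreconnected (π '' L)) (hDL : D ⊆ L) (hD0 : ∀ x ∈ D, S x x = 0)
    (hD : ∀ x ∈ D, ∀ y ∈ L, S x y = 0 → y = x ∨ y = neg x)
    {x y z z' : Y} (hx : x ∈ D) (hy : y ∈ D) (hz : z ∈ D) (hz' : z' ∈ D)
    (h1 : 0 < S x y) (h2 : 0 < S x z) (h3 : S y z < 0) (h4 : 0 < S x z') (h5 : 0 < S y z') :
    False := by
  have hSn' : ∀ x y, S x (neg y) = - S x y := fun x y => by rw [hSs, hSn, hSs]
  have hc : ∀ a : Y, Continuous fun w => S a w := fun a =>
    hSc.comp (continuous_const.prodMk continuous_id)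
  have cge : ∀ a : Y, IsClosed {w | 0 ≤ S a w} := fun a => isClosed_le continuous_const (hc a)
  have cle : ∀ a : Y, IsClosed {w | S a w ≤ 0} := fun a => isClosed_le (hc a) continuous_const
  let P1 : Set Y := L ∩ ({w | 0 ≤ S x w} ∩ ({w | 0 ≤ S y w} ∩ {w | 0 ≤ S z w}))
  let Q1 : Set Y := L ∩ ({w | 0 ≤ S x w} ∩ ({w | 0 ≤ S y w} ∩ {w | S z w ≤ 0}))
  let P2 : Set Y := L ∩ ({w | 0 ≤ S x w} ∩ ({w | S y w ≤ 0} ∩ {w | S z' w ≤ 0}))
  let Q2 : Set Y := L ∩ ({w | 0 ≤ S x w} ∩ ({w | S y w ≤ 0} ∩ {w | 0 ≤ S z' w}))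
  have kP1 : IsCompact P1 := hL.inter_right ((cge x).inter ((cge y).inter (cge z)))
  have kQ1 : IsCompact Q1 := hL.inter_right ((cge x).inter ((cge y).inter (cle z)))
  have kP2 : IsCompact P2 := hL.inter_right ((cge x).inter ((cle y).inter (cle z')))
  have kQ2 : IsCompact Q2 := hL.inter_right ((cge x).inter ((cle y).inter (cge z')))
  have key := isPreconnected_closed_iff.1 hconn (π '' (P1 ∪ P2)) (π '' (Q1 ∪ Q2))
    ((kP1.union kP2).image hπc).isClosed ((kQ1.union kQ2).image hπc).isClosed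
    (by
      rintro _ ⟨w, hw, rfl⟩
      -- a representative with `0 ≤ S x w`
      obtain ⟨v, hv, hπv, hxv⟩ : ∃ v ∈ L, π v = π w ∧ 0 ≤ S x v := by
        rcases le_total 0 (S x w) with h | h
        · exact ⟨w, hw, rfl, h⟩
        · refine ⟨neg w, hLn w hw, (hπ _ (hLn w hw) w hw).2 (Or.inr rfl), ?_⟩
          rw [hSn']; linarith
      rw [← hπv]
      rcases le_total 0 (S y v) with h | h
      · rcases le_total 0 (S z v) with h' | h'
        · exact Or.inl ⟨v, Or.inl ⟨hv, hxv, h, h'⟩, rfl⟩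
        · exact Or.inr ⟨v, Or.inl ⟨hv, hxv, h, h'⟩, rfl⟩
      · rcases le_total 0 (S z' v) with h' | h'
        · exact Or.inr ⟨v, Or.inr ⟨hv, hxv, h, h'⟩, rfl⟩
        · exact Or.inl ⟨v, Or.inr ⟨hv, hxv, h, h'⟩, rfl⟩)
    ⟨π x, ⟨x, hDL hx, rfl⟩, x, Or.inl ⟨hDL hx, (hD0 x hx).ge, by
      show 0 ≤ S y x
      rw [hSs]; exact h1.le, by
      show 0 ≤ S z x
      rw [hSs]; exact h2.le⟩, rfl⟩
    ⟨π y, ⟨y, hDL hy, rfl⟩, y, Or.inl ⟨hDL hy, h1.le, (hD0 y hy).ge, by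
      show S z y ≤ 0
      rw [hSs]; exact h3.le⟩, rfl⟩
  obtain ⟨p, -, ⟨w, hw, hwp⟩, w', hw', hwp'⟩ := key
  have hwL : w ∈ L := by rcases hw with h | h <;> exact h.1
  have hwL' : w' ∈ L := by rcases hw' with h | h <;> exact h.1
  have hyx : 0 < S y x := by rw [hSs]; exact h1
  have hzx : 0 < S z x := by rw [hSs]; exact h2
  have hzx' : 0 < S z' x := by rw [hSs]; exact h4
  have hzy : S z y < 0 := by rw [hSs]; exact h3
  have hzy' : 0 < S z' y := by rw [hSs]; exact h5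
  rcases (hπ w hwL w' hwL').1 (hwp.trans hwp'.symm) with he | he
  · subst he
    rcases hw with ⟨-, a1, a2, a3⟩ | ⟨-, a1, a2, a3⟩ <;>
      rcases hw' with ⟨-, b1, b2, b3⟩ | ⟨-, b1, b2, b3⟩ <;>
      simp only [mem_ofPred_eq] at a1 a2 a3 b1 b2 b3
    · rcases hD z hz w hwL (le_antisymm b3 a3) with e | e
      · rw [e] at a2; linarith
      · rw [e, hSn'] at a1; linarith
    · rcases hD y hy w hwL (le_antisymm b2 a2) with e | e
      · rw [e] at a3; linarith
      · rw [e, hSn'] at a1; linarith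
    · rcases hD y hy w hwL (le_antisymm a2 b2) with e | e
      · rw [e] at a3; linarith
      · rw [e, hSn'] at a1; linarith
    · rcases hD z' hz' w hwL (le_antisymm a3 b3) with e | e
      · rw [e] at a2; linarith
      · rw [e, hSn'] at a1; linarith
  · have he' : w' = neg w := by rw [he, hnn]
    have hx0 : S x w = 0 := by
      have a1 : 0 ≤ S x w := by rcases hw with ⟨-, h, -⟩ | ⟨-, h, -⟩ <;> exact h
      have b1 : 0 ≤ S x w' := by rcases hw' with ⟨-, h, -⟩ | ⟨-, h, -⟩ <;> exact h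
      rw [he', hSn'] at b1
      linarith
    rcases hD x hx w hwL hx0 with e | e
    · rw [e] at he'
      rcases hw with ⟨-, a1, a2, a3⟩ | ⟨-, a1, a2, a3⟩ <;>
        rcases hw' with ⟨-, b1, b2, b3⟩ | ⟨-, b1, b2, b3⟩ <;>
        simp only [mem_ofPred_eq] at a1 a2 a3 b1 b2 b3 <;>
        rw [e] at a1 a2 a3 <;> rw [he', hSn'] at b1 b2 b3 <;> linarith
    · rw [e, hnn] at he'
      rcases hw with ⟨-, a1, a2, a3⟩ | ⟨-, a1, a2, a3⟩ <;>
        rcases hw' with ⟨-, b1, b2, b3⟩ | ⟨-, b1, b2, b3⟩ <;>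
        simp only [mem_ofPred_eq] at a1 a2 a3 b1 b2 b3 <;>
        rw [e, hSn'] at a1 a2 a3 <;> rw [he'] at b1 b2 b3 <;> linarith

end

/-- Step 2, Claim A -/
lemma top_two {Y : Type} {D : Set Y} {neg : Y → Y} {S : Y → Y → ℝ}
    (hSs : ∀ x y, S x y = S y x) (hSn : ∀ x y, S (neg x) y = - S x y)
    (hDn : ∀ x ∈ D, neg x ∈ D)
    (hne : ∀ x ∈ D, ∀ y ∈ D, y ≠ x → y ≠ neg x → S x y ≠ 0)
    (h1 : ∀ x ∈ D, ∀ y ∈ D, ∀ z ∈ D, ∀ z' ∈ D, 0 < S x y → 0 < S x z → S y z < 0 →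
      0 < S x z' → 0 < S y z' → False)
    {x y z z' : Y} (hx : x ∈ D) (hy : y ∈ D) (hz : z ∈ D) (hz' : z' ∈ D)
    (n1 : S x y ≠ 0) (n2 : S x z ≠ 0) (n3 : S y z ≠ 0) (n4 : S x z' ≠ 0) (n5 : S y z' ≠ 0) :
    0 < (S x z * S y z) * (S x z' * S y z') := by
  have hSn' : ∀ x y, S x (neg y) = - S x y := fun x y => by rw [hSs, hSn, hSs]
  -- normalise `y`
  have main : ∀ y ∈ D, ∀ z ∈ D, ∀ z' ∈ D, 0 < S x y → 0 < S x z → 0 < S x z' → S y z ≠ 0 →
      S y z' ≠ 0 → 0 < S y z * S y z' := by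
    intro y hy z hz z' hz' p1 p2 p3 m1 m2
    rcases lt_or_gt_of_ne m1 with k | k <;> rcases lt_or_gt_of_ne m2 with k' | k'
    · exact mul_pos_of_neg_of_neg k k'
    · exact (h1 x hx y hy z hz z' hz' p1 p2 k p3 k').elim
    · exact (h1 x hx y hy z' hz' z hz p1 p3 k' p2 k).elim
    · exact mul_pos k k'
  -- choose signs
  obtain ⟨y1, hy1, a, ha, hay, hay'⟩ : ∃ y1 ∈ D, ∃ a : ℝ, a * a = 1 ∧ 0 < S x y1 ∧
      ∀ v, S y1 v = a * S y v := by
    rcases lt_or_gt_of_ne n1 with k | k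
    · exact ⟨neg y, hDn y hy, -1, by norm_num, by rw [hSn']; linarith, fun v => by
        rw [hSn]; ring⟩
    · exact ⟨y, hy, 1, by norm_num, k, fun v => by ring⟩
  obtain ⟨z1, hz1, b, hb, hbz, hbz'⟩ : ∃ z1 ∈ D, ∃ b : ℝ, b * b = 1 ∧ 0 < S x z1 ∧
      ∀ v, S v z1 = b * S v z := by
    rcases lt_or_gt_of_ne n2 with k | k
    · exact ⟨neg z, hDn z hz, -1, by norm_num, by rw [hSn']; linarith, fun v => by
        rw [hSn']; ring⟩
    · exact ⟨z, hz, 1, by norm_num, k, fun v => by ring⟩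
  obtain ⟨z2, hz2, c, hc, hcz, hcz'⟩ : ∃ z2 ∈ D, ∃ c : ℝ, c * c = 1 ∧ 0 < S x z2 ∧
      ∀ v, S v z2 = c * S v z' := by
    rcases lt_or_gt_of_ne n4 with k | k
    · exact ⟨neg z', hDn z' hz', -1, by norm_num, by rw [hSn']; linarith, fun v => by
        rw [hSn']; ring⟩
    · exact ⟨z', hz', 1, by norm_num, k, fun v => by ring⟩
  have ha0 : a ≠ 0 := fun h => by rw [h] at ha; norm_num at ha
  have hb0 : b ≠ 0 := fun h => by rw [h] at hb; norm_num at hb
  have hc0 : c ≠ 0 := fun h => by rw [h] at hc; norm_num at hc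
  have e1 : S y1 z1 = a * (b * S y z) := by rw [hbz', hay']; ring
  have e2 : S y1 z2 = a * (c * S y z') := by rw [hcz', hay']; ring
  have m := main y1 hy1 z1 hz1 z2 hz2 hay hbz hcz
    (by rw [e1]; exact mul_ne_zero ha0 (mul_ne_zero hb0 n3))
    (by rw [e2]; exact mul_ne_zero ha0 (mul_ne_zero hc0 n5))
  have m2 := mul_pos (mul_pos hbz hcz) m
  rw [e1, e2, hbz', hcz'] at m2
  have e3 : b * S x z * (c * S x z') * (a * (b * S y z) * (a * (c * S y z'))) =
      (a * a) * (b * b) * (c * c) * ((S x z * S y z) * (S x z' * S y z')) := by ring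
  rw [e3, ha, hb, hc] at m2
  linarith

theorem t_top : S_top := by
  intro Y P _ _ _ _ L D neg π S hL _ hπc hSc hnn hn hLn hπ hSs hSn hconn hDL hDn hD0 hD
  have hSn' : ∀ x y, S x (neg y) = - S x y := fun x y => by rw [hSs, hSn, hSs]
  have hne : ∀ x ∈ D, ∀ y ∈ D, y ≠ x → y ≠ neg x → S x y ≠ 0 := by
    intro x hx y hy h1 h2 h0
    rcases hD x hx y (hDL hy) h0 with h | h
    · exact h1 h
    · exact h2 h
  have hone : ∀ x ∈ D, ∀ y ∈ D, ∀ z ∈ D, ∀ z' ∈ D, 0 < S x y → 0 < S x z → S y z < 0 →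
      0 < S x z' → 0 < S y z' → False := fun x hx y hy z hz z' hz' h1 h2 h3 h4 h5 =>
    top_one hL hπc hSc hLn hπ hSs hSn hnn hconn hDL hD0 hD hx hy hz hz' h1 h2 h3 h4 h5
  have claimA : ∀ x ∈ D, ∀ y ∈ D, ∀ z ∈ D, ∀ z' ∈ D, S x y ≠ 0 → S x z ≠ 0 → S y z ≠ 0 →
      S x z' ≠ 0 → S y z' ≠ 0 → 0 < (S x z * S y z) * (S x z' * S y z') :=
    fun x hx y hy z hz z' hz' => top_two hSs hSn hDn hne hone hx hy hz hz'
  by_cases hDe : D.Nonempty
  swap
  · rw [Set.not_nonempty_iff_eq_empty] at hDe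
    subst hDe
    exact ⟨fun _ => 1, 1, Or.inl rfl, fun _ => Or.inl rfl, fun x hx => absurd hx (by simp),
      fun x hx => absurd hx (by simp)⟩
  obtain ⟨x0, hx0⟩ := hDe
  -- the function `T y z`
  let T : Y → Y → ℝ := fun y z => S x0 y * S y z * S x0 z
  have hTs : ∀ y z, T y z = T z y := by
    intro y z
    show S x0 y * S y z * S x0 z = S x0 z * S z y * S x0 y
    rw [hSs z y]; ring
  have hTn : ∀ y z, T (neg y) z = T y z := by
    intro y z
    show S x0 (neg y) * S (neg y) z * S x0 z = S x0 y * S y z * S x0 z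
    rw [hSn', hSn]; ring
  have hTfix : ∀ y ∈ D, ∀ z ∈ D, ∀ z' ∈ D, S x0 y ≠ 0 → T y z ≠ 0 → T y z' ≠ 0 →
      0 < T y z * T y z' := by
    intro y hy z hz z' hz' h0 h1 h2
    have a1 : S y z ≠ 0 := fun h => h1 (by show S x0 y * S y z * S x0 z = 0; rw [h]; ring)
    have a2 : S x0 z ≠ 0 := fun h => h1 (by show S x0 y * S y z * S x0 z = 0; rw [h]; ring)
    have a3 : S y z' ≠ 0 := fun h => h2 (by show S x0 y * S y z' * S x0 z' = 0; rw [h]; ring)
    have a4 : S x0 z' ≠ 0 := fun h => h2 (by show S x0 y * S y z' * S x0 z' = 0; rw [h]; ring)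
    have h3 := claimA x0 hx0 y hy z hz z' hz' h0 a2 a1 a4 a3
    have h4 : 0 < S x0 y * S x0 y := mul_self_pos.2 h0
    have h5 := mul_pos h4 h3
    show 0 < S x0 y * S y z * S x0 z * (S x0 y * S y z' * S x0 z')
    have e : S x0 y * S y z * S x0 z * (S x0 y * S y z' * S x0 z') =
      S x0 y * S x0 y * (S x0 z * S y z * (S x0 z' * S y z')) := by ring
    rw [e]
    exact h5
  -- the sign `τ`
  obtain ⟨τ, hτ, hT⟩ : ∃ τ : ℝ, (τ = 1 ∨ τ = -1) ∧ ∀ y ∈ D, ∀ z ∈ D, T y z ≠ 0 →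
      0 < τ * T y z := by
    by_cases hex : ∃ y0 ∈ D, ∃ z0 ∈ D, T y0 z0 ≠ 0
    swap
    · refine ⟨1, Or.inl rfl, fun y hy z hz h => absurd ⟨y, hy, z, hz, h⟩ hex⟩
    obtain ⟨y0, hy0, z0, hz0, h0⟩ := hex
    refine ⟨top_sg (T y0 z0), top_sg_cases _, fun y hy z hz h => ?_⟩
    have b0 : S x0 y0 ≠ 0 := fun h' => h0 (by show S x0 y0 * S y0 z0 * S x0 z0 = 0; rw [h']; ring)
    have b1 : S x0 y ≠ 0 := fun h' => h (by show S x0 y * S y z * S x0 z = 0; rw [h']; ring)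
    have hpos : 0 < T y z * T y0 z0 := by
      by_cases hyy : y0 = y ∨ y0 = neg y
      · have hTy : T y z = T y0 z := by
          rcases hyy with e | e
          · rw [e]
          · rw [e, hTn]
        rw [hTy] at h ⊢
        exact hTfix y0 hy0 z hz z0 hz0 b0 h h0
      · push Not at hyy
        have b2 : S y y0 ≠ 0 := hne y hy y0 hy0 hyy.1 hyy.2
        have b3 : T y y0 ≠ 0 := mul_ne_zero (mul_ne_zero b1 b2) b0
        have b4 : T y0 y ≠ 0 := by rw [hTs]; exact b3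
        have c1 := hTfix y hy z hz y0 hy0 b1 h b3
        have c2 := hTfix y0 hy0 y hy z0 hz0 b0 b4 h0
        rw [hTs y0 y] at c2
        have c3 := mul_pos c1 c2
        have c4 : 0 < T y y0 * T y y0 := mul_self_pos.2 b3
        have e : T y z * T y y0 * (T y y0 * T y0 z0) = (T y y0 * T y y0) * (T y z * T y0 z0) := by
          ring
        rw [e] at c3
        exact (mul_pos_iff_of_pos_left c4).1 c3
    have c5 := top_sg_pos h0
    have c6 := mul_pos hpos c5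
    have c7 : 0 < T y0 z0 * T y0 z0 := mul_self_pos.2 h0
    have e : T y z * T y0 z0 * (top_sg (T y0 z0) * T y0 z0) =
      (T y0 z0 * T y0 z0) * (top_sg (T y0 z0) * T y z) := by ring
    rw [e] at c6
    exact (mul_pos_iff_of_pos_left c7).1 c6
  have hττ : τ * τ = 1 := by rcases hτ with h | h <;> rw [h] <;> norm_num
  have hτ0 : τ ≠ 0 := by rcases hτ with h | h <;> rw [h] <;> norm_num
  classical
  let ε : Y → ℝ := fun y => if y = x0 then τ else if y = neg x0 then -τ else top_sg (S x0 y)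
  have ε0 : ε x0 = τ := if_pos rfl
  have ε1 : ε (neg x0) = -τ := by
    show (if neg x0 = x0 then τ else if neg x0 = neg x0 then -τ else _) = -τ
    rw [if_neg (hn x0), if_pos rfl]
  have ε2 : ∀ y, y ≠ x0 → y ≠ neg x0 → ε y = top_sg (S x0 y) := by
    intro y h1 h2
    show (if y = x0 then τ else if y = neg x0 then -τ else _) = _
    rw [if_neg h1, if_neg h2]
  refine ⟨ε, τ, hτ, ?_, ?_, ?_⟩
  · intro y
    by_cases h1 : y = x0
    · rw [h1, ε0]; exact hτ
    · by_cases h2 : y = neg x0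
      · rw [h2, ε1]
        rcases hτ with h | h
        · exact Or.inr (by rw [h])
        · exact Or.inl (by rw [h]; norm_num)
      · rw [ε2 y h1 h2]; exact top_sg_cases _
  · intro y hy
    by_cases h1 : y = x0
    · rw [h1, ε0, ε1]
    · by_cases h2 : y = neg x0
      · rw [h2, hnn, ε0, ε1, neg_neg]
      · have h3 : neg y ≠ x0 := fun h => h2 (by rw [← h, hnn])
        have h4 : neg y ≠ neg x0 := fun h => h1 (by rw [← hnn y, h, hnn])
        rw [ε2 y h1 h2, ε2 _ h3 h4, hSn', top_sg_neg (hne x0 hx0 y hy h1 h2)]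
  · -- the inequality
    -- first: one of the points is `x0`
    have hfirst : ∀ y ∈ D, y ≠ x0 → y ≠ neg x0 → 0 < τ * (ε x0 * ε y * S x0 y) := by
      intro y hy h1 h2
      rw [ε0, ε2 y h1 h2]
      have e : τ * (τ * top_sg (S x0 y) * S x0 y) = (τ * τ) * (top_sg (S x0 y) * S x0 y) := by ring
      rw [e, hττ, one_mul]
      exact top_sg_pos (hne x0 hx0 y hy h1 h2)
    have hsecond : ∀ y ∈ D, y ≠ x0 → y ≠ neg x0 → 0 < τ * (ε (neg x0) * ε y * S (neg x0) y) := by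
      intro y hy h1 h2
      have h3 := hfirst y hy h1 h2
      rw [ε0] at h3
      rw [ε1, hSn]
      have e : τ * (-τ * ε y * -S x0 y) = τ * (τ * ε y * S x0 y) := by ring
      rw [e]
      exact h3
    intro x hx y hy h1 h2
    by_cases a1 : x = x0
    · rw [a1] at h1 h2 ⊢
      exact hfirst y hy h1 h2
    by_cases a2 : x = neg x0
    · rw [a2, hnn] at h2
      rw [a2] at h1 ⊢
      exact hsecond y hy h2 h1
    by_cases b1 : y = x0
    · have h3 := hfirst x hx a1 a2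
      rw [b1]
      rw [hSs x x0, mul_comm (ε x) (ε x0)]
      exact h3
    by_cases b2 : y = neg x0
    · have h3 := hsecond x hx a1 a2
      rw [b2]
      rw [hSs x (neg x0), mul_comm (ε x) (ε (neg x0))]
      exact h3
    rw [ε2 x a1 a2, ε2 y b1 b2]
    have c1 : S x0 x ≠ 0 := hne x0 hx0 x hx a1 a2
    have c2 : S x0 y ≠ 0 := hne x0 hx0 y hy b1 b2
    have c3 : S x y ≠ 0 := hne x hx y hy h1 h2
    have c4 : 0 < τ * T x y := hT x hx y hy (mul_ne_zero (mul_ne_zero c1 c3) c2)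
    have c5 := mul_pos (top_sg_pos c1) (top_sg_pos c2)
    have e : top_sg (S x0 x) * S x0 x * (top_sg (S x0 y) * S x0 y) *
        (τ * (top_sg (S x0 x) * top_sg (S x0 y) * S x y)) =
        (top_sg (S x0 x) * top_sg (S x0 x)) * (top_sg (S x0 y) * top_sg (S x0 y)) *
          (τ * (S x0 x * S x y * S x0 y)) := by ring
    have c6 : 0 < top_sg (S x0 x) * S x0 x * (top_sg (S x0 y) * S x0 y) *
        (τ * (top_sg (S x0 x) * top_sg (S x0 y) * S x y)) := by
      rw [e, top_sg_sq, top_sg_sq, one_mul, one_mul]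
      exact c4
    exact (mul_pos_iff_of_pos_left c5).1 c6

end Pool.Agent.H817.PL
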