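import Pool.Agent.H817.PL.Stm2

/-!
Locally constant functions near infinity of a domain which has a line through every boundary point in
the complement (`S_topo`).
-/

set_option autoImplicit false

namespace Pool.Agent.H817.PL

open Set Filter Topology Module
open scoped Manifold ContDiff

section topo
variable {E : Type} [NormedAddCommGroup E] [NormedSpace ℝ E] [FiniteDimensional ℝ E]

theorem topo_cutoff {K V : Set E} (hK : IsCompact K) (hKV : K ⊆ interior V) :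
    ∃ χ : E → ℝ, ContDiff ℝ 2 χ ∧ (∀ᶠ x in 𝓝ˢ K, χ x = 1) ∧ ∀ x ∉ V, χ x = 0 := by
  obtain ⟨f, h1, h2, -⟩ := exists_contMDiffMap_one_nhds_of_subset_interior (n := 2) 𝓘(ℝ, E)
    hK.isClosed hKV
  exact ⟨f, f.contMDiff.contDiff, h1, h2⟩

theorem topo_fderiv_zero {f : E → ℝ} {z : E} {r : ℝ} (h : ∀ᶠ z' in 𝓝 z, f z' = r) :
    ∀ᶠ z' in 𝓝 z, fderiv ℝ f z' = 0 := by
  filter_upwards [h.eventually_nhds] with z' hz'
  have h1 : f =ᶠ[𝓝 z'] fun _ => r := hz'
  rw [h1.fderiv_eq]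
  simp

theorem topo_conn (h2 : 2 ≤ finrank ℝ E) (ρ : ℝ) (hρ : 0 ≤ ρ) :
    IsPreconnected (Metric.closedBall (0 : E) ρ)ᶜ := by
  have hr : 1 < Module.rank ℝ E := by
    rw [← finrank_eq_rank]
    exact_mod_cast h2
  have hP : IsPreconnected (Metric.sphere (0 : E) 1 ×ˢ Ioi ρ) :=
    (isConnected_sphere hr 0 zero_le_one).isPreconnected.prod isPreconnected_Ioi
  have hc : Continuous fun q : E × ℝ => q.2 • q.1 := by fun_prop
  have hI := hP.image (fun q : E × ℝ => q.2 • q.1) hc.continuousOn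
  have he : (fun q : E × ℝ => q.2 • q.1) '' (Metric.sphere (0 : E) 1 ×ˢ Ioi ρ) =
      (Metric.closedBall (0 : E) ρ)ᶜ := by
    ext x
    rw [mem_compl_iff, mem_closedBall_zero_iff, not_le]
    constructor
    · rintro ⟨⟨y, r⟩, ⟨hy, hr'⟩, rfl⟩
      have hy' : ‖y‖ = 1 := mem_sphere_zero_iff_norm.1 hy
      have hr0 : ρ < r := hr'
      show ρ < ‖r • y‖
      rw [norm_smul, hy', mul_one, Real.norm_eq_abs, abs_of_pos (hρ.trans_lt hr0)]
      exact hr0
    · intro hx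
      have hx0 : 0 < ‖x‖ := hρ.trans_lt hx
      refine ⟨(‖x‖⁻¹ • x, ‖x‖), ⟨?_, hx⟩, ?_⟩
      · rw [mem_sphere_zero_iff_norm, norm_smul, norm_inv, norm_norm, inv_mul_cancel₀ hx0.ne']
      · show ‖x‖ • ‖x‖⁻¹ • x = x
        rw [smul_smul, mul_inv_cancel₀ hx0.ne', one_smul]
  rwa [he] at hI

theorem topo_far (w d : E) (hd : d ≠ 0) (ρ : ℝ) (hρ : 0 ≤ ρ) : ∃ t : ℝ, ρ < ‖w + t • d‖ := by
  have hd0 : 0 < ‖d‖ := norm_pos_iff.2 hd
  refine ⟨(ρ + ‖w‖ + 1) / ‖d‖, ?_⟩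
  have h1 : ‖((ρ + ‖w‖ + 1) / ‖d‖) • d‖ = ρ + ‖w‖ + 1 := by
    rw [norm_smul, Real.norm_eq_abs, abs_of_nonneg (by positivity), div_mul_cancel₀ _ hd0.ne']
  have h2 : ‖((ρ + ‖w‖ + 1) / ‖d‖) • d‖ ≤ ‖w + ((ρ + ‖w‖ + 1) / ‖d‖) • d‖ + ‖w‖ := by
    have h3 := norm_sub_le (w + ((ρ + ‖w‖ + 1) / ‖d‖) • d) w
    rwa [add_sub_cancel_left] at h3
  linarith

end topo

theorem t_topo : S_topo := by
  classical
  intro E _ _ _ h2 Ω hΩo hΩc hline K hKΩ hK c hc
  obtain ⟨V, hV, hKV, hVΩ⟩ := exists_compact_between hK hΩo hKΩ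
  obtain ⟨χ, hχ, hχ1, hχ0⟩ := topo_cutoff hK hKV
  have hVc : IsClosed V := hV.isClosed
  have hd1 : ∀ z ∈ K, ∀ᶠ z' in 𝓝 z, χ z' = 1 := fun z hz =>
    hχ1.filter_mono (nhds_le_nhdsSet hz)
  have hd0 : ∀ z ∉ V, ∀ᶠ z' in 𝓝 z, χ z' = 0 := fun z hz => by
    filter_upwards [hVc.isOpen_compl.mem_nhds hz] with z' hz'
    exact hχ0 z' hz'
  obtain ⟨θ, hθ⟩ : ∃ θ : E → (E →L[ℝ] ℝ), ∀ z, θ z = if z ∈ Ω then c z • fderiv ℝ χ z else 0 :=
    ⟨_, fun _ => rfl⟩
  have hθz : ∀ z, fderiv ℝ χ z = 0 → θ z = 0 := by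
    intro z hz
    rw [hθ, hz, smul_zero, ite_self]
  have hloc : ∀ z, ∃ r : ℝ, ∀ᶠ z' in 𝓝 z, θ z' = r • fderiv ℝ χ z' := by
    intro z
    have hflat : (∀ᶠ z' in 𝓝 z, fderiv ℝ χ z' = 0) →
        ∃ r : ℝ, ∀ᶠ z' in 𝓝 z, θ z' = r • fderiv ℝ χ z' := fun h =>
      ⟨0, h.mono fun z' hz' => by rw [hθz z' hz', zero_smul]⟩
    by_cases hzV : z ∈ V
    · by_cases hzK : z ∈ K
      · exact hflat (topo_fderiv_zero (hd1 z hzK))
      · refine ⟨c z, ?_⟩
        filter_upwards [hc z ⟨hVΩ hzV, hzK⟩, hΩo.mem_nhds (hVΩ hzV)] with z' h1 h3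
        rw [hθ, if_pos h3, h1]
    · exact hflat (topo_fderiv_zero (hd0 z hzV))
  have hχ' : Differentiable ℝ (fderiv ℝ χ) :=
    (hχ.fderiv_right (m := 1) (by norm_num)).differentiable (by norm_num)
  have hθd : Differentiable ℝ θ := by
    intro z
    obtain ⟨r, hr⟩ := hloc z
    exact ((hχ' z).const_smul r).congr_of_eventuallyEq hr
  have hsym : ∀ z x y, fderiv ℝ θ z x y = fderiv ℝ θ z y x := by
    intro z x y
    obtain ⟨r, hr⟩ := hloc z
    have hr' : θ =ᶠ[𝓝 z] fun z' => r • fderiv ℝ χ z' := hr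
    rw [hr'.fderiv_eq, fderiv_fun_const_smul (hχ' z)]
    have hs : IsSymmSndFDerivAt ℝ χ z := hχ.contDiffAt.isSymmSndFDerivAt (by simp)
    simp only [ContinuousLinearMap.smul_apply]
    rw [hs x y]
  obtain ⟨h0, hh0⟩ := convex_univ.exists_forall_hasFDerivAt_of_fderiv_symmetric (𝕜 := ℝ)
    isOpen_univ hθd.differentiableOn (fun z _ x y => hsym z x y)
  have hθV : ∀ z ∉ V, θ z = 0 := fun z hz => hθz z (topo_fderiv_zero (hd0 z hz)).self_of_nhds
  obtain ⟨ρ', hρ'⟩ := hV.isBounded.subset_closedBall 0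
  obtain ⟨ρ, hρ, hρV⟩ : ∃ ρ : ℝ, 0 ≤ ρ ∧ V ⊆ Metric.closedBall (0 : E) ρ :=
    ⟨max ρ' 0, le_max_right _ _, hρ'.trans (Metric.closedBall_subset_closedBall (le_max_left _ _))⟩
  obtain ⟨κ, hκ⟩ := (Metric.isClosed_closedBall (x := (0 : E)) (ε := ρ)).isOpen_compl
    |>.exists_is_const_of_fderiv_eq_zero (𝕜 := ℝ) (f := h0) (topo_conn h2 ρ hρ)
      (fun z _ => (hh0 z (mem_univ z)).differentiableAt.differentiableWithinAt)
      (fun z hz => by
        rw [(hh0 z (mem_univ z)).fderiv, hθV z fun hzV => hz (hρV hzV)]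
        rfl)
  obtain ⟨h, hh⟩ : ∃ h : E → ℝ, ∀ z, h z = h0 z - κ := ⟨_, fun _ => rfl⟩
  have hhd : ∀ z, HasFDerivAt h (θ z) z := by
    intro z
    have h1 := (hh0 z (mem_univ z)).sub_const κ
    have h3 : h = fun z => h0 z - κ := funext hh
    rw [h3]
    exact h1
  have hout : ∀ z, ρ < ‖z‖ → h z = 0 := by
    intro z hz
    rw [hh, hκ z (by
      rw [mem_compl_iff, mem_closedBall_zero_iff, not_le]
      exact hz), sub_self]
  -- `h` vanishes on the boundary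
  have hbd : ∀ w ∈ frontier Ω, h w = 0 := by
    intro w hw
    obtain ⟨d, hd, hwd⟩ := hline w hw
    have hder : ∀ t : ℝ, HasDerivAt (fun t : ℝ => h (w + t • d)) 0 t := by
      intro t
      have h1 : HasDerivAt (fun t : ℝ => w + t • d) d t := by
        have h3 := ((hasDerivAt_id t).smul_const d).const_add w
        rwa [one_smul] at h3
      have h4 := (hhd (w + t • d)).comp_hasDerivAt t h1
      have h5 : θ (w + t • d) = 0 := by rw [hθ, if_neg (hwd t)]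
      rw [h5] at h4
      exact h4
    obtain ⟨t, ht⟩ := topo_far w d hd ρ hρ
    have h6 := is_const_of_deriv_eq_zero (f := fun t : ℝ => h (w + t • d))
      (fun t => (hder t).differentiableAt) (fun t => (hder t).deriv) 0 t
    simp only [zero_smul, add_zero] at h6
    rw [h6]
    exact hout _ ht
  have hflat : ∀ w ∉ V, ∀ᶠ z in 𝓝 w, h z = h w := by
    intro w hw
    obtain ⟨ε, hε, hb⟩ := Metric.isOpen_iff.1 hVc.isOpen_compl w hw
    filter_upwards [Metric.ball_mem_nhds w hε] with z hz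
    exact Metric.isOpen_ball.is_const_of_fderiv_eq_zero (𝕜 := ℝ) (f := h)
      (convex_ball w ε).isPreconnected
      (fun y _ => (hhd y).differentiableAt.differentiableWithinAt)
      (fun y hy => by
        rw [(hhd y).fderiv, hθV y (hb hy)]
        rfl) hz (Metric.mem_ball_self hε)
  obtain ⟨N, hN⟩ : ∃ N : Set E, N = {z | z ∈ Ω ∧ h z ≠ 0} := ⟨_, rfl⟩
  have hNB : N ⊆ Metric.closedBall (0 : E) ρ := by
    rw [hN]
    rintro z ⟨-, hz⟩
    rw [mem_closedBall_zero_iff]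
    by_contra hcon
    exact hz (hout z (not_le.1 hcon))
  have hNc : IsCompact (closure N) := (isCompact_closedBall (0 : E) ρ).of_isClosed_subset
    isClosed_closure (closure_minimal hNB Metric.isClosed_closedBall)
  have hNΩ : closure N ⊆ Ω := by
    intro w hw
    by_contra hwΩ
    have hsub : N ⊆ Ω := by
      rw [hN]
      exact fun z hz => hz.1
    have hfr : w ∈ frontier Ω := by
      refine ⟨closure_mono hsub hw, fun hint => hwΩ (interior_subset hint)⟩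
    have h1 := hflat w fun hwV => hwΩ (hVΩ hwV)
    rw [hbd w hfr] at h1
    obtain ⟨z, hz1, hz2⟩ := (mem_closure_iff_nhds.1 hw) _ h1
    rw [hN] at hz2
    exact hz2.2 hz1
  have hβ : ∀ z ∈ Ω, HasFDerivAt (fun z => h z + c z * (1 - χ z)) (0 : E →L[ℝ] ℝ) z := by
    intro z hz
    by_cases hzK : z ∈ K
    · have h1 : (fun z => h z + c z * (1 - χ z)) =ᶠ[𝓝 z] h := by
        filter_upwards [hd1 z hzK] with z' hz'
        rw [hz', sub_self, mul_zero, add_zero]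
      have h3 : θ z = 0 := hθz z (topo_fderiv_zero (hd1 z hzK)).self_of_nhds
      have h4 := hhd z
      rw [h3] at h4
      exact h4.congr_of_eventuallyEq h1
    · have h1 : (fun z => h z + c z * (1 - χ z)) =ᶠ[𝓝 z] fun z' => h z' + c z * (1 - χ z') := by
        filter_upwards [hc z ⟨hz, hzK⟩] with z' hz'
        rw [hz']
      have h3 : HasFDerivAt χ (fderiv ℝ χ z) z :=
        (hχ.differentiable (by norm_num) z).hasFDerivAt
      have h4 := (hhd z).add ((h3.const_sub 1).const_mul (c z))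
      have h5 : θ z + c z • -fderiv ℝ χ z = 0 := by
        rw [hθ, if_pos hz, smul_neg, add_neg_cancel]
      rw [h5] at h4
      exact h4.congr_of_eventuallyEq h1
  obtain ⟨c0, hc0⟩ := hΩo.exists_is_const_of_fderiv_eq_zero (𝕜 := ℝ)
    (f := fun z => h z + c z * (1 - χ z)) hΩc.isPreconnected
    (fun z hz => (hβ z hz).differentiableAt.differentiableWithinAt)
    (fun z hz => (hβ z hz).fderiv)
  refine ⟨closure N ∪ V, union_subset hNΩ hVΩ, hNc.union hV, c0, ?_⟩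
  rintro z ⟨hz, hzK'⟩
  have hzN : z ∉ closure N := fun hz' => hzK' (Or.inl hz')
  have hzV : z ∉ V := fun hz' => hzK' (Or.inr hz')
  have h1 : h z = 0 := by
    by_contra hcon
    apply hzN
    apply subset_closure
    rw [hN]
    exact ⟨hz, hcon⟩
  have h3 := hc0 z hz
  simp only [h1, hχ0 z hzV, sub_zero, mul_one, zero_add] at h3
  exact h3

end Pool.Agent.H817.PL
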