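import Pool.Agent.H817.PL.Main
import Pool.Agent.H817.PL.Basic
import Pool.Agent.H817.PL.Lim
import Pool.Agent.H817.PL.Dense
import Pool.Agent.H817.PL.Tan
import Pool.Agent.H817.PL.Fib
import Pool.Agent.H817.PL.Regl
import Pool.Agent.H817.PL.Acc
import Pool.Agent.H817.PL.Conn
import Pool.Agent.H817.PL.Corner
import Pool.Agent.H817.PL.Dual
import Pool.Agent.H817.PL.Nc
import Pool.Agent.H817.PL.Top
import Pool.Agent.H817.PL.Inv
import Pool.Agent.H817.PL.Topo
import Pool.Agent.H817.PL.Oneend
import Pool.Agent.H817.PL.Line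
import Pool.Agent.H817.PL.Prop
import Pool.Agent.H817.PL.Eqm
import Pool.Agent.H817.PL.Dimh

/-!
Domain quotients of the affine 3-space with parallel volume are complete: assembly.
-/

set_option autoImplicit false

namespace Pool.Agent.H817.PL

open Set Filter Topology Module Matrix
open Pool.Agent.W689.Mk

theorem f_basic : S_basic := t_basic
theorem f_dense : S_dense := t_dense t_gen t_basic t_lim
theorem f_fib : S_fib := t_fib t_gen t_basic f_dense t_tan
theorem f_regl : S_regl := t_regl t_gen t_basic t_lim f_fib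
theorem f_acc : S_acc := t_acc t_gen t_basic t_lim f_dense f_regl
theorem f_corner : S_corner := t_corner t_basic f_dense t_tan f_fib
theorem f_nc : S_nc := t_nc t_gen t_basic f_corner t_dual
theorem f_inv : S_inv := t_inv t_gen t_basic f_dense f_nc t_top

theorem tens_cont : Continuous tens := by
  unfold tens
  fun_prop

/-- one-ended positive groups preserve a properly convex cone -/
theorem cone {G : Type} [Group G] (ρ : G →* M3) (hρ : Pos ρ) (hG : OneEnd G) :
    ∃ (K : Subgroup G) (R : Set V3), K.FiniteIndex ∧ IsOpen R ∧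
      Convex ℝ R ∧ R.Nonempty ∧ (∀ v ∈ R, ∀ t : ℝ, 0 < t → t • v ∈ R) ∧
      (∀ g ∈ K, ∀ v ∈ R, ρ g *ᵥ v ∈ R) ∧ ∀ v ∈ closure R, -v ∈ closure R → v = 0 := by
  obtain ⟨Y, h1, h2, h3⟩ := f_acc ρ hρ
  exact f_inv ρ hρ (t_conn G _ (tens '' Lam ρ) Y hG ((t_basic ρ hρ).cpt.image tens_cont) h1 h2 h3)

theorem f_oneend : S_oneend := t_oneend t_line t_topo

section
variable {X Γ E : Type} [TopologicalSpace X] [T2Space X] [SecondCountableTopology X]
  [ConnectedSpace X] [Group Γ] [MulAction Γ X] [NormedAddCommGroup E]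
  [NormedSpace ℝ E] [FiniteDimensional ℝ E] {dev : X → E} {hol : Γ →* (E ≃ᵃ[ℝ] E)}

/-- **Domain quotients of dimension three are complete.** -/
theorem complete3 (D : AffData X Γ E dev hol) (hinj : Function.Injective dev)
    (h3 : finrank ℝ E = 3) : IsHomeomorph dev :=
  complete (fun ρ h1 h2 => cone ρ h1 h2) f_oneend (t_eqm t_prop) t_dimh D hinj h3

end

end Pool.Agent.H817.PL
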