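import Pool.Agent.H817.PL.Stm
import Pool.Agent.H817.PH.Star
import Pool.Agent.H817.PH.Pairs

/-!
Nonvanishing matrix coefficients.
-/

set_option autoImplicit false

namespace Pool.Agent.H817.PL

open Set Filter Topology Module Matrix

/-- the linear automorphisms of a representation by matrices -/
noncomputable def gen_L {G : Type} [Group G] (ρ : G →* M3) : G →* (V3 ≃ₗ[ℝ] V3) where
  toFun g := LinearEquiv.ofLinear (Matrix.mulVecLin (ρ g)) (Matrix.mulVecLin (ρ g⁻¹))
    (by
      rw [← Matrix.mulVecLin_mul, ← map_mul, mul_inv_cancel, map_one, Matrix.mulVecLin_one])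
    (by
      rw [← Matrix.mulVecLin_mul, ← map_mul, inv_mul_cancel, map_one, Matrix.mulVecLin_one])
  map_one' := by
    refine LinearEquiv.ext fun v => ?_
    show ρ 1 *ᵥ v = v
    rw [map_one, Matrix.one_mulVec]
  map_mul' g h := by
    refine LinearEquiv.ext fun v => ?_
    show ρ (g * h) *ᵥ v = ρ g *ᵥ (ρ h *ᵥ v)
    rw [map_mul, Matrix.mulVec_mulVec]

theorem gen_L_apply {G : Type} [Group G] (ρ : G →* M3) (g : G) (v : V3) :
    gen_L ρ g v = ρ g *ᵥ v := rfl

/-- the linear form of a covector -/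
noncomputable def gen_f (f : V3) : V3 →ₗ[ℝ] ℝ where
  toFun v := f ⬝ᵥ v
  map_add' u v := dotProduct_add f u v
  map_smul' t v := dotProduct_smul t f v

theorem gen_f_ne {f : V3} (hf : f ≠ 0) : gen_f f ≠ 0 := by
  intro h
  apply hf
  funext i
  have h1 : gen_f f (Pi.single i 1) = 0 := by rw [h]; rfl
  have h2 : f ⬝ᵥ (Pi.single i (1 : ℝ)) = 0 := h1
  rw [dotProduct_single, mul_one] at h2
  exact h2

theorem t_gen : S_gen := by
  intro G _ ρ hρ s t hs ht
  have hirr : PH.StrIrr (gen_L ρ) := fun K hK W hW => hρ.irr K hK W hW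
  obtain ⟨g, h1, h2⟩ := PH.t_pairs PH.t_star (gen_L ρ) hirr s.card t.card
    (fun i => gen_f (s.equivFin.symm i).1.2) (fun i => (s.equivFin.symm i).1.1)
    (fun i => gen_f (t.equivFin.symm i).1.2) (fun i => (t.equivFin.symm i).1.1)
    (fun i => gen_f_ne (hs _ (s.equivFin.symm i).2).2) (fun i => (hs _ (s.equivFin.symm i).2).1)
    (fun i => gen_f_ne (ht _ (t.equivFin.symm i).2).2) (fun i => (ht _ (t.equivFin.symm i).2).1)
  refine ⟨g, fun p hp => ?_, fun p hp => ?_⟩
  · have h := h1 (s.equivFin ⟨p, hp⟩)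
    rw [Equiv.symm_apply_apply] at h
    exact h
  · have h := h2 (t.equivFin ⟨p, hp⟩)
    rw [Equiv.symm_apply_apply] at h
    exact h

end Pool.Agent.H817.PL
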