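import Pool.Agent.H817.PL.Stm2

/-!
Boundary points of a divisible domain lie on lines in the complement (`S_line`).
-/

set_option autoImplicit false

namespace Pool.Agent.H817.PL

open Set Filter Topology Module Matrix

theorem line_lim {X : Type} [TopologicalSpace X] (U : Ultrafilter ℕ) {K : Set X} (hK : IsCompact K)
    (x : ℕ → X) (hx : ∀ᶠ n in (U : Filter ℕ), x n ∈ K) : ∃ a ∈ K, Tendsto x U (𝓝 a) := by
  obtain ⟨a, ha, h⟩ := isCompact_iff_ultrafilter_le_nhds.1 hK (U.map x) (by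
    rw [le_principal_iff]
    exact hx)
  exact ⟨a, ha, h⟩

section

variable {Γ E : Type} [Group Γ] [NormedAddCommGroup E] [NormedSpace ℝ E] [FiniteDimensional ℝ E]

theorem line_fin {hol : Γ →* (E ≃ᵃ[ℝ] E)} {Ω : Set E} (hD : Dom hol Ω) (U : Ultrafilter ℕ)
    (g : ℕ → Γ) (k x : ℕ → E) {k0 x0 y0 w : E} (hk : Tendsto k U (𝓝 k0)) (hk0 : k0 ∈ Ω)
    (hw : Tendsto (fun n => hol (g n) (k n)) U (𝓝 w)) (hw0 : w ∉ Ω)
    (hx : Tendsto x U (𝓝 x0)) (hx0 : x0 ∈ Ω)
    (hy : Tendsto (fun n => hol (g n) (x n)) U (𝓝 y0)) (hy0 : y0 ∈ Ω) : False := by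
  obtain ⟨K1, hc1, hi1, hs1⟩ := exists_compact_subset hD.op hx0
  obtain ⟨K2, hc2, hi2, hs2⟩ := exists_compact_subset hD.op hy0
  have hfin := hD.pd (K1 ∪ K2) (union_subset hs1 hs2) (hc1.union hc2)
  have h1 : ∀ᶠ n in (U : Filter ℕ), x n ∈ K1 := hx (mem_interior_iff_mem_nhds.1 hi1)
  have h2 : ∀ᶠ n in (U : Filter ℕ), hol (g n) (x n) ∈ K2 := hy (mem_interior_iff_mem_nhds.1 hi2)
  have h3 : ∀ᶠ n in (U : Filter ℕ), ∃ γ ∈ {g : Γ | ∃ z ∈ K1 ∪ K2, hol g z ∈ K1 ∪ K2}, g n = γ := by
    filter_upwards [h1, h2] with n a1 a2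
    exact ⟨g n, ⟨x n, Or.inl a1, Or.inr a2⟩, rfl⟩
  obtain ⟨γ, _, hγ⟩ := (Ultrafilter.eventually_exists_mem_iff hfin).1 h3
  have h4 : Tendsto (fun n => hol γ (k n)) U (𝓝 w) := by
    refine hw.congr' ?_
    filter_upwards [hγ] with n hn
    rw [hn]
  have hcont : Continuous (hol γ) := AffineEquiv.continuous_of_finiteDimensional (hol γ)
  have h5 : Tendsto (fun n => hol γ (k n)) U (𝓝 (hol γ k0)) := (hcont.tendsto k0).comp hk
  have h6 := tendsto_nhds_unique h4 h5
  exact hw0 (h6 ▸ hD.inv γ k0 hk0)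

omit [FiniteDimensional ℝ E] in
theorem line_aff (T : E ≃ᵃ[ℝ] E) (x y : E) : T x = T y + T.linear (x - y) := by
  have h := T.map_vadd y (x - y)
  rw [vadd_eq_add, vadd_eq_add, sub_add_cancel] at h
  rw [h, add_comm]

/-- the linear part as a continuous linear map -/
noncomputable def line_L (T : E ≃ᵃ[ℝ] E) : E →L[ℝ] E :=
  LinearMap.toContinuousLinearMap (T.linear : E →ₗ[ℝ] E)

theorem line_L_apply (T : E ≃ᵃ[ℝ] E) (x : E) : line_L T x = T.linear x := rfl

end

theorem line_clm {E : Type*} [NormedAddCommGroup E] [NormedSpace ℝ E] {F : Filter ℕ}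
    {T : ℕ → E →L[ℝ] E} {T0 : E →L[ℝ] E} {x : ℕ → E} {x0 : E} (hT : Tendsto T F (𝓝 T0))
    (hx : Tendsto x F (𝓝 x0)) : Tendsto (fun n => T n (x n)) F (𝓝 (T0 x0)) := by
  have h1 : Continuous fun p : (E →L[ℝ] E) × E => p.1 p.2 :=
    (isBoundedBilinearMap_apply (𝕜 := ℝ) (E := E) (F := E)).continuous
  exact (h1.tendsto (T0, x0)).comp (hT.prodMk_nhds hx)

theorem t_line : S_line := by
  intro Γ E _ _ _ _ hol Ω hD w hw
  have hwn : w ∉ Ω := fun h => by
    rw [hD.op.frontier_eq] at hw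
    exact hw.2 h
  have hwc : w ∈ closure Ω := frontier_subset_closure hw
  obtain ⟨z, hzΩ, hz⟩ := mem_closure_iff_seq_limit.1 hwc
  obtain ⟨K, hKΩ, hKc, hK⟩ := hD.cc
  have hex : ∀ n, ∃ (g : Γ) (k : E), k ∈ K ∧ hol g k = z n := fun n => by
    obtain ⟨g, k, hk, h⟩ := hK (z n) (hzΩ n)
    exact ⟨g, k, hk, h⟩
  choose g k hkK hgk using hex
  let U : Ultrafilter ℕ := Ultrafilter.of atTop
  have hU : (U : Filter ℕ) ≤ atTop := Ultrafilter.of_le atTop
  obtain ⟨k0, hk0K, hk⟩ := line_lim U hKc k (Eventually.of_forall hkK)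
  have hk0 : k0 ∈ Ω := hKΩ hk0K
  have hzU : Tendsto (fun n => hol (g n) (k n)) U (𝓝 w) := by
    simp only [hgk]
    exact hz.mono_left hU
  have hform : ∀ n x, hol (g n) x = hol (g n) (k n) + line_L (hol (g n)) (x - k n) := fun n x =>
    line_aff _ _ _
  by_cases hB : ∃ B : ℝ, ∀ᶠ n in (U : Filter ℕ), ‖line_L (hol (g n))‖ ≤ B
  · exfalso
    obtain ⟨B, hB⟩ := hB
    obtain ⟨L0, _, hL0⟩ := line_lim U (isCompact_closedBall (0 : E →L[ℝ] E) B)
      (fun n => line_L (hol (g n))) (by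
        filter_upwards [hB] with n hn
        rw [mem_closedBall_zero_iff]
        exact hn)
    have hL0' : Tendsto (fun n => line_L (hol (g n))) U (𝓝 L0) := hL0
    have hdet : |LinearMap.det (L0 : E →ₗ[ℝ] E)| = 1 := by
      have h1 : Tendsto (fun n => |(line_L (hol (g n))).det|) U (𝓝 |L0.det|) :=
        ((ContinuousLinearMap.continuous_det.tendsto L0).comp hL0).abs
      have h2 : ∀ n, |(line_L (hol (g n))).det| = 1 := fun n => hD.det (g n)
      simp only [h2] at h1
      exact (tendsto_nhds_unique h1 tendsto_const_nhds)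
    have hdet0 : LinearMap.det (L0 : E →ₗ[ℝ] E) ≠ 0 := fun h => by
      rw [h, abs_zero] at hdet
      exact zero_ne_one hdet
    let e : E ≃ₗ[ℝ] E := LinearMap.equivOfDetNeZero (L0 : E →ₗ[ℝ] E) hdet0
    have he : ∀ v, L0 (e.symm v) = v := fun v => e.apply_symm_apply v
    have hcont : Continuous fun v : E => k0 + e.symm (v - w) := by
      have h1 : Continuous e.symm := LinearMap.continuous_of_finiteDimensional (e.symm : E →ₗ[ℝ] E)
      exact continuous_const.add (h1.comp (continuous_id.sub continuous_const))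
    have h3 : Tendsto (fun m => k0 + e.symm (z m - w)) atTop (𝓝 k0) := by
      have h4 := (hcont.tendsto w).comp hz
      rw [sub_self, map_zero, add_zero] at h4
      exact h4
    obtain ⟨m, hm⟩ := (h3.eventually (hD.op.mem_nhds hk0)).exists
    have h5 : Tendsto (fun n => hol (g n) (k0 + e.symm (z m - w))) U (𝓝 (z m)) := by
      have h6 : Tendsto (fun n => hol (g n) (k n) +
          line_L (hol (g n)) (k0 + e.symm (z m - w) - k n)) U
          (𝓝 (w + L0 (k0 + e.symm (z m - w) - k0))) :=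
        hzU.add (line_clm hL0' (tendsto_const_nhds.sub hk))
      rw [add_sub_cancel_left, he, add_sub_cancel] at h6
      refine h6.congr fun n => ?_
      rw [← hform]
    exact line_fin hD U g k (fun _ => k0 + e.symm (z m - w)) hk hk0 hzU hwn tendsto_const_nhds hm h5
      (hzΩ m)
  · push Not at hB
    have hT : Tendsto (fun n => ‖line_L (hol (g n))‖) U atTop := by
      rw [tendsto_atTop]
      intro B
      have h1 := hB B
      filter_upwards [h1] with n hn
      exact hn.le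
    have hpos : ∀ᶠ n in (U : Filter ℕ), 0 < ‖line_L (hol (g n))‖ := hT.eventually_gt_atTop 0
    set P : ℕ → (E →L[ℝ] E) := fun n => ‖line_L (hol (g n))‖⁻¹ • line_L (hol (g n)) with hP
    have hP1 : ∀ᶠ n in (U : Filter ℕ), ‖P n‖ = 1 := by
      filter_upwards [hpos] with n hn
      rw [hP]
      simp only
      rw [norm_smul, norm_inv, norm_norm, inv_mul_cancel₀ hn.ne']
    obtain ⟨P0, _, hP0⟩ := line_lim U (isCompact_closedBall (0 : E →L[ℝ] E) 1) P (by
        filter_upwards [hP1] with n hn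
        rw [mem_closedBall_zero_iff]
        exact hn.le)
    have hP0' : Tendsto P U (𝓝 P0) := hP0
    have hP0n : ‖P0‖ = 1 := by
      have h1 : Tendsto (fun n => ‖P n‖) U (𝓝 ‖P0‖) := hP0.norm
      have h2 : Tendsto (fun n => ‖P n‖) U (𝓝 1) :=
        tendsto_const_nhds.congr' (by filter_upwards [hP1] with n hn; exact hn.symm)
      exact tendsto_nhds_unique h1 h2
    have hne : ∃ u, P0 u ≠ 0 := by
      by_contra hcon
      push Not at hcon
      have h1 : P0 = 0 := ContinuousLinearMap.ext hcon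
      rw [h1, norm_zero] at hP0n
      exact zero_ne_one hP0n
    obtain ⟨u, hu⟩ := hne
    refine ⟨P0 u, hu, fun t ht => ?_⟩
    have hinv : Tendsto (fun n => ‖line_L (hol (g n))‖⁻¹) U (𝓝 0) := hT.inv_tendsto_atTop
    have hx : Tendsto (fun n => k n + (t * ‖line_L (hol (g n))‖⁻¹) • u) U (𝓝 k0) := by
      have h1 := hk.add ((hinv.const_mul t).smul_const u)
      rw [mul_zero, zero_smul, add_zero] at h1
      exact h1
    have hy : Tendsto (fun n => hol (g n) (k n + (t * ‖line_L (hol (g n))‖⁻¹) • u)) U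
        (𝓝 (w + t • P0 u)) := by
      have h1 : Tendsto (fun n => hol (g n) (k n) + t • P n u) U (𝓝 (w + t • P0 u)) :=
        hzU.add ((line_clm hP0' tendsto_const_nhds).const_smul t)
      refine h1.congr fun n => ?_
      rw [hform n (k n + _), add_sub_cancel_left, map_smul, hP]
      simp only
      rw [_root_.smul_apply, smul_smul]
    exact line_fin hD U g k _ hk hk0 hzU hwn hx hk0 hy ht

end Pool.Agent.H817.PL
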