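import Pool.Agent.H817.PL.Stm2
import Pool.Agent.H817.RB.Plane

/-!
The linear holonomy of a closed affine 3-manifold with parallel volume does not preserve a properly
convex cone, if it is discrete.
-/

set_option autoImplicit false

namespace Pool.Agent.H817.PL

open Set Filter Topology Module MeasureTheory
open Pool.Agent.W689.Mk Pool.Agent.Q138.Mk

section
variable {X Γ E : Type} [TopologicalSpace X] [T2Space X] [SecondCountableTopology X]
  [ConnectedSpace X] [Group Γ] [MulAction Γ X] [NormedAddCommGroup E]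
  [NormedSpace ℝ E] [FiniteDimensional ℝ E] {dev : X → E} {hol : Γ →* (E ≃ᵃ[ℝ] E)}

theorem npc (heqm : S_eqm) (hdimh : S_dimh) (D : AffData X Γ E dev hol) (h3 : finrank ℝ E = 3)
    (R : Set E) (hR : Icone hol R) : False := by
  classical
  let _ : MeasurableSpace E := borel E
  have _ : BorelSpace E := ⟨rfl⟩
  obtain ⟨ρ, hρ⟩ := exists_wt D
  obtain ⟨c0, hc0⟩ := hR.ne
  obtain ⟨c, hc⟩ : ∃ c : X → E, c = av ρ (fun γ : Γ => lin hol γ⁻¹ c0) := ⟨_, rfl⟩
  have hcL : LL dev c := by rw [hc]; exact av_ll D hρ _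
  have hcc := hcL.continuous D.loc.continuous
  have hcR : ∀ x, c x ∈ R := by
    intro x; rw [hc]; exact av_mem hρ hR.cv (fun γ => hR.inv _ _ hc0) x
  have hce : ∀ (γ : Γ) x, c (γ • x) = lin hol γ (c x) := by
    intro γ x; rw [hc]; exact av_lin hρ c0 γ x
  obtain ⟨K0, hK0, hcov⟩ := D.cc
  obtain ⟨C, f, hKC, hCR, hCi, hCh, hfe, hfl⟩ := heqm hol R hR (c '' K0)
    (by rintro _ ⟨x, -, rfl⟩; exact hcR x) (hK0.image hcc)
  have hcC : ∀ x, c x ∈ C := by
    intro x
    obtain ⟨γ, k, hk, rfl⟩ := hcov x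
    rw [hce]
    exact hCi γ _ (hKC ⟨k, hk, rfl⟩)
  have hFL : LL dev (fun x => f (c x)) := by
    refine hcL.comp D.loc.continuous fun x => ?_
    obtain ⟨V, hV, B, hB⟩ := hfl (c x) (hcC x)
    refine ⟨V, hV, max B 0, le_max_right _ _, fun y hy z hz => (hB _ hy _ hz).trans ?_⟩
    exact mul_le_mul_of_nonneg_right (le_max_left _ _) (norm_nonneg _)
  have hpos := range_pos (μH[finrank ℝ E] : Measure E) D hFL fun γ x => by
    rw [hce, hfe γ _ (hcC x)]
  apply hpos
  refine measure_mono_null ?_ (hdimh h3 R hR.op hR.cv hR.sal hR.sm C hCR f hCh hfl)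
  rintro _ ⟨x, rfl⟩
  exact ⟨c x, hcC x, rfl⟩

end

end Pool.Agent.H817.PL
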