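import Pool.Agent.H817.PH.Main
import Pool.Agent.H817.PL.Npc
import Pool.Agent.H817.PL.Gen

/-!
Domain quotients of the affine 3-space with parallel volume are complete.
-/

set_option autoImplicit false
set_option linter.unusedSectionVars false

namespace Pool.Agent.H817.PL

open Set Filter Topology Module Matrix
open Pool.Agent.W689.Mk

section
variable {X Γ E : Type} [TopologicalSpace X] [T2Space X] [SecondCountableTopology X]
  [ConnectedSpace X] [Group Γ] [MulAction Γ X] [NormedAddCommGroup E]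
  [NormedSpace ℝ E] [FiniteDimensional ℝ E] {dev : X → E} {hol : Γ →* (E ≃ᵃ[ℝ] E)}

/-- the domain -/
theorem dom_of (D : AffData X Γ E dev hol) (hinj : Function.Injective dev) :
    Dom hol (Set.range dev) := by
  have hoe : IsOpenEmbedding dev := D.loc.isOpenEmbedding_of_injective hinj
  refine ⟨hoe.isOpen_range, isConnected_range D.loc.continuous, ?_, D.unimod, ?_, ?_⟩
  · rintro g _ ⟨x, rfl⟩
    exact ⟨g • x, D.equi g x⟩
  · intro K hK hc
    have h1 : IsCompact (dev ⁻¹' K) := hoe.isInducing.isCompact_preimage_iff hK |>.2 hc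
    refine (D.pd _ h1).subset ?_
    rintro g ⟨z, hz, hgz⟩
    obtain ⟨x, rfl⟩ := hK hz
    refine ⟨x, hz, ?_⟩
    show dev (g • x) ∈ K
    rw [D.equi]
    exact hgz
  · obtain ⟨K, hK, h⟩ := D.cc
    refine ⟨dev '' K, image_subset_range _ _, hK.image D.loc.continuous, ?_⟩
    rintro _ ⟨x, rfl⟩
    obtain ⟨g, k, hk, rfl⟩ := h x
    exact ⟨g, dev k, ⟨k, hk, rfl⟩, (D.equi g k).symm⟩

/-- the transformations preserving the orientation -/
noncomputable def ori (hol : Γ →* (E ≃ᵃ[ℝ] E)) : Subgroup Γ :=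
  (LinearEquiv.det.comp (PH.L hol)).ker

theorem ori_det (g : ori hol) : LinearMap.det (PH.L hol g.1 : E →ₗ[ℝ] E) = 1 := by
  have h1 : LinearEquiv.det (PH.L hol g.1) = 1 := g.2
  have h2 := congrArg (fun u : ℝˣ => (u : ℝ)) h1
  rw [← LinearEquiv.coe_det]
  exact h2

theorem ori_fin (D : AffData X Γ E dev hol) : (ori hol).FiniteIndex := by
  have h : (Set.range (LinearEquiv.det.comp (PH.L hol))).Finite := by
    refine Set.Finite.subset (Set.toFinite ({1, -1} : Set ℝˣ)) ?_
    rintro _ ⟨g, rfl⟩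
    have h1 := D.unimod g
    have h2 : ((LinearEquiv.det (PH.L hol g) : ℝˣ) : ℝ) = LinearMap.det ((hol g).linear : E →ₗ[ℝ] E) :=
      LinearEquiv.coe_det _
    rw [← h2] at h1
    rcases (abs_eq (by norm_num : (0 : ℝ) ≤ 1)).1 h1 with h3 | h3
    · left
      exact Units.ext h3
    · right
      exact Units.ext h3
  have : Finite (LinearEquiv.det.comp (PH.L hol)).range := h.to_subtype
  exact Subgroup.finiteIndex_ker _

/-- the holonomy group is positive -/
theorem pos_of (D : AffData X Γ E dev hol) (hinj : Function.Injective dev)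
    (h3 : finrank ℝ E = 3) (hc : ¬ IsHomeomorph dev)
    (hdet : ∀ g, LinearMap.det (PH.L hol g : E →ₗ[ℝ] E) = 1) :
    ∃ (ρ : Γ →* M3) (e : Basis (Fin 3) ℝ E), Pos ρ ∧
      ∀ g v, ρ g *ᵥ v = e.equivFun (PH.L hol g (e.equivFun.symm v)) := by
  have hcore : PH.S_core2 := PH.t_core2 PH.t_dyn PH.t_comp PH.t_comp' PH.t_nonconst PH.t_semi
  obtain ⟨γ, e0, l, hr, h1⟩ := PH.exists_regular D hinj h3 hc
  obtain ⟨-, hpos, -⟩ := PH.regular hcore D hinj h3 hc γ e0 l hr h1
  obtain ⟨e, he⟩ : ∃ e : Basis (Fin 3) ℝ E, e = e0.reindex Fin.revPerm := ⟨_, rfl⟩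
  have he0 : ∀ i, e i = e0 (Fin.rev i) := by
    intro i
    rw [he, Basis.reindex_apply]
    rfl
  have hec : ∀ i v, e.coord i v = e0.coord (Fin.rev i) v := by
    intro i v
    rw [he, Basis.coord_apply, Basis.coord_apply, Basis.repr_reindex_apply]
    rfl
  obtain ⟨ρ, hρ⟩ : ∃ ρ : Γ →* M3, ∀ g, ρ g = LinearMap.toMatrix e e (PH.L hol g : E →ₗ[ℝ] E) := by
    refine ⟨{ toFun := fun g => LinearMap.toMatrix e e (PH.L hol g : E →ₗ[ℝ] E)
              map_one' := ?_
              map_mul' := ?_ }, fun g => rfl⟩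
    · rw [map_one]
      exact LinearMap.toMatrix_one e
    · intro g h
      rw [map_mul]
      exact LinearMap.toMatrix_mul e _ _
  have hent : ∀ g i j, ρ g i j = e.coord i (PH.L hol g (e j)) := by
    intro g i j
    rw [hρ, LinearMap.toMatrix_apply]
    rfl
  have hvec : ∀ g v, ρ g *ᵥ v = e.equivFun (PH.L hol g (e.equivFun.symm v)) := by
    intro g v
    have h := LinearMap.toMatrix_mulVec_repr e e (PH.L hol g : E →ₗ[ℝ] E) (e.equivFun.symm v)
    rw [← hρ] at h
    have h2 : ⇑(e.repr (e.equivFun.symm v)) = v := e.equivFun.apply_symm_apply v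
    rw [h2] at h
    exact h
  refine ⟨ρ, e, ⟨?_, ?_, ?_, ?_, ?_⟩, hvec⟩
  · intro g
    rw [hρ, LinearMap.det_toMatrix, hdet]
  · intro K hK W hW
    have hirr := PH.strIrr D hinj h3 hc K hK (W.comap (e.equivFun : E →ₗ[ℝ] V3)) ?_
    · rcases hirr with h | h
      · left
        rw [eq_bot_iff]
        intro w hw
        have h4 : e.equivFun.symm w ∈ W.comap (e.equivFun : E →ₗ[ℝ] V3) := by
          show e.equivFun (e.equivFun.symm w) ∈ W
          rw [LinearEquiv.apply_symm_apply]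
          exact hw
        rw [h, Submodule.mem_bot] at h4
        rw [Submodule.mem_bot]
        exact e.equivFun.symm.map_eq_zero_iff.1 h4
      · right
        rw [eq_top_iff]
        intro w _
        have h4 : e.equivFun.symm w ∈ W.comap (e.equivFun : E →ₗ[ℝ] V3) := by
          rw [h]
          exact Submodule.mem_top
        have h5 : e.equivFun (e.equivFun.symm w) ∈ W := h4
        rwa [LinearEquiv.apply_symm_apply] at h5
    · intro g hg w hw
      show e.equivFun (PH.L hol g w) ∈ W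
      have h4 := hW g hg (e.equivFun w) hw
      rw [hvec, LinearEquiv.symm_apply_apply] at h4
      exact h4
  · intro R
    have hcont : ∀ i, ∃ c : ℝ, ∀ v : E, |e.coord i v| ≤ c * ‖v‖ := by
      intro i
      refine ⟨‖LinearMap.toContinuousLinearMap (e.coord i)‖, fun v => ?_⟩
      exact (LinearMap.toContinuousLinearMap (e.coord i)).le_opNorm v
    choose c hc' using hcont
    obtain ⟨M, hM⟩ : ∃ M : ℝ, M = ∑ i, ∑ j, |R| * ‖e i‖ * |c j| := ⟨_, rfl⟩
    have hfin : {γ : Γ | ∀ v, ‖lin hol γ v‖ ≤ M * ‖v‖}.Finite := by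
      by_contra hcon
      exact hc (RB.proper_or_complete D hinj h3 M hcon)
    refine hfin.subset fun g hg v => ?_
    have h4 : lin hol g v = ∑ i, ∑ j, (ρ g i j * e.coord j v) • e i := by
      have h5 : lin hol g v = ∑ i, e.coord i (PH.L hol g v) • e i := (e.sum_repr _).symm
      rw [h5]
      refine Finset.sum_congr rfl fun i _ => ?_
      rw [← Finset.sum_smul]
      congr 1
      have h6 : PH.L hol g v = ∑ j, e.coord j v • PH.L hol g (e j) := by
        conv_lhs => rw [← e.sum_repr v]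
        rw [map_sum]
        refine Finset.sum_congr rfl fun j _ => ?_
        rw [map_smul]
        rfl
      rw [h6, map_sum]
      refine Finset.sum_congr rfl fun j _ => ?_
      rw [map_smul, hent, smul_eq_mul, mul_comm]
    rw [h4, hM, Finset.sum_mul]
    refine (norm_sum_le _ _).trans (Finset.sum_le_sum fun i _ => ?_)
    rw [Finset.sum_mul]
    refine (norm_sum_le _ _).trans (Finset.sum_le_sum fun j _ => ?_)
    rw [norm_smul, Real.norm_eq_abs, abs_mul]
    have h7 : |ρ g i j| ≤ |R| := (hg i j).trans (le_abs_self R)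
    have h8 : |e.coord j v| ≤ |c j| * ‖v‖ :=
      (hc' j v).trans (mul_le_mul_of_nonneg_right (le_abs_self _) (norm_nonneg _))
    calc |ρ g i j| * |e.coord j v| * ‖e i‖ ≤ |R| * (|c j| * ‖v‖) * ‖e i‖ := by gcongr
      _ = |R| * ‖e i‖ * |c j| * ‖v‖ := by ring
  · refine ⟨γ⁻¹, fun i => (l (Fin.rev i))⁻¹, ?_, ?_, ?_⟩
    · have hγ : ∀ i, PH.L hol γ⁻¹ (e0 i) = (l i)⁻¹ • e0 i := by
        intro i
        have h4 : PH.L hol γ⁻¹ (PH.L hol γ (e0 i)) = e0 i := by
          rw [← LinearEquiv.mul_apply, ← map_mul, inv_mul_cancel, map_one]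
          rfl
        rw [hr.eig i, map_smul] at h4
        have h5 : l i ≠ 0 := hr.ne i
        calc PH.L hol γ⁻¹ (e0 i) = (l i)⁻¹ • l i • PH.L hol γ⁻¹ (e0 i) := by
              rw [smul_smul, inv_mul_cancel₀ h5, one_smul]
          _ = (l i)⁻¹ • e0 i := by rw [h4]
      ext i j
      rw [hent, he0, hγ, map_smul, smul_eq_mul, hec, Matrix.diagonal_apply, Basis.coord_apply,
        e0.repr_self, Finsupp.single_apply]
      by_cases hij : i = j
      · rw [if_pos hij, hij, if_pos rfl, mul_one]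
      · rw [if_neg hij, if_neg fun h => hij (Fin.rev_injective h).symm, mul_zero]
    · show |(l (Fin.rev 1))⁻¹| < |(l (Fin.rev 0))⁻¹|
      have e1 : Fin.rev (1 : Fin 3) = 1 := rfl
      have e2 : Fin.rev (0 : Fin 3) = 2 := rfl
      rw [e1, e2, abs_inv, abs_inv]
      exact inv_strictAnti₀ (abs_pos.2 (hr.ne 2)) hr.h1
    · show |(l (Fin.rev 2))⁻¹| < |(l (Fin.rev 1))⁻¹|
      have e1 : Fin.rev (1 : Fin 3) = 1 := rfl
      have e2 : Fin.rev (2 : Fin 3) = 0 := rfl
      rw [e1, e2, abs_inv, abs_inv]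
      exact inv_strictAnti₀ (abs_pos.2 (hr.ne 1)) hr.h0
  · intro g
    have h4 := hpos g
    rw [hdet, one_mul] at h4
    have e1 : Fin.rev (0 : Fin 3) = 2 := rfl
    have e2 : Fin.rev (2 : Fin 3) = 0 := rfl
    rw [hent, hent, hec, hec, he0, e1, e2]
    exact h4

/-- **Main theorem**: domain quotients of dimension three are complete. -/
theorem complete (hinv : ∀ {G : Type} [Group G] (ρ : G →* M3), Pos ρ → OneEnd G →
      ∃ (K : Subgroup G) (R : Set V3), K.FiniteIndex ∧ IsOpen R ∧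
      Convex ℝ R ∧ R.Nonempty ∧ (∀ v ∈ R, ∀ t : ℝ, 0 < t → t • v ∈ R) ∧
      (∀ g ∈ K, ∀ v ∈ R, ρ g *ᵥ v ∈ R) ∧ ∀ v ∈ closure R, -v ∈ closure R → v = 0)
    (hone : S_oneend) (heqm : S_eqm) (hdimh : S_dimh)
    (D : AffData X Γ E dev hol) (hinj : Function.Injective dev)
    (h3 : finrank ℝ E = 3) : IsHomeomorph dev := by
  by_contra hc
  have hfin := ori_fin D
  have DK := Pool.Agent.Y449.MK.restrict D (ori hol) hfin
  obtain ⟨ρ, e, hρ, hvec⟩ := pos_of DK hinj h3 hc fun g => ori_det g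
  have hoe : OneEnd (ori hol) := hone (by omega) _ _ (dom_of DK hinj)
  obtain ⟨K, R, hK, hop, hcv, hne, hsm, hRi, hsal⟩ := hinv ρ hρ hoe
  have DL := Pool.Agent.Y449.MK.restrict DK K hK
  have hcont : Continuous e.equivFun :=
    (e.equivFun : E →ₗ[ℝ] V3).continuous_of_finiteDimensional
  have hcont' : Continuous e.equivFun.symm :=
    (e.equivFun.symm : V3 →ₗ[ℝ] E).continuous_of_finiteDimensional
  refine npc heqm hdimh DL h3 (e.equivFun ⁻¹' R) ⟨hop.preimage hcont, ?_, ?_, ?_, ?_, ?_, DL.unimod, ?_⟩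
  · exact hcv.linear_preimage (e.equivFun : E →ₗ[ℝ] V3)
  · obtain ⟨v, hv⟩ := hne
    exact ⟨e.equivFun.symm v, by
      show e.equivFun (e.equivFun.symm v) ∈ R
      rwa [LinearEquiv.apply_symm_apply]⟩
  · intro v hv t ht
    show e.equivFun (t • v) ∈ R
    rw [map_smul]
    exact hsm _ hv t ht
  · intro g v hv
    have h4 := hRi g.1 g.2 (e.equivFun v) hv
    rw [hvec, LinearEquiv.symm_apply_apply] at h4
    exact h4
  · intro v hv hv'
    have hcl : ∀ w ∈ closure (e.equivFun ⁻¹' R), e.equivFun w ∈ closure R := by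
      intro w hw
      exact closure_mono (image_preimage_subset _ _) (image_closure_subset_closure_image hcont ⟨w, hw, rfl⟩)
    have h4 := hsal _ (hcl v hv) (by
      rw [← map_neg]
      exact hcl _ hv')
    exact e.equivFun.map_eq_zero_iff.1 h4
  · intro B
    by_contra hcon
    exact hc (RB.proper_or_complete DL hinj h3 B hcon)

end

end Pool.Agent.H817.PL
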