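import Pool.Agent.H817.PL.Stm3

set_option autoImplicit false

namespace Pool.Agent.H817.PL

open Set Filter Topology Module

lemma scal_root (P : Polynomial ℝ) (hm : P.Monic) (hd : P.natDegree = 3) :
    ∃ x, P.IsRoot x := by
  have hP0 : P ≠ 0 := hm.ne_zero
  have hdeg : 0 < P.degree := by
    rw [Polynomial.degree_eq_natDegree hP0, hd]; norm_num
  have h1 : Tendsto (fun x => P.eval x) atTop atTop :=
    P.tendsto_atTop_of_leadingCoeff_nonneg hdeg (by rw [hm.leadingCoeff]; norm_num)
  have hnd : (-(P.comp (-Polynomial.X))).natDegree = 3 := by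
    rw [Polynomial.natDegree_neg, Polynomial.natDegree_comp, Polynomial.natDegree_neg,
      Polynomial.natDegree_X, hd]
  have hlc : (-(P.comp (-Polynomial.X))).leadingCoeff = 1 := by
    rw [Polynomial.leadingCoeff_neg, Polynomial.comp_neg_X_leadingCoeff_eq, hd, hm.leadingCoeff]
    norm_num
  have hdeg2 : 0 < (-(P.comp (-Polynomial.X))).degree := by
    apply Polynomial.natDegree_pos_iff_degree_pos.1
    rw [hnd]; norm_num
  have h2 : Tendsto (fun x => (-(P.comp (-Polynomial.X))).eval x) atTop atTop :=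
    Polynomial.tendsto_atTop_of_leadingCoeff_nonneg _ hdeg2 (by rw [hlc]; norm_num)
  obtain ⟨a, ha⟩ := (h1.eventually_ge_atTop 0).exists
  obtain ⟨b, hb⟩ := (h2.eventually_ge_atTop 0).exists
  have hb' : P.eval (-b) ≤ 0 := by
    simpa using hb
  obtain ⟨x, hx⟩ := mem_range_of_exists_le_of_exists_ge P.continuous ⟨-b, hb'⟩ ⟨a, ha⟩
  exact ⟨x, hx⟩

lemma scal_eig {E : Type} [AddCommGroup E] [Module ℝ E] [FiniteDimensional ℝ E]
    (hE : finrank ℝ E = 3) (T : Module.End ℝ E) : ∃ c : ℝ, T.HasEigenvalue c := by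
  obtain ⟨x, hx⟩ := scal_root T.charpoly T.charpoly_monic
    (by rw [LinearMap.charpoly_natDegree, hE])
  exact ⟨x, (Module.End.hasEigenvalue_iff_isRoot_charpoly T x).2 hx⟩

/-- the joint eigenspace -/
def scal_V {N E : Type} [AddCommGroup E] [Module ℝ E] (f : N → Module.End ℝ E) (χ : N → ℝ) :
    Submodule ℝ E := ⨅ n, (f n).eigenspace (χ n)

lemma scal_mem {N E : Type} [AddCommGroup E] [Module ℝ E] (f : N → Module.End ℝ E) (χ : N → ℝ)
    (v : E) : v ∈ scal_V f χ ↔ ∀ n, f n v = χ n • v := by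
  unfold scal_V
  simp only [Submodule.mem_iInf, Module.End.mem_eigenspace_iff]

lemma scal_line {N E : Type} [AddCommGroup E] [Module ℝ E] (f : N → Module.End ℝ E)
    (W : Submodule ℝ E) (hW : finrank ℝ W = 1) (hinv : ∀ n, ∀ w ∈ W, f n w ∈ W) :
    ∃ χ, scal_V f χ ≠ ⊥ := by
  have : Nontrivial W := Module.nontrivial_of_finrank_pos (R := ℝ) (by rw [hW]; norm_num)
  obtain ⟨w, hw⟩ := exists_ne (0 : W)
  have key := (finrank_eq_one_iff_of_nonzero' w hw).1 hW
  have : ∀ n, ∃ c : ℝ, f n w = c • (w : E) := by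
    intro n
    obtain ⟨c, hc⟩ := key ⟨f n w, hinv n w w.2⟩
    exact ⟨c, by have := congrArg Subtype.val hc; simpa using this.symm⟩
  choose χ hχ using this
  refine ⟨χ, fun h => hw ?_⟩
  have : (w : E) ∈ scal_V f χ := (scal_mem f χ w).2 hχ
  rw [h, Submodule.mem_bot] at this
  exact Subtype.ext this

lemma scal_exists {N E : Type} [AddCommGroup E] [Module ℝ E] [FiniteDimensional ℝ E]
    (hE : finrank ℝ E = 3) (f : N → Module.End ℝ E) (hcom : ∀ a b v, f a (f b v) = f b (f a v)) :
    ∃ χ, scal_V f χ ≠ ⊥ := by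
  have hnt : Nontrivial E := Module.nontrivial_of_finrank_pos (R := ℝ) (by rw [hE]; norm_num)
  by_cases hall : ∀ n, ∃ c : ℝ, ∀ v, f n v = c • v
  · choose χ hχ using hall
    refine ⟨χ, fun h => ?_⟩
    obtain ⟨w, hw⟩ := exists_ne (0 : E)
    have : w ∈ scal_V f χ := (scal_mem f χ w).2 (fun n => hχ n w)
    rw [h, Submodule.mem_bot] at this
    exact hw this
  · push Not at hall
    obtain ⟨n0, hn0⟩ := hall
    obtain ⟨c, hc⟩ := scal_eig hE (f n0)
    set S : Module.End ℝ E := f n0 - algebraMap ℝ (Module.End ℝ E) c with hS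
    have hSv : ∀ v, S v = f n0 v - c • v := by
      intro v
      simp [hS, Module.algebraMap_end_apply]
    have hrn := S.finrank_range_add_finrank_ker
    rw [hE] at hrn
    have hk1 : 1 ≤ finrank ℝ (LinearMap.ker S) := by
      obtain ⟨v, hv⟩ := hc.exists_hasEigenvector
      have hvm : v ∈ LinearMap.ker S := by
        rw [LinearMap.mem_ker, hSv, hv.apply_eq_smul, sub_self]
      have : Nontrivial (LinearMap.ker S) := ⟨⟨⟨v, hvm⟩, 0, fun h => hv.2 (congrArg Subtype.val h)⟩⟩
      exact Module.finrank_pos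
    have hr1 : 1 ≤ finrank ℝ (LinearMap.range S) := by
      obtain ⟨v, hv⟩ := hn0 c
      have hvm : S v ∈ LinearMap.range S := ⟨v, rfl⟩
      have hne : S v ≠ 0 := by rw [hSv, sub_ne_zero]; exact hv
      have : Nontrivial (LinearMap.range S) :=
        ⟨⟨⟨S v, hvm⟩, 0, fun h => hne (congrArg Subtype.val h)⟩⟩
      exact Module.finrank_pos
    have hcS : ∀ n v, f n (S v) = S (f n v) := by
      intro n v
      rw [hSv, hSv, map_sub, map_smul, hcom]
    rcases (by omega : finrank ℝ (LinearMap.ker S) = 1 ∨ finrank ℝ (LinearMap.range S) = 1)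
      with h | h
    · refine scal_line f _ h ?_
      intro n w hw
      rw [LinearMap.mem_ker] at hw ⊢
      rw [← hcS, hw, map_zero]
    · refine scal_line f _ h ?_
      rintro n w ⟨v, rfl⟩
      exact ⟨f n v, (hcS n v).symm⟩

lemma scal_indep {N E : Type} [AddCommGroup E] [Module ℝ E] (f : N → Module.End ℝ E)
    (hcom : ∀ a b v, f a (f b v) = f b (f a v)) : iSupIndep (scal_V f) := by
  have h := Module.End.independent_iInf_maxGenEigenspace_of_forall_mapsTo f (fun i j φ =>
    Module.End.mapsTo_maxGenEigenspace_of_comm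
      (show Commute (f j) (f i) from LinearMap.ext (fun v => hcom j i v)) φ)
  refine h.mono (fun χ => ?_)
  unfold scal_V
  exact iInf_mono (fun n => Module.End.eigenspace_le_maxGenEigenspace)

theorem t_scal : S_scal := by
  intro Γ E _ _ _ _ hE L hL N hN hcomm
  have hN' := hN
  let f : N → Module.End ℝ E := fun n => ((L n : E ≃ₗ[ℝ] E) : E →ₗ[ℝ] E)
  have hf : ∀ n v, f n v = L n v := fun n v => rfl
  have hcom : ∀ a b v, f a (f b v) = f b (f a v) := fun a b v => hcomm a a.2 b b.2 v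
  have hfin := Submodule.finite_ne_bot_of_iSupIndep (scal_indep f hcom)
  obtain ⟨χ, hχ⟩ := scal_exists hE f hcom
  let act : MulAction Γ (N → ℝ) :=
    { smul := fun g φ n => φ ((MulAut.conjNormal g⁻¹ : MulAut N) n)
      one_smul := fun φ => by
        funext n
        show φ ((MulAut.conjNormal (1 : Γ)⁻¹ : MulAut N) n) = φ n
        rw [inv_one, map_one]; rfl
      mul_smul := fun g h φ => by
        funext n
        show φ ((MulAut.conjNormal (g * h)⁻¹ : MulAut N) n)
          = φ ((MulAut.conjNormal h⁻¹ : MulAut N) ((MulAut.conjNormal g⁻¹ : MulAut N) n))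
        rw [mul_inv_rev, map_mul]; rfl }
  have hact : ∀ (g : Γ) (φ : N → ℝ) (n : N), (g • φ) n = φ ((MulAut.conjNormal g⁻¹ : MulAut N) n) :=
    fun g φ n => rfl
  have hmap : ∀ (g : Γ) (φ : N → ℝ) (v : E), v ∈ scal_V f φ → L g v ∈ scal_V f (g • φ) := by
    intro g φ v hv
    rw [scal_mem] at hv ⊢
    intro n
    have h1 := hv ((MulAut.conjNormal g⁻¹ : MulAut N) n)
    rw [hf, MulAut.conjNormal_apply] at h1
    rw [hact, hf, ← map_smul, ← h1]
    simp only [map_mul, map_inv, inv_inv, LinearEquiv.mul_apply]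
    exact (LinearEquiv.apply_symm_apply (L g) _).symm
  have horb : (MulAction.orbit Γ χ).Finite := by
    refine hfin.subset ?_
    rintro _ ⟨g, rfl⟩
    show scal_V f (g • χ) ≠ ⊥
    rw [Submodule.ne_bot_iff] at hχ ⊢
    obtain ⟨v, hv, hv0⟩ := hχ
    refine ⟨L g v, hmap g χ v hv, ?_⟩
    rw [Ne, LinearEquiv.map_eq_zero_iff]
    exact hv0
  have hK : (MulAction.stabilizer Γ χ).FiniteIndex := by
    refine ⟨?_⟩
    rw [MulAction.index_stabilizer]
    rw [Ne, Set.ncard_eq_zero horb]
    exact (MulAction.nonempty_orbit χ).ne_empty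
  rcases hL _ hK (scal_V f χ) (fun g hg w hw => by
    have := hmap g χ w hw
    rwa [MulAction.mem_stabilizer_iff.1 hg] at this) with h | h
  · exact absurd h hχ
  · intro n hn
    refine ⟨χ ⟨n, hn⟩, fun v => ?_⟩
    have : v ∈ scal_V f χ := by rw [h]; trivial
    exact (scal_mem f χ v).1 this ⟨n, hn⟩

end Pool.Agent.H817.PL
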