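import Mathlib

/-!
Positive discrete subgroups of `SL(3, ℝ)` with one end preserve a properly convex cone:
statements of the lemmas, with proofs.
-/

set_option autoImplicit false

namespace Pool.Agent.H817.PL

open Set Filter Topology Module Matrix

/-- vectors and covectors -/
abbrev V3 : Type := Fin 3 → ℝ

/-- matrices -/
abbrev M3 : Type := Matrix (Fin 3) (Fin 3) ℝ

/-- Positive representations: discrete, with finite kernel, strongly irreducible, of determinant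
one, with a regular diagonal element `γ`, and positive with respect to its attracting flag, the pair
`(e0, e2*)`. -/
structure Pos {G : Type} [Group G] (ρ : G →* M3) : Prop where
  det : ∀ g, (ρ g).det = 1
  irr : ∀ K : Subgroup G, K.FiniteIndex → ∀ W : Submodule ℝ V3,
    (∀ g ∈ K, ∀ w ∈ W, ρ g *ᵥ w ∈ W) → W = ⊥ ∨ W = ⊤
  disc : ∀ R : ℝ, {g : G | ∀ i j, |ρ g i j| ≤ R}.Finite
  reg : ∃ (γ : G) (l : Fin 3 → ℝ), ρ γ = Matrix.diagonal l ∧ |l 1| < |l 0| ∧ |l 2| < |l 1|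
  pos : ∀ g, 0 ≤ ρ g 2 0 * ρ g⁻¹ 2 0

/-- The set of all limit flags: pairs `(a, f)` of unit vectors (sup norm), a vector and a covector;
`g` acts by `(a, f) ↦ (c • g a, d • f g⁻¹)`, `0 < c * d`. The pair `(ρ g e0, e2* ρ g⁻¹)` is
(column `0` of `ρ g`, row `2` of `ρ g⁻¹`). -/
def Lam {G : Type} [Group G] (ρ : G →* M3) : Set (V3 × V3) :=
  closure {p | ‖p.1‖ = 1 ∧ ‖p.2‖ = 1 ∧ ∃ (g : G) (c d : ℝ), 0 < c * d ∧
    p = (c • fun i => ρ g i 0, d • fun j => ρ g⁻¹ 2 j)}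

/-- NONVANISHING MATRIX COEFFICIENTS (helper817 proves this one). -/
def S_gen : Prop := ∀ {G : Type} [Group G] (ρ : G →* M3), Pos ρ → ∀ s t : Finset (V3 × V3),
  (∀ p ∈ s, p.1 ≠ 0 ∧ p.2 ≠ 0) → (∀ p ∈ t, p.1 ≠ 0 ∧ p.2 ≠ 0) →
  ∃ g : G, (∀ p ∈ s, p.2 ⬝ᵥ (ρ g *ᵥ p.1) ≠ 0) ∧ ∀ p ∈ t, p.2 ⬝ᵥ (ρ g⁻¹ *ᵥ p.1) ≠ 0

/-- basic properties of the set of the limit flags -/
structure Bas {G : Type} [Group G] (ρ : G →* M3) (Λ : Set (V3 × V3)) : Prop where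
  cpt : IsCompact Λ
  ne : Λ.Nonempty
  unit1 : ∀ p ∈ Λ, ‖p.1‖ = 1
  unit2 : ∀ p ∈ Λ, ‖p.2‖ = 1
  flag : ∀ p ∈ Λ, p.2 ⬝ᵥ p.1 = 0
  neg : ∀ p ∈ Λ, -p ∈ Λ
  pos : ∀ p ∈ Λ, ∀ q ∈ Λ, 0 ≤ (p.2 ⬝ᵥ q.1) * (q.2 ⬝ᵥ p.1)
  inv : ∀ p ∈ Λ, ∀ (g : G) (c d : ℝ), 0 < c * d → ‖c • (ρ g *ᵥ p.1)‖ = 1 →
    ‖d • (p.2 ᵥ* ρ g⁻¹)‖ = 1 → (c • (ρ g *ᵥ p.1), d • (p.2 ᵥ* ρ g⁻¹)) ∈ Λ
  base : ∀ (g : G) (c d : ℝ), 0 < c * d → ‖c • fun i => ρ g i 0‖ = 1 →
    ‖d • fun j => ρ g⁻¹ 2 j‖ = 1 → ((c • fun i => ρ g i 0, d • fun j => ρ g⁻¹ 2 j) : V3 × V3) ∈ Λ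

/-- BASIC PROPERTIES. For the generating pairs `p = (c ρ g e0, d e2* ρ g⁻¹)`,
`q = (c' ρ h e0, d' e2* ρ h⁻¹)`: `p.2 · q.1 = d c' (ρ (g⁻¹ h)) 2 0`, `q.2 · p.1 = d' c (ρ (h⁻¹ g)) 2 0`,
and `Pos.pos` for `g⁻¹ h`; `p.2 · p.1 = d c (ρ 1) 2 0 = 0`. Everything passes to the closure
(for `inv`: if `p n → p`, generating pairs, and `c, d` normalise `g p`, then the generating pairs
`(c n • g (p n).1, d n • (p n).2 g⁻¹)`, `c n = sign c / ‖g (p n).1‖`, `d n = sign d / ‖(p n).2 g⁻¹‖`,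
converge to it). -/
def S_basic : Prop := ∀ {G : Type} [Group G] (ρ : G →* M3), Pos ρ → Bas ρ (Lam ρ)

/-- LIMITS. By `Bas.inv` the pairs `(s n • ρ (g n) p.1, t n • p.2 ρ (g n)⁻¹)`, `s n, t n > 0` the
inverses of the norms, are in `Λ`, and they converge to the pair in the conclusion. -/
def S_lim : Prop := ∀ {G : Type} [Group G] (ρ : G →* M3) (Λ : Set (V3 × V3)), Bas ρ Λ →
  ∀ (g : ℕ → G) (c c' : ℕ → ℝ) (A B : M3), (∀ n, 0 < c n) → (∀ n, 0 < c' n) →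
  Tendsto (fun n => (c n)⁻¹ • ρ (g n)) atTop (𝓝 A) →
  Tendsto (fun n => (c' n)⁻¹ • ρ (g n)⁻¹) atTop (𝓝 B) → ∀ p ∈ Λ, A *ᵥ p.1 ≠ 0 → p.2 ᵥ* B ≠ 0 →
  (‖A *ᵥ p.1‖⁻¹ • (A *ᵥ p.1), ‖p.2 ᵥ* B‖⁻¹ • (p.2 ᵥ* B)) ∈ Λ

/-- DENSITY. Prove `S_gen → S_basic → S_lim → S_dense`.
(1) If `(a, f)` and `(a, -f)` are in `Λ`, `Bas.pos` with all the pairs of `Bas.base` gives
`(f · ρ g e0) (e2* ρ g⁻¹ · a) = 0` for all `g`, which contradicts `S_gen`.
(2) Let `p, q ∈ Λ`. We may assume that `q` is a generating pair `(c0 ρ h e0, d0 e2* ρ h⁻¹)`. Let `γ`,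
`l` be as in `Pos.reg` (`l 2 ≠ 0` as `det = 1`). By `S_gen` there is `k` with `(ρ k p.1) 0 ≠ 0` and
`(p.2 ρ k⁻¹) 2 ≠ 0`. Let `g n = γ ^ (2 n) k`. Then `l0 ^ (-2 n) ρ (g n) → E00 ρ k` and
`l2 ^ (2 n) ρ (g n)⁻¹ → ρ k⁻¹ E22`. By `S_lim` `(s e0, t e2*) ∈ Λ` where `s`, `t` are the signs of
`(ρ k p.1) 0`, `(p.2 ρ k⁻¹) 2`; `(e0, e2*) ∈ Λ` (`Bas.base`, `g = 1`), so `s t > 0` by (1) (and
`Bas.neg`). So the normalised pairs `g n p`, and hence the normalised pairs `(h g n) p` (with the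
appropriate signs), converge to `(e0, e2*)` and to `q`. -/
def S_dense : Prop := ∀ {G : Type} [Group G] (ρ : G →* M3), Pos ρ →
  (∀ p ∈ Lam ρ, (p.1, -p.2) ∉ Lam ρ) ∧
  ∀ p ∈ Lam ρ, ∀ q ∈ Lam ρ, ∀ ε : ℝ, 0 < ε → ∃ (g : G) (c d : ℝ), 0 < c * d ∧
    ‖c • (ρ g *ᵥ p.1)‖ = 1 ∧ ‖d • (p.2 ᵥ* ρ g⁻¹)‖ = 1 ∧
    dist ((c • (ρ g *ᵥ p.1), d • (p.2 ᵥ* ρ g⁻¹)) : V3 × V3) q < ε

/-- TANGENTS. `t n (f · a n) = f · t n (a n - a) → f · d` with `t n = ‖a n - a‖⁻¹`, and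
`t n (f n · a) = - f n · t n (a n - a) → - f · d`, so `- (f · d) ^ 2 ≥ 0`. If `d = t • a`, then
`|t| = 1` (`‖d‖ = 1`), and `a n = a + r n • d + o (r n)`, `r n = ‖a n - a‖ → 0`, so
`1 = ‖a n‖ = ‖(1 + r n t) a‖ + o (r n) = 1 + r n t + o (r n)`: contradiction. -/
def S_tan : Prop := ∀ (a f d : V3) (u v : ℕ → V3), f ⬝ᵥ a = 0 → ‖a‖ = 1 → (∀ n, ‖u n‖ = 1) →
  (∀ n, v n ⬝ᵥ u n = 0) → (∀ n, 0 ≤ (f ⬝ᵥ u n) * (v n ⬝ᵥ a)) → (∀ n, u n ≠ a) →
  Tendsto u atTop (𝓝 a) → Tendsto v atTop (𝓝 f) →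
  Tendsto (fun n => ‖u n - a‖⁻¹ • (u n - a)) atTop (𝓝 d) → f ⬝ᵥ d = 0 ∧ ∀ t : ℝ, d ≠ t • a

/-- FIBRES. Prove `S_gen → S_basic → S_dense → S_tan → S_fib`. Suppose that `(a, f i) ∈ Λ` with
`f 1, f 2, f 3` distinct. By `S_dense` (1) they are pairwise not proportional (unit vectors).
By `S_gen` there is `g` with `e2* ρ g⁻¹ · a ≠ 0` and `f i · ρ g e0 ≠ 0` for `i = 1, 2, 3`; so there
is `q ∈ Λ` with `q.2 · a > 0`, `f i · q.1 > 0` (`Bas.pos`). The covectors `f i / (f i · q.1)` are on a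
line of the plane `a^⊥` (covectors vanishing at `a`), so one of them is strictly between the other
ones; after renaming, `f 2 = α f 1 + β f 3`, `α, β > 0`.
Claim: there are `p n ∈ Λ`, `p n → (a, f 2)`, with `(p n).2 · a ≠ 0`. Otherwise there is `ε > 0` such
that `p.2 · a = 0` for all `p ∈ Λ` with `dist p (a, f 2) < ε`. By `S_dense` (2) and compactness of `Λ`
there are finitely many `g i` such that for every `p ∈ Λ` some normalised `g i p` is in this ball,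
so `p.2 ρ (g i)⁻¹ · a = 0`; apply this to the pairs of `k : G`: `e2* ρ k⁻¹ ρ (g i)⁻¹ a = 0` for some
`i`. This contradicts `S_gen`.
As `(p n).2 · (p n).1 = 0`, `(p n).1 ≠ a`. Let `d` be a limit (of a subsequence) of
`(p n).1 - a` divided by its norm. By `S_tan` (with `f = f 2`), `f 2 · d = 0`, `d ∉ ℝ a`. Let `σ n` be
the sign of `(p n).2 · a`; by `Bas.pos`, `σ n (f i · (p n).1) ≥ 0`, so
`σ n (f i · ((p n).1 - a)) ≥ 0`, and for a subsequence with constant `σ n = σ`, `σ (f i · d) ≥ 0`.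
As `0 = f 2 · d = α f 1 · d + β f 3 · d`, `f 1 · d = f 3 · d = 0 = f 1 · a = f 3 · a`. As `a, d` are
linearly independent, `f 1, f 3` are proportional: contradiction. -/
def S_fib : Prop := ∀ {G : Type} [Group G] (ρ : G →* M3), Pos ρ → ∀ a f1 f2 f3 : V3,
  (a, f1) ∈ Lam ρ → (a, f2) ∈ Lam ρ → (a, f3) ∈ Lam ρ → f1 = f2 ∨ f1 = f3 ∨ f2 = f3

/-- REGULARITY. Prove `S_gen → S_basic → S_lim → S_fib → S_regl`. Let `c n = ‖ρ (g n)‖`,
`c' n = ‖ρ (g n)⁻¹‖` (sup norms); by `Pos.disc` both tend to infinity. For a subsequence there are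
limits `A`, `B` of norm one; `A B = 0 = B A`, as `ρ (g n) ρ (g n)⁻¹ = 1`.
Claim: if the rank of `A` is one, so is the rank of `B`. Let `A = vecMulVec a ξ`. `B A = 0` gives
`B a = 0`. Suppose that the rank of `B` is not one; so it is two and the kernel of `B` is `ℝ a`. Let
`a' = a / ‖a‖`. For `p ∈ Λ` with `ξ · p.1 ≠ 0`, `p.2 B ≠ 0` by `S_lim` (and `Bas.neg`)
`(a', ± p.2 B / ‖p.2 B‖) ∈ Λ`. By `S_fib` the set of all `f` with `(a', f) ∈ Λ` has at most two elements;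
so there are nonzero `f 1`, `f 2` such that always `p.2 B ∈ ℝ f 1 ∪ ℝ f 2`. Choose `u i` with
`f i · u i = 0`, `B (u i) ≠ 0` (the plane `f i · u = 0` is not contained in `ℝ a`). By `S_gen` there is
`k` with `ξ · ρ k e0 ≠ 0`, `e2* ρ k⁻¹ · B (u i) ≠ 0` for `i = 1, 2`. The pair `p` of `k` gives a
contradiction: `p.2 B · u i ≠ 0`.
By symmetry (the sequence `(g n)⁻¹`) the converse holds. As `A B = 0`, the sum of the ranks is at
most three, both are positive, so one of them is one; so both are one. -/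
def S_regl : Prop := ∀ {G : Type} [Group G] (ρ : G →* M3), Pos ρ → ∀ g : ℕ → G,
  Function.Injective g → ∃ (φ : ℕ → ℕ) (c c' : ℕ → ℝ) (a ξ b ψ : V3), StrictMono φ ∧
    (∀ n, 0 < c n) ∧ (∀ n, 0 < c' n) ∧ a ≠ 0 ∧ ξ ≠ 0 ∧ b ≠ 0 ∧ ψ ≠ 0 ∧
    Tendsto (fun n => (c n)⁻¹ • ρ (g (φ n))) atTop (𝓝 (vecMulVec a ξ)) ∧
    Tendsto (fun n => (c' n)⁻¹ • ρ (g (φ n))⁻¹) atTop (𝓝 (vecMulVec b ψ))

/-- the tensor `a ⊗ f` of a flag -/
def tens (p : V3 × V3) : Fin 3 → Fin 3 → ℝ := fun i j => p.1 i * p.2 j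

/-- ACCUMULATION. Prove `S_gen → S_basic → S_lim → S_dense → S_regl → S_acc`. By `S_gen` and
compactness of the set of pairs of unit vectors there is a finite set `H ⊆ G` such that for all
nonzero `ξ`, `b` there is `h ∈ H` with `ξ · ρ h e0 ≠ 0`, `e2* ρ h⁻¹ · b ≠ 0`. Let `Y0` be the sum of
the matrices `ρ h E02 ρ h⁻¹ = (ρ h e0) ⊗ (e2* ρ h⁻¹)`, `h ∈ H`, `Z g = ρ g Y0 ρ g⁻¹` and
`Y g = Z g / ‖Z g‖` (sup norm of the entries).
Let `g n` be an injective sequence, and pass to a subsequence as in `S_regl`. For `s : G`,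
`(c n c' n)⁻¹ Z (g n s) → (a ⊗ ξ) ρ s Y0 ρ s⁻¹ (b ⊗ ψ) = κ (a ⊗ ψ)`, `κ = ∑_h (ξ · ρ (s h) e0)
(e2* ρ (s h)⁻¹ · b)`. If the term of `h` is not zero, let `σ` be its sign; by `S_lim`, for the pair
of `s h`, and `Bas.neg`, `(a', σ ψ') ∈ Λ`, `a' = a / ‖a‖`, `ψ' = ψ / ‖ψ‖`. By `S_dense` (1) `σ` does
not depend on `h` nor on `s`, and there is a nonzero term (property of `H`, for `ξ ρ s`, `ρ s⁻¹ b`). So
`Y (g n s) → tens (a', σ ψ')`, for all `s`, including `s = 1`. This proves the first two claims (if a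
set is infinite, take an injective sequence in it).
Third claim: the tensors of the generating pairs are dense in `tens '' Λ`, so let `X = tens p`,
`p = (c ρ h e0, d e2* ρ h⁻¹)`, `c d > 0`. For `g n = h γ ^ (2 n)` (`Pos.reg`; injective),
`l0 ^ (-2 n) ρ (g n) → (ρ h e0) ⊗ e0`, `l2 ^ (2 n) ρ (g n)⁻¹ → e2 ⊗ (e2* ρ h⁻¹)`, so as above
`Y (g n) → tens (a', σ ψ')`, where `a', ψ'` are the normalised `ρ h e0`, `e2* ρ h⁻¹`; and `σ = 1` by
`S_dense` (1), `Bas.base`: the limit is `X`. -/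
def S_acc : Prop := ∀ {G : Type} [Group G] (ρ : G →* M3), Pos ρ →
  ∃ Y : G → (Fin 3 → Fin 3 → ℝ),
    (∀ ε : ℝ, 0 < ε → {g | ε ≤ Metric.infDist (Y g) (tens '' Lam ρ)}.Finite) ∧
    (∀ (s : G) (ε : ℝ), 0 < ε → {g | ε ≤ dist (Y g) (Y (g * s))}.Finite) ∧
    ∀ X ∈ tens '' Lam ρ, ∀ ε : ℝ, 0 < ε → {g | dist (Y g) X < ε}.Infinite

/-- one end: almost invariant sets are finite or have a finite complement -/
def OneEnd (G : Type) [Group G] : Prop :=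
  ∀ S : Set G, (∀ s : G, {g | ¬ (g ∈ S ↔ g * s ∈ S)}.Finite) → S.Finite ∨ Sᶜ.Finite

/-- CONNECTED LIMIT SETS. If `P` is not preconnected, it is the union of two disjoint nonempty closed
(compact) sets `A`, `B`; let `3 δ` be their distance, `S = {g | infDist (Y g) A < δ}`. For all but
finitely many `g`, `infDist (Y g) P < δ`, so `g ∈ S` or `infDist (Y g) B < δ`. So
`{g | ¬ (g ∈ S ↔ g s ∈ S)}` is finite (as `dist (Y g) (Y (g s)) < δ` for all but finitely many `g`,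
also use the finiteness for `g s`). So `S` or its complement is finite; but `S` is infinite (third
hypothesis for a point of `A`), and the complement is infinite (a point of `B`). -/
def S_conn : Prop := ∀ (G : Type) [Group G] (M : Type) [MetricSpace M] (P : Set M) (Y : G → M),
  OneEnd G → IsCompact P → (∀ ε : ℝ, 0 < ε → {g | ε ≤ Metric.infDist (Y g) P}.Finite) →
  (∀ (s : G) (ε : ℝ), 0 < ε → {g | ε ≤ dist (Y g) (Y (g * s))}.Finite) →
  (∀ X ∈ P, ∀ ε : ℝ, 0 < ε → {g | dist (Y g) X < ε}.Infinite) → IsPreconnected P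

/-- CORNERS. Prove `S_basic → S_dense → S_tan → S_fib → S_corner`. It is enough that for `δ > 0` the
set `U` of all `p ∈ Λ` such that there is `q ∈ Λ` with `q.1 = p.1`, `‖q.2 - p.2‖ ≥ δ` is finite.
Otherwise let `p n ∈ U` be an injective sequence, with `q n`; by compactness we may assume
`p n → p`, `q n → q`; then `q.1 = p.1`, `‖q.2 - p.2‖ ≥ δ`. If `(p n).1 = p.1` for infinitely many `n`,
there are three different flags with the first component `p.1`: contradiction to `S_fib`. So we may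
assume `(p n).1 ≠ p.1` for all `n`, and that `(p n).1 - p.1`, divided by its norm, converges to `d`. By
`S_tan`, for `p n → p` and `q n → q` (`Bas.pos`), `p.2 · d = 0`, `q.2 · d = 0`, `d ∉ ℝ p.1`; also
`p.2 · p.1 = 0 = q.2 · p.1`. So `p.2`, `q.2` are proportional, of norm one, so `q.2 = ± p.2`, and
`q.2 = - p.2` contradicts `S_dense` (1). -/
def S_corner : Prop := ∀ {G : Type} [Group G] (ρ : G →* M3), Pos ρ →
  {p | p ∈ Lam ρ ∧ ∃ q ∈ Lam ρ, q.1 = p.1 ∧ q.2 ≠ p.2}.Countable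

/-- DUALITY. `ρ' g i j = (ρ g⁻¹) (rev j) (rev i)`, i.e. the transposed inverse, conjugated with the
permutation matrix of `Fin.rev`. `ρ' γ⁻¹`... note `ρ' γ = diagonal (l2⁻¹, l1⁻¹, l0⁻¹)`. Strong
irreducibility of the dual representation: if `W` is invariant under `ρ' K`, the set of all `v` with
`rev w · v = 0` for all `w ∈ W` is invariant under `ρ K`, of complementary dimension. -/
def S_dual : Prop := ∀ {G : Type} [Group G] (ρ : G →* M3), Pos ρ →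
  ∃ ρ' : G →* M3, Pos ρ' ∧ ∀ p : V3 × V3,
    p ∈ Lam ρ ↔ ((fun i => p.2 (Fin.rev i), fun i => p.1 (Fin.rev i)) : V3 × V3) ∈ Lam ρ'

/-- a flag which is not a corner and not on a segment -/
def Nc {G : Type} [Group G] (ρ : G →* M3) (p : V3 × V3) : Prop :=
  p ∈ Lam ρ ∧ ∀ q ∈ Lam ρ, p.2 ⬝ᵥ q.1 = 0 → q.2 ⬝ᵥ p.1 = 0 → q = p ∨ q = -p

/-- SMOOTH POINTS. Prove `S_gen → S_basic → S_corner → S_dual → S_nc`. By `S_corner` for `ρ` and for
the representation `ρ'` of `S_dual` the sets `C1`, `C2` of all `p ∈ Λ` such that there is `q ∈ Λ` with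
`q.1 = p.1`, `q.2 ≠ p.2`, respectively `q.2 = p.2`, `q.1 ≠ p.1`, are countable. If `p ∈ Λ` is in none
of them, then `Nc ρ p`: let `q ∈ Λ` with `p.2 · q.1 = 0 = q.2 · p.1`. If `q.1 = ± p.1`, replace `q` by
`± q`, so `q.1 = p.1`; as `p ∉ C1`, `q = p`. Otherwise `p.1, q.1` are linearly independent (unit
vectors), and `p.2`, `q.2` vanish on both, so they are proportional, `q.2 = ± p.2`; replace `q` by `± q`;
as `p ∉ C2`, `q.1 = p.1`, contradiction. If there was no `p` with `Nc ρ p`, `Λ` and `tens '' Λ` would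
be countable; a countable set is totally disconnected (`Set.Countable.isTotallyDisconnected`), so
`tens '' Λ` would have only one element, i.e. `ρ g e0 ∈ ℝ e0` for all `g`, which contradicts `S_gen`
or irreducibility. -/
def S_nc : Prop := ∀ {G : Type} [Group G] (ρ : G →* M3), Pos ρ →
  IsPreconnected (tens '' Lam ρ) → ∃ p, Nc ρ p

/-- SIGNS. Step 1. There are no `x, y, z, z' ∈ D` with `S x y > 0`, `S x z > 0`, `S y z < 0`,
`S x z' > 0`, `S y z' > 0`. Otherwise let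
`P1 = {w ∈ L | S x w ≥ 0, S y w ≥ 0, S z w ≥ 0}`, `Q1 = {w ∈ L | S x w ≥ 0, S y w ≥ 0, S z w ≤ 0}`,
`P2 = {w ∈ L | S x w ≥ 0, S y w ≤ 0, S z' w ≤ 0}`, `Q2 = {w ∈ L | S x w ≥ 0, S y w ≤ 0, S z' w ≥ 0}`.
These are compact sets, `π '' P1 ∪ π '' P2` contains `π x`, `π '' Q1 ∪ π '' Q2` contains `π y`, the
union is `π '' L` (replace `w` by `neg w`). They are disjoint: let `w ∈ P_i`, `w' ∈ Q_j`,
`π w = π w'`.
Case `w' = neg w`: `S x w = 0`, so `w = x` or `w = neg x`. If `i = 1`: `w = x` (`S y (neg x) < 0`),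
`w' = neg x`: not in `Q1` (`S y w' < 0`), not in `Q2` (`S z' w' < 0`). If `i = 2`: `w = neg x`
(`S y x > 0`), `w' = x`: not in `Q1` (`S z x > 0`), not in `Q2` (`S y x > 0`).
Case `w' = w`: `i = j = 1`: `S z w = 0`, `w = z` (`S y z < 0`) or `w = neg z` (`S x w < 0`), impossible;
`i = j = 2`: `S z' w = 0`, similar; `i = 1, j = 2`: `S y w = 0`, `w = y` (as `S x w ≥ 0`), but
`S z y < 0`; `i = 2, j = 1`: `w = y`, but `S z' y > 0`. So `π '' L` is not preconnected.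
Step 2. For `x, y, z ∈ D` pairwise different up to `neg`, the sign `T x y z` of
`S x y * S y z * S z x ≠ 0` is symmetric and does not change under `neg`. Step 1 says that
`T x y z = T x y z'` (choose signs such that `S x y, S x z, S x z' > 0`). So for fixed `x0`,
`T x0 y z = τ` does not depend on `y, z` (`T x0 y z = T x0 y y0 = T x0 y0 z0`). Let
`ε y = sign (S x0 y)` for `y ≠ x0, neg x0`, and `ε x0 = τ`, `ε (neg x0) = -τ`. (If there are at most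
two elements of `D` up to `neg`, take `τ = 1`.) -/
def S_top : Prop := ∀ (Y P : Type) [TopologicalSpace Y] [T2Space Y] [TopologicalSpace P] [T2Space P]
  (L D : Set Y) (neg : Y → Y) (π : Y → P) (S : Y → Y → ℝ), IsCompact L → Continuous neg →
  Continuous π → Continuous (fun q : Y × Y => S q.1 q.2) → (∀ y, neg (neg y) = y) →
  (∀ y, neg y ≠ y) → (∀ y ∈ L, neg y ∈ L) → (∀ x ∈ L, ∀ y ∈ L, π x = π y ↔ x = y ∨ x = neg y) →
  (∀ x y, S x y = S y x) → (∀ x y, S (neg x) y = - S x y) → IsPreconnected (π '' L) →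
  D ⊆ L → (∀ x ∈ D, neg x ∈ D) → (∀ x ∈ D, S x x = 0) →
  (∀ x ∈ D, ∀ y ∈ L, S x y = 0 → y = x ∨ y = neg x) →
  ∃ (ε : Y → ℝ) (τ : ℝ), (τ = 1 ∨ τ = -1) ∧ (∀ x, ε x = 1 ∨ ε x = -1) ∧
    (∀ x ∈ D, ε (neg x) = - ε x) ∧
    ∀ x ∈ D, ∀ y ∈ D, y ≠ x → y ≠ neg x → 0 < τ * (ε x * ε y * S x y)

/-- INVARIANT CONE. Prove `S_gen → S_basic → S_dense → S_nc → S_top → S_inv`. Let
`D = {p | Nc ρ p}`; it is not empty (`S_nc`), and invariant under `neg` and under the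
(normalised) action of `G`. Apply `S_top` with `L = Λ`, `neg = -`, `π = tens`,
`S p q = p.2 · q.1 + q.2 · p.1` (restrict `Y` to a type on which `-p ≠ p`, for example the subtype of
the pairs of unit vectors; `tens p = tens q ↔ p = ± q` for unit vectors; if `S p q = 0`, both terms
are zero, since their product is `≥ 0`). Let `τ`, `ε` be as in `S_top`, and
`C = {v | ∀ p ∈ D, 0 ≤ τ * (ε p * (p.2 · v))}`, a closed convex cone. For `p, q ∈ D`
`τ ε p ε q (p.2 · q.1) ≥ 0`, so `ε q • q.1 ∈ C`; and `C ∩ -C = 0`, as the `p.2`, `p ∈ D`, span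
(irreducibility of the dual). For `g ∈ G` let `g p` be the normalised image (`c, d > 0`) of `p ∈ D`.
The signs of `S (g p) (g q)` and `S p q` are the same (both terms of the sums have the same sign), so
`ε (g p) * ε (g q) = ε p * ε q` for `q ≠ ± p`; as `D` has at least three elements up to sign,
`ε (g p) = χ g * ε p` with `χ g = ± 1` independent of `p ∈ D`, `χ (g h) = χ g * χ h`. Let `K` be the
kernel of `χ`, of index at most two. For `g ∈ K`, `v ∈ C`, `p ∈ D`: `p.2 · ρ g v = (p.2 ρ g) · v`, and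
`p.2 ρ g` is a positive multiple of `(g⁻¹ p).2`; so `ρ g v ∈ C`. Finally `R = interior C`: the
vectors `ε q • q.1 ∈ C`, `q ∈ D`, span the space (irreducibility of `ρ`), so `R` is not empty;
`closure R ⊆ C`. -/
def S_inv : Prop := ∀ {G : Type} [Group G] (ρ : G →* M3), Pos ρ →
  IsPreconnected (tens '' Lam ρ) → ∃ (K : Subgroup G) (R : Set V3), K.FiniteIndex ∧ IsOpen R ∧
    Convex ℝ R ∧ R.Nonempty ∧ (∀ v ∈ R, ∀ t : ℝ, 0 < t → t • v ∈ R) ∧
    (∀ g ∈ K, ∀ v ∈ R, ρ g *ᵥ v ∈ R) ∧ ∀ v ∈ closure R, -v ∈ closure R → v = 0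

end Pool.Agent.H817.PL
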