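import Pool.Agent.H817.PL.Stm

/-!
Groups acting properly discontinuously and cocompactly on domains of the affine space have one end;
equivariant maps of properly convex cones: statements of the lemmas, with proofs.
-/

set_option autoImplicit false

namespace Pool.Agent.H817.PL

open Set Filter Topology Module Matrix

/-- The group `Γ` acts on the domain `Ω` by volume preserving affine transformations, properly
discontinuously and cocompactly. -/
structure Dom {Γ E : Type} [Group Γ] [NormedAddCommGroup E] [NormedSpace ℝ E]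
    (hol : Γ →* (E ≃ᵃ[ℝ] E)) (Ω : Set E) : Prop where
  op : IsOpen Ω
  cn : IsConnected Ω
  inv : ∀ g : Γ, ∀ z ∈ Ω, hol g z ∈ Ω
  det : ∀ g : Γ, |LinearMap.det ((hol g).linear : E →ₗ[ℝ] E)| = 1
  pd : ∀ K ⊆ Ω, IsCompact K → {g : Γ | ∃ z ∈ K, hol g z ∈ K}.Finite
  cc : ∃ K ⊆ Ω, IsCompact K ∧ ∀ z ∈ Ω, ∃ g : Γ, ∃ k ∈ K, hol g k = z

/-- BOUNDARY LINES. Let `z n ∈ Ω`, `z n → w ∉ Ω`, `z n = hol (g n) (k n)`, `k n ∈ K`; we may assume
`k n → k ∈ K ⊆ Ω`. Let `L n` be the linear part of `hol (g n)`, as a continuous linear map.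
(1) `‖L n‖ → ∞`. Otherwise, for a subsequence, `L n` converges, to an invertible map (`|det| = 1`),
and as `hol (g n) (k n) → w`, `hol (g n)` converges locally uniformly to an affine equivalence `T`;
`hol (g n)⁻¹ → T⁻¹`. For large `n, m` `hol (g n⁻¹ * g m) k` is close to `k`; by `pd`, for a compact
neighbourhood of `k` in `Ω`, there is a finite set `F` with `g n⁻¹ * g m ∈ F` for `n, m ≥ N`; so
`g m ∈ g N * F` takes some value `g` for infinitely many `m`, and `hol g k = lim hol (g m) (k m) = w`,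
so `w ∈ Ω`: contradiction.
(2) For a subsequence `‖L n‖⁻¹ • L n → π ≠ 0`. Let `d = π u ≠ 0`. For `t : ℝ` the points
`y n = k n + (t / ‖L n‖) • u` converge to `k`, and `hol (g n) (y n) = z n + t • ‖L n‖⁻¹ • L n u`
converges to `w + t • d`. If this was in `Ω`, then by `pd` for the union of compact neighbourhoods of
`k` and of `w + t • d` in `Ω` the set of the `g n` would be finite, which contradicts (1). -/
def S_line : Prop := ∀ {Γ E : Type} [Group Γ] [NormedAddCommGroup E] [NormedSpace ℝ E]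
  [FiniteDimensional ℝ E] (hol : Γ →* (E ≃ᵃ[ℝ] E)) (Ω : Set E), Dom hol Ω →
  ∀ w ∈ frontier Ω, ∃ d : E, d ≠ 0 ∧ ∀ t : ℝ, w + t • d ∉ Ω

/-- LOCALLY CONSTANT FUNCTIONS AT INFINITY. Let `χ : E → ℝ` be smooth, `χ = 1` on a neighbourhood of
`K`, with compact support contained in `Ω` (`exists_contDiff_tsupport_subset` or
`exists_smooth_...`; any version). Let `θ z = c z • fderiv ℝ χ z` for `z ∈ Ω` and `θ z = 0` for
`z ∉ Ω`. It is smooth: zero near the points of `K` and near the points outside the support of `χ`, and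
locally a constant times `fderiv χ` otherwise; so its derivative is symmetric
(`second_derivative_symmetric`). By the Poincaré lemma
`exists_forall_hasFDerivAt_of_fderiv_symmetric` (Mathlib.MeasureTheory.Integral.CurveIntegral.Poincare;
`s = univ`) there is `h : E → ℝ` with derivative `θ`. Outside a closed ball `B ⊇ tsupport χ` the
function `h` is locally constant, and the complement of a closed ball is connected
(`2 ≤ finrank ℝ E`), so `h` is constant there; subtract this constant: `h = 0` outside `B`.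
Let `w ∈ frontier Ω`, and `d` as in the hypothesis: `θ = 0` near all the points `w + t • d ∉ Ω`, so
`h` is constant on this line, which leaves `B`: `h w = 0`. As `θ = 0` near `w`, `h = 0` near `w`. So
the closure of `{z ∈ Ω | h z ≠ 0}` is compact and contained in `Ω`. Let `K'` be the union of it with
`tsupport χ`. The function `β z = h z + c z * (1 - χ z)` is locally constant on `Ω`: near a point of
`K` it is `h`, with derivative `0`, and on `Ω \ K` its derivative is `θ z - c z • fderiv χ z = 0`. So it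
is constant on `Ω` (connected), and `β = c` outside `K'`. -/
def S_topo : Prop := ∀ {E : Type} [NormedAddCommGroup E] [NormedSpace ℝ E]
  [FiniteDimensional ℝ E], 2 ≤ finrank ℝ E → ∀ Ω : Set E, IsOpen Ω → IsConnected Ω →
  (∀ w ∈ frontier Ω, ∃ d : E, d ≠ 0 ∧ ∀ t : ℝ, w + t • d ∉ Ω) → ∀ K ⊆ Ω, IsCompact K →
  ∀ c : E → ℝ, (∀ z ∈ Ω \ K, ∀ᶠ z' in 𝓝 z, c z' = c z) →
  ∃ K' ⊆ Ω, IsCompact K' ∧ ∃ c0 : ℝ, ∀ z ∈ Ω \ K', c z = c0

/-- ONE END. Prove `S_line → S_topo → S_oneend`. Let `S : Set Γ` with the finiteness property of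
`OneEnd`, `K0 ⊆ Ω` compact as in `cc`, and `V0 ⊆ Ω` a compact neighbourhood of `K0`. The set `F` of all
`s` with `hol s K0 ∩ V0 ≠ ∅` is finite (`pd` for `V0`). Let `B` be the finite set of all `g` such that
`g ∈ S ↔ g * s ∈ S` does not hold for some `s ∈ F`. For `z ∈ Ω` choose `g z : Γ` with
`z ∈ hol (g z) K0`, and let `c z = 1` if `g z ∈ S`, `c z = 0` otherwise. If `z ∈ hol g V0`, `g ∉ B`,
then `s = g⁻¹ * g z ∈ F`, so `c z = 1 ↔ g ∈ S`. So `c` is locally constant at the points of `Ω` outside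
of `K = ⋃_{g ∈ B} hol g K0` (compact): at such a `z` take `g = g z ∉ B` and the neighbourhood
`hol g V0`. By `S_line` and `S_topo` `c = c0` on `Ω \ K'`. Let `k0 ∈ K0`. For all but finitely many `g`
(`pd` for `K' ∪ K0`) `hol g k0 ∉ K'`, and if moreover `g ∉ B`, `c (hol g k0) = 1 ↔ g ∈ S`. So `g ∈ S`
for all but finitely many `g`, or `g ∉ S` for all but finitely many `g`. -/
def S_oneend : Prop := ∀ {Γ E : Type} [Group Γ] [NormedAddCommGroup E] [NormedSpace ℝ E]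
  [FiniteDimensional ℝ E], 2 ≤ finrank ℝ E → ∀ (hol : Γ →* (E ≃ᵃ[ℝ] E)) (Ω : Set E),
  Dom hol Ω → OneEnd Γ

/-- invariant properly convex open cones -/
structure Icone {Γ E : Type} [Group Γ] [NormedAddCommGroup E] [NormedSpace ℝ E]
    (hol : Γ →* (E ≃ᵃ[ℝ] E)) (R : Set E) : Prop where
  op : IsOpen R
  cv : Convex ℝ R
  ne : R.Nonempty
  sm : ∀ v ∈ R, ∀ t : ℝ, 0 < t → t • v ∈ R
  inv : ∀ g : Γ, ∀ v ∈ R, (hol g).linear v ∈ R
  sal : ∀ v ∈ closure R, -v ∈ closure R → v = 0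
  det : ∀ g : Γ, |LinearMap.det ((hol g).linear : E →ₗ[ℝ] E)| = 1
  disc : ∀ B : ℝ, {g : Γ | ∀ v : E, ‖(hol g).linear v‖ ≤ B * ‖v‖}.Finite

/-- PROPERNESS. Let `H v = ‖v‖ / infDist v Rᶜ` (`v ∈ R`; so `ball v (‖v‖ / H v) ⊆ R`). (`Rᶜ` is
nonempty: it contains `0` if `0 < finrank`, as `0 ∈ R` implies `R = univ`; if `E` is trivial the
statement is trivial.) There is `c > 0` with `‖x‖ ≤ c ‖v‖` whenever `v + x, v - x ∈ closure R`
(otherwise there are `x n → x`, `‖x n‖ = 1`, `v n → 0`, and `x, -x ∈ closure R`). Let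
`ball v0 (2 δ) ⊆ R`, `N = ball v0 δ`, `M = ‖v0‖ + δ`. Let `v ∈ N`, `u = T v`, `H u < r`. For
`‖e‖ ≤ 1/2`: `u ± (‖u‖ / r) • e ∈ R`, so `v ± (‖u‖ / r) • T⁻¹ e ∈ R`, so `‖T⁻¹ e‖ ≤ c M r / ‖u‖`. As
`|det T⁻¹| = 1`, `‖T⁻¹‖` is bounded from below by a constant (the determinant is continuous and zero
at zero), so `‖u‖ ≤ C'`. And `v ± δ • e ∈ R` gives `u ± δ • T e ∈ R`, `‖T e‖ ≤ c ‖u‖ / δ ≤ c C' / δ`.
(Here `T⁻¹ R ⊆ R` is needed.) -/
def S_prop : Prop := ∀ {E : Type} [NormedAddCommGroup E] [NormedSpace ℝ E]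
  [FiniteDimensional ℝ E] (R : Set E), IsOpen R → Convex ℝ R → R.Nonempty →
  (∀ v ∈ R, ∀ t : ℝ, 0 < t → t • v ∈ R) → (∀ v ∈ closure R, -v ∈ closure R → v = 0) →
  ∀ r : ℝ, ∀ v0 ∈ R, ∃ N ∈ 𝓝 v0, N ⊆ R ∧ ∃ B : ℝ, ∀ T : E ≃ₗ[ℝ] E,
    |LinearMap.det (T : E →ₗ[ℝ] E)| = 1 → (∀ v ∈ R, T v ∈ R) → (∀ v ∈ R, T.symm v ∈ R) →
    ∀ v ∈ N, ‖T v‖ < r * Metric.infDist (T v) Rᶜ → ∀ x : E, ‖T x‖ ≤ B * ‖x‖

/-- EQUIVARIANT MAP. Prove `S_prop → S_eqm`. Let `K` be nonempty (otherwise `C = ∅`), `E` not trivial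
(so `Rᶜ` is nonempty). `H v = ‖v‖ / infDist v Rᶜ` is homogeneous of degree zero (`Rᶜ` is invariant
under positive scalars), and locally Lipschitz on `R`. Let `H < r` on `K`, `wg v = max 0 (r - H v)`,
`C = {v ∈ R | ∃ g, H (L g v) < r}`, `L g = (hol g).linear`. By `S_prop` and `disc`, every `v0 ∈ R` has a
neighbourhood `N ⊆ R` such that for all but finitely many `g`, `wg (L g v) = 0` for all `v ∈ N`. Let
`s v = ∑' g, wg (L g v)` and `f v = (s v)⁻¹ • ∑' g, wg (L g v) • hol g⁻¹ 0`. Near a point of `C` these are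
finite sums of locally Lipschitz functions, and `s v > 0`. `s (L δ v) = s v` and
`f (L δ v) = hol δ (f v)` by the substitution `g ↦ g δ⁻¹` (`hol δ` is affine, and the weights
`wg / s` have sum one). This is the same computation as in Pool/Agent/H817/RB/Plane.lean (in the
repository, theorem `no_proper_plane`), with `wg R (S γ w)` there. -/
def S_eqm : Prop := ∀ {Γ E : Type} [Group Γ] [NormedAddCommGroup E] [NormedSpace ℝ E]
  [FiniteDimensional ℝ E] (hol : Γ →* (E ≃ᵃ[ℝ] E)) (R : Set E), Icone hol R → ∀ K ⊆ R,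
  IsCompact K → ∃ (C : Set E) (f : E → E), K ⊆ C ∧ C ⊆ R ∧
    (∀ g : Γ, ∀ v ∈ C, (hol g).linear v ∈ C) ∧ (∀ v ∈ C, ∀ t : ℝ, 0 < t → t • v ∈ C ∧ f (t • v) = f v) ∧
    (∀ g : Γ, ∀ v ∈ C, f ((hol g).linear v) = hol g (f v)) ∧
    ∀ v ∈ C, ∃ V ∈ 𝓝 v, ∃ B : ℝ, ∀ y ∈ V, ∀ z ∈ V, ‖f y - f z‖ ≤ B * ‖y - z‖

/-- DIMENSION. There is a linear form `θ > 0` on `R` (separate the open convex set `R` from `0 ∉ R`).
Every point of `f '' C` is `f v` with `v ∈ C`, `θ v = 1`. The affine plane `θ = 1` has dimension `2`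
(parametrise it by the kernel of `θ`, of dimension `finrank - 1 = 2`), and `f` is locally Lipschitz
(`dimH_image_le_of_locally_lipschitzOn`), so `dimH (f '' C) ≤ 2 < 3` (see the end of the proof of
`no_proper_plane` in Pool/Agent/H817/RB/Plane.lean). -/
def S_dimh : Prop := ∀ {E : Type} [NormedAddCommGroup E] [NormedSpace ℝ E]
  [FiniteDimensional ℝ E] [MeasurableSpace E] [BorelSpace E], finrank ℝ E = 3 → ∀ R : Set E,
  IsOpen R → Convex ℝ R → (∀ v ∈ closure R, -v ∈ closure R → v = 0) →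
  (∀ v ∈ R, ∀ t : ℝ, 0 < t → t • v ∈ R) → ∀ C ⊆ R, ∀ f : E → E,
  (∀ v ∈ C, ∀ t : ℝ, 0 < t → t • v ∈ C ∧ f (t • v) = f v) →
  (∀ v ∈ C, ∃ V ∈ 𝓝 v, ∃ B : ℝ, ∀ y ∈ V, ∀ z ∈ V, ‖f y - f z‖ ≤ B * ‖y - z‖) →
  (MeasureTheory.Measure.hausdorffMeasure (finrank ℝ E : ℝ) : MeasureTheory.Measure E) (f '' C) = 0

end Pool.Agent.H817.PL
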