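import Pool.Agent.H817.PL.Stm3

/-!
Cocompact affine groups containing a translation are not strongly irreducible
(helper122 for helper817).
-/

set_option autoImplicit false

namespace Pool.Agent.H817.PL

open Set Filter Topology Module

section

variable {Γ E : Type} [Group Γ] [NormedAddCommGroup E] [NormedSpace ℝ E]

theorem tr_mul (hol : Γ →* (E ≃ᵃ[ℝ] E)) (g h : Γ) (z : E) : hol (g * h) z = hol g (hol h z) := by
  rw [map_mul]
  rfl

theorem tr_inv (hol : Γ →* (E ≃ᵃ[ℝ] E)) (g : Γ) (z : E) : hol g (hol g⁻¹ z) = z := by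
  rw [← tr_mul, mul_inv_cancel, map_one]
  rfl

theorem tr_inv' (hol : Γ →* (E ≃ᵃ[ℝ] E)) (g : Γ) (z : E) : hol g⁻¹ (hol g z) = z := by
  rw [← tr_mul, inv_mul_cancel, map_one]
  rfl

theorem tr_lin (hol : Γ →* (E ≃ᵃ[ℝ] E)) (g : Γ) (z w : E) :
    hol g (z + w) = hol g z + (hol g).linear w := by
  have h := (hol g).map_vadd z w
  rw [vadd_eq_add, vadd_eq_add] at h
  rw [add_comm z w, h, add_comm]

theorem tr_conj (hol : Γ →* (E ≃ᵃ[ℝ] E)) (g a : Γ) (v : E) (ha : ∀ z, hol a z = z + v) (z : E) :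
    hol (g * a * g⁻¹) z = z + (hol g).linear v := by
  rw [tr_mul, tr_mul, ha, tr_lin, tr_inv]

/-- the vectors of the translations -/
def tr_P (hol : Γ →* (E ≃ᵃ[ℝ] E)) : AddSubgroup E where
  carrier := {u | ∃ t : Γ, ∀ z, hol t z = z + u}
  zero_mem' := ⟨1, fun z => by rw [map_one, add_zero]; rfl⟩
  add_mem' := by
    rintro u u' ⟨t, ht⟩ ⟨t', ht'⟩
    exact ⟨t' * t, fun z => by rw [tr_mul, ht, ht', add_assoc]⟩
  neg_mem' := by
    rintro u ⟨t, ht⟩
    refine ⟨t⁻¹, fun z => ?_⟩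
    have h := tr_inv' hol t (z + -u)
    rw [ht, neg_add_cancel_right] at h
    exact h

theorem tr_mem {hol : Γ →* (E ≃ᵃ[ℝ] E)} {u : E} : u ∈ tr_P hol ↔ ∃ t : Γ, ∀ z, hol t z = z + u :=
  Iff.rfl

theorem tr_linear_eq (hol : Γ →* (E ≃ᵃ[ℝ] E)) (t : Γ) (u : E) (ht : ∀ z, hol t z = z + u) (w : E) :
    (hol t).linear w = w := by
  have h := tr_lin hol t 0 w
  rw [ht, ht, zero_add, zero_add, add_comm] at h
  exact (add_left_cancel h).symm

end

theorem t_tr : S_tr := by
  classical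
  intro Γ E _ _ _ _ hfr hol hD hirr a v hv ha
  have hlm : ∀ (g h : Γ) (w : E), (hol (g * h)).linear w = (hol g).linear ((hol h).linear w) := by
    intro g h w
    rw [map_mul]
    rfl
  -- the span of the translates of `v`
  have hW : Submodule.span ℝ (range fun g : Γ => (hol g).linear v) = ⊤ := by
    rcases hirr ⊤ inferInstance (Submodule.span ℝ (range fun g : Γ => (hol g).linear v)) (by
      intro g _ w hw
      induction hw using Submodule.span_induction with
      | mem x hx =>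
        obtain ⟨h, rfl⟩ := hx
        exact Submodule.subset_span ⟨g * h, hlm g h v⟩
      | zero => rw [map_zero]; exact Submodule.zero_mem _
      | add x y _ _ hx hy => rw [map_add]; exact Submodule.add_mem _ hx hy
      | smul c x _ hx => rw [map_smul]; exact Submodule.smul_mem _ c hx) with h | h
    · exfalso
      have h1 : v ∈ Submodule.span ℝ (range fun g : Γ => (hol g).linear v) :=
        Submodule.subset_span ⟨1, by
          show (hol 1).linear v = v
          rw [map_one]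
          rfl⟩
      rw [h, Submodule.mem_bot] at h1
      exact hv h1
    · exact h
  obtain ⟨s, hs1, hs2⟩ := (Submodule.fg_span_iff_fg_span_finset_subset
    (range fun g : Γ => (hol g).linear v)).1 (by rw [hW]; exact Module.finite_def.1 inferInstance)
  rw [hW] at hs2
  have hsP : ∀ w ∈ s, w ∈ tr_P hol := by
    intro w hw
    obtain ⟨g, rfl⟩ := hs1 hw
    exact ⟨g * a * g⁻¹, tr_conj hol g a v ha⟩
  -- the compact set
  obtain ⟨Q, hQ⟩ : ∃ Q : Set E, Q = (fun t : s → ℝ => ∑ w : s, t w • (w : E)) ''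
    (Set.pi univ fun _ => Icc (0 : ℝ) 1) := ⟨_, rfl⟩
  have hQc : IsCompact Q := by
    rw [hQ]
    refine (isCompact_univ_pi fun _ => isCompact_Icc).image ?_
    fun_prop
  have hQ0 : (0 : E) ∈ Q := by
    rw [hQ]
    refine ⟨fun _ => 0, fun _ _ => ⟨le_rfl, zero_le_one⟩, ?_⟩
    simp
  have hred : ∀ z : E, ∃ u ∈ tr_P hol, z + u ∈ Q := by
    intro z
    have hz : z ∈ Submodule.span ℝ (s : Set E) := by
      rw [← hs2]
      exact Submodule.mem_top
    obtain ⟨c, -, hc⟩ := Submodule.mem_span_finset.1 hz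
    refine ⟨-∑ w ∈ s, ⌊c w⌋ • w, neg_mem (sum_mem fun w hw => zsmul_mem (hsP w hw) _), ?_⟩
    rw [hQ]
    refine ⟨fun w => Int.fract (c w), fun w _ => ⟨Int.fract_nonneg _, (Int.fract_lt_one _).le⟩, ?_⟩
    show ∑ w : s, Int.fract (c w) • (w : E) = _
    rw [Finset.sum_coe_sort s (fun w => Int.fract (c w) • w), ← hc, ← sub_eq_add_neg,
      ← Finset.sum_sub_distrib]
    refine Finset.sum_congr rfl fun w _ => ?_
    rw [← Int.cast_smul_eq_zsmul ℝ, ← sub_smul]
    rfl
  have hF := hD.pd Q (subset_univ _) hQc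
  -- the linear parts
  obtain ⟨Lh, hLh⟩ : ∃ Lh : Γ →* (E ≃ₗ[ℝ] E), ∀ g, Lh g = (hol g).linear :=
    ⟨AffineEquiv.linearHom.comp hol, fun _ => rfl⟩
  have hfin : (Set.range Lh).Finite := by
    refine (hF.image Lh).subset ?_
    rintro _ ⟨g, rfl⟩
    obtain ⟨u, hu, huQ⟩ := hred (hol g 0)
    obtain ⟨t, ht⟩ := tr_mem.1 hu
    refine ⟨t * g, ⟨0, hQ0, ?_⟩, ?_⟩
    · rw [tr_mul, ht]
      exact huQ
    · rw [hLh, hLh]
      refine LinearEquiv.ext fun w => ?_
      rw [hlm, tr_linear_eq hol t u ht]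
  have : Finite Lh.range := hfin
  have hker : Lh.ker.FiniteIndex := Subgroup.finiteIndex_ker Lh
  rcases hirr Lh.ker hker (Submodule.span ℝ {v}) (by
    intro g hg w hw
    have h1 : Lh g = 1 := hg
    rw [← hLh, h1]
    exact hw) with h | h
  · rw [Submodule.span_singleton_eq_bot] at h
    exact hv h
  · have h1 := finrank_span_singleton (K := ℝ) hv
    rw [h, finrank_top, hfr] at h1
    omega

end Pool.Agent.H817.PL
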